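import Pool.Agent.Helper71.Formula.Defs

/-!
# FV: straight-line programs whose steps are formulas, with reuse of earlier results
-/

set_option autoImplicit false

namespace Pool.FV

open MvPolynomial Pool.Agent.Helper71.Fml

/-- The value of a formula over `K` at a point over an extension `L` of `K` (a division by zero
gives zero). -/
noncomputable def ev {K L V : Type} [Field K] [Field L] [Algebra K L] (x : V → L) :
    Formula K V → L
  | Formula.const c => algebraMap K L c
  | Formula.var v => x v
  | Formula.add a b => ev x a + ev x b
  | Formula.mul a b => ev x a * ev x b
  | Formula.div a b => ev x a / ev x b

/-- The results of a program at the point `x`, the last one first. A program is a list of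
formulas, the last one first. The leaves of a formula are labelled by constants, by coordinates of
`x`, or by polynomials `g` in the results of the formulas which come before it: the variable `i` of
`g` stands for the `i`-th last result (for `0` if there is none). -/
noncomputable def results {K L V : Type} [Field K] [Field L] [Algebra K L] (x : V → L) :
    List (Formula K (V ⊕ MvPolynomial ℕ K)) → List L
  | [] => []
  | φ :: p => ev (Sum.elim x fun g => aeval (fun i => (results x p).getD i 0) g) φ :: results x p

/-- The sum of the weights of the leaves of a formula. -/
def weigh {K V : Type} (f : V → ℕ) : Formula K V → ℕ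
  | Formula.const _ => 0
  | Formula.var v => f v
  | Formula.add a b => weigh f a + weigh f b
  | Formula.mul a b => weigh f a + weigh f b
  | Formula.div a b => weigh f a + weigh f b

/-- The number of leaves labelled by coordinates. -/
def entries {K V W : Type} (φ : Formula K (V ⊕ W)) : ℕ := weigh (Sum.elim (fun _ => 1) fun _ => 0) φ

/-- The number of leaves labelled by polynomials in earlier results. -/
def uses {K V W : Type} (φ : Formula K (V ⊕ W)) : ℕ := weigh (Sum.elim (fun _ => 0) fun _ => 1) φ

/-- The number of leaves labelled by coordinates in `D`. -/
def inBlock {K V W : Type} [DecidableEq V] (D : Finset V) (φ : Formula K (V ⊕ W)) : ℕ :=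
  weigh (Sum.elim (fun v => if v ∈ D then 1 else 0) fun _ => 0) φ

/-- the number of leaves of a program labelled by coordinates -/
def size {K V W : Type} (p : List (Formula K (V ⊕ W))) : ℕ := (p.map entries).sum

/-- the number of steps of a program plus the number of its leaves labelled by polynomials in
earlier results -/
def reuse {K V W : Type} (p : List (Formula K (V ⊕ W))) : ℕ := p.length + (p.map uses).sum

theorem weigh_add {K V : Type} (f g : V → ℕ) (φ : Formula K V) :
    weigh (fun v => f v + g v) φ = weigh f φ + weigh g φ := by
  induction φ with
  | const c => rfl
  | var v => rfl
  | add a b iha ihb => simp only [weigh, iha, ihb]; ring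
  | mul a b iha ihb => simp only [weigh, iha, ihb]; ring
  | div a b iha ihb => simp only [weigh, iha, ihb]; ring

end Pool.FV
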