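import Pool.Agent.Helper29.FV.Flow
import Pool.Agent.Helper29.FV.Prog

/-!
# FV: some analysis; programs without entries
-/

set_option autoImplicit false
set_option linter.unusedSectionVars false

namespace Pool.FV

open Finset MvPolynomial Pool.Agent.Helper71.Fml

theorem results_length {K L V : Type} [Field K] [Field L] [Algebra K L] (x : V → L)
    (q : List (Formula K (V ⊕ MvPolynomial ℕ K))) : (results x q).length = q.length := by
  induction q with
  | nil => rfl
  | cons φ q ih => simp [results, ih]

theorem signs_both {f : ℝ → ℝ} {d : ℝ} (hf : HasDerivAt f d 0) (h0 : f 0 = 0) (hd : d ≠ 0)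
    {p : ℝ → Prop} (hp : ∀ᶠ t in nhds (0 : ℝ), p t) :
    (∃ t, p t ∧ 0 < f t) ∧ ∃ t, p t ∧ f t < 0 := by
  constructor
  · by_contra hcon
    push Not at hcon
    apply hd
    refine IsLocalMax.hasDerivAt_eq_zero ?_ hf
    filter_upwards [hp] with t ht
    rw [h0]
    exact hcon t ht
  · by_contra hcon
    push Not at hcon
    apply hd
    refine IsLocalMin.hasDerivAt_eq_zero ?_ hf
    filter_upwards [hp] with t ht
    rw [h0]
    exact hcon t ht

/-- a program without entries has constant results -/
theorem results_const {K L V : Type} [Field K] [Field L] [Algebra K L] (x y : V → L)
    (q : List (Formula K (V ⊕ MvPolynomial ℕ K))) (h : size q = 0) :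
    results x q = results y q := by
  induction q with
  | nil => rfl
  | cons φ q ih =>
    have s1 : size (φ :: q) = entries φ + size q := by simp [size]
    have ih' := ih (by omega)
    have h1 : ∀ (g : MvPolynomial ℕ K → L) (θ : Formula K (V ⊕ MvPolynomial ℕ K)),
        entries θ = 0 → ev (Sum.elim x g) θ = ev (Sum.elim y g) θ := by
      intro g θ
      unfold entries
      induction θ with
      | const c => intro _; rfl
      | var w =>
        rcases w with v | w
        · intro h
          simp [weigh] at h
        · intro _
          rfl
      | add a b iha ihb =>
        intro h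
        simp only [weigh] at h
        simp only [ev]
        rw [iha (by omega), ihb (by omega)]
      | mul a b iha ihb =>
        intro h
        simp only [weigh] at h
        simp only [ev]
        rw [iha (by omega), ihb (by omega)]
      | div a b iha ihb =>
        intro h
        simp only [weigh] at h
        simp only [ev]
        rw [iha (by omega), ihb (by omega)]
    simp only [results]
    rw [ih', h1 _ φ (by omega)]

end Pool.FV
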