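import Pool.Agent.Helper29.FV.RDer
import Pool.Agent.Helper29.FV.Base

/-!
# FV: programs with complex constants at real points
-/

set_option autoImplicit false
set_option linter.unusedSectionVars false

namespace Pool.FV

open Finset MvPolynomial Pool.Agent.Helper71.Fml Pool.Agent.Helper97.Form

section Cx

variable {V : Type}

/-- a real point as a complex point -/
def cx (x : V → ℝ) (v : V) : ℂ := (x v : ℂ)

theorem eval_toC (x : V → ℝ) (F : MvPolynomial V ℝ) : eval (cx x) (toC V F) = (eval x F : ℝ) := by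
  have h1 := eval₂_comp (algebraMap ℝ ℂ) x F
  unfold toC
  rw [eval_map]
  exact h1.symm

theorem eval_cj (x : V → ℝ) (F : MvPolynomial V ℂ) :
    eval (cx x) (cj V F) = (starRingEnd ℂ) (eval (cx x) F) := by
  rw [map_eval]
  congr 1
  have : ((starRingEnd ℂ) ∘ cx x) = cx x := by
    funext v
    exact Complex.conj_ofReal _
  rw [this]

variable [Fintype V] [DecidableEq V]

theorem dl_toC (a : V → MvPolynomial V ℝ) (F : MvPolynomial V ℝ) :
    dl (tc a) (toC V F) = toC V (dl a F) := by
  unfold dl tc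
  rw [map_sum]
  refine sum_congr rfl fun w _ => ?_
  rw [map_mul, pderiv_map]

theorem dl_cj (a : V → MvPolynomial V ℝ) (F : MvPolynomial V ℂ) :
    dl (tc a) (cj V F) = cj V (dl (tc a) F) := by
  unfold dl tc
  rw [map_sum]
  refine sum_congr rfl fun w _ => ?_
  rw [map_mul, pderiv_map, cj_toC]

theorem hasDerivAt_evalC (a : V → MvPolynomial V ℝ) (γ : ℝ → V → ℝ) (t : ℝ)
    (h : ∀ F : MvPolynomial V ℝ, HasDerivAt (fun t => eval (γ t) F) (eval (γ t) (dl a F)) t)
    (F : MvPolynomial V ℂ) :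
    HasDerivAt (fun t => eval (cx (γ t)) F) (eval (cx (γ t)) (dl (tc a) F)) t := by
  have key : ∀ (x : V → ℝ) (F : MvPolynomial V ℂ), eval (cx x) F =
      ((eval x (rePart F) : ℝ) : ℂ) + Complex.I * ((eval x (imPart F) : ℝ) : ℂ) := by
    intro x F
    conv_lhs => rw [← re_add_im F]
    rw [map_add, map_mul, eval_C, eval_toC, eval_toC]
  have h1 : dl (tc a) F = toC V (dl a (rePart F)) + C Complex.I * toC V (dl a (imPart F)) := by
    conv_lhs => rw [← re_add_im F]
    rw [dl_add, dl_mul, dl_C, dl_toC, dl_toC, mul_zero, add_zero]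
  rw [h1, map_add, map_mul, eval_C, eval_toC, eval_toC]
  simp only [key]
  exact (h _).ofReal_comp.add ((h _).ofReal_comp.const_mul _)

theorem continuous_evalC (F : MvPolynomial V ℂ) : Continuous (fun x : V → ℝ => eval (cx x) F) := by
  induction F using MvPolynomial.induction_on with
  | C c =>
    simp only [eval_C]
    exact continuous_const
  | add p q hp hq =>
    simp only [map_add]
    exact hp.add hq
  | mul_X p w hp =>
    simp only [map_mul, eval_X]
    exact hp.mul (Complex.continuous_ofReal.comp (continuous_apply w))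

/-- a quotient killed by the derivation is constant along the curve -/
theorem const_alongC (a : V → MvPolynomial V ℝ)
    (γ : ℝ → V → ℝ) {ε : ℝ}
    (h : ∀ t ∈ Set.Ioo (-ε) ε, ∀ F : MvPolynomial V ℝ,
      HasDerivAt (fun t => eval (γ t) F) (eval (γ t) (dl a F)) t)
    (A B : MvPolynomial V ℂ) (hAB : B * dl (tc a) A = A * dl (tc a) B)
    (hB : ∀ t ∈ Set.Ioo (-ε) ε, eval (cx (γ t)) B ≠ 0) (t : ℝ) (ht : t ∈ Set.Ioo (-ε) ε)
    (h0 : (0 : ℝ) ∈ Set.Ioo (-ε) ε) :
    eval (cx (γ t)) A / eval (cx (γ t)) B = eval (cx (γ 0)) A / eval (cx (γ 0)) B := by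
  have hder : ∀ t ∈ Set.Ioo (-ε) ε,
      HasDerivAt (fun t => eval (cx (γ t)) A / eval (cx (γ t)) B) 0 t := by
    intro t ht
    have h1 := (hasDerivAt_evalC a γ t (h t ht) A).div (hasDerivAt_evalC a γ t (h t ht) B)
      (hB t ht)
    have h2 := congrArg (eval (cx (γ t))) hAB
    rw [map_mul, map_mul] at h2
    refine h1.congr_deriv ?_
    rw [show eval (cx (γ t)) (dl (tc a) A) * eval (cx (γ t)) B -
      eval (cx (γ t)) A * eval (cx (γ t)) (dl (tc a) B) = 0 by
      linear_combination h2, zero_div]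
  exact isOpen_Ioo.is_const_of_deriv_eq_zero isPreconnected_Ioo
    (fun t ht => (hder t ht).differentiableAt.differentiableWithinAt)
    (fun t ht => (hder t ht).deriv) ht h0

end Cx

/-- the sum of a fraction `A / B` and its conjugate is `N / (B * conj B)` -/
noncomputable def reN {V : Type} (A B : MvPolynomial V ℂ) : MvPolynomial V ℂ :=
  A * cj V B + cj V A * B

theorem dl_reN {V : Type} [Fintype V] [DecidableEq V] (a : V → MvPolynomial V ℝ)
    {A B : MvPolynomial V ℂ} (h : B * dl (tc a) A = A * dl (tc a) B) :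
    B * cj V B * dl (tc a) (reN A B) = reN A B * dl (tc a) (B * cj V B) := by
  have f2 := congrArg (cj V) h
  rw [map_mul, map_mul, ← dl_cj, ← dl_cj] at f2
  unfold reN
  simp only [dl_add, dl_mul]
  linear_combination (cj V B * cj V B) * h + (B * B) * f2

/-- a fraction with proportional derivatives is killed -/
theorem DL_of_dl {V : Type} [Fintype V] [DecidableEq V] (a : V → MvPolynomial V ℂ)
    {N M : MvPolynomial V ℂ} (hM : M ≠ 0) (h : M * dl a N = N * dl a M) :
    DL a (algebraMap (MvPolynomial V ℂ) (FC V) N / algebraMap (MvPolynomial V ℂ) (FC V) M) = 0 := by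
  have hM0 : algebraMap (MvPolynomial V ℂ) (FC V) M ≠ 0 := fun h => hM (map_inj
    (by rw [h, map_zero]))
  have g1 : algebraMap (MvPolynomial V ℂ) (FC V) N = algebraMap (MvPolynomial V ℂ) (FC V) M *
      (algebraMap (MvPolynomial V ℂ) (FC V) N / algebraMap (MvPolynomial V ℂ) (FC V) M) := by
    rw [mul_div_cancel₀ _ hM0]
  have g2 := congrArg (DL a) g1
  rw [DL_mul, DL_algebraMap, DL_algebraMap] at g2
  have g3 := congrArg (algebraMap (MvPolynomial V ℂ) (FC V)) h
  rw [map_mul, map_mul, g2, mul_add] at g3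
  have g4 : algebraMap (MvPolynomial V ℂ) (FC V) N * algebraMap (MvPolynomial V ℂ) (FC V)
        (dl a M) = algebraMap (MvPolynomial V ℂ) (FC V) M *
      (algebraMap (MvPolynomial V ℂ) (FC V) N / algebraMap (MvPolynomial V ℂ) (FC V) M *
        algebraMap (MvPolynomial V ℂ) (FC V) (dl a M)) := by
    rw [← mul_assoc, mul_div_cancel₀ _ hM0]
  rw [g4] at g3
  have g5 := add_eq_right.1 g3
  have g6 := (mul_eq_zero.1 g5).resolve_left hM0
  exact (mul_eq_zero.1 g6).resolve_left hM0

/-- the value of `reN` at a real point -/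
theorem eval_reN {V : Type} (x : V → ℝ) {A B : MvPolynomial V ℂ} {v : ℂ}
    (h : v * eval (cx x) B = eval (cx x) A) :
    eval (cx x) (reN A B) = ((2 * v.re * Complex.normSq (eval (cx x) B) : ℝ) : ℂ) := by
  unfold reN
  rw [map_add, map_mul, map_mul, eval_cj, eval_cj, ← h, map_mul]
  have e4 : eval (cx x) B * (starRingEnd ℂ) (eval (cx x) B) =
    (Complex.normSq (eval (cx x) B) : ℂ) := Complex.mul_conj _
  have e5 : v + (starRingEnd ℂ) v = ((2 * v.re : ℝ) : ℂ) := Complex.add_conj v
  have e6 : v * eval (cx x) B * (starRingEnd ℂ) (eval (cx x) B) +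
      (starRingEnd ℂ) v * (starRingEnd ℂ) (eval (cx x) B) * eval (cx x) B =
      (v + (starRingEnd ℂ) v) * (eval (cx x) B * (starRingEnd ℂ) (eval (cx x) B)) := by ring
  rw [e6, e4, e5]
  push_cast
  ring

/-- What we need about a small program, for its exact results. -/
theorem dataR (n s : ℕ) (hn : 1 ≤ n) (hs1 : 1 ≤ s) (hs : 12 * 2 ^ s ≤ n)
    (q : List (Formula ℂ ((Fin n × Fin n) ⊕ MvPolynomial ℕ ℂ)))
    (hR : 40 * reuse q ≤ 4 ^ s) (hsize : 20 * size q < n * (n / (2 * s)) * 4 ^ s) :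
    ∃ (a : Fin n × Fin n → MvPolynomial (Fin n × Fin n) ℝ)
      (H : MvPolynomial (Fin n × Fin n) ℂ) (A B : ℕ → MvPolynomial (Fin n × Fin n) ℂ),
      ¬ permPoly ℂ n ∣ dl (tc a) (permPoly ℂ n) ∧ ¬ permPoly ℂ n ∣ H ∧
      (∀ j, B j * dl (tc a) (A j) = A j * dl (tc a) (B j)) ∧
      ∀ x, eval x H ≠ 0 → ∀ j, eval x (B j) ≠ 0 ∧
        (results x q).getD j 0 * eval x (B j) = eval x (A j) := by
  classical
  have hP : Prime (permPoly ℂ n) := perm_prime hn
  have hQ := mulCls_perm hn
  obtain ⟨a, ha, hnd⟩ := exists_derR n s hs1 hs q hR hsize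
  obtain ⟨G, hG, hx⟩ := rep_prog hQ (gp ℂ (Fin n × Fin n)) (size q) (reuse q)
    (fun r hr1 hr2 f hf => by
      obtain ⟨a', ha', hnd'⟩ := exists_derR n s hs1 hs r (by omega) (by omega)
      exact frac_of_killed hP (tc a') hnd' _ (ha' f hf)) q le_rfl le_rfl
  have z : dl (tc a) (0 : MvPolynomial (Fin n × Fin n) ℂ) = 0 := by
    have := dl_C (tc a) (0 : ℂ)
    rwa [C_0] at this
  have hfr : ∀ j, ∃ A B : MvPolynomial (Fin n × Fin n) ℂ,
      (results (gp ℂ (Fin n × Fin n)) q).getD j 0 * algebraMap (MvPolynomial (Fin n × Fin n) ℂ)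
          (FractionRing (MvPolynomial (Fin n × Fin n) ℂ)) B =
        algebraMap (MvPolynomial (Fin n × Fin n) ℂ)
          (FractionRing (MvPolynomial (Fin n × Fin n) ℂ)) A ∧
      B * dl (tc a) A = A * dl (tc a) B ∧ ¬ permPoly ℂ n ∣ B := by
    intro j
    rcases lt_or_ge j (results (gp ℂ (Fin n × Fin n)) q).length with hj | hj
    · rw [List.getD_eq_getElem _ _ hj]
      have hk := ha _ (List.getElem_mem hj)
      obtain ⟨A, B, hB, hA, hAB⟩ := frac_of_killed hP (tc a) hnd _ hk
      exact ⟨A, B, hAB, dl_div (tc a) hAB hk, hB⟩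
    · rw [List.getD_eq_default _ _ hj]
      exact ⟨0, 1, by rw [zero_mul, map_zero], by rw [z, mul_zero, zero_mul], hQ.one⟩
  choose A B e1 e2 e3 using hfr
  refine ⟨a, G * (∏ j ∈ range q.length, B j), fun j => if j < q.length then A j else 0,
    fun j => if j < q.length then B j else 1, hnd, ?_, ?_, ?_⟩
  · intro h
    rcases hP.dvd_or_dvd h with h | h
    · exact hG h
    · obtain ⟨j, _, hj⟩ := hP.exists_mem_finset_dvd h
      exact e3 j hj
  · intro j
    beta_reduce
    split_ifs with hj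
    · exact e2 j
    · rw [z, mul_zero, zero_mul]
  · intro x h j
    beta_reduce
    rw [map_mul, map_prod] at h
    split_ifs with hj
    · exact ⟨Finset.prod_ne_zero_iff.1 (right_ne_zero_of_mul h) j (mem_range.2 hj),
        (hx x x (fun v => Ev.X x v) (left_ne_zero_of_mul h) j).eq (e1 j)⟩
    · rw [List.getD_eq_default _ _ (by rw [results_length]; omega), zero_mul, map_zero]
      exact ⟨by simp, rfl⟩

end Pool.FV
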