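import Pool.Agent.Helper29.FV.AForm
import Pool.Agent.Helper29.FV.RFinal

/-!
# FV: killing formulas whose other leaves are independent variables
-/

set_option autoImplicit false
set_option linter.unusedSectionVars false

namespace Pool.FV

open Finset MvPolynomial Pool.Agent.Helper71.Fml Pool.Agent.Helper97.Form

section Gen

variable {K V' ι Λ : Type} [Field K] [DecidableEq V'] {D₀ : Finset V'}

theorem space_gen (x : Λ → FractionRing (MvPolynomial V' K))
    (dx : Λ → ι → FractionRing (MvPolynomial V' K)) (w : Λ → ℕ)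
    (h0 : ∀ v, w v = 0 → FreeP D₀ (x v) (dx v)) (h1 : ∀ v, w v ≠ 0 → w v = 1 ∧ dx v = fun _ => 0)
    (φ : Formula K Λ) : Low (KK K D₀) (dd x dx φ) (5 * weigh w φ + 1) := by
  obtain ⟨g0, g1⟩ := goodP_formula (D₀ := D₀) x dx w h0 h1 φ
  have key : ∀ k m : ℕ, GoodP D₀ (ev x φ) (dd x dx φ) k → k ≤ 5 * m + 1 →
      Low (KK K D₀) (dd x dx φ) (5 * m + 1) := by
    rintro k m ⟨W, h1, h2, -, -, -, h3⟩ hk
    exact ⟨W, h1, h2.trans hk, h3⟩
  rcases Nat.eq_zero_or_pos (weigh w φ) with h0 | h0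
  · exact key 1 _ (goodP_of_free (g0 h0)) (by omega)
  · exact key _ _ (g1 h0) (by omega)

end Gen

section Kill

variable {V W ι : Type} [Fintype V] [DecidableEq V] [Fintype W] [DecidableEq W]

/-- the variables of `D` and of `W` -/
def bk (W : Type) [Fintype W] [DecidableEq W] (D : Finset V) : Finset (V ⊕ W) :=
  D.image Sum.inl ∪ univ.image Sum.inr

theorem inl_mem_bk {D : Finset V} {v : V} : (Sum.inl v : V ⊕ W) ∈ bk W D ↔ v ∈ D := by
  simp [bk]

theorem inr_mem_bk {D : Finset V} {w : W} : (Sum.inr w : V ⊕ W) ∈ bk W D := by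
  simp [bk]

/-- the derivatives of the leaves -/
noncomputable def dg (p : ι → V) (w : V ⊕ W) (i : ι) : FC (V ⊕ W) :=
  D (Sum.inl (p i)) (gp ℂ (V ⊕ W) w)

theorem dg_eq (p : ι → V) (w : V ⊕ W) (i : ι) (h : w ≠ Sum.inl (p i)) : dg p w i = 0 := by
  unfold dg gp
  rw [D_algebraMap, pderiv_X_of_ne h, map_zero]

theorem lowA {D : Finset V} (p : ι → V) (hp : ∀ i, p i ∉ D) (ψ : Formula ℂ (V ⊕ W)) :
    Low (KR (bk W D)) (dd (gp ℂ (V ⊕ W)) (dg p) ψ) (2 * (5 * (inBlock D ψ + uses ψ) + 1)) := by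
  have hw : inBlock D ψ + uses ψ =
      weigh (Sum.elim (fun v => if v ∈ D then 1 else 0) fun _ => 1) ψ := by
    unfold inBlock uses
    rw [← weigh_add]
    congr 1
    funext w
    rcases w with v | g
    · simp
    · simp
  rw [hw]
  refine (space_gen (D₀ := bk W D) (gp ℂ (V ⊕ W)) (dg p) _ ?_ ?_ ψ).real (I := II (V ⊕ W))
    fun z hz => split_KK hz
  · rintro (v | w) hv
    · have hv' : (Sum.inl v : V ⊕ W) ∉ bk W D := by
        intro h
        simp [inl_mem_bk.1 h] at hv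
      exact ⟨algebraMap_mem_KK (X_mem_supported.2 hv'), fun i =>
        D_mem_KK _ (algebraMap_mem_KK (X_mem_supported.2 hv'))⟩
    · simp at hv
  · rintro (v | w) hv
    · have hv' : v ∈ D := by
        by_contra h
        simp [h] at hv
      refine ⟨by simp [hv'], funext fun i => dg_eq p _ i ?_⟩
      intro h
      exact hp i (Sum.inl_injective h ▸ hv')
    · exact ⟨rfl, funext fun i => dg_eq p _ i (by simp)⟩

/-- a polynomial without the variables of `W` -/
theorem exists_inl {D : Finset V} {P : MvPolynomial (V ⊕ W) ℝ} (hP : P ∈ R0 ℝ (bk W D)) :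
    ∃ e : MvPolynomial V ℝ, e ∈ R0 ℝ D ∧ rename Sum.inl e = P := by
  rw [mem_R0_iff] at hP
  have h1 : ↑P.vars ⊆ Set.range (Sum.inl : V → V ⊕ W) := by
    intro w hw
    rcases w with v | w
    · exact ⟨v, rfl⟩
    · exact absurd (hP _ inr_mem_bk) (mem_vars_iff_degreeOf_ne_zero.1 hw)
  obtain ⟨e, he⟩ := exists_rename_eq_of_vars_subset_range P _ Sum.inl_injective h1
  refine ⟨e, ?_, he⟩
  rw [mem_R0_iff]
  intro v hv
  have h2 := hP (Sum.inl v) (inl_mem_bk.2 hv)
  rw [← he] at h2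
  rwa [degreeOf_rename_of_injective Sum.inl_injective] at h2

variable [Fintype ι]

/-- If there are more positions than conditions, then a combination with real polynomial
coefficients of the derivatives in these positions kills all formulas. -/
theorem killA {D : Finset V} (p : ι → V) (hp : ∀ i, p i ∉ D) (Q : List (Formula ℂ (V ⊕ W)))
    (hlt : (Q.map fun ψ => 2 * (5 * (inBlock D ψ + uses ψ) + 1)).sum < Fintype.card ι) :
    ∃ e : ι → MvPolynomial V ℝ, e ≠ 0 ∧ (∀ i, e i ∈ R0 ℝ D) ∧ ∀ ψ ∈ Q,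
      dF (fun i => (Sum.inl (p i) : V ⊕ W)) (fun i => rc (V ⊕ W) (rename Sum.inl (e i)))
        (ev (gp ℂ (V ⊕ W)) ψ) = 0 := by
  classical
  have hF : List.Forall₂ (Low (KR (bk W D)))
      (Q.map fun ψ => dd (gp ℂ (V ⊕ W)) (dg p) ψ)
      (Q.map fun ψ => 2 * (5 * (inBlock D ψ + uses ψ) + 1)) := by
    clear hlt
    induction Q with
    | nil => exact List.Forall₂.nil
    | cons ψ Q ih => exact List.Forall₂.cons (lowA p hp ψ) ih
  obtain ⟨c, hc0, hcL⟩ := exists_sol _ _ hF hlt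
  choose P hP Q' hQ' hQ0 hPQ using fun i => mem_KR.1 (c i).2
  have hQ1 : ∀ i, rc (V ⊕ W) (Q' i) ≠ 0 := fun i => rc_ne (hQ0 i)
  have hval : ∀ i, rc (V ⊕ W) (P i * ∏ k ∈ univ.erase i, Q' k) =
      (∏ k, rc (V ⊕ W) (Q' k)) * (c i : FC (V ⊕ W)) := by
    intro i
    rw [map_mul, map_prod, hPQ i, ← Finset.mul_prod_erase Finset.univ _ (Finset.mem_univ i)]
    have := hQ1 i
    field_simp
  choose e he1 he2 using fun i => exists_inl (D := D) (P := P i * ∏ k ∈ univ.erase i, Q' k)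
    (mul_mem (hP i) (prod_mem fun k _ => hQ' k))
  refine ⟨e, ?_, he1, ?_⟩
  · intro h
    apply hc0
    funext i
    have h1 := he2 i
    rw [h] at h1
    have h2 : P i = 0 := (mul_eq_zero.1 (h1.symm.trans (map_zero _))).resolve_right
      (Finset.prod_ne_zero_iff.2 fun k _ => hQ0 k)
    apply Subtype.ext
    rw [hPQ i, h2, map_zero, zero_div]
    rfl
  · intro ψ hψ
    rw [chain (gp ℂ (V ⊕ W)) (dg p) _ (dF _ _) (dF_C _ _) (dF_add _ _) (dF_mul _ _) (dF_inv _ _)]
    · have h3 : ∑ i, (c i : FC (V ⊕ W)) * dd (gp ℂ (V ⊕ W)) (dg p) ψ i = 0 :=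
        hcL _ (List.mem_map_of_mem hψ)
      calc ∑ i, rc (V ⊕ W) (rename Sum.inl (e i)) * dd (gp ℂ (V ⊕ W)) (dg p) ψ i
          = (∏ k, rc (V ⊕ W) (Q' k)) * ∑ i, (c i : FC (V ⊕ W)) *
              dd (gp ℂ (V ⊕ W)) (dg p) ψ i := by
            rw [mul_sum]
            refine sum_congr rfl fun i _ => ?_
            rw [he2, hval, mul_assoc]
        _ = 0 := by rw [h3, mul_zero]
    · intro w
      rfl

end Kill

section Spec

variable {V W : Type} [Fintype V] [DecidableEq V] [Fintype W] [DecidableEq W]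

/-- values for the variables of `W` -/
noncomputable def sp (u : W → ℂ) : MvPolynomial (V ⊕ W) ℂ →ₐ[ℂ] MvPolynomial V ℂ :=
  aeval (Sum.elim X fun w => C (u w))

theorem eval_sp (u : W → ℂ) (x : V → ℂ) (F : MvPolynomial (V ⊕ W) ℂ) :
    eval x (sp u F) = eval (Sum.elim x u) F := by
  unfold sp
  induction F using MvPolynomial.induction_on with
  | C c => rw [aeval_C, eval_C]; exact eval_C c
  | add p q hp hq => rw [map_add, map_add, map_add, hp, hq]
  | mul_X p w hp =>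
    rw [map_mul, map_mul, map_mul, hp, aeval_X, eval_X]
    rcases w with v | w
    · rw [Sum.elim_inl, Sum.elim_inl, eval_X]
    · rw [Sum.elim_inr, Sum.elim_inr, eval_C]

theorem sp_rename (u : W → ℂ) (F : MvPolynomial V ℂ) :
    sp u (rename Sum.inl F : MvPolynomial (V ⊕ W) ℂ) = F := by
  unfold sp
  rw [aeval_rename]
  have : ((Sum.elim X fun w => C (u w)) ∘ Sum.inl : V → MvPolynomial V ℂ) = X := by
    funext v
    rfl
  rw [this, aeval_X_left_apply]

theorem pderiv_sp (u : W → ℂ) (v : V) (F : MvPolynomial (V ⊕ W) ℂ) :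
    sp u (pderiv (Sum.inl v) F) = pderiv v (sp u F) := by
  induction F using MvPolynomial.induction_on with
  | C c =>
    have : sp u (C c : MvPolynomial (V ⊕ W) ℂ) = (C c : MvPolynomial V ℂ) := by
      unfold sp
      rw [aeval_C]
      rfl
    rw [this, pderiv_C, pderiv_C, map_zero]
  | add p q hp hq => rw [map_add, map_add, map_add, map_add, hp, hq]
  | mul_X p w hp =>
    rw [Derivation.leibniz, map_mul, Derivation.leibniz, map_add, smul_eq_mul, smul_eq_mul,
      smul_eq_mul, smul_eq_mul, map_mul, map_mul, hp]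
    congr 2
    have hX : ∀ w, sp u (X w : MvPolynomial (V ⊕ W) ℂ) = (Sum.elim X fun w => C (u w)) w := by
      intro w
      unfold sp
      rw [aeval_X]
    rw [hX]
    rcases w with v' | w
    · by_cases h : v' = v
      · subst h
        rw [pderiv_X_self, map_one, Sum.elim_inl, pderiv_X_self]
      · rw [pderiv_X_of_ne (fun h' => h (Sum.inl_injective h')), map_zero, Sum.elim_inl,
          pderiv_X_of_ne h]
    · rw [pderiv_X_of_ne (by simp), map_zero, Sum.elim_inr, pderiv_C]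

variable {ι : Type} [Fintype ι]

/-- what a killed formula satisfies for all values of the other leaves -/
theorem cross (p : ι → V) (e : ι → MvPolynomial V ℝ) (ψ : Formula ℂ (V ⊕ W))
    (hk : dF (fun i => (Sum.inl (p i) : V ⊕ W)) (fun i => rc (V ⊕ W) (rename Sum.inl (e i)))
        (ev (gp ℂ (V ⊕ W)) ψ) = 0) (hM : (nu X ψ : MvPolynomial (V ⊕ W) ℂ × _).2 ≠ 0)
    (u : W → ℂ) :
    sp u (nu X ψ).2 * dl (tc (cf p e)) (sp u (nu X ψ).1) =
      sp u (nu X ψ).1 * dl (tc (cf p e)) (sp u (nu X ψ).2) := by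
  obtain ⟨N, hN⟩ : ∃ N : MvPolynomial (V ⊕ W) ℂ, N = (nu X ψ).1 := ⟨_, rfl⟩
  obtain ⟨M, hM'⟩ : ∃ M : MvPolynomial (V ⊕ W) ℂ, M = (nu X ψ).2 := ⟨_, rfl⟩
  rw [← hN, ← hM']
  rw [← hM'] at hM
  -- the formal identity
  have hM0 : algebraMap (MvPolynomial (V ⊕ W) ℂ) (FC (V ⊕ W)) M ≠ 0 := fun h => hM (map_inj
    (by rw [h, map_zero]))
  have h1 : ev (gp ℂ (V ⊕ W)) ψ * algebraMap (MvPolynomial (V ⊕ W) ℂ) (FC (V ⊕ W)) M =
      algebraMap (MvPolynomial (V ⊕ W) ℂ) (FC (V ⊕ W)) N := by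
    rw [hM'] at hM0 ⊢
    rw [hN]
    exact nu_val X (IsScalarTower.toAlgHom ℂ (MvPolynomial (V ⊕ W) ℂ) (FC (V ⊕ W)))
      (gp ℂ (V ⊕ W)) (fun w => rfl) ψ hM0
  have hc : ∀ i, rc (V ⊕ W) (rename Sum.inl (e i)) =
      algebraMap (MvPolynomial (V ⊕ W) ℂ) (FC (V ⊕ W)) (rename Sum.inl (toC V (e i))) := by
    intro i
    unfold rc
    rw [RingHom.comp_apply]
    congr 1
    exact map_rename _ _ _
  have h2 : DL (cf (fun i => (Sum.inl (p i) : V ⊕ W)) fun i => rename Sum.inl (toC V (e i)))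
      (ev (gp ℂ (V ⊕ W)) ψ) = 0 := by
    rw [DL_cf, ← hk]
    unfold dF
    exact sum_congr rfl fun i _ => by beta_reduce; rw [hc]
  have h3 := dl_div _ h1 h2
  have h4 := congrArg (sp u) h3
  rw [map_mul, map_mul, dl_cf, dl_cf, map_sum, map_sum] at h4
  simp only [map_mul, sp_rename, pderiv_sp] at h4
  rw [tc_cf, dl_cf, dl_cf]
  exact h4

end Spec

end Pool.FV
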