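import Pool.Agent.Helper29.FV.BMain
import Mathlib.Analysis.SpecialFunctions.Log.Deriv
import Mathlib.Analysis.SpecialFunctions.Exp
import Mathlib.Analysis.Complex.ExponentialBounds

/-!
# FV: small cases and the numbers
-/

set_option autoImplicit false
set_option linter.unusedSectionVars false

namespace Pool.FV

open Finset MvPolynomial Pool.Agent.Helper71.Fml Pool.Agent.Helper97.Form Filter Topology

theorem pderiv_subst {V : Type} [DecidableEq V] (q : V) (F : MvPolynomial V ℂ) :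
    pderiv q (aeval (Function.update X q (C 0)) F : MvPolynomial V ℂ) = 0 := by
  induction F using MvPolynomial.induction_on with
  | C c => rw [aeval_C]; exact pderiv_C
  | add f g hf hg => rw [map_add, map_add, hf, hg, add_zero]
  | mul_X f v hf =>
    rw [map_mul, aeval_X, Derivation.leibniz, hf, smul_zero, add_zero]
    by_cases h : v = q
    · rw [h, Function.update_self, pderiv_C, smul_zero]
    · rw [Function.update_of_ne h, pderiv_X_of_ne (Ne.symm (Ne.symm h)), smul_zero]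

theorem pderiv_ind {V : Type} [DecidableEq V] {q : V} {F : MvPolynomial V ℂ}
    (h : Pool.RQ.Ind q F) : pderiv q F = 0 := by
  have h1 : (aeval (Function.update X q (C 0)) F : MvPolynomial V ℂ) = F := by
    apply MvPolynomial.funext
    intro x
    rw [Pool.RQ.eval_subst]
    exact h x 0
  rw [← h1]
  exact pderiv_subst q F

/-- programs without entries -/
theorem exData_zero {n : ℕ} (hn : 2 ≤ n) (q : Pr n) (hq : size q = 0) : ExData q := by
  classical
  have hP : Prime (permPoly ℂ n) := perm_prime (by omega)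
  let v : Fin n × Fin n := (⟨0, by omega⟩, ⟨0, by omega⟩)
  obtain ⟨am, bm, ham, hbm, hPm, hae, hbe⟩ := Pool.RQ.perm_lin n v
  have hc : ∀ c : ℂ, dl (tc (Pi.single v (1 : MvPolynomial (Fin n × Fin n) ℝ))) (C c) = 0 :=
    fun c => dl_C _ c
  refine ⟨Pi.single v 1, 1, fun j => C ((results (fun _ : Fin n × Fin n => (0 : ℂ)) q).getD j 0),
    fun _ => C 1, ?_, ?_, ?_, ?_⟩
  · have h1 : dl (tc (Pi.single v (1 : MvPolynomial (Fin n × Fin n) ℝ))) (permPoly ℂ n) = am := by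
      unfold dl
      rw [Finset.sum_eq_single v]
      · unfold tc
        rw [Pi.single_eq_same, map_one, one_mul]
        have h2 : permPoly ℂ n = X v * am + bm := hPm
        rw [h2, map_add, Derivation.leibniz, pderiv_ind ham, pderiv_ind hbm, pderiv_X_self]
        simp
      · intro w _ hw
        unfold tc
        rw [Pi.single_eq_of_ne hw, map_zero, zero_mul]
      · intro h
        exact absurd (Finset.mem_univ v) h
    rw [h1]
    exact Pool.HY.not_dvd_minor v ham hbm hPm hae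
  · intro h
    exact hP.not_isUnit (isUnit_of_dvd_one h)
  · intro j
    rw [hc, hc, mul_zero, mul_zero]
  · intro x _ j
    rw [eval_C, eval_C, mul_one]
    exact ⟨one_ne_zero, by rw [results_const x (fun _ => 0) q hq]⟩

theorem boxData_zero {n : ℕ} (hn : 2 ≤ n) (q : Pr n) (hq : size q = 0) : BoxData q := by
  have hP : Prime (permPoly ℂ n) := perm_prime (by omega)
  refine ⟨1, fun h => hP.not_isUnit (isUnit_of_dvd_one h), fun x₀ _ => ⟨sgR q x₀, ?_⟩⟩
  refine Filter.Eventually.of_forall fun z => ?_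
  unfold sgR resR
  rw [results_const (cx fun v => z.1 v / z.2) (cx x₀) q hq]

/-- the numbers -/
theorem numbers {n : ℕ} (hn : 96 ≤ n) {r z : ℕ}
    (hr : (r : ℝ) ≤ 1 + 1 / 10 ^ 9 * (n : ℝ) ^ 2)
    (hz : (z : ℝ) < 1 / 10 ^ 9 * (n : ℝ) ^ 4 / Real.log n) :
    1 ≤ Nat.log 2 (n / 12) ∧ 12 * 2 ^ Nat.log 2 (n / 12) ≤ n ∧
      48 * r ≤ 4 ^ Nat.log 2 (n / 12) ∧
      24 * z < n * (n / (2 * Nat.log 2 (n / 12))) * 4 ^ Nat.log 2 (n / 12) := by
  obtain ⟨s, hs⟩ : ∃ s, s = Nat.log 2 (n / 12) := ⟨_, rfl⟩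
  rw [← hs]
  have h12 : n / 12 ≠ 0 := by omega
  have hs3 : 3 ≤ s := by
    rw [hs]
    exact Nat.le_log_of_pow_le (by norm_num) (by omega)
  have hs1 : 2 ^ s ≤ n / 12 := by
    rw [hs]
    exact Nat.pow_log_le_self 2 h12
  have hs2 : n / 12 < 2 ^ (s + 1) := by
    rw [hs]
    exact Nat.lt_pow_succ_log_self (by norm_num) _
  have hlo : 12 * 2 ^ s ≤ n := by omega
  have hhi : n < 24 * 2 ^ s := by
    rw [pow_succ] at hs2
    omega
  have hnR : (96 : ℝ) ≤ n := by exact_mod_cast hn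
  have hhiR : (n : ℝ) < 24 * 2 ^ s := by exact_mod_cast hhi
  have hloR : 12 * (2 : ℝ) ^ s ≤ n := by exact_mod_cast hlo
  have h4R : (4 : ℝ) ^ s = 2 ^ s * 2 ^ s := by
    rw [← mul_pow]
    norm_num
  have hp : (0 : ℝ) < 2 ^ s := by positivity
  have hsq : (n : ℝ) ^ 2 ≤ 576 * 4 ^ s := by
    rw [h4R]
    nlinarith
  refine ⟨by omega, hlo, ?_, ?_⟩
  · have h2 : 4 ^ 3 ≤ 4 ^ s := Nat.pow_le_pow_right (by norm_num) hs3
    have h3 : (64 : ℝ) ≤ 4 ^ s := by
      have : (64 : ℕ) ≤ 4 ^ s := by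
        have h3 : (4 : ℕ) ^ 3 = 64 := by norm_num
        omega
      exact_mod_cast this
    have h1 : (48 * r : ℝ) ≤ 4 ^ s := by
      calc (48 * r : ℝ) ≤ 48 * (1 + 1 / 10 ^ 9 * (n : ℝ) ^ 2) := by linarith
        _ ≤ 48 * (1 + 1 / 10 ^ 9 * (576 * 4 ^ s)) := by gcongr
        _ ≤ 4 ^ s := by
          have h5 : (48 * (1 + 1 / 10 ^ 9 * (576 * 4 ^ s)) : ℝ) =
            48 + (48 * 576 / 10 ^ 9) * 4 ^ s := by ring
          rw [h5]
          have : (48 * 576 / 10 ^ 9 : ℝ) ≤ 1 / 10 := by norm_num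
          nlinarith
    exact_mod_cast h1
  · -- the size
    have hlog : (s : ℝ) * Real.log 2 ≤ Real.log n := by
      rw [← Real.log_pow]
      apply Real.log_le_log hp
      linarith
    have hlog2 : (0.69 : ℝ) < Real.log 2 := by
      have := Real.log_two_gt_d9
      linarith
    have hs0 : (0 : ℝ) < s := by
      have : 0 < s := by omega
      exact_mod_cast this
    have hlogn : 0 < Real.log n := Real.log_pos (by linarith)
    have hsle : (0.69 : ℝ) * s ≤ Real.log n := by nlinarith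
    have hdiv : n < (n / (2 * s) + 1) * (2 * s) := by
      have h1 := Nat.lt_div_mul_add (a := n) (b := 2 * s) (by omega)
      have h2 : (n / (2 * s) + 1) * (2 * s) = n / (2 * s) * (2 * s) + 2 * s := by ring
      omega
    have hss : 4 * s ≤ n := by
      have : s < 2 ^ s := Nat.lt_two_pow_self
      omega
    have hdivR : (n : ℝ) ≤ ((n / (2 * s) : ℕ) + 1) * (2 * s) := by exact_mod_cast hdiv.le
    have hd2 : (n : ℝ) ≤ (n / (2 * s) : ℕ) * (4 * s) := by
      have h1 : (4 * s : ℝ) ≤ n := by exact_mod_cast hss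
      nlinarith
    have hz2 : (z : ℝ) * Real.log n < 1 / 10 ^ 9 * (n : ℝ) ^ 4 := by
      rwa [lt_div_iff₀ hlogn] at hz
    have hkey : (24 * z : ℝ) * (4 * s) < n * (n / (2 * s) : ℕ) * 4 ^ s * (4 * s) := by
      have hz0 : (0 : ℝ) ≤ z := Nat.cast_nonneg z
      have e1 : (24 * z : ℝ) * (4 * s) ≤ 24 * 4 / 0.69 * (z * Real.log n) := by
        have : (z : ℝ) * (0.69 * s) ≤ z * Real.log n := mul_le_mul_of_nonneg_left hsle hz0
        have h1 : (24 * z : ℝ) * (4 * s) = 24 * 4 / 0.69 * (z * (0.69 * s)) := by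
          ring
        rw [h1]
        exact mul_le_mul_of_nonneg_left this (by norm_num)
      have e2 : 24 * 4 / 0.69 * (z * Real.log n) < 24 * 4 / 0.69 * (1 / 10 ^ 9 * (n : ℝ) ^ 4) :=
        mul_lt_mul_of_pos_left hz2 (by norm_num)
      have e3 : 24 * 4 / 0.69 * (1 / 10 ^ 9 * (n : ℝ) ^ 4) ≤
          (n : ℝ) * ((n / (2 * s) : ℕ) * (4 * s)) * 4 ^ s := by
        have h1 : (n : ℝ) * n * ((n : ℝ) ^ 2 / 576) ≤
            (n : ℝ) * ((n / (2 * s) : ℕ) * (4 * s)) * 4 ^ s := by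
          have h2 : (n : ℝ) ^ 2 / 576 ≤ 4 ^ s := by linarith
          gcongr
        refine le_trans ?_ h1
        have h3 : (n : ℝ) * n * ((n : ℝ) ^ 2 / 576) = (n : ℝ) ^ 4 * (1 / 576) := by ring
        rw [h3]
        have h4 : (0 : ℝ) ≤ (n : ℝ) ^ 4 := by positivity
        have h5 : 24 * 4 / 0.69 * (1 / 10 ^ 9 * (n : ℝ) ^ 4) =
          (n : ℝ) ^ 4 * (24 * 4 / 0.69 * (1 / 10 ^ 9)) := by ring
        rw [h5]
        exact mul_le_mul_of_nonneg_left (by norm_num) h4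
      calc _ ≤ _ := e1
        _ < _ := e2
        _ ≤ _ := e3
        _ = _ := by ring
    have h5 : (24 * z : ℝ) < n * (n / (2 * s) : ℕ) * 4 ^ s :=
      lt_of_mul_lt_mul_right hkey (by positivity)
    exact_mod_cast h5

theorem zero_size {n : ℕ} (hn : 2 ≤ n) (h96 : n < 96) {z : ℕ}
    (hz : (z : ℝ) < 1 / 10 ^ 9 * (n : ℝ) ^ 4 / Real.log n) : z = 0 := by
  have hnR : (2 : ℝ) ≤ n := by exact_mod_cast hn
  have h96R : (n : ℝ) ≤ 96 := by exact_mod_cast h96.le
  have hlog2 : (0.69 : ℝ) < Real.log 2 := by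
    have := Real.log_two_gt_d9
    linarith
  have hlog : (0.69 : ℝ) < Real.log n :=
    hlog2.trans_le (Real.log_le_log (by norm_num) hnR)
  have h1 : 1 / 10 ^ 9 * (n : ℝ) ^ 4 / Real.log n < 1 := by
    rw [div_lt_one (by linarith)]
    have : (n : ℝ) ^ 4 ≤ 96 ^ 4 := by gcongr
    have h2 : (1 / 10 ^ 9 * 96 ^ 4 : ℝ) < 0.69 := by norm_num
    nlinarith
  have h2 : (z : ℝ) < 1 := hz.trans h1
  have h3 : z < 1 := by exact_mod_cast h2
  omega

theorem data_all {n : ℕ} (hn : 2 ≤ n) (q : Pr n)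
    (hr : (reuse q : ℝ) ≤ 1 + 1 / 10 ^ 9 * (n : ℝ) ^ 2)
    (hz : (size q : ℝ) < 1 / 10 ^ 9 * (n : ℝ) ^ 4 / Real.log n) : ExData q ∧ BoxData q := by
  rcases Nat.lt_or_ge n 96 with h96 | h96
  · have h0 := zero_size hn h96 hz
    exact ⟨exData_zero hn q h0, boxData_zero hn q h0⟩
  · obtain ⟨h1, h2, h3, h4⟩ := numbers h96 hr hz
    exact ⟨dataR n _ (by omega) h1 h2 q (by omega) (by omega),
      dataB n _ (by omega) h1 h2 q (by omega) (by omega)⟩

theorem main : ∃ c : ℝ, 0 < c ∧ ∀ (n k R : ℕ), 2 ≤ n → ∀ (ψ : Fin k → Pr n)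
    (φ : (Fin k → SignType) → Pr n),
    (∀ i, (reuse (ψ i) : ℝ) ≤ 1 + c * (n : ℝ) ^ 2 ∧
      (size (ψ i) : ℝ) < c * (n : ℝ) ^ 4 / Real.log n) →
    (∀ S, (reuse (φ S) : ℝ) ≤ 1 + c * (n : ℝ) ^ 2 ∧
      (size (φ S) : ℝ) < c * (n : ℝ) ^ 4 / Real.log n) →
    ∃ X : Matrix (Fin n) (Fin n) ℤ, X.permanent = 0 ∧
      (∀ a b, (R : ℤ) ≤ |(X + Matrix.single a b 1).permanent| ∧
        (X - Matrix.single a b 1).permanent = -(X + Matrix.single a b 1).permanent) ∧
      (∀ Y : Fin n × Fin n → ℝ, (∀ v, |Y v - X v.1 v.2| ≤ R) →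
        ∀ i, sgR (ψ i) Y = sgR (ψ i) (fun v => (X v.1 v.2 : ℝ))) ∧
      ∀ δ : ℝ, 0 < δ → ∃ Y Z : Fin n × Fin n → ℝ, (∀ v, |Y v - X v.1 v.2| < δ) ∧
        (∀ v, |Z v - X v.1 v.2| < δ) ∧ 0 < eval Y (permPoly ℝ n) ∧ eval Z (permPoly ℝ n) < 0 ∧
        resR (φ fun i => sgR (ψ i) (fun v => (X v.1 v.2 : ℝ))) Y =
          resR (φ fun i => sgR (ψ i) (fun v => (X v.1 v.2 : ℝ))) (fun v => (X v.1 v.2 : ℝ)) ∧
        resR (φ fun i => sgR (ψ i) (fun v => (X v.1 v.2 : ℝ))) Z =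
          resR (φ fun i => sgR (ψ i) (fun v => (X v.1 v.2 : ℝ))) (fun v => (X v.1 v.2 : ℝ)) :=
  ⟨1 / 10 ^ 9, by norm_num, fun n k R hn ψ φ h1 h2 =>
    main_box n k hn ψ φ (fun i => (data_all hn _ (h1 i).1 (h1 i).2).2)
      (fun S => (data_all hn _ (h2 S).1 (h2 S).2).1) R⟩

end Pool.FV
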