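import Pool.Agent.Helper29.FV.AGen
import Pool.Agent.Helper29.FV.BNum

/-!
# FV: the main theorem, for programs with arbitrary functions of the earlier results
-/

set_option autoImplicit false
set_option linter.unusedSectionVars false

namespace Pool.FV

open Finset MvPolynomial Pool.Agent.Helper71.Fml Pool.Agent.Helper97.Form Filter Topology

section Mp

variable {K Λ Λ' Λ'' : Type}

/-- other labels for the leaves -/
def mp (f : Λ → Λ') : Formula K Λ → Formula K Λ'
  | Formula.const c => Formula.const c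
  | Formula.var v => Formula.var (f v)
  | Formula.add a b => Formula.add (mp f a) (mp f b)
  | Formula.mul a b => Formula.mul (mp f a) (mp f b)
  | Formula.div a b => Formula.div (mp f a) (mp f b)

theorem mp_mp (f : Λ → Λ') (g : Λ' → Λ'') (φ : Formula K Λ) :
    mp g (mp f φ) = mp (g ∘ f) φ := by
  induction φ with
  | const c => rfl
  | var v => rfl
  | add a b iha ihb => simp only [mp, iha, ihb]
  | mul a b iha ihb => simp only [mp, iha, ihb]
  | div a b iha ihb => simp only [mp, iha, ihb]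

theorem ev_mp [Field K] {L : Type} [Field L] [Algebra K L] (x : Λ' → L) (f : Λ → Λ')
    (φ : Formula K Λ) : ev x (mp f φ) = ev (x ∘ f) φ := by
  induction φ with
  | const c => rfl
  | var v => rfl
  | add a b iha ihb => simp only [mp, ev, iha, ihb]
  | mul a b iha ihb => simp only [mp, ev, iha, ihb]
  | div a b iha ihb => simp only [mp, ev, iha, ihb]

theorem weigh_mp (w : Λ' → ℕ) (f : Λ → Λ') (φ : Formula K Λ) :
    weigh w (mp f φ) = weigh (w ∘ f) φ := by
  induction φ with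
  | const c => rfl
  | var v => rfl
  | add a b iha ihb => simp only [mp, weigh, iha, ihb]
  | mul a b iha ihb => simp only [mp, weigh, iha, ihb]
  | div a b iha ihb => simp only [mp, weigh, iha, ihb]

variable {V W W' : Type}

theorem elim_map {M : Type} (x : V → M) (u : W → M) (f : W' → W) :
    Sum.elim x u ∘ Sum.map id f = Sum.elim x fun w => u (f w) := by
  funext w
  rcases w with v | w
  · rfl
  · rfl

theorem map_comp (f : W' → W) {W'' : Type} (g : W'' → W') :
    (Sum.map id f ∘ Sum.map id g : V ⊕ W'' → V ⊕ W) = Sum.map id (f ∘ g) := by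
  funext w
  rcases w with v | w
  · rfl
  · rfl

theorem fin_formula (φ : Formula K (V ⊕ W)) : ∃ (W' : Type) (_ : Finite W') (f : W' → W)
    (φ' : Formula K (V ⊕ W')), mp (Sum.map id f) φ' = φ := by
  have comb : ∀ a b : Formula K (V ⊕ W), (∃ (W' : Type) (_ : Finite W') (f : W' → W)
      (φ' : Formula K (V ⊕ W')), mp (Sum.map id f) φ' = a) →
      (∃ (W' : Type) (_ : Finite W') (f : W' → W)
      (φ' : Formula K (V ⊕ W')), mp (Sum.map id f) φ' = b) →
      ∃ (W' : Type) (_ : Finite W') (f : W' → W) (a' b' : Formula K (V ⊕ W')),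
        mp (Sum.map id f) a' = a ∧ mp (Sum.map id f) b' = b := by
    rintro a b ⟨W₁, i₁, f₁, a', ha⟩ ⟨W₂, i₂, f₂, b', hb⟩
    refine ⟨W₁ ⊕ W₂, inferInstance, Sum.elim f₁ f₂, mp (Sum.map id Sum.inl) a',
      mp (Sum.map id Sum.inr) b', ?_, ?_⟩
    · rw [mp_mp, map_comp, ← ha]
      rfl
    · rw [mp_mp, map_comp, ← hb]
      rfl
  induction φ with
  | const c => exact ⟨Empty, inferInstance, Empty.elim, Formula.const c, rfl⟩
  | var v =>
    rcases v with v | w
    · exact ⟨Empty, inferInstance, Empty.elim, Formula.var (Sum.inl v), rfl⟩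
    · exact ⟨Unit, inferInstance, fun _ => w, Formula.var (Sum.inr ()), rfl⟩
  | add a b iha ihb =>
    obtain ⟨W', i, f, a', b', ha, hb⟩ := comb a b iha ihb
    exact ⟨W', i, f, Formula.add a' b', by simp only [mp, ha, hb]⟩
  | mul a b iha ihb =>
    obtain ⟨W', i, f, a', b', ha, hb⟩ := comb a b iha ihb
    exact ⟨W', i, f, Formula.mul a' b', by simp only [mp, ha, hb]⟩
  | div a b iha ihb =>
    obtain ⟨W', i, f, a', b', ha, hb⟩ := comb a b iha ihb
    exact ⟨W', i, f, Formula.div a' b', by simp only [mp, ha, hb]⟩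

theorem fin_prog (q : List (Formula K (V ⊕ W))) : ∃ (W' : Type) (_ : Finite W') (f : W' → W)
    (q' : List (Formula K (V ⊕ W'))), q'.map (mp (Sum.map id f)) = q := by
  induction q with
  | nil => exact ⟨Empty, inferInstance, Empty.elim, [], rfl⟩
  | cons φ q ih =>
    obtain ⟨W₁, i₁, f₁, φ', hφ⟩ := fin_formula φ
    obtain ⟨W₂, i₂, f₂, q', hq⟩ := ih
    refine ⟨W₁ ⊕ W₂, inferInstance, Sum.elim f₁ f₂, mp (Sum.map id Sum.inl) φ' ::
      q'.map (mp (Sum.map id Sum.inr)), ?_⟩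
    rw [List.map_cons, List.map_map, mp_mp, map_comp, ← hφ, ← hq]
    congr 1
    refine List.map_congr_left fun ψ _ => ?_
    rw [Function.comp_apply, mp_mp, map_comp]
    rfl

theorem size_mp (f : W' → W) (q : List (Formula K (V ⊕ W'))) :
    size (q.map (mp (Sum.map id f))) = size q := by
  unfold size
  rw [List.map_map]
  congr 1
  refine List.map_congr_left fun ψ _ => ?_
  rw [Function.comp_apply]
  unfold entries
  rw [weigh_mp, elim_map]

theorem reuse_mp (f : W' → W) (q : List (Formula K (V ⊕ W'))) :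
    reuse (q.map (mp (Sum.map id f))) = reuse q := by
  unfold reuse
  rw [List.map_map, List.length_map]
  congr 2
  refine List.map_congr_left fun ψ _ => ?_
  rw [Function.comp_apply]
  unfold uses
  rw [weigh_mp, elim_map]

theorem resT_mp (tab : W → List ℂ → ℂ) (f : W' → W) (x : V → ℝ)
    (q : List (Formula ℂ (V ⊕ W'))) :
    resT tab x (q.map (mp (Sum.map id f))) = resT (fun w => tab (f w)) x q := by
  induction q with
  | nil => rfl
  | cons φ q ih =>
    rw [List.map_cons]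
    simp only [resT]
    rw [ih, ev_mp, elim_map]

theorem resT_const (tab : W → List ℂ → ℂ) (x y : V → ℝ) (q : List (Formula ℂ (V ⊕ W)))
    (h : size q = 0) : resT tab x q = resT tab y q := by
  induction q with
  | nil => rfl
  | cons φ q ih =>
    have s1 : size (φ :: q) = entries φ + size q := by simp [size]
    have ih' := ih (by omega)
    have h1 : ∀ (g : W → ℂ) (θ : Formula ℂ (V ⊕ W)),
        entries θ = 0 → ev (Sum.elim (cx x) g) θ = ev (Sum.elim (cx y) g) θ := by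
      intro g θ
      unfold entries
      induction θ with
      | const c => intro _; rfl
      | var w =>
        rcases w with v | w
        · intro h
          simp [weigh] at h
        · intro _
          rfl
      | add a b iha ihb =>
        intro h
        simp only [weigh] at h
        simp only [ev]
        rw [iha (by omega), ihb (by omega)]
      | mul a b iha ihb =>
        intro h
        simp only [weigh] at h
        simp only [ev]
        rw [iha (by omega), ihb (by omega)]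
      | div a b iha ihb =>
        intro h
        simp only [weigh] at h
        simp only [ev]
        rw [iha (by omega), ihb (by omega)]
    simp only [resT]
    rw [ih', h1 _ φ (by omega)]

end Mp

section Box

/-- For generic zeros `x₀` of the permanent there are points near `x₀` with permanents of both
signs which are related to `x₀`. -/
def Gen {n : ℕ} (E : (Fin n × Fin n → ℝ) → (Fin n × Fin n → ℝ) → Prop) : Prop :=
  ∃ H : MvPolynomial (Fin n × Fin n) ℂ, ¬ permPoly ℂ n ∣ H ∧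
    ∀ x₀ : Fin n × Fin n → ℝ, eval (cx x₀) H ≠ 0 → eval x₀ (permPoly ℝ n) = 0 →
      ∀ p : (Fin n × Fin n → ℝ) → Prop, (∀ᶠ x in 𝓝 x₀, p x) →
        ∃ Y Z : Fin n × Fin n → ℝ, p Y ∧ p Z ∧ 0 < eval Y (permPoly ℝ n) ∧
          eval Z (permPoly ℝ n) < 0 ∧ E Y x₀ ∧ E Z x₀

variable {W : Type} {n : ℕ}

theorem gen_zero (hn : 2 ≤ n) (tab : W → List ℂ → ℂ)
    (q : List (Formula ℂ ((Fin n × Fin n) ⊕ W))) (hq : size q = 0) :
    Gen (n := n) fun Y x => resT tab Y q = resT tab x q := by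
  classical
  let v : Fin n × Fin n := (⟨0, by omega⟩, ⟨0, by omega⟩)
  obtain ⟨am, bm, ham, hbm, hPm, hae, hbe⟩ := Pool.RQ.perm_lin n v
  have h1 : dl (tc (Pi.single v (1 : MvPolynomial (Fin n × Fin n) ℝ))) (permPoly ℂ n) = am := by
    unfold dl
    rw [Finset.sum_eq_single v]
    · unfold tc
      rw [Pi.single_eq_same, map_one, one_mul]
      have h2 : permPoly ℂ n = X v * am + bm := hPm
      rw [h2, map_add, Derivation.leibniz, pderiv_ind ham, pderiv_ind hbm, pderiv_X_self]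
      simp
    · intro w _ hw
      unfold tc
      rw [Pi.single_eq_of_ne hw, map_zero, zero_mul]
    · intro h
      exact absurd (Finset.mem_univ v) h
  refine ⟨am, Pool.HY.not_dvd_minor v ham hbm hPm hae, fun x₀ hx₀ hP0 p hp => ?_⟩
  rw [← h1] at hx₀
  obtain ⟨Y, Z, h2, h3, h4, h5, _, _⟩ := pair_of_flow (W := Empty) (fun w _ => w.elim) [] _ x₀
    hx₀ hP0 (fun γ _ _ => Filter.Eventually.of_forall fun t => rfl) p hp
  exact ⟨Y, Z, h2, h3, h4, h5, resT_const tab _ _ q hq, resT_const tab _ _ q hq⟩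

theorem gen_of_small (hn : 2 ≤ n) (tab : W → List ℂ → ℂ)
    (q : List (Formula ℂ ((Fin n × Fin n) ⊕ W)))
    (h : size q = 0 ∨ ∃ s, 1 ≤ s ∧ 12 * 2 ^ s ≤ n ∧ 48 * reuse q ≤ 4 ^ s ∧
      24 * size q < n * (n / (2 * s)) * 4 ^ s) :
    Gen (n := n) fun Y x => resT tab Y q = resT tab x q := by
  classical
  rcases h with h | ⟨s, h1, h2, h3, h4⟩
  · exact gen_zero hn tab q h
  · obtain ⟨W', i, f, q', hq'⟩ := fin_prog q
    have i' : Fintype W' := Fintype.ofFinite W'
    rw [← hq', size_mp] at h4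
    rw [← hq', reuse_mp] at h3
    have h5 := genEx n s (by omega) h1 h2 (fun w => tab (f w)) q' h3 h4
    rw [← hq']
    simp only [resT_mp]
    exact h5

theorem box_gen (n k l : ℕ) (hn : 2 ≤ n) (ψ : Fin k → Pr n)
    (E : Fin l → (Fin n × Fin n → ℝ) → (Fin n × Fin n → ℝ) → Prop)
    (hψ : ∀ i, BoxData (ψ i)) (hE : ∀ j, Gen (E j)) (R : ℕ) :
    ∃ X : Matrix (Fin n) (Fin n) ℤ, X.permanent = 0 ∧
      (∀ a b, (R : ℤ) ≤ |(X + Matrix.single a b 1).permanent| ∧
        (X - Matrix.single a b 1).permanent = -(X + Matrix.single a b 1).permanent) ∧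
      (∀ Y : Fin n × Fin n → ℝ, (∀ v, |Y v - X v.1 v.2| ≤ R) →
        ∀ i, sgR (ψ i) Y = sgR (ψ i) (fun v => (X v.1 v.2 : ℝ))) ∧
      ∀ j, ∀ δ : ℝ, 0 < δ → ∃ Y Z : Fin n × Fin n → ℝ, (∀ v, |Y v - X v.1 v.2| < δ) ∧
        (∀ v, |Z v - X v.1 v.2| < δ) ∧ 0 < eval Y (permPoly ℝ n) ∧ eval Z (permPoly ℝ n) < 0 ∧
        E j Y (fun v => (X v.1 v.2 : ℝ)) ∧ E j Z (fun v => (X v.1 v.2 : ℝ)) := by
  classical
  have hn1 : 1 ≤ n := by omega
  have hP : Prime (permPoly ℂ n) := perm_prime hn1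
  choose Ht hHt ht using hψ
  choose H hH hx using hE
  have hlin := fun q : Fin n × Fin n => Pool.RQ.perm_lin n q
  choose am bm ham hbm hPm hae hbe using hlin
  obtain ⟨X0, hX0, hXne⟩ := Pool.RQ.int_pt n hn1
    ((∏ i, Ht i) * ((∏ j, H j) * ∏ v, am v)) (fun h => by
      rcases hP.dvd_or_dvd h with h | h
      · obtain ⟨i, _, hi⟩ := hP.exists_mem_finset_dvd h
        exact hHt i hi
      · rcases hP.dvd_or_dvd h with h | h
        · obtain ⟨j, _, hj⟩ := hP.exists_mem_finset_dvd h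
          exact hH j hj
        · obtain ⟨v, _, hv⟩ := hP.exists_mem_finset_dvd h
          exact Pool.HY.not_dvd_minor v (ham v) (hbm v) (hPm v) (hae v) hv)
  rw [map_mul, map_mul, map_prod, map_prod, map_prod] at hXne
  have hXt : ∀ i, eval (fun v : Fin n × Fin n => (X0 v.1 v.2 : ℂ)) (Ht i) ≠ 0 := fun i =>
    Finset.prod_ne_zero_iff.1 (left_ne_zero_of_mul hXne) i (mem_univ i)
  have hXs : ∀ j, eval (fun v : Fin n × Fin n => (X0 v.1 v.2 : ℂ)) (H j) ≠ 0 := fun j =>
    Finset.prod_ne_zero_iff.1 (left_ne_zero_of_mul (right_ne_zero_of_mul hXne)) j (mem_univ j)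
  have hXm : ∀ v, eval (fun v : Fin n × Fin n => (X0 v.1 v.2 : ℂ)) (am v) ≠ 0 := fun v =>
    Finset.prod_ne_zero_iff.1 (right_ne_zero_of_mul (right_ne_zero_of_mul hXne)) v (mem_univ v)
  have hM0 : ∀ a' b' : Fin n, (Matrix.of fun i j => Function.update (fun p => X0 p.1 p.2)
      (a', b') 1 (i, j)).permanent - (Matrix.of fun i j => Function.update
        (fun p => X0 p.1 p.2) (a', b') 0 (i, j)).permanent ≠ 0 := by
    intro a' b' h0
    apply hXm (a', b')
    rw [hae]
    have h1 := Pool.RQ.update_cast (fun p : Fin n × Fin n => X0 p.1 p.2) (a', b') 1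
    have h2 := Pool.RQ.update_cast (fun p : Fin n × Fin n => X0 p.1 p.2) (a', b') 0
    rw [Int.cast_one] at h1
    rw [Int.cast_zero] at h2
    rw [h1, h2, Pool.RQ.eval_perm_int, Pool.RQ.eval_perm_int, ← Int.cast_sub]
    exact_mod_cast h0
  -- the signs far away
  obtain ⟨x₀, hx₀⟩ : ∃ x₀ : Fin n × Fin n → ℝ, x₀ = fun v => (X0 v.1 v.2 : ℝ) := ⟨_, rfl⟩
  have hcx : cx x₀ = fun v : Fin n × Fin n => (X0 v.1 v.2 : ℂ) := by
    rw [hx₀]
    exact cx_int X0
  have hsig : ∀ i, ∃ σ : SignType, ∀ᶠ z in 𝓝 x₀ ×ˢ 𝓝[>] 0,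
      sgR (ψ i) (fun v => z.1 v / z.2) = σ := fun i => ht i x₀ (by rw [hcx]; exact hXt i)
  choose σ hσ using hsig
  have hall : ∀ᶠ z in 𝓝 x₀ ×ˢ 𝓝[>] (0 : ℝ), ∀ i, sgR (ψ i) (fun v => z.1 v / z.2) = σ i :=
    Filter.eventually_all.2 hσ
  obtain ⟨U, hU, W, hW, hUW⟩ := Filter.mem_prod_iff.1 hall
  obtain ⟨ρ, hρ, hρU⟩ := Metric.mem_nhds_iff.1 hU
  obtain ⟨ρ', hρ', hρW⟩ := mem_nhdsGT_iff_exists_Ioo_subset.1 hW
  -- the multiple
  have ev1 : ∀ᶠ m : ℕ in atTop, (R : ℝ) / ρ < m :=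
    (tendsto_natCast_atTop_atTop (R := ℝ)).eventually_gt_atTop _
  have ev2 : ∀ᶠ m : ℕ in atTop, 1 / ρ' < (m : ℝ) :=
    (tendsto_natCast_atTop_atTop (R := ℝ)).eventually_gt_atTop _
  have ev3 : ∀ᶠ m : ℕ in atTop, ∀ j, eval (fun v : Fin n × Fin n =>
      (m : ℂ) * (X0 v.1 v.2 : ℂ)) (H j) ≠ 0 :=
    Filter.eventually_all.2 fun j => eventually_smul _ _ (hXs j)
  obtain ⟨m, ⟨⟨hm1, hm2⟩, hm3⟩, hm4⟩ :=
    (((ev1.and ev2).and ev3).and (eventually_ge_atTop (R + 1))).exists
  have hm0 : (0 : ℝ) < m := by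
    have : 1 ≤ m := by omega
    exact_mod_cast this
  have hbox : ∀ Y : Fin n × Fin n → ℝ, (∀ v, |Y v - (((m : ℤ) • X0) v.1 v.2 : ℤ)| ≤ R) →
      ∀ i, sgR (ψ i) Y = σ i := by
    intro Y hY i
    have h1 : (fun v => Y v / m) ∈ U := by
      apply hρU
      rw [Metric.mem_ball, dist_pi_lt_iff hρ]
      intro v
      rw [Real.dist_eq, hx₀]
      have h2 : Y v / m - (X0 v.1 v.2 : ℝ) = (Y v - (((m : ℤ) • X0) v.1 v.2 : ℤ)) / m := by
        rw [Matrix.smul_apply, smul_eq_mul]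
        push_cast
        field_simp
      rw [h2, abs_div, abs_of_pos hm0, div_lt_iff₀ hm0]
      rw [div_lt_iff₀ hρ] at hm1
      have := hY v
      linarith
    have h2 : (1 : ℝ) / m ∈ W := by
      apply hρW
      constructor
      · positivity
      · rw [div_lt_iff₀ hm0]
        rw [div_lt_iff₀ hρ'] at hm2
        linarith
    have h3 := hUW (Set.mk_mem_prod h1 h2) i
    have h4 : (fun v => Y v / m / (1 / m)) = Y := by
      funext v
      field_simp
    rwa [h4] at h3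
  have hXt' : ((m : ℤ) • X0).permanent = 0 := by
    rw [Matrix.permanent_smul, hX0, mul_zero]
  have hself : ∀ i, sgR (ψ i) (fun v => (((m : ℤ) • X0) v.1 v.2 : ℝ)) = σ i :=
    hbox _ (fun v => by
      show |((((m : ℤ) • X0) v.1 v.2 : ℤ) : ℝ) - ((((m : ℤ) • X0) v.1 v.2 : ℤ) : ℝ)| ≤ R
      rw [sub_self, abs_zero]
      exact Nat.cast_nonneg R)
  refine ⟨(m : ℤ) • X0, hXt', minors hn X0 hX0 hM0 R m hm4, fun Y hY i => ?_, fun j δ hδ => ?_⟩
  · rw [hself, hbox Y hY i]
  · have h1 := hm3 j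
    have h2 : cx (fun v : Fin n × Fin n => (((m : ℤ) • X0) v.1 v.2 : ℝ)) =
        fun v : Fin n × Fin n => (m : ℂ) * (X0 v.1 v.2 : ℂ) := by
      rw [cx_int]
      funext v
      rw [Matrix.smul_apply, smul_eq_mul]
      push_cast
      rfl
    rw [← h2] at h1
    obtain ⟨Y, Z, hY, hZ, e1, e2, e3, e4⟩ := hx j
      (fun v : Fin n × Fin n => (((m : ℤ) • X0) v.1 v.2 : ℝ)) h1 (by
        rw [eval_permPoly']
        have h1 : (Matrix.of fun i j : Fin n => (((m : ℤ) • X0) i j : ℝ)) =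
            ((m : ℤ) • X0).map (Int.castRingHom ℝ) := by
          ext i j
          rfl
        have h2 : (((m : ℤ) • X0).map (Int.castRingHom ℝ)).permanent =
            ((((m : ℤ) • X0).permanent : ℤ) : ℝ) := by
          unfold Matrix.permanent
          rw [Int.cast_sum]
          refine Finset.sum_congr rfl fun x _ => ?_
          rw [Int.cast_prod]
          rfl
        show (Matrix.of fun i j : Fin n => (((m : ℤ) • X0) i j : ℝ)).permanent = 0
        rw [h1, h2, hXt', Int.cast_zero])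
      (fun x => ∀ v, |x v - (((m : ℤ) • X0) v.1 v.2 : ℤ)| < δ) (by
        have h5 := Metric.ball_mem_nhds
          (fun v : Fin n × Fin n => (((m : ℤ) • X0) v.1 v.2 : ℝ)) hδ
        filter_upwards [h5] with x hxx v
        rw [Metric.mem_ball, dist_pi_lt_iff hδ] at hxx
        have := hxx v
        rwa [Real.dist_eq] at this)
    exact ⟨Y, Z, hY, hZ, e1, e2, e3, e4⟩

theorem main_arb : ∃ c : ℝ, 0 < c ∧ ∀ (n k l R : ℕ), 2 ≤ n → ∀ (ψ : Fin k → Pr n)
    (φ : Fin l → List (Formula ℂ ((Fin n × Fin n) ⊕ (List ℂ → ℂ)))),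
    (∀ i, (reuse (ψ i) : ℝ) ≤ 1 + c * (n : ℝ) ^ 2 ∧
      (size (ψ i) : ℝ) < c * (n : ℝ) ^ 4 / Real.log n) →
    (∀ j, (reuse (φ j) : ℝ) ≤ 1 + c * (n : ℝ) ^ 2 ∧
      (size (φ j) : ℝ) < c * (n : ℝ) ^ 4 / Real.log n) →
    ∃ X : Matrix (Fin n) (Fin n) ℤ, X.permanent = 0 ∧
      (∀ a b, (R : ℤ) ≤ |(X + Matrix.single a b 1).permanent| ∧
        (X - Matrix.single a b 1).permanent = -(X + Matrix.single a b 1).permanent) ∧
      (∀ Y : Fin n × Fin n → ℝ, (∀ v, |Y v - X v.1 v.2| ≤ R) →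
        ∀ i, sgR (ψ i) Y = sgR (ψ i) (fun v => (X v.1 v.2 : ℝ))) ∧
      ∀ j, ∀ δ : ℝ, 0 < δ → ∃ Y Z : Fin n × Fin n → ℝ, (∀ v, |Y v - X v.1 v.2| < δ) ∧
        (∀ v, |Z v - X v.1 v.2| < δ) ∧ 0 < eval Y (permPoly ℝ n) ∧ eval Z (permPoly ℝ n) < 0 ∧
        resT id Y (φ j) = resT id (fun v => (X v.1 v.2 : ℝ)) (φ j) ∧
        resT id Z (φ j) = resT id (fun v => (X v.1 v.2 : ℝ)) (φ j) := by
  refine ⟨1 / 10 ^ 9, by norm_num, fun n k l R hn ψ φ h1 h2 => ?_⟩
  refine box_gen n k l hn ψ (fun j Y x => resT id Y (φ j) = resT id x (φ j))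
    (fun i => (data_all hn _ (h1 i).1 (h1 i).2).2) (fun j => gen_of_small hn id (φ j) ?_) R
  rcases Nat.lt_or_ge n 96 with h96 | h96
  · exact Or.inl (zero_size hn h96 (h2 j).2)
  · exact Or.inr ⟨_, numbers h96 (h2 j).1 (h2 j).2⟩

end Box

end Pool.FV
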