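import Pool.Agent.Helper29.FV.PDer

/-!
# FV: numerators and denominators of formulas; cutting a formula at its divisions by zero
-/

set_option autoImplicit false
set_option linter.unusedSectionVars false

namespace Pool.FV

open Finset MvPolynomial Pool.Agent.Helper71.Fml Pool.Agent.Helper97.Form

section Nu

variable {K Λ V' : Type} [Field K]

/-- numerator and denominator of a formula, without any reduction -/
noncomputable def nu (z : Λ → MvPolynomial V' K) :
    Formula K Λ → MvPolynomial V' K × MvPolynomial V' K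
  | Formula.const c => (C c, 1)
  | Formula.var w => (z w, 1)
  | Formula.add a b => ((nu z a).1 * (nu z b).2 + (nu z b).1 * (nu z a).2,
      (nu z a).2 * (nu z b).2)
  | Formula.mul a b => ((nu z a).1 * (nu z b).1, (nu z a).2 * (nu z b).2)
  | Formula.div a b => ((nu z a).1 * ((nu z b).2 * (nu z b).2),
      (nu z a).2 * ((nu z b).1 * (nu z b).2))

/-- there is no division by zero -/
def Def {L : Type} [Field L] [Algebra K L] (x : Λ → L) : Formula K Λ → Prop
  | Formula.const _ => True
  | Formula.var _ => True
  | Formula.add a b => Def x a ∧ Def x b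
  | Formula.mul a b => Def x a ∧ Def x b
  | Formula.div a b => Def x a ∧ Def x b ∧ ev x b ≠ 0

variable {L : Type} [Field L] [Algebra K L]

theorem nu_val (z : Λ → MvPolynomial V' K) (h : MvPolynomial V' K →ₐ[K] L) (x : Λ → L)
    (hx : ∀ w, x w = h (z w)) (φ : Formula K Λ) (hM : h (nu z φ).2 ≠ 0) :
    ev x φ * h (nu z φ).2 = h (nu z φ).1 := by
  induction φ with
  | const c =>
    simp only [nu, ev, map_one, mul_one]
    exact (h.commutes c).symm
  | var w =>
    simp only [nu, ev, map_one, mul_one]
    exact hx w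
  | add a b iha ihb =>
    simp only [nu, map_mul, map_add, ev] at hM ⊢
    rw [← iha (left_ne_zero_of_mul hM), ← ihb (right_ne_zero_of_mul hM)]
    ring
  | mul a b iha ihb =>
    simp only [nu, map_mul, ev] at hM ⊢
    rw [← iha (left_ne_zero_of_mul hM), ← ihb (right_ne_zero_of_mul hM)]
    ring
  | div a b iha ihb =>
    simp only [nu, map_mul, ev] at hM ⊢
    have h1 := left_ne_zero_of_mul hM
    have h2 := left_ne_zero_of_mul (right_ne_zero_of_mul hM)
    have h3 := right_ne_zero_of_mul (right_ne_zero_of_mul hM)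
    have e1 := iha h1
    have e2 := ihb h3
    have h4 : ev x b ≠ 0 := by
      intro h0
      rw [h0, zero_mul] at e2
      exact h2 e2.symm
    rw [← e1, ← e2]
    field_simp

theorem nu_ne (z : Λ → MvPolynomial V' K) (h : MvPolynomial V' K →ₐ[K] L) (x : Λ → L)
    (hx : ∀ w, x w = h (z w)) (φ : Formula K Λ) (hD : Def x φ) : h (nu z φ).2 ≠ 0 := by
  induction φ with
  | const c => simp [nu]
  | var w => simp [nu]
  | add a b iha ihb =>
    simp only [nu, map_mul]
    exact mul_ne_zero (iha hD.1) (ihb hD.2)
  | mul a b iha ihb =>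
    simp only [nu, map_mul]
    exact mul_ne_zero (iha hD.1) (ihb hD.2)
  | div a b iha ihb =>
    simp only [nu, map_mul]
    have h3 := ihb hD.2.1
    refine mul_ne_zero (iha hD.1) (mul_ne_zero ?_ h3)
    rw [← nu_val z h x hx b h3]
    exact mul_ne_zero hD.2.2 h3

end Nu

section Cut

variable {K Λ L : Type} [Field K] [Field L] [Algebra K L]

open Classical in
/-- the formula with `0` in place of the quotients with zero denominator, and these denominators
(treated in the same way) -/
noncomputable def cutAt (x : Λ → L) : Formula K Λ → Formula K Λ × List (Formula K Λ)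
  | Formula.const c => (Formula.const c, [])
  | Formula.var w => (Formula.var w, [])
  | Formula.add a b => (Formula.add (cutAt x a).1 (cutAt x b).1, (cutAt x a).2 ++ (cutAt x b).2)
  | Formula.mul a b => (Formula.mul (cutAt x a).1 (cutAt x b).1, (cutAt x a).2 ++ (cutAt x b).2)
  | Formula.div a b => if ev x b = 0 then (Formula.const 0, (cutAt x b).1 :: (cutAt x b).2) else
      (Formula.div (cutAt x a).1 (cutAt x b).1, (cutAt x a).2 ++ (cutAt x b).2)

/-- the value does not change if all cut denominators vanish -/
theorem ev_cut (x y : Λ → L) (φ : Formula K Λ) (h : ∀ ψ ∈ (cutAt x φ).2, ev y ψ = 0) :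
    ev y φ = ev y (cutAt x φ).1 := by
  classical
  induction φ with
  | const c => rfl
  | var w => rfl
  | add a b iha ihb =>
    simp only [cutAt, ev] at h ⊢
    rw [iha fun ψ hψ => h ψ (List.mem_append_left _ hψ),
      ihb fun ψ hψ => h ψ (List.mem_append_right _ hψ)]
  | mul a b iha ihb =>
    simp only [cutAt, ev] at h ⊢
    rw [iha fun ψ hψ => h ψ (List.mem_append_left _ hψ),
      ihb fun ψ hψ => h ψ (List.mem_append_right _ hψ)]
  | div a b iha ihb =>
    by_cases hb : ev x b = 0
    · simp only [cutAt, if_pos hb] at h ⊢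
      have h1 := ihb fun ψ hψ => h ψ (List.mem_cons_of_mem _ hψ)
      have h2 := h _ List.mem_cons_self
      simp only [ev]
      rw [h1, h2, div_zero, map_zero]
    · simp only [cutAt, if_neg hb] at h ⊢
      simp only [ev]
      rw [iha fun ψ hψ => h ψ (List.mem_append_left _ hψ),
        ihb fun ψ hψ => h ψ (List.mem_append_right _ hψ)]

/-- at the point itself there is no division by zero in the cut formulas, and all cut denominators
vanish -/
theorem def_cut (x : Λ → L) (φ : Formula K Λ) :
    Def x (cutAt x φ).1 ∧ ∀ ψ ∈ (cutAt x φ).2, Def x ψ ∧ ev x ψ = 0 := by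
  classical
  induction φ with
  | const c => exact ⟨trivial, fun ψ hψ => by simp [cutAt] at hψ⟩
  | var w => exact ⟨trivial, fun ψ hψ => by simp [cutAt] at hψ⟩
  | add a b iha ihb =>
    refine ⟨⟨iha.1, ihb.1⟩, fun ψ hψ => ?_⟩
    exact (List.mem_append.1 hψ).elim (iha.2 ψ) (ihb.2 ψ)
  | mul a b iha ihb =>
    refine ⟨⟨iha.1, ihb.1⟩, fun ψ hψ => ?_⟩
    exact (List.mem_append.1 hψ).elim (iha.2 ψ) (ihb.2 ψ)
  | div a b iha ihb =>
    have hbv : ev x b = ev x (cutAt x b).1 := ev_cut x x b fun ψ hψ => (ihb.2 ψ hψ).2
    by_cases hb : ev x b = 0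
    · simp only [cutAt, if_pos hb]
      refine ⟨trivial, fun ψ hψ => ?_⟩
      rcases List.mem_cons.1 hψ with rfl | hψ
      · exact ⟨ihb.1, by rw [← hbv, hb]⟩
      · exact ihb.2 ψ hψ
    · simp only [cutAt, if_neg hb]
      refine ⟨⟨iha.1, ihb.1, by rwa [← hbv]⟩, fun ψ hψ => ?_⟩
      exact (List.mem_append.1 hψ).elim (iha.2 ψ) (ihb.2 ψ)

/-- the weights of the parts -/
theorem weigh_cut (f : Λ → ℕ) (x : Λ → L) (φ : Formula K Λ) :
    weigh f (cutAt x φ).1 + ((cutAt x φ).2.map (weigh f)).sum ≤ weigh f φ := by
  classical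
  induction φ with
  | const c => simp [cutAt, weigh]
  | var w => simp [cutAt, weigh]
  | add a b iha ihb =>
    simp only [cutAt, weigh, List.map_append, List.sum_append]
    omega
  | mul a b iha ihb =>
    simp only [cutAt, weigh, List.map_append, List.sum_append]
    omega
  | div a b iha ihb =>
    by_cases hb : ev x b = 0
    · simp only [cutAt, if_pos hb, weigh, List.map_cons, List.sum_cons]
      omega
    · simp only [cutAt, if_neg hb, weigh, List.map_append, List.sum_append]
      omega

/-- there are finitely many ways to cut -/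
theorem finite_cut (φ : Formula K Λ) : (Set.range fun x : Λ → L => cutAt x φ).Finite := by
  classical
  induction φ with
  | const c =>
    refine (Set.finite_singleton (Formula.const c, ([] : List (Formula K Λ)))).subset ?_
    rintro _ ⟨x, rfl⟩
    exact rfl
  | var w =>
    refine (Set.finite_singleton (Formula.var w, ([] : List (Formula K Λ)))).subset ?_
    rintro _ ⟨x, rfl⟩
    exact rfl
  | add a b iha ihb =>
    refine (Set.Finite.image2 (fun u v => (Formula.add u.1 v.1, u.2 ++ v.2)) iha ihb).subset ?_
    rintro _ ⟨x, rfl⟩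
    exact ⟨_, ⟨x, rfl⟩, _, ⟨x, rfl⟩, rfl⟩
  | mul a b iha ihb =>
    refine (Set.Finite.image2 (fun u v => (Formula.mul u.1 v.1, u.2 ++ v.2)) iha ihb).subset ?_
    rintro _ ⟨x, rfl⟩
    exact ⟨_, ⟨x, rfl⟩, _, ⟨x, rfl⟩, rfl⟩
  | div a b iha ihb =>
    refine ((Set.Finite.image2 (fun u v => (Formula.div u.1 v.1, u.2 ++ v.2)) iha ihb).union
      (ihb.image fun v => (Formula.const 0, v.1 :: v.2))).subset ?_
    rintro _ ⟨x, rfl⟩
    by_cases hb : ev x b = 0
    · right
      refine ⟨_, ⟨x, rfl⟩, ?_⟩
      simp only [cutAt, if_pos hb]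
    · left
      refine ⟨_, ⟨x, rfl⟩, _, ⟨x, rfl⟩, ?_⟩
      simp only [cutAt, if_neg hb]

end Cut

section Free

variable {K V W L : Type} [Field K] [Field L] [Algebra K L]

/-- a formula without leaves in `W` does not depend on their values -/
theorem ev_free (x : V → L) (u u' : W → L) (φ : Formula K (V ⊕ W)) (h : uses φ = 0) :
    ev (Sum.elim x u) φ = ev (Sum.elim x u') φ := by
  unfold uses at h
  induction φ with
  | const c => rfl
  | var w =>
    rcases w with v | w
    · rfl
    · simp [weigh] at h
  | add a b iha ihb =>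
    simp only [weigh] at h
    simp only [ev]
    rw [iha (by omega), ihb (by omega)]
  | mul a b iha ihb =>
    simp only [weigh] at h
    simp only [ev]
    rw [iha (by omega), ihb (by omega)]
  | div a b iha ihb =>
    simp only [weigh] at h
    simp only [ev]
    rw [iha (by omega), ihb (by omega)]

theorem def_free (x : V → L) (u u' : W → L) (φ : Formula K (V ⊕ W)) :
    uses φ = 0 → Def (Sum.elim x u) φ → Def (Sum.elim x u') φ := by
  induction φ with
  | const c => exact fun _ _ => trivial
  | var w => exact fun _ _ => trivial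
  | add a b iha ihb =>
    intro h hD
    have h' : uses a + uses b = 0 := h
    exact ⟨iha (by omega) hD.1, ihb (by omega) hD.2⟩
  | mul a b iha ihb =>
    intro h hD
    have h' : uses a + uses b = 0 := h
    exact ⟨iha (by omega) hD.1, ihb (by omega) hD.2⟩
  | div a b iha ihb =>
    intro h hD
    have h' : uses a + uses b = 0 := h
    refine ⟨iha (by omega) hD.1, ihb (by omega) hD.2.1, ?_⟩
    rw [← ev_free x u u' b (by omega)]
    exact hD.2.2

/-- the numerator of a formula without leaves in `W` or in `D` -/
theorem nu_mem [DecidableEq V] {D : Finset V} (φ : Formula K (V ⊕ W)) (h1 : uses φ = 0)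
    (h2 : inBlock D φ = 0) :
    (nu (Sum.elim X fun _ => 0 : V ⊕ W → MvPolynomial V K) φ).1 ∈ R0 K D ∧
      (nu (Sum.elim X fun _ => 0 : V ⊕ W → MvPolynomial V K) φ).2 ∈ R0 K D := by
  unfold uses at h1
  unfold inBlock at h2
  induction φ with
  | const c =>
    refine ⟨?_, one_mem _⟩
    show C c ∈ R0 K D
    rw [← algebraMap_eq]
    exact (R0 K D).algebraMap_mem c
  | var w =>
    refine ⟨?_, one_mem _⟩
    rcases w with v | w
    · have hv : v ∉ D := by
        intro hv
        simp [weigh, hv] at h2
      show X v ∈ R0 K D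
      exact X_mem_supported.2 hv
    · simp [weigh] at h1
  | add a b iha ihb =>
    simp only [weigh] at h1 h2
    have ha := iha (by omega) (by omega)
    have hb := ihb (by omega) (by omega)
    exact ⟨add_mem (mul_mem ha.1 hb.2) (mul_mem hb.1 ha.2), mul_mem ha.2 hb.2⟩
  | mul a b iha ihb =>
    simp only [weigh] at h1 h2
    have ha := iha (by omega) (by omega)
    have hb := ihb (by omega) (by omega)
    exact ⟨mul_mem ha.1 hb.1, mul_mem ha.2 hb.2⟩
  | div a b iha ihb =>
    simp only [weigh] at h1 h2
    have ha := iha (by omega) (by omega)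
    have hb := ihb (by omega) (by omega)
    exact ⟨mul_mem ha.1 (mul_mem hb.2 hb.2), mul_mem ha.2 (mul_mem hb.1 hb.2)⟩

end Free

end Pool.FV
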