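import Pool.Agent.Helper29.FV.BData
import Pool.Agent.Helper97.HY.Box

/-!
# FV: the main theorem
-/

set_option autoImplicit false
set_option linter.unusedSectionVars false

namespace Pool.FV

open Finset MvPolynomial Pool.Agent.Helper71.Fml Pool.Agent.Helper97.Form Filter Topology

/-- programs -/
abbrev Pr (n : ℕ) : Type := List (Formula ℂ ((Fin n × Fin n) ⊕ MvPolynomial ℕ ℂ))

/-- what we need for the exact results -/
def ExData {n : ℕ} (q : Pr n) : Prop :=
  ∃ (a : Fin n × Fin n → MvPolynomial (Fin n × Fin n) ℝ)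
      (H : MvPolynomial (Fin n × Fin n) ℂ) (A B : ℕ → MvPolynomial (Fin n × Fin n) ℂ),
      ¬ permPoly ℂ n ∣ dl (tc a) (permPoly ℂ n) ∧ ¬ permPoly ℂ n ∣ H ∧
      (∀ j, B j * dl (tc a) (A j) = A j * dl (tc a) (B j)) ∧
      ∀ x, eval x H ≠ 0 → ∀ j, eval x (B j) ≠ 0 ∧
        (results x q).getD j 0 * eval x (B j) = eval x (A j)

/-- what we need for the signs -/
def BoxData {n : ℕ} (q : Pr n) : Prop :=
  ∃ H : MvPolynomial (Fin n × Fin n) ℂ, ¬ permPoly ℂ n ∣ H ∧
      ∀ x₀ : Fin n × Fin n → ℝ, eval (cx x₀) H ≠ 0 → ∃ σ : SignType,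
        ∀ᶠ z in 𝓝 x₀ ×ˢ 𝓝[>] 0, sgR q (fun v => z.1 v / z.2) = σ

theorem flow_pair {n : ℕ} (q : Pr n) (a : Fin n × Fin n → MvPolynomial (Fin n × Fin n) ℝ)
    (H : MvPolynomial (Fin n × Fin n) ℂ) (A B : ℕ → MvPolynomial (Fin n × Fin n) ℂ)
    (hAB : ∀ j, B j * dl (tc a) (A j) = A j * dl (tc a) (B j))
    (hx : ∀ x, eval x H ≠ 0 → ∀ j, eval x (B j) ≠ 0 ∧
        (results x q).getD j 0 * eval x (B j) = eval x (A j))
    (x₀ : Fin n × Fin n → ℝ) (hH : eval (cx x₀) H ≠ 0)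
    (hd0 : eval (cx x₀) (dl (tc a) (permPoly ℂ n)) ≠ 0) (hP0 : eval x₀ (permPoly ℝ n) = 0)
    (p : (Fin n × Fin n → ℝ) → Prop) (hp : ∀ᶠ x in 𝓝 x₀, p x) :
    ∃ Y Z : Fin n × Fin n → ℝ, p Y ∧ p Z ∧ 0 < eval Y (permPoly ℝ n) ∧
      eval Z (permPoly ℝ n) < 0 ∧ resR q Y = resR q x₀ ∧ resR q Z = resR q x₀ := by
  obtain ⟨γ, hγ0, ε, hε, hγ⟩ := flow a x₀
  have h0 : (0 : ℝ) ∈ Set.Ioo (-ε) ε := ⟨by linarith, hε⟩
  have hγc : ContinuousAt γ 0 := (hγ 0 h0).1
  obtain ⟨ε', hε'0, hε'⟩ : ∃ ε' : ℝ, 0 < ε' ∧ ∀ t ∈ Set.Ioo (-ε') ε',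
      t ∈ Set.Ioo (-ε) ε ∧ eval (cx (γ t)) H ≠ 0 := by
    have h1 : ∀ᶠ t in 𝓝 (0 : ℝ), eval (cx (γ t)) H ≠ 0 := by
      have hc : ContinuousAt (fun t => eval (cx (γ t)) H) 0 :=
        (continuous_evalC H).continuousAt.comp hγc
      refine hc.eventually_ne ?_
      show eval (cx (γ 0)) H ≠ 0
      rw [hγ0]
      exact hH
    have h2 : ∀ᶠ t in 𝓝 (0 : ℝ), t ∈ Set.Ioo (-ε) ε := Ioo_mem_nhds h0.1 h0.2
    obtain ⟨δ, hδ, h3⟩ := Metric.eventually_nhds_iff.1 (h1.and h2)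
    refine ⟨δ, hδ, fun t ht => ?_⟩
    have h4 := h3 (y := t) (by rw [Real.dist_eq, sub_zero, abs_lt]; exact ht)
    exact ⟨h4.2, h4.1⟩
  have h0' : (0 : ℝ) ∈ Set.Ioo (-ε') ε' := ⟨by linarith, hε'0⟩
  have hvals : ∀ t ∈ Set.Ioo (-ε') ε', resR q (γ t) = resR q x₀ := by
    intro t ht
    have h5 : ∀ j, (results (cx (γ t)) q).getD j 0 = (results (cx x₀) q).getD j 0 := by
      intro j
      have h1 := const_alongC a γ (ε := ε') (fun t ht => (hγ t (hε' t ht).1).2) (A j)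
        (B j) (hAB j) (fun t ht => (hx (cx (γ t)) (hε' t ht).2 j).1) t ht h0'
      have h2 := hx (cx (γ t)) (hε' t ht).2 j
      have h3 := hx (cx (γ 0)) (hε' 0 h0').2 j
      rw [← h2.2, ← h3.2, mul_div_cancel_right₀ _ h2.1, mul_div_cancel_right₀ _ h3.1] at h1
      rw [h1, hγ0]
    unfold resR
    apply List.ext_getElem
    · rw [results_length, results_length]
    · intro j hj1 hj2
      have h6 := h5 j
      rwa [List.getD_eq_getElem _ _ hj1, List.getD_eq_getElem _ _ hj2] at h6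
  have hev : ∀ᶠ t in 𝓝 (0 : ℝ), p (γ t) ∧ resR q (γ t) = resR q x₀ := by
    have hp' : ∀ᶠ x in 𝓝 (γ 0), p x := by
      rw [hγ0]
      exact hp
    filter_upwards [hγc.eventually hp', Ioo_mem_nhds h0'.1 h0'.2] with t h1 h2
    exact ⟨h1, hvals t h2⟩
  have hder := (hγ 0 h0).2 (permPoly ℝ n)
  have hd : eval (γ 0) (dl a (permPoly ℝ n)) ≠ 0 := by
    rw [hγ0]
    intro h
    apply hd0
    have e1 : permPoly ℂ n = toC _ (permPoly ℝ n) := (map_permPoly n).symm
    rw [e1, dl_toC, eval_toC, h, Complex.ofReal_zero]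
  rw [← hγ0] at hP0
  obtain ⟨⟨t₁, ht₁, hpos⟩, t₂, ht₂, hneg⟩ := signs_both hder hP0 hd hev
  exact ⟨γ t₁, γ t₂, ht₁.1, ht₂.1, hpos, hneg, ht₁.2, ht₂.2⟩

/-- a polynomial which does not vanish at `x` does not vanish at large multiples of `x` -/
theorem eventually_smul {V : Type} (F : MvPolynomial V ℂ) (x : V → ℂ) (h : eval x F ≠ 0) :
    ∀ᶠ m : ℕ in atTop, eval (fun v => (m : ℂ) * x v) F ≠ 0 := by
  let g : Polynomial ℂ := aeval (fun v => Polynomial.X * Polynomial.C (x v)) F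
  have hg : ∀ t : ℂ, g.eval t = eval (fun v => t * x v) F := by
    intro t
    have h1 := comp_aeval_apply (fun v => (Polynomial.X * Polynomial.C (x v) : Polynomial ℂ))
      (Polynomial.aeval t : Polynomial ℂ →ₐ[ℂ] ℂ) F
    simp only [map_mul, Polynomial.aeval_X, Polynomial.aeval_C] at h1
    rw [← Polynomial.coe_aeval_eq_eval]
    exact h1
  have hg0 : g ≠ 0 := by
    intro h0
    have h1 := hg 1
    rw [h0, Polynomial.eval_zero] at h1
    apply h
    rw [h1]
    simp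
  have hfin : {t : ℂ | g.IsRoot t}.Finite := Polynomial.finite_setOfPred_isRoot hg0
  have hfin2 : {m : ℕ | g.IsRoot (m : ℂ)}.Finite :=
    hfin.preimage (Nat.cast_injective.injOn)
  rw [← Nat.cofinite_eq_atTop]
  filter_upwards [hfin2.compl_mem_cofinite] with m hm h2
  apply hm
  show g.eval (m : ℂ) = 0
  rw [hg, h2]

theorem cx_int {n : ℕ} (X : Matrix (Fin n) (Fin n) ℤ) :
    cx (fun q : Fin n × Fin n => (X q.1 q.2 : ℝ)) = fun q => (X q.1 q.2 : ℂ) := by
  funext q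
  exact Complex.ofReal_intCast _

/-- the permanent after a change of one entry of a multiple of a zero -/
theorem minors {n : ℕ} (hn : 2 ≤ n) (X0 : Matrix (Fin n) (Fin n) ℤ) (hX0 : X0.permanent = 0)
    (hM0 : ∀ a b : Fin n, (Matrix.of fun i j => Function.update (fun p => X0 p.1 p.2)
      (a, b) 1 (i, j)).permanent - (Matrix.of fun i j => Function.update
        (fun p => X0 p.1 p.2) (a, b) 0 (i, j)).permanent ≠ 0) (R t : ℕ) (ht : R + 1 ≤ t)
    (a b : Fin n) :
    (R : ℤ) ≤ |((t : ℤ) • X0 + Matrix.single a b 1).permanent| ∧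
      ((t : ℤ) • X0 - Matrix.single a b 1).permanent =
        -((t : ℤ) • X0 + Matrix.single a b 1).permanent := by
  have hXt : ((t : ℤ) • X0).permanent = 0 := by
    rw [Matrix.permanent_smul, hX0, mul_zero]
  have hMt : ∀ a' b', (Matrix.of fun i j => Function.update (fun p => ((t : ℤ) • X0) p.1 p.2)
      (a', b') 1 (i, j)).permanent - (Matrix.of fun i j => Function.update
        (fun p => ((t : ℤ) • X0) p.1 p.2) (a', b') 0 (i, j)).permanent =
        (t : ℤ) ^ (n - 1) * ((Matrix.of fun i j => Function.update (fun p => X0 p.1 p.2)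
      (a', b') 1 (i, j)).permanent - (Matrix.of fun i j => Function.update
        (fun p => X0 p.1 p.2) (a', b') 0 (i, j)).permanent) := by
    intro a' b'
    simp only [Matrix.permanent, Matrix.of_apply]
    rw [← Finset.sum_sub_distrib, ← Finset.sum_sub_distrib, Finset.mul_sum]
    refine Finset.sum_congr rfl fun s _ => ?_
    by_cases hs : s b' = a'
    · have k2 : ∀ (Z : Matrix (Fin n) (Fin n) ℤ) (c : ℤ),
          ∏ i, Function.update (fun p : Fin n × Fin n => Z p.1 p.2) (a', b') c (s i, i) =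
          c * ∏ i ∈ Finset.univ.erase b', Z (s i) i := by
        intro Z c
        rw [← Finset.mul_prod_erase _ _ (Finset.mem_univ b'), hs, Function.update_self]
        congr 1
        refine Finset.prod_congr rfl fun i hi => ?_
        rw [Function.update_of_ne]
        intro h
        exact (Finset.mem_erase.1 hi).1 (congrArg Prod.snd h)
      rw [k2, k2, k2, k2]
      simp only [Matrix.smul_apply, smul_eq_mul, Finset.prod_mul_distrib, Finset.prod_const]
      rw [Finset.card_erase_of_mem (Finset.mem_univ _), Finset.card_univ, Fintype.card_fin]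
      ring
    · have k2 : ∀ (Z : Matrix (Fin n) (Fin n) ℤ) (c : ℤ),
          ∏ i, Function.update (fun p : Fin n × Fin n => Z p.1 p.2) (a', b') c (s i, i) =
          ∏ i, Z (s i) i := by
        intro Z c
        refine Finset.prod_congr rfl fun i _ => ?_
        rw [Function.update_of_ne]
        intro h
        have h1 := congrArg Prod.fst h
        have h2 := congrArg Prod.snd h
        simp only at h1 h2
        apply hs
        rw [← h2]
        exact h1
      rw [k2, k2, k2, k2]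
      ring
  constructor
  · rw [Pool.HY.permanent_add_single, hXt, hMt, zero_add, one_mul, abs_mul, abs_pow]
    have h1 := Int.one_le_abs (hM0 a b)
    have h2 : (R : ℤ) ≤ |(t : ℤ)| ^ (n - 1) := by
      have h3 : (R : ℤ) ≤ |(t : ℤ)| := by
        rw [abs_of_nonneg (by positivity)]
        have : R ≤ t := by omega
        exact_mod_cast this
      have h4 : (1 : ℤ) ≤ |(t : ℤ)| := by
        rw [abs_of_nonneg (by positivity)]
        have : 1 ≤ t := by omega
        exact_mod_cast this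
      exact h3.trans (le_self_pow₀ h4 (by omega))
    calc (R : ℤ) ≤ |(t : ℤ)| ^ (n - 1) * 1 := by rw [mul_one]; exact h2
      _ ≤ _ := mul_le_mul_of_nonneg_left h1 (by positivity)
  · have e0 : Matrix.single a b (-1 : ℤ) = -Matrix.single a b 1 := by
      ext i j
      rw [Matrix.neg_apply, Matrix.single_apply, Matrix.single_apply]
      split_ifs <;> simp
    have e1 : (t : ℤ) • X0 - Matrix.single a b 1 = (t : ℤ) • X0 + Matrix.single a b (-1) := by
      rw [sub_eq_add_neg, e0]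
    rw [e1, Pool.HY.permanent_add_single, Pool.HY.permanent_add_single, hXt]
    ring

theorem main_box (n k : ℕ) (hn : 2 ≤ n) (ψ : Fin k → Pr n) (φ : (Fin k → SignType) → Pr n)
    (hψ : ∀ i, BoxData (ψ i)) (hφ : ∀ S, ExData (φ S)) (R : ℕ) :
    ∃ X : Matrix (Fin n) (Fin n) ℤ, X.permanent = 0 ∧
      (∀ a b, (R : ℤ) ≤ |(X + Matrix.single a b 1).permanent| ∧
        (X - Matrix.single a b 1).permanent = -(X + Matrix.single a b 1).permanent) ∧
      (∀ Y : Fin n × Fin n → ℝ, (∀ v, |Y v - X v.1 v.2| ≤ R) →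
        ∀ i, sgR (ψ i) Y = sgR (ψ i) (fun v => (X v.1 v.2 : ℝ))) ∧
      ∀ δ : ℝ, 0 < δ → ∃ Y Z : Fin n × Fin n → ℝ, (∀ v, |Y v - X v.1 v.2| < δ) ∧
        (∀ v, |Z v - X v.1 v.2| < δ) ∧ 0 < eval Y (permPoly ℝ n) ∧ eval Z (permPoly ℝ n) < 0 ∧
        resR (φ fun i => sgR (ψ i) (fun v => (X v.1 v.2 : ℝ))) Y =
          resR (φ fun i => sgR (ψ i) (fun v => (X v.1 v.2 : ℝ))) (fun v => (X v.1 v.2 : ℝ)) ∧
        resR (φ fun i => sgR (ψ i) (fun v => (X v.1 v.2 : ℝ))) Z =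
          resR (φ fun i => sgR (ψ i) (fun v => (X v.1 v.2 : ℝ))) (fun v => (X v.1 v.2 : ℝ)) := by
  classical
  have hn1 : 1 ≤ n := by omega
  have hP : Prime (permPoly ℂ n) := perm_prime hn1
  choose Ht hHt ht using hψ
  choose a H A B hnd hH hAB hx using hφ
  have hlin := fun q : Fin n × Fin n => Pool.RQ.perm_lin n q
  choose am bm ham hbm hPm hae hbe using hlin
  obtain ⟨X0, hX0, hXne⟩ := Pool.RQ.int_pt n hn1
    ((∏ i, Ht i) * ((∏ S, (H S * dl (tc (a S)) (permPoly ℂ n))) * ∏ v, am v)) (fun h => by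
      rcases hP.dvd_or_dvd h with h | h
      · obtain ⟨i, _, hi⟩ := hP.exists_mem_finset_dvd h
        exact hHt i hi
      · rcases hP.dvd_or_dvd h with h | h
        · obtain ⟨S, _, hS⟩ := hP.exists_mem_finset_dvd h
          rcases hP.dvd_or_dvd hS with h | h
          · exact hH S h
          · exact hnd S h
        · obtain ⟨v, _, hv⟩ := hP.exists_mem_finset_dvd h
          exact Pool.HY.not_dvd_minor v (ham v) (hbm v) (hPm v) (hae v) hv)
  rw [map_mul, map_mul, map_prod, map_prod, map_prod] at hXne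
  have hXt : ∀ i, eval (fun v : Fin n × Fin n => (X0 v.1 v.2 : ℂ)) (Ht i) ≠ 0 := fun i =>
    Finset.prod_ne_zero_iff.1 (left_ne_zero_of_mul hXne) i (mem_univ i)
  have hXs : ∀ S, eval (fun v : Fin n × Fin n => (X0 v.1 v.2 : ℂ))
      (H S * dl (tc (a S)) (permPoly ℂ n)) ≠ 0 := fun S =>
    Finset.prod_ne_zero_iff.1 (left_ne_zero_of_mul (right_ne_zero_of_mul hXne)) S (mem_univ S)
  have hXm : ∀ v, eval (fun v : Fin n × Fin n => (X0 v.1 v.2 : ℂ)) (am v) ≠ 0 := fun v =>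
    Finset.prod_ne_zero_iff.1 (right_ne_zero_of_mul (right_ne_zero_of_mul hXne)) v (mem_univ v)
  have hM0 : ∀ a' b' : Fin n, (Matrix.of fun i j => Function.update (fun p => X0 p.1 p.2)
      (a', b') 1 (i, j)).permanent - (Matrix.of fun i j => Function.update
        (fun p => X0 p.1 p.2) (a', b') 0 (i, j)).permanent ≠ 0 := by
    intro a' b' h0
    apply hXm (a', b')
    rw [hae]
    have h1 := Pool.RQ.update_cast (fun p : Fin n × Fin n => X0 p.1 p.2) (a', b') 1
    have h2 := Pool.RQ.update_cast (fun p : Fin n × Fin n => X0 p.1 p.2) (a', b') 0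
    rw [Int.cast_one] at h1
    rw [Int.cast_zero] at h2
    rw [h1, h2, Pool.RQ.eval_perm_int, Pool.RQ.eval_perm_int, ← Int.cast_sub]
    exact_mod_cast h0
  -- the signs far away
  obtain ⟨x₀, hx₀⟩ : ∃ x₀ : Fin n × Fin n → ℝ, x₀ = fun v => (X0 v.1 v.2 : ℝ) := ⟨_, rfl⟩
  have hcx : cx x₀ = fun v : Fin n × Fin n => (X0 v.1 v.2 : ℂ) := by
    rw [hx₀]
    exact cx_int X0
  have hsig : ∀ i, ∃ σ : SignType, ∀ᶠ z in 𝓝 x₀ ×ˢ 𝓝[>] 0,
      sgR (ψ i) (fun v => z.1 v / z.2) = σ := fun i => ht i x₀ (by rw [hcx]; exact hXt i)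
  choose σ hσ using hsig
  have hall : ∀ᶠ z in 𝓝 x₀ ×ˢ 𝓝[>] (0 : ℝ), ∀ i, sgR (ψ i) (fun v => z.1 v / z.2) = σ i :=
    Filter.eventually_all.2 hσ
  obtain ⟨U, hU, W, hW, hUW⟩ := Filter.mem_prod_iff.1 hall
  obtain ⟨ρ, hρ, hρU⟩ := Metric.mem_nhds_iff.1 hU
  obtain ⟨ρ', hρ', hρW⟩ := mem_nhdsGT_iff_exists_Ioo_subset.1 hW
  -- the multiple
  have ev1 : ∀ᶠ m : ℕ in atTop, (R : ℝ) / ρ < m :=
    (tendsto_natCast_atTop_atTop (R := ℝ)).eventually_gt_atTop _
  have ev2 : ∀ᶠ m : ℕ in atTop, 1 / ρ' < (m : ℝ) :=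
    (tendsto_natCast_atTop_atTop (R := ℝ)).eventually_gt_atTop _
  have ev3 : ∀ᶠ m : ℕ in atTop, ∀ S, eval (fun v : Fin n × Fin n => (m : ℂ) * (X0 v.1 v.2 : ℂ))
      (H S * dl (tc (a S)) (permPoly ℂ n)) ≠ 0 :=
    Filter.eventually_all.2 fun S => eventually_smul _ _ (hXs S)
  obtain ⟨m, ⟨⟨hm1, hm2⟩, hm3⟩, hm4⟩ :=
    (((ev1.and ev2).and ev3).and (eventually_ge_atTop (R + 1))).exists
  have hm0 : (0 : ℝ) < m := by
    have : 1 ≤ m := by omega
    exact_mod_cast this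
  have hbox : ∀ Y : Fin n × Fin n → ℝ, (∀ v, |Y v - (((m : ℤ) • X0) v.1 v.2 : ℤ)| ≤ R) →
      ∀ i, sgR (ψ i) Y = σ i := by
    intro Y hY i
    have h1 : (fun v => Y v / m) ∈ U := by
      apply hρU
      rw [Metric.mem_ball, dist_pi_lt_iff hρ]
      intro v
      rw [Real.dist_eq, hx₀]
      have h2 : Y v / m - (X0 v.1 v.2 : ℝ) = (Y v - (((m : ℤ) • X0) v.1 v.2 : ℤ)) / m := by
        rw [Matrix.smul_apply, smul_eq_mul]
        push_cast
        field_simp
      rw [h2, abs_div, abs_of_pos hm0, div_lt_iff₀ hm0]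
      rw [div_lt_iff₀ hρ] at hm1
      have := hY v
      linarith
    have h2 : (1 : ℝ) / m ∈ W := by
      apply hρW
      constructor
      · positivity
      · rw [div_lt_iff₀ hm0]
        rw [div_lt_iff₀ hρ'] at hm2
        linarith
    have h3 := hUW (Set.mk_mem_prod h1 h2) i
    have h4 : (fun v => Y v / m / (1 / m)) = Y := by
      funext v
      field_simp
    rwa [h4] at h3
  have hXt' : ((m : ℤ) • X0).permanent = 0 := by
    rw [Matrix.permanent_smul, hX0, mul_zero]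
  have hself : ∀ i, sgR (ψ i) (fun v => (((m : ℤ) • X0) v.1 v.2 : ℝ)) = σ i :=
    hbox _ (fun v => by
      show |((((m : ℤ) • X0) v.1 v.2 : ℤ) : ℝ) - ((((m : ℤ) • X0) v.1 v.2 : ℤ) : ℝ)| ≤ R
      rw [sub_self, abs_zero]
      exact Nat.cast_nonneg R)
  refine ⟨(m : ℤ) • X0, hXt', minors hn X0 hX0 hM0 R m hm4, fun Y hY i => ?_, fun δ hδ => ?_⟩
  · rw [hself, hbox Y hY i]
  · obtain ⟨S, hS⟩ : ∃ S : Fin k → SignType, S = fun i =>
        sgR (ψ i) (fun v => (((m : ℤ) • X0) v.1 v.2 : ℝ)) := ⟨_, rfl⟩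
    rw [← hS]
    have h1 := hm3 S
    have h2 : cx (fun v : Fin n × Fin n => (((m : ℤ) • X0) v.1 v.2 : ℝ)) =
        fun v : Fin n × Fin n => (m : ℂ) * (X0 v.1 v.2 : ℂ) := by
      rw [cx_int]
      funext v
      rw [Matrix.smul_apply, smul_eq_mul]
      push_cast
      rfl
    rw [← h2, map_mul] at h1
    obtain ⟨Y, Z, hY, hZ, e1, e2, e3, e4⟩ := flow_pair (φ S) (a S) (H S) (A S) (B S) (hAB S) (hx S)
      (fun v : Fin n × Fin n => (((m : ℤ) • X0) v.1 v.2 : ℝ)) (left_ne_zero_of_mul h1)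
      (right_ne_zero_of_mul h1) (by
        rw [eval_permPoly']
        have h1 : (Matrix.of fun i j : Fin n => (((m : ℤ) • X0) i j : ℝ)) =
            ((m : ℤ) • X0).map (Int.castRingHom ℝ) := by
          ext i j
          rfl
        have h2 : (((m : ℤ) • X0).map (Int.castRingHom ℝ)).permanent =
            ((((m : ℤ) • X0).permanent : ℤ) : ℝ) := by
          unfold Matrix.permanent
          rw [Int.cast_sum]
          refine Finset.sum_congr rfl fun x _ => ?_
          rw [Int.cast_prod]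
          rfl
        show (Matrix.of fun i j : Fin n => (((m : ℤ) • X0) i j : ℝ)).permanent = 0
        rw [h1, h2, hXt', Int.cast_zero])
      (fun x => ∀ v, |x v - (((m : ℤ) • X0) v.1 v.2 : ℤ)| < δ) (by
        have h5 := Metric.ball_mem_nhds
          (fun v : Fin n × Fin n => (((m : ℤ) • X0) v.1 v.2 : ℝ)) hδ
        filter_upwards [h5] with x hxx v
        rw [Metric.mem_ball, dist_pi_lt_iff hδ] at hxx
        have := hxx v
        rwa [Real.dist_eq] at this)
    exact ⟨Y, Z, hY, hZ, e1, e2, e3, e4⟩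

end Pool.FV
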