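import Pool.Agent.Helper29.FV.AMain
import Pool.Agent.Helper29.FV.BMain

/-!
# FV: small programs whose other leaves are arbitrary functions of the earlier results
-/

set_option autoImplicit false
set_option linter.unusedSectionVars false

namespace Pool.FV

open Finset MvPolynomial Pool.Agent.Helper71.Fml Pool.Agent.Helper97.Form Filter Topology

section Blocks

variable {W : Type}

/-- If a program is small then it has few leaves in some block. -/
theorem exists_blockA (n s : ℕ) (hs1 : 1 ≤ s) (q : List (Formula ℂ ((Fin n × Fin n) ⊕ W)))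
    (hR : 48 * reuse q ≤ 4 ^ s) (hsize : 24 * size q < n * (n / (2 * s)) * 4 ^ s) :
    ∃ r c : Fin (2 * s) → Fin n, Function.Injective r ∧ Function.Injective c ∧
      12 * (blkSize (blk r c) q + reuse q) < Fintype.card {i : RC s // UU i ≠ ∅} := by
  classical
  by_contra hcon0
  have hcon : ∀ r c : Fin (2 * s) → Fin n, Function.Injective r → Function.Injective c →
      ¬ 12 * (blkSize (blk r c) q + reuse q) < Fintype.card {i : RC s // UU i ≠ ∅} :=
    fun r c hr hc h => hcon0 ⟨r, c, hr, hc, h⟩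
  have h4 : 4 ≤ 4 ^ s := by
    calc 4 = 4 ^ 1 := by norm_num
      _ ≤ 4 ^ s := Nat.pow_le_pow_right (by norm_num) hs1
  have key : ∀ r c : Fin (2 * s) → Fin n, Function.Injective r → Function.Injective c →
      (4 ^ s + 23) / 24 ≤ (joinP q).leavesIn (blk r c) := by
    intro r c hr hc
    have hcard := card_pos s
    have h1 := hcon r c hr hc
    rw [leavesIn_joinP]
    omega
  have hb := blocks n (2 * s) (by omega) (joinP q) _ key
  rw [size_joinP] at hb
  have h6 : 4 ^ s ≤ 24 * ((4 ^ s + 23) / 24) := by omega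
  have h7 : n * (n / (2 * s)) * 4 ^ s ≤ n * (n / (2 * s)) * (24 * ((4 ^ s + 23) / 24)) :=
    Nat.mul_le_mul_left _ h6
  have h8 : n * (n / (2 * s)) * (24 * ((4 ^ s + 23) / 24)) =
    24 * (n * (n / (2 * s)) * ((4 ^ s + 23) / 24)) := by ring
  omega

variable {V : Type} [DecidableEq V]

theorem sum_cut (D : Finset V) (T L : List (Formula ℂ (V ⊕ W))) :
    ((T ++ L.filter fun ψ => decide (inBlock D ψ + uses ψ ≠ 0)).map
      fun ψ => 2 * (5 * (inBlock D ψ + uses ψ) + 1)).sum ≤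
      12 * ((T.map fun ψ => inBlock D ψ + uses ψ).sum +
        (L.map fun ψ => inBlock D ψ + uses ψ).sum) + 2 * T.length := by
  rw [List.map_append, List.sum_append]
  have h1 : (T.map fun ψ => 2 * (5 * (inBlock D ψ + uses ψ) + 1)).sum ≤
      12 * (T.map fun ψ => inBlock D ψ + uses ψ).sum + 2 * T.length := by
    induction T with
    | nil => simp
    | cons ψ T ih =>
      simp only [List.map_cons, List.sum_cons, List.length_cons]
      omega
  have h2 : ((L.filter fun ψ => decide (inBlock D ψ + uses ψ ≠ 0)).map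
      fun ψ => 2 * (5 * (inBlock D ψ + uses ψ) + 1)).sum ≤
      12 * (L.map fun ψ => inBlock D ψ + uses ψ).sum := by
    induction L with
    | nil => simp
    | cons ψ L ih =>
      rw [List.filter_cons]
      split_ifs with h
      · have h' : inBlock D ψ + uses ψ ≠ 0 := of_decide_eq_true h
        simp only [List.map_cons, List.sum_cons]
        omega
      · simp only [List.map_cons, List.sum_cons]
        omega
  omega

theorem weigh_sum (D : Finset V) (φ : Formula ℂ (V ⊕ W)) : inBlock D φ + uses φ =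
    weigh (Sum.elim (fun v => if v ∈ D then 1 else 0) fun _ => 1) φ := by
  unfold inBlock uses
  rw [← weigh_add]
  congr 1
  funext w
  rcases w with v | g
  · simp
  · simp

theorem sum_prog (D : Finset V) (tab : W → List ℂ → ℂ) (x : V → ℝ)
    (q : List (Formula ℂ (V ⊕ W))) :
    ((tops (cutP tab x q) ++ (dens (cutP tab x q)).filter
      fun ψ => decide (inBlock D ψ + uses ψ ≠ 0)).map
      fun ψ => 2 * (5 * (inBlock D ψ + uses ψ) + 1)).sum ≤ 12 * (blkSize D q + reuse q) := by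
  refine (sum_cut D _ _).trans ?_
  obtain ⟨h1, h2⟩ := weigh_cutP (Sum.elim (fun v => if v ∈ D then 1 else 0) fun _ => 1) tab x q
  rw [h2, show (fun ψ : Formula ℂ (V ⊕ W) => inBlock D ψ + uses ψ) =
    weigh (Sum.elim (fun v => if v ∈ D then 1 else 0) fun _ => 1) from
    funext fun ψ => weigh_sum D ψ]
  have h3 : (q.map (weigh (Sum.elim (fun v => if v ∈ D then 1 else 0) fun _ => 1))).sum =
      blkSize D q + (q.map uses).sum := by
    clear h1 h2
    induction q with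
    | nil => simp [blkSize]
    | cons φ q ih =>
      have e1 : blkSize D (φ :: q) = inBlock D φ + blkSize D q := by simp [blkSize]
      rw [List.map_cons, List.sum_cons, ih, e1, ← weigh_sum, List.map_cons, List.sum_cons]
      omega
  have h4 : reuse q = q.length + (q.map uses).sum := rfl
  omega

end Blocks

section Gen

variable {W : Type} [Fintype W] [DecidableEq W] {n : ℕ}

theorem dens_zero {V : Type} (tab : W → List ℂ → ℂ) (x : V → ℝ) (q : List (Formula ℂ (V ⊕ W))) :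
    ∀ ψ ∈ dens (cutP tab x q), ∃ u : W → ℂ, Def (Sum.elim (cx x) u) ψ ∧
      ev (Sum.elim (cx x) u) ψ = 0 := by
  induction q with
  | nil =>
    intro ψ hψ
    simp [cutP, dens] at hψ
  | cons φ q ih =>
    intro ψ hψ
    unfold dens at hψ
    simp only [cutP, List.flatMap_cons, List.mem_append] at hψ
    rcases hψ with hψ | hψ
    · exact ⟨_, (def_cut _ φ).2 ψ hψ⟩
    · exact ih ψ hψ

/-- For generic zeros `x₀` of the permanent there are points near `x₀` with permanents of both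
signs and the same results. -/
def GenEx (tab : W → List ℂ → ℂ) (q : List (Formula ℂ ((Fin n × Fin n) ⊕ W))) : Prop :=
  ∃ H : MvPolynomial (Fin n × Fin n) ℂ, ¬ permPoly ℂ n ∣ H ∧
    ∀ x₀ : Fin n × Fin n → ℝ, eval (cx x₀) H ≠ 0 → eval x₀ (permPoly ℝ n) = 0 →
      ∀ p : (Fin n × Fin n → ℝ) → Prop, (∀ᶠ x in 𝓝 x₀, p x) →
        ∃ Y Z : Fin n × Fin n → ℝ, p Y ∧ p Z ∧ 0 < eval Y (permPoly ℝ n) ∧
          eval Z (permPoly ℝ n) < 0 ∧ resT tab Y q = resT tab x₀ q ∧
          resT tab Z q = resT tab x₀ q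

theorem pair_of_flow (tab : W → List ℂ → ℂ) (q : List (Formula ℂ ((Fin n × Fin n) ⊕ W)))
    (a : Fin n × Fin n → MvPolynomial (Fin n × Fin n) ℝ) (x₀ : Fin n × Fin n → ℝ)
    (hd0 : eval (cx x₀) (dl (tc a) (permPoly ℂ n)) ≠ 0) (hP0 : eval x₀ (permPoly ℝ n) = 0)
    (hconst : ∀ γ : ℝ → Fin n × Fin n → ℝ, γ 0 = x₀ → Follows a γ →
      ∀ᶠ t in 𝓝 (0 : ℝ), resT tab (γ t) q = resT tab (γ 0) q)
    (p : (Fin n × Fin n → ℝ) → Prop) (hp : ∀ᶠ x in 𝓝 x₀, p x) :
    ∃ Y Z : Fin n × Fin n → ℝ, p Y ∧ p Z ∧ 0 < eval Y (permPoly ℝ n) ∧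
      eval Z (permPoly ℝ n) < 0 ∧ resT tab Y q = resT tab x₀ q ∧
      resT tab Z q = resT tab x₀ q := by
  obtain ⟨γ, hγ0, hγ⟩ := flow a x₀
  have hc := hconst γ hγ0 hγ
  rw [hγ0] at hc
  obtain ⟨ε, hε, hγ'⟩ := hγ
  have h0 : (0 : ℝ) ∈ Set.Ioo (-ε) ε := ⟨by linarith, hε⟩
  have hγc : ContinuousAt γ 0 := (hγ' 0 h0).1
  have hev : ∀ᶠ t in 𝓝 (0 : ℝ), p (γ t) ∧ resT tab (γ t) q = resT tab x₀ q := by
    have hp' : ∀ᶠ x in 𝓝 (γ 0), p x := by
      rw [hγ0]
      exact hp
    exact (hγc.eventually hp').and hc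
  have hder := (hγ' 0 h0).2 (permPoly ℝ n)
  have hd : eval (γ 0) (dl a (permPoly ℝ n)) ≠ 0 := by
    rw [hγ0]
    intro h
    apply hd0
    have e1 : permPoly ℂ n = toC _ (permPoly ℝ n) := (map_permPoly n).symm
    rw [e1, dl_toC, eval_toC, h, Complex.ofReal_zero]
  rw [← hγ0] at hP0
  obtain ⟨⟨t₁, ht₁, hpos⟩, t₂, ht₂, hneg⟩ := signs_both hder hP0 hd hev
  exact ⟨γ t₁, γ t₂, ht₁.1, ht₂.1, hpos, hneg, ht₁.2, ht₂.2⟩

theorem genEx (n s : ℕ) (hn : 1 ≤ n) (hs1 : 1 ≤ s) (hs : 12 * 2 ^ s ≤ n) (tab : W → List ℂ → ℂ)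
    (q : List (Formula ℂ ((Fin n × Fin n) ⊕ W))) (hR : 48 * reuse q ≤ 4 ^ s)
    (hsize : 24 * size q < n * (n / (2 * s)) * 4 ^ s) : GenEx tab q := by
  classical
  have hP : Prime (permPoly ℂ n) := perm_prime hn
  obtain ⟨r, c, hr, hc, hlt⟩ := exists_blockA n s hs1 q hR hsize
  obtain ⟨p, hp, hli⟩ := gadKK (K := ℂ) n s hs two_ne_zero r c hr hc
  have hsol : ∀ x : Fin n × Fin n → ℝ, ∃ e : {i : RC s // UU i ≠ ∅} →
      MvPolynomial (Fin n × Fin n) ℝ, ¬ permPoly ℂ n ∣ dl (tc (cf p e)) (permPoly ℂ n) ∧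
      ∀ ψ ∈ tops (cutP tab x q) ++ (dens (cutP tab x q)).filter
        (fun ψ => decide (inBlock (blk r c) ψ + uses ψ ≠ 0)),
        dF (fun i => (Sum.inl (p i) : (Fin n × Fin n) ⊕ W))
          (fun i => rc ((Fin n × Fin n) ⊕ W) (rename Sum.inl (e i)))
          (ev (gp ℂ ((Fin n × Fin n) ⊕ W)) ψ) = 0 := by
    intro x
    obtain ⟨e, he0, heR, hek⟩ := killA p hp _ ((sum_prog (blk r c) tab x q).trans_lt hlt)
    refine ⟨e, fun h5 => ?_, hek⟩
    rw [tc_cf, dl_cf] at h5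
    exact he0 (funext fun i => toC_eq_zero (not_dvd (fun v _ => degreeOf_perm v) p hli _
      (fun i => toC_mem (heR i)) h5 i))
  have hfin := finite_cutP tab q
  obtain ⟨S, hS⟩ : ∃ S, S = hfin.toFinset := ⟨_, rfl⟩
  have hmem : ∀ x, cutP tab x q ∈ S := fun x => by
    rw [hS, Set.Finite.mem_toFinset]
    exact ⟨x, rfl⟩
  have hex : ∀ v, ∃ e : {i : RC s // UU i ≠ ∅} →
      MvPolynomial (Fin n × Fin n) ℝ, ¬ permPoly ℂ n ∣ dl (tc (cf p e)) (permPoly ℂ n) ∧
      (v ∈ S → ∀ ψ ∈ tops v ++ (dens v).filter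
        (fun ψ => decide (inBlock (blk r c) ψ + uses ψ ≠ 0)),
        dF (fun i => (Sum.inl (p i) : (Fin n × Fin n) ⊕ W))
          (fun i => rc ((Fin n × Fin n) ⊕ W) (rename Sum.inl (e i)))
          (ev (gp ℂ ((Fin n × Fin n) ⊕ W)) ψ) = 0) := by
    intro v
    by_cases hv : v ∈ S
    · rw [hS, Set.Finite.mem_toFinset] at hv
      obtain ⟨x, rfl⟩ := hv
      obtain ⟨e, h1, h2⟩ := hsol x
      exact ⟨e, h1, fun _ => h2⟩
    · obtain ⟨e, h1, _⟩ := hsol (fun _ => 0)
      exact ⟨e, h1, fun h => absurd h hv⟩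
  choose e he1 he2 using hex
  refine ⟨∏ v ∈ S, (dl (tc (cf p (e v))) (permPoly ℂ n) *
    ((dens v).map fun ψ => if permPoly ℂ n ∣ n0 ψ then 1 else n0 ψ).prod), ?_, ?_⟩
  · intro h
    obtain ⟨v, _, hv⟩ := hP.exists_mem_finset_dvd h
    rcases hP.dvd_or_dvd hv with h | h
    · exact he1 v h
    · obtain ⟨g, hg, hg'⟩ := (Prime.dvd_prod_iff hP).1 h
      obtain ⟨ψ, _, rfl⟩ := List.mem_map.1 hg
      split_ifs at hg' with h5
      · exact hP.not_isUnit (isUnit_of_dvd_one hg')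
      · exact h5 hg'
  · intro x₀ hx₀ hP0 p' hp'
    rw [map_prod] at hx₀
    have h1 := Finset.prod_ne_zero_iff.1 hx₀ _ (hmem x₀)
    rw [map_mul] at h1
    refine pair_of_flow tab q (cf p (e (cutP tab x₀ q))) x₀ (left_ne_zero_of_mul h1) hP0 ?_ p' hp'
    intro γ hγ0 hγ
    have hk := he2 _ (hmem x₀)
    have hden : ∀ ψ ∈ dens (cutP tab x₀ q), uses ψ = 0 → inBlock (blk r c) ψ = 0 →
        n0 ψ = 0 := by
      intro ψ hψ hu hb
      obtain ⟨u, hD, hv⟩ := dens_zero tab x₀ q ψ hψ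
      have hD' : Def (Sum.elim (cx x₀) fun _ => 0 : (Fin n × Fin n) ⊕ W → ℂ) ψ :=
        def_free (cx x₀) u (fun _ => 0) ψ hu hD
      rw [ev_free (cx x₀) u (fun _ => 0) ψ hu] at hv
      have hz : ∀ (w : (Fin n × Fin n) ⊕ W),
          (Sum.elim (cx x₀) fun _ => 0 : (Fin n × Fin n) ⊕ W → ℂ) w = aeval (cx x₀)
            ((Sum.elim X fun _ => 0 : (Fin n × Fin n) ⊕ W → MvPolynomial (Fin n × Fin n) ℂ)
              w) := by
        rintro (v | w)
        · exact (aeval_X (cx x₀) v).symm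
        · exact (map_zero _).symm
      have e1 := nu_ne (L := ℂ) (Sum.elim X fun _ => 0 :
        (Fin n × Fin n) ⊕ W → MvPolynomial (Fin n × Fin n) ℂ) (aeval (cx x₀)) _ hz ψ hD'
      have e2 := nu_val (L := ℂ) (Sum.elim X fun _ => 0 :
        (Fin n × Fin n) ⊕ W → MvPolynomial (Fin n × Fin n) ℂ) (aeval (cx x₀)) _ hz ψ e1
      rw [hv, zero_mul] at e2
      have e3 : eval (cx x₀) (n0 ψ) = 0 := by
        rw [← MvPolynomial.aeval_eq_eval]
        exact e2.symm
      by_contra hne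
      have hnd : ¬ permPoly ℂ n ∣ n0 ψ := by
        rintro ⟨G, hG⟩
        have hG0 : G ≠ 0 := by
          rintro rfl
          rw [mul_zero] at hG
          exact hne hG
        have hR0 := mem_R0_iff.1 (nu_mem (D := blk r c) ψ hu hb).1
        have hvm : (r ⟨0, by omega⟩, c ⟨0, by omega⟩) ∈ blk r c := by
          unfold blk
          exact Finset.mem_image.2 ⟨⟨0, by omega⟩, Finset.mem_univ _, rfl⟩
        have h6 := hR0 _ hvm
        change degreeOf _ (n0 ψ) = 0 at h6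
        rw [hG, degreeOf_mul_eq hP.ne_zero hG0, degreeOf_perm] at h6
        omega
      have h7 := right_ne_zero_of_mul h1
      rw [map_list_prod] at h7
      apply h7
      apply List.prod_eq_zero
      rw [List.map_map, List.mem_map]
      refine ⟨ψ, hψ, ?_⟩
      rw [Function.comp_apply, if_neg hnd]
      exact e3
    refine along_prog tab p (e (cutP tab x₀ q)) hγ q ?_ ?_
    · rw [hγ0]
      exact fun ψ hψ => hk ψ (List.mem_append_left _ hψ)
    · rw [hγ0]
      intro ψ hψ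
      by_cases h0 : inBlock (blk r c) ψ + uses ψ ≠ 0
      · exact Or.inl (hk ψ (List.mem_append_right _ (List.mem_filter.2 ⟨hψ, decide_eq_true h0⟩)))
      · exact Or.inr ⟨by omega, hden ψ hψ (by omega) (by omega)⟩

end Gen

end Pool.FV
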