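import Pool.Agent.Helper29.FV.ADer

/-!
# FV: programs whose other leaves are arbitrary functions of the earlier results
-/

set_option autoImplicit false
set_option linter.unusedSectionVars false

namespace Pool.FV

open Finset MvPolynomial Pool.Agent.Helper71.Fml Pool.Agent.Helper97.Form Filter Topology

section Res

variable {V W : Type}

/-- the results at a real point, the last one first; the leaf `w` is the function `tab w` of the
earlier results -/
noncomputable def resT (tab : W → List ℂ → ℂ) (x : V → ℝ) : List (Formula ℂ (V ⊕ W)) → List ℂ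
  | [] => []
  | φ :: q => ev (Sum.elim (cx x) fun w => tab w (resT tab x q)) φ :: resT tab x q

/-- the cut formulas of all steps -/
noncomputable def cutP (tab : W → List ℂ → ℂ) (x : V → ℝ) :
    List (Formula ℂ (V ⊕ W)) → List (Formula ℂ (V ⊕ W) × List (Formula ℂ (V ⊕ W)))
  | [] => []
  | φ :: q => cutAt (Sum.elim (cx x) fun w => tab w (resT tab x q)) φ :: cutP tab x q

theorem finite_cutP (tab : W → List ℂ → ℂ) (q : List (Formula ℂ (V ⊕ W))) :
    (Set.range fun x : V → ℝ => cutP tab x q).Finite := by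
  induction q with
  | nil =>
    refine (Set.finite_singleton
      ([] : List (Formula ℂ (V ⊕ W) × List (Formula ℂ (V ⊕ W))))).subset ?_
    rintro _ ⟨x, rfl⟩
    exact rfl
  | cons φ q ih =>
    refine (Set.Finite.image2 (fun u v => u :: v) (finite_cut (L := ℂ) φ) ih).subset ?_
    rintro _ ⟨x, rfl⟩
    exact ⟨_, ⟨_, rfl⟩, _, ⟨x, rfl⟩, rfl⟩

/-- the main parts and the cut denominators -/
def tops (v : List (Formula ℂ (V ⊕ W) × List (Formula ℂ (V ⊕ W)))) : List (Formula ℂ (V ⊕ W)) :=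
  v.map Prod.fst

def dens (v : List (Formula ℂ (V ⊕ W) × List (Formula ℂ (V ⊕ W)))) : List (Formula ℂ (V ⊕ W)) :=
  v.flatMap Prod.snd

theorem weigh_cutP (f : V ⊕ W → ℕ) (tab : W → List ℂ → ℂ) (x : V → ℝ)
    (q : List (Formula ℂ (V ⊕ W))) :
    ((tops (cutP tab x q)).map (weigh f)).sum + ((dens (cutP tab x q)).map (weigh f)).sum ≤
      (q.map (weigh f)).sum ∧ (tops (cutP tab x q)).length = q.length := by
  induction q with
  | nil => simp [cutP, tops, dens]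
  | cons φ q ih =>
    have h1 := weigh_cut f (Sum.elim (cx x) fun w => tab w (resT tab x q)) φ
    simp only [cutP, tops, dens, List.map_cons, List.flatMap_cons, List.map_append,
      List.sum_append, List.sum_cons, List.length_cons] at ih ⊢
    exact ⟨by omega, by omega⟩

end Res

section Along

variable {V W : Type} [Fintype V] [DecidableEq V] [Fintype W] [DecidableEq W]

/-- the curve follows the vector field -/
def Follows (a : V → MvPolynomial V ℝ) (γ : ℝ → V → ℝ) : Prop :=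
  ∃ ε : ℝ, 0 < ε ∧ ∀ t ∈ Set.Ioo (-ε) ε, ContinuousAt γ t ∧ ∀ F : MvPolynomial V ℝ,
      HasDerivAt (fun t => eval (γ t) F) (eval (γ t) (dl a F)) t

theorem Follows.ev_ne {a : V → MvPolynomial V ℝ} {γ : ℝ → V → ℝ} (h : Follows a γ)
    (M : MvPolynomial V ℂ) (hM : eval (cx (γ 0)) M ≠ 0) :
    ∀ᶠ t in 𝓝 (0 : ℝ), eval (cx (γ t)) M ≠ 0 := by
  obtain ⟨ε, hε, hγ⟩ := h
  have h0 : (0 : ℝ) ∈ Set.Ioo (-ε) ε := ⟨by linarith, hε⟩
  have hc : ContinuousAt (fun t => eval (cx (γ t)) M) 0 :=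
    (continuous_evalC M).continuousAt.comp (hγ 0 h0).1
  exact hc.eventually_ne hM

theorem Follows.const {a : V → MvPolynomial V ℝ} {γ : ℝ → V → ℝ} (h : Follows a γ)
    (N M : MvPolynomial V ℂ) (hNM : M * dl (tc a) N = N * dl (tc a) M)
    (hM : eval (cx (γ 0)) M ≠ 0) :
    ∀ᶠ t in 𝓝 (0 : ℝ), eval (cx (γ t)) M ≠ 0 ∧
      eval (cx (γ t)) N / eval (cx (γ t)) M = eval (cx (γ 0)) N / eval (cx (γ 0)) M := by
  have h1 := h.ev_ne M hM
  obtain ⟨ε, hε, hγ⟩ := h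
  have h2 : ∀ᶠ t in 𝓝 (0 : ℝ), t ∈ Set.Ioo (-ε) ε := Ioo_mem_nhds (by linarith) hε
  obtain ⟨δ, hδ, h3⟩ := Metric.eventually_nhds_iff.1 (h1.and h2)
  have h4 : ∀ t ∈ Set.Ioo (-δ) δ, eval (cx (γ t)) M ≠ 0 ∧ t ∈ Set.Ioo (-ε) ε := fun t ht =>
    h3 (y := t) (by rw [Real.dist_eq, sub_zero, abs_lt]; exact ht)
  filter_upwards [Ioo_mem_nhds (show -δ < 0 by linarith) hδ] with t ht
  exact ⟨(h4 t ht).1, const_alongC a γ (ε := δ) (fun t ht => (hγ t (h4 t ht).2).2) N M hNM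
    (fun t ht => (h4 t ht).1) t ht ⟨by linarith, hδ⟩⟩

theorem ev_eq_sp (u : W → ℂ) (x : V → ℝ) (ψ : Formula ℂ (V ⊕ W))
    (h : eval (cx x) (sp u (nu X ψ).2) ≠ 0) :
    ev (Sum.elim (cx x) u) ψ * eval (cx x) (sp u (nu X ψ).2) =
      eval (cx x) (sp u (nu X ψ).1) := by
  rw [eval_sp] at h
  rw [eval_sp, eval_sp]
  have h1 := nu_val (X : V ⊕ W → MvPolynomial (V ⊕ W) ℂ) (aeval (Sum.elim (cx x) u))
    (Sum.elim (cx x) u) (fun w => (aeval_X _ w).symm) ψ
  rw [MvPolynomial.aeval_eq_eval] at h1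
  exact h1 h

/-- a killed formula is constant along the curve -/
theorem along_killed {ι : Type} [Fintype ι] (p : ι → V) (e : ι → MvPolynomial V ℝ)
    {γ : ℝ → V → ℝ} (hγ : Follows (cf p e) γ) (u : W → ℂ) (ψ : Formula ℂ (V ⊕ W))
    (hk : dF (fun i => (Sum.inl (p i) : V ⊕ W)) (fun i => rc (V ⊕ W) (rename Sum.inl (e i)))
        (ev (gp ℂ (V ⊕ W)) ψ) = 0) (hD : Def (Sum.elim (cx (γ 0)) u) ψ) :
    ∀ᶠ t in 𝓝 (0 : ℝ), ev (Sum.elim (cx (γ t)) u) ψ = ev (Sum.elim (cx (γ 0)) u) ψ := by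
  have h1 : eval (cx (γ 0)) (sp u (nu X ψ).2) ≠ 0 := by
    rw [eval_sp]
    have h2 := nu_ne (X : V ⊕ W → MvPolynomial (V ⊕ W) ℂ) (aeval (Sum.elim (cx (γ 0)) u))
      (Sum.elim (cx (γ 0)) u) (fun w => (aeval_X _ w).symm) ψ hD
    rw [MvPolynomial.aeval_eq_eval] at h2
    exact h2
  have hM : (nu X ψ : MvPolynomial (V ⊕ W) ℂ × _).2 ≠ 0 := by
    intro h
    rw [h, map_zero, map_zero] at h1
    exact h1 rfl
  have h3 := cross p e ψ hk hM u
  filter_upwards [hγ.const _ _ h3 h1] with t ht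
  have e1 := ev_eq_sp u (γ t) ψ ht.1
  have e2 := ev_eq_sp u (γ 0) ψ h1
  have h4 := ht.2
  rw [← e1, ← e2, mul_div_cancel_right₀ _ ht.1, mul_div_cancel_right₀ _ h1] at h4
  exact h4

/-- the numerator of a formula, with `0` for the other leaves -/
noncomputable def n0 (ψ : Formula ℂ (V ⊕ W)) : MvPolynomial V ℂ :=
  (nu (Sum.elim X fun _ => 0 : V ⊕ W → MvPolynomial V ℂ) ψ).1

/-- a vanishing formula without other leaves whose numerator is zero vanishes along the curve -/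
theorem along_zero {a : V → MvPolynomial V ℝ} {γ : ℝ → V → ℝ} (hγ : Follows a γ) (u : W → ℂ)
    (ψ : Formula ℂ (V ⊕ W)) (hu : uses ψ = 0) (hN : n0 ψ = 0)
    (hD : Def (Sum.elim (cx (γ 0)) u) ψ) :
    ∀ᶠ t in 𝓝 (0 : ℝ), ev (Sum.elim (cx (γ t)) u) ψ = 0 := by
  have hz : ∀ (x : V → ℂ) (w : V ⊕ W), (Sum.elim x fun _ => 0 : V ⊕ W → ℂ) w =
      aeval x ((Sum.elim X fun _ => 0 : V ⊕ W → MvPolynomial V ℂ) w) := by
    rintro x (v | w)
    · exact (aeval_X x v).symm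
    · exact (map_zero _).symm
  have hD' := def_free (cx (γ 0)) u (fun _ => 0) ψ hu hD
  have h1 := nu_ne _ (aeval (cx (γ 0))) _ (hz _) ψ hD'
  rw [MvPolynomial.aeval_eq_eval] at h1
  filter_upwards [hγ.ev_ne _ h1] with t ht
  have h2 := nu_val _ (aeval (cx (γ t))) _ (hz _) ψ
  rw [MvPolynomial.aeval_eq_eval] at h2
  have h3 := h2 ht
  rw [show (nu (Sum.elim X fun _ => 0 : V ⊕ W → MvPolynomial V ℂ) ψ).1 = 0 from hN] at h3
  have h4 := (mul_eq_zero.1 (h3.trans (map_zero _))).resolve_right ht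
  rw [ev_free (cx (γ t)) u (fun _ => 0) ψ hu]
  exact h4

/-- all results are constant along the curve -/
theorem along_prog {ι : Type} [Fintype ι] (tab : W → List ℂ → ℂ) (p : ι → V)
    (e : ι → MvPolynomial V ℝ) {γ : ℝ → V → ℝ} (hγ : Follows (cf p e) γ)
    (q : List (Formula ℂ (V ⊕ W)))
    (ht : ∀ ψ ∈ tops (cutP tab (γ 0) q), dF (fun i => (Sum.inl (p i) : V ⊕ W))
      (fun i => rc (V ⊕ W) (rename Sum.inl (e i))) (ev (gp ℂ (V ⊕ W)) ψ) = 0)
    (hd : ∀ ψ ∈ dens (cutP tab (γ 0) q), dF (fun i => (Sum.inl (p i) : V ⊕ W))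
      (fun i => rc (V ⊕ W) (rename Sum.inl (e i))) (ev (gp ℂ (V ⊕ W)) ψ) = 0 ∨
        (uses ψ = 0 ∧ n0 ψ = 0)) :
    ∀ᶠ t in 𝓝 (0 : ℝ), resT tab (γ t) q = resT tab (γ 0) q := by
  induction q with
  | nil => exact Filter.Eventually.of_forall fun t => rfl
  | cons φ q ih =>
    have ih' := ih (fun ψ hψ => ht ψ (List.mem_cons_of_mem _ hψ)) (fun ψ hψ => hd ψ (by
      unfold dens at hψ ⊢
      simp only [cutP, List.flatMap_cons, List.mem_append]
      exact Or.inr hψ))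
    obtain ⟨u, hu⟩ : ∃ u : W → ℂ, u = fun w => tab w (resT tab (γ 0) q) := ⟨_, rfl⟩
    obtain ⟨v, hv⟩ : ∃ v, v = cutAt (Sum.elim (cx (γ 0)) u) φ := ⟨_, rfl⟩
    have hcut : cutP tab (γ 0) (φ :: q) = v :: cutP tab (γ 0) q := by
      rw [hv, hu]
      rfl
    rw [hcut] at ht hd
    have hdef := def_cut (Sum.elim (cx (γ 0)) u) φ
    rw [← hv] at hdef
    have h1 : ∀ᶠ t in 𝓝 (0 : ℝ), ev (Sum.elim (cx (γ t)) u) v.1 =
        ev (Sum.elim (cx (γ 0)) u) v.1 :=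
      along_killed p e hγ u v.1 (ht _ List.mem_cons_self) hdef.1
    have h2 : ∀ ψ ∈ v.2, ∀ᶠ t in 𝓝 (0 : ℝ), ev (Sum.elim (cx (γ t)) u) ψ = 0 := by
      intro ψ hψ
      have hD := hdef.2 ψ hψ
      rcases hd ψ (by
        unfold dens
        simp only [List.flatMap_cons, List.mem_append]
        exact Or.inl hψ) with hk | ⟨hk1, hk2⟩
      · filter_upwards [along_killed p e hγ u ψ hk hD.1] with t ht'
        rw [ht', hD.2]
      · exact along_zero hγ u ψ hk1 hk2 hD.1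
    have h3 : ∀ᶠ t in 𝓝 (0 : ℝ), ∀ ψ ∈ v.2, ev (Sum.elim (cx (γ t)) u) ψ = 0 := by
      have h4 := (List.finite_toSet v.2)
      exact (h4.eventually_all (l := 𝓝 (0 : ℝ))).2 h2
    filter_upwards [ih', h1, h3] with t e1 e2 e3
    simp only [resT]
    rw [e1, ← hu]
    have e4 : ev (Sum.elim (cx (γ t)) u) φ = ev (Sum.elim (cx (γ t)) u) v.1 := by
      rw [hv]
      exact ev_cut _ _ φ (by rw [← hv]; exact e3)
    have e5 : ev (Sum.elim (cx (γ 0)) u) φ = ev (Sum.elim (cx (γ 0)) u) v.1 := by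
      rw [hv]
      exact ev_cut _ _ φ (by rw [← hv]; exact fun ψ hψ => (hdef.2 ψ hψ).2)
    rw [e4, e5, e2]

end Along

end Pool.FV
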