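import Pool.Agent.Helper29.FV.BDer

/-!
# FV: the sign of the result of a small program far away from the origin
-/

set_option autoImplicit false
set_option linter.unusedSectionVars false

namespace Pool.FV

open Finset MvPolynomial Pool.Agent.Helper71.Fml Pool.Agent.Helper97.Form Filter Topology

/-- the results of a program at a real point -/
noncomputable def resR {V : Type} (q : List (Formula ℂ (V ⊕ MvPolynomial ℕ ℂ)))
    (x : V → ℝ) : List ℂ :=
  results (cx x) q

/-- the sign of the real part of the result of a program (of its last step) -/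
noncomputable def sgR {V : Type} (q : List (Formula ℂ (V ⊕ MvPolynomial ℕ ℂ)))
    (x : V → ℝ) : SignType :=
  SignType.sign ((resR q x).getD 0 0).re

section Conj

variable {V : Type}

theorem cj_bar (F : MvPolynomial (Option V) ℂ) : bar (cj (Option V) F) = cj V (bar F) := by
  induction F using MvPolynomial.induction_on with
  | C c => rw [bar_C, map_C, map_C, bar_C]
  | add p q hp hq => rw [map_add, map_add, map_add, map_add, hp, hq]
  | mul_X p o hp =>
    rw [map_mul, map_mul, map_mul, map_mul, hp]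
    rcases o with _ | v
    · rw [map_X, bar_X_none, map_zero]
    · rw [map_X, bar_X_some, map_X]

theorem cj_perm (n : ℕ) : cj _ (permPoly ℂ n) = permPoly ℂ n := by
  unfold permPoly Matrix.permanent
  simp only [map_sum, map_prod, Matrix.of_apply, map_X]

theorem cj_reN (A B : MvPolynomial V ℂ) : cj V (reN A B) = reN A B := by
  unfold reN
  rw [map_add, map_mul, map_mul, cj_cj, cj_cj]
  ring

/-- polynomials with real coefficients have real values -/
theorem im_eval {F : MvPolynomial V ℂ} (h : cj V F = F) (x : V → ℝ) : (eval (cx x) F).im = 0 := by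
  have h1 := eval_cj x F
  rw [h] at h1
  exact Complex.conj_eq_iff_im.1 h1.symm

variable [Fintype V] [DecidableEq V]

/-- the point `(x, ε)` -/
def pt (x : V → ℝ) (e : ℝ) (o : Option V) : ℝ := o.elim e x

theorem eval_pt_zero (x : V → ℝ) (F : MvPolynomial (Option V) ℂ) :
    eval (cx (pt x 0)) F = eval (cx x) (bar F) := by
  induction F using MvPolynomial.induction_on with
  | C c => rw [bar_C, eval_C, eval_C]
  | add p q hp hq => rw [map_add, map_add, map_add, hp, hq]
  | mul_X p o hp =>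
    rw [map_mul, map_mul, map_mul, hp, eval_X]
    rcases o with _ | v
    · rw [bar_X_none, map_zero]
      show _ * ((0 : ℝ) : ℂ) = _
      rw [Complex.ofReal_zero]
    · rw [bar_X_some, eval_X]
      rfl

theorem tendsto_eval (x₀ : V → ℝ) (F : MvPolynomial (Option V) ℂ) :
    Tendsto (fun z : (V → ℝ) × ℝ => eval (cx (pt z.1 z.2)) F) (𝓝 x₀ ×ˢ 𝓝[>] 0)
      (𝓝 (eval (cx x₀) (bar F))) := by
  rw [← eval_pt_zero]
  have h1 : Continuous fun z : (V → ℝ) × ℝ => pt z.1 z.2 := by
    refine continuous_pi fun o => ?_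
    rcases o with _ | v
    · exact continuous_snd
    · exact (continuous_apply v).comp continuous_fst
  have h2 : Continuous fun z : (V → ℝ) × ℝ => eval (cx (pt z.1 z.2)) F :=
    (continuous_evalC F).comp h1
  have h3 := h2.tendsto (x₀, (0 : ℝ))
  rw [nhds_prod_eq] at h3
  exact h3.mono_left (Filter.prod_mono le_rfl nhdsWithin_le_nhds)

end Conj

/-- The sign of the result of a small program is constant far away from the origin in the direction
of a generic zero of the permanent. -/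
theorem dataB (n s : ℕ) (hn : 1 ≤ n) (hs1 : 1 ≤ s) (hs : 12 * 2 ^ s ≤ n)
    (q : List (Formula ℂ ((Fin n × Fin n) ⊕ MvPolynomial ℕ ℂ)))
    (hR : 40 * reuse q ≤ 4 ^ s) (hsize : 20 * size q < n * (n / (2 * s)) * 4 ^ s) :
    ∃ H : MvPolynomial (Fin n × Fin n) ℂ, ¬ permPoly ℂ n ∣ H ∧
      ∀ x₀ : Fin n × Fin n → ℝ, eval (cx x₀) H ≠ 0 → ∃ σ : SignType,
        ∀ᶠ z in 𝓝 x₀ ×ˢ 𝓝[>] 0, sgR q (fun v => z.1 v / z.2) = σ := by
  classical
  have hP : Prime (permPoly ℂ n) := perm_prime hn
  have hQ := mulCls_QB hP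
  obtain ⟨a, ha0, ha, hnd⟩ := exists_derB n s hs1 hs q hR hsize
  have htc0 : tc a none = 0 := by
    unfold tc
    rw [ha0, map_zero]
  obtain ⟨G, hG, hx⟩ := rep_prog hQ (yB (Fin n × Fin n)) (size q) (reuse q)
    (fun r hr1 hr2 f hf => by
      obtain ⟨a', ha0', ha', hnd'⟩ := exists_derB n s hs1 hs r (by omega) (by omega)
      refine fracQ_of_killed hP (tc a') ?_ hnd' _ (ha' f hf)
      unfold tc
      rw [ha0', map_zero]) q le_rfl le_rfl
  -- the last result
  obtain ⟨f, hf⟩ : ∃ f, f = (results (yB (Fin n × Fin n)) q).getD 0 0 := ⟨_, rfl⟩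
  have hkf : DL (tc a) f = 0 := by
    rw [hf]
    rcases Nat.eq_zero_or_pos (results (yB (Fin n × Fin n)) q).length with h0 | h0
    · rw [List.getD_eq_default _ _ (by omega)]
      unfold DL
      refine sum_eq_zero fun w _ => ?_
      have h1 := D_algebraMap (K := ℂ) w (0 : MvPolynomial (Option (Fin n × Fin n)) ℂ)
      rw [map_zero, map_zero, map_zero] at h1
      rw [h1, mul_zero]
    · rw [List.getD_eq_getElem _ _ h0]
      exact ha _ (List.getElem_mem h0)
  obtain ⟨A₀, B₀, hB₀, hA₀, hfr⟩ := fracQ_of_killed hP (tc a) htc0 hnd f hkf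
  have hder := dl_div (tc a) hfr hkf
  have hB₀' := hB₀
  obtain ⟨j, B, hB, hPB⟩ := hB₀'
  have hcB₀ : QB (permPoly ℂ n) (cj _ B₀) := by
    refine ⟨j, cj _ B, ?_, ?_⟩
    · rw [hB, map_mul, map_pow, map_X]
    · intro h
      apply hPB
      rw [cj_bar] at h
      have h2 := map_dvd (cj (Fin n × Fin n)) h
      rwa [cj_cj, cj_perm] at h2
  obtain ⟨N, hN⟩ : ∃ N, N = reN A₀ B₀ := ⟨_, rfl⟩
  have hNQ : N = 0 ∨ QB (permPoly ℂ n) N := by
    have hMQ := hQ.mul _ _ hB₀ hcB₀
    have hk := DL_of_dl (tc a) (hQ.ne _ hMQ) (dl_reN a hder)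
    obtain ⟨A', B', hB', hA', hAB'⟩ := fracQ_of_killed hP (tc a) htc0 hnd _ hk
    have hM0 : algebraMap (MvPolynomial (Option (Fin n × Fin n)) ℂ)
        (FC (Option (Fin n × Fin n))) (B₀ * cj _ B₀) ≠ 0 := fun h => hQ.ne _ hMQ (map_inj
      (by rw [h, map_zero]))
    have hpoly : N * B' = A' * (B₀ * cj _ B₀) := by
      apply map_inj
      rw [map_mul, map_mul _ A' _, ← hAB', div_mul_eq_mul_div, div_mul_cancel₀ _ hM0, hN]
    rcases hA' with hA' | hA'
    · left
      rw [hA', zero_mul] at hpoly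
      exact (mul_eq_zero.1 hpoly).resolve_right (hQ.ne _ hB')
    · right
      refine QB.of_mul (W := B') ?_
      rw [hpoly]
      exact hQ.mul _ _ hA' hMQ
  obtain ⟨i, G', hG', hPG⟩ := hG
  -- the value of `N` at real points
  have hcore : ∀ (x : Fin n × Fin n → ℝ) (e : ℝ), 0 < e → eval (cx (pt x e)) G' ≠ 0 →
      ∃ b : ℝ, eval (cx (pt x e)) B ≠ 0 → 0 < b ∧ eval (cx (pt x e)) N =
        ((((resR q (fun v => x v / e)).getD 0 0).re * b : ℝ) : ℂ) := by
    intro x e he hGx
    have hex : (cx (pt x e) none) = (e : ℂ) := rfl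
    have he' : (e : ℂ) ≠ 0 := Complex.ofReal_ne_zero.2 he.ne'
    have hev : ∀ v, Ev (cx (pt x e)) (yB (Fin n × Fin n) v) (cx (fun v => x v / e) v) := by
      intro v
      have h1 := (Ev.X (cx (pt x e)) (some v)).mul
        ((Ev.X (cx (pt x e)) none).inv (Or.inr (by rw [hex]; exact he')))
      have h2 : cx (fun v => x v / e) v = cx (pt x e) (some v) * (cx (pt x e) none)⁻¹ := by
        show ((x v / e : ℝ) : ℂ) = ((x v : ℝ) : ℂ) * ((e : ℝ) : ℂ)⁻¹
        push_cast
        rw [div_eq_mul_inv]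
      rw [h2]
      exact h1
    have hGx' : eval (cx (pt x e)) G ≠ 0 := by
      rw [hG', map_mul, map_pow, eval_X, hex]
      exact mul_ne_zero (pow_ne_zero _ he') hGx
    have h3 := (hx (cx (pt x e)) _ hev hGx' 0)
    rw [← hf] at h3
    have h4 := h3.eq hfr
    have h5 := eval_reN (pt x e) h4
    rw [← hN] at h5
    refine ⟨2 * Complex.normSq (eval (cx (pt x e)) B₀), fun hBx => ⟨?_, ?_⟩⟩
    · have h6 : eval (cx (pt x e)) B₀ ≠ 0 := by
        rw [hB, map_mul, map_pow, eval_X, hex]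
        exact mul_ne_zero (pow_ne_zero _ he') hBx
      have := Complex.normSq_pos.2 h6
      linarith
    · rw [h5]
      congr 1
      unfold resR
      ring
  rcases hNQ with hN0 | ⟨k, N', hN', hPN⟩
  · -- the real part vanishes identically
    refine ⟨bar G' * bar B, fun h => (hP.dvd_or_dvd h).elim hPG hPB, fun x₀ hx₀ =>
      ⟨0, ?_⟩⟩
    rw [map_mul] at hx₀
    have e1 := (tendsto_eval x₀ G').eventually_ne (left_ne_zero_of_mul hx₀)
    have e2 := (tendsto_eval x₀ B).eventually_ne (right_ne_zero_of_mul hx₀)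
    have e3 : ∀ᶠ z : (Fin n × Fin n → ℝ) × ℝ in 𝓝 x₀ ×ˢ 𝓝[>] 0, 0 < z.2 :=
      tendsto_snd.eventually (eventually_mem_nhdsWithin)
    filter_upwards [e1, e2, e3] with z h1 h2 h3
    obtain ⟨b, hb⟩ := hcore z.1 z.2 h3 h1
    obtain ⟨hb0, hb1⟩ := hb h2
    rw [hN0, map_zero] at hb1
    have h4 : ((resR q (fun v => z.1 v / z.2)).getD 0 0).re * b = 0 := by exact_mod_cast hb1.symm
    unfold sgR
    rw [(mul_eq_zero.1 h4).resolve_right hb0.ne', sign_zero]
  · have hX : (X none : MvPolynomial (Option (Fin n × Fin n)) ℂ) ≠ 0 := X_ne_zero _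
    have hcN : cj _ N' = N' := by
      have h1 := cj_reN A₀ B₀
      rw [← hN, hN', map_mul, map_pow, map_X] at h1
      exact mul_left_cancel₀ (pow_ne_zero k hX) h1
    refine ⟨bar G' * (bar B * bar N'), fun h => (hP.dvd_or_dvd h).elim hPG fun h =>
      (hP.dvd_or_dvd h).elim hPB hPN, fun x₀ hx₀ =>
      ⟨SignType.sign (eval (cx x₀) (bar N')).re, ?_⟩⟩
    rw [map_mul, map_mul] at hx₀
    have e1 := (tendsto_eval x₀ G').eventually_ne (left_ne_zero_of_mul hx₀)
    have e2 := (tendsto_eval x₀ B).eventually_ne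
      (left_ne_zero_of_mul (right_ne_zero_of_mul hx₀))
    have e3 : ∀ᶠ z : (Fin n × Fin n → ℝ) × ℝ in 𝓝 x₀ ×ˢ 𝓝[>] 0, 0 < z.2 :=
      tendsto_snd.eventually (eventually_mem_nhdsWithin)
    have hre : (eval (cx x₀) (bar N')).re ≠ 0 := by
      intro h
      apply right_ne_zero_of_mul (right_ne_zero_of_mul hx₀)
      have h2 : (eval (cx x₀) (bar N')).im = 0 := by
        rw [← eval_pt_zero]
        exact im_eval hcN _
      exact Complex.ext h h2
    have e4 : Tendsto (fun z : (Fin n × Fin n → ℝ) × ℝ => (eval (cx (pt z.1 z.2)) N').re)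
        (𝓝 x₀ ×ˢ 𝓝[>] 0) (𝓝 (eval (cx x₀) (bar N')).re) :=
      (Complex.continuous_re.tendsto _).comp (tendsto_eval x₀ N')
    have e5 : ∀ᶠ z : (Fin n × Fin n → ℝ) × ℝ in 𝓝 x₀ ×ˢ 𝓝[>] 0,
        SignType.sign (eval (cx (pt z.1 z.2)) N').re =
          SignType.sign (eval (cx x₀) (bar N')).re := by
      rcases lt_or_gt_of_ne hre with h | h
      · filter_upwards [e4.eventually_lt_const h] with t ht
        rw [sign_neg h, sign_neg ht]
      · filter_upwards [e4.eventually_const_lt h] with t ht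
        rw [sign_pos h, sign_pos ht]
    filter_upwards [e1, e2, e3, e5] with z h1 h2 h3 h5
    obtain ⟨b, hb⟩ := hcore z.1 z.2 h3 h1
    obtain ⟨hb0, hb1⟩ := hb h2
    rw [← h5]
    have h6 : (eval (cx (pt z.1 z.2)) N).re = z.2 ^ k * (eval (cx (pt z.1 z.2)) N').re := by
      have h7 : eval (cx (pt z.1 z.2)) N = ((z.2 ^ k : ℝ) : ℂ) * eval (cx (pt z.1 z.2)) N' := by
        rw [hN', map_mul, map_pow, eval_X]
        push_cast
        rfl
      rw [h7, Complex.re_ofReal_mul]
    rw [hb1, Complex.ofReal_re] at h6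
    unfold sgR
    have h8 : SignType.sign (((resR q (fun v => z.1 v / z.2)).getD 0 0).re * b) =
        SignType.sign (z.2 ^ k * (eval (cx (pt z.1 z.2)) N').re) := by rw [h6]
    rw [sign_mul, sign_mul, sign_pos hb0, sign_pos (pow_pos h3 k), mul_one, one_mul] at h8
    exact h8

end Pool.FV
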