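import Pool.Agent.Helper29.FV.Bar

/-!
# FV: small programs at the points `x / ε`
-/

set_option autoImplicit false
set_option linter.unusedSectionVars false

namespace Pool.FV

open Finset MvPolynomial Pool.Agent.Helper71.Fml Pool.Agent.Helper97.Form

section Norm

variable {K V : Type} [Field K]

theorem bar_mem [DecidableEq V] {B : Finset V} {F : MvPolynomial (Option V) K}
    (hF : F ∈ R0 K (B.image some)) : bar F ∈ R0 K B := by
  unfold R0 supported at hF
  induction hF using Algebra.adjoin_induction with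
  | mem x hx =>
    obtain ⟨o, ho, rfl⟩ := hx
    rcases o with _ | v
    · rw [bar_X_none]
      exact zero_mem _
    · rw [bar_X_some]
      refine X_mem_supported.2 fun hv => ho ?_
      simp [hv]
  | algebraMap r =>
    rw [AlgHom.commutes]
    exact (R0 K B).algebraMap_mem r
  | add x y _ _ hx hy => rw [map_add]; exact add_mem hx hy
  | mul x y _ _ hx hy => rw [map_mul]; exact mul_mem hx hy

/-- divide a vector of polynomials by a power of `ε` -/
theorem exists_normal {ι : Type} [Fintype ι] [DecidableEq V] {D₀ : Finset (Option V)}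
    (c : ι → MvPolynomial (Option V) K) (hc : c ≠ 0) (hcD : ∀ i, c i ∈ R0 K D₀) :
    ∃ (k : ℕ) (c' : ι → MvPolynomial (Option V) K), (∀ i, c i = X none ^ k * c' i) ∧
      (∃ i, bar (c' i) ≠ 0) ∧ ∀ i, c' i ∈ R0 K D₀ := by
  classical
  have hX : (X none : MvPolynomial (Option V) K) ≠ 0 := X_ne_zero _
  obtain ⟨i₀, hi₀⟩ := Function.ne_iff.1 hc
  have hex : ∃ k : ℕ, ∃ i, c i ≠ 0 ∧ ∃ A, c i = X none ^ k * A ∧ bar A ≠ 0 := by
    obtain ⟨k, A, h1, h2⟩ := exists_order hi₀
    exact ⟨k, i₀, hi₀, A, h1, h2⟩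
  obtain ⟨i₁, hi₁, A₁, hA₁, hbA₁⟩ := Nat.find_spec hex
  have hall : ∀ i, ∃ A, c i = X none ^ (Nat.find hex) * A := by
    intro i
    by_cases h : c i = 0
    · exact ⟨0, by rw [h, mul_zero]⟩
    · obtain ⟨l, A, h1, h2⟩ := exists_order h
      have hle : Nat.find hex ≤ l := Nat.find_min' hex ⟨i, h, A, h1, h2⟩
      refine ⟨X none ^ (l - Nat.find hex) * A, ?_⟩
      rw [← mul_assoc, ← pow_add, h1]
      congr 2
      omega
  choose c' hc' using hall
  refine ⟨Nat.find hex, c', hc', ⟨i₁, ?_⟩, fun i => ?_⟩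
  · have h1 : c' i₁ = A₁ := by
      apply mul_left_cancel₀ (pow_ne_zero (Nat.find hex) hX)
      rw [← hc' i₁, hA₁]
    rw [h1]
    exact hbA₁
  · rw [mem_R0_iff]
    intro v hv
    by_cases h : c' i = 0
    · rw [h, degreeOf_zero]
    · have h1 := mem_R0_iff.1 (hcD i) v hv
      rw [hc' i, degreeOf_mul_eq (pow_ne_zero _ hX) h] at h1
      omega

end Norm

section YB

variable {V : Type} [DecidableEq V]

/-- the point `x / ε` -/
noncomputable def yB (V : Type) (v : V) : FC (Option V) :=
  gp ℂ (Option V) (some v) * (gp ℂ (Option V) none)⁻¹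

theorem yB_mem {B : Finset V} {v : V} (hv : v ∉ B) : yB V v ∈ KK ℂ (B.image some) := by
  refine mul_mem (algebraMap_mem_KK (X_mem_supported.2 ?_))
    (inv_mem (algebraMap_mem_KK (X_mem_supported.2 ?_)))
  · intro h
    obtain ⟨u, hu, hv'⟩ := mem_image.1 h
    exact hv (Option.some.inj hv' ▸ hu)
  · intro h
    obtain ⟨u, _, hv'⟩ := mem_image.1 h
    exact absurd hv' (by simp)

theorem D_yB {u v : V} (h : u ≠ v) : D (some u) (yB V v) = 0 := by
  unfold yB gp
  rw [D_mul, D_inv, D_algebraMap, D_algebraMap, pderiv_X_of_ne (fun h' => h (Option.some.inj h').symm),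
    pderiv_X_of_ne (by simp)]
  simp

theorem bar_toC (F : MvPolynomial (Option V) ℝ) : bar (toC (Option V) F) = toC V (bar F) := by
  induction F using MvPolynomial.induction_on with
  | C c => rw [bar_C, map_C, map_C, bar_C]
  | add p q hp hq => rw [map_add, map_add, map_add, map_add, hp, hq]
  | mul_X p o hp =>
    rw [map_mul, map_mul, map_mul, map_mul, hp]
    rcases o with _ | v
    · rw [map_X, bar_X_none, bar_X_none, map_zero]
    · rw [map_X, bar_X_some, bar_X_some, map_X]

end YB

/-- A small program at the point `x / ε` is killed by a derivation with real coefficients whose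
leading part is not tangent to the hypersurface `perm = 0`. -/
theorem exists_derB (n s : ℕ) (hs1 : 1 ≤ s) (hs : 12 * 2 ^ s ≤ n)
    (q : List (Formula ℂ ((Fin n × Fin n) ⊕ MvPolynomial ℕ ℂ)))
    (hR : 40 * reuse q ≤ 4 ^ s) (hsize : 20 * size q < n * (n / (2 * s)) * 4 ^ s) :
    ∃ a : Option (Fin n × Fin n) → MvPolynomial (Option (Fin n × Fin n)) ℝ, a none = 0 ∧
      (∀ f ∈ results (yB (Fin n × Fin n)) q, DL (tc a) f = 0) ∧
      ¬ permPoly ℂ n ∣ dl (abar (tc a)) (permPoly ℂ n) := by
  classical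
  obtain ⟨r, c, hr, hc, hlt⟩ := exists_block n s hs1 q hR hsize
  obtain ⟨p, hp, hli⟩ := gadKK (K := ℂ) n s hs two_ne_zero r c hr hc
  obtain ⟨cc, hc0, hcR, hker⟩ := exists_killerR (yB (Fin n × Fin n)) (fun i => some (p i))
    (D₀ := (blk r c).image some) (B := blk r c)
    (fun v hv => ⟨yB_mem hv, fun i => D_mem_KK _ (yB_mem hv)⟩)
    (fun v hv i => D_yB (by rintro rfl; exact hp i hv)) q hlt
  obtain ⟨k, c', hc', ⟨i₀, hi₀⟩, hcR'⟩ := exists_normal cc hc0 hcR
  have hX : rc (Option (Fin n × Fin n)) (X none) ≠ 0 := rc_ne (X_ne_zero _)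
  refine ⟨cf (fun i => some (p i)) c', ?_, ?_, ?_⟩
  · unfold cf
    exact sum_eq_zero fun i _ => if_neg (by simp)
  · intro f hf
    rw [tc_cf, DL_cf]
    have h1 := hker f hf
    unfold dF at h1
    have h2 : rc (Option (Fin n × Fin n)) (X none) ^ k *
        ∑ i, algebraMap _ (FC (Option (Fin n × Fin n))) (toC _ (c' i)) * D (some (p i)) f = 0 := by
      rw [mul_sum, ← h1]
      refine sum_congr rfl fun i _ => ?_
      beta_reduce
      rw [hc' i, map_mul, map_pow, mul_assoc]
      rfl
    exact (mul_eq_zero.1 h2).resolve_left (pow_ne_zero _ hX)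
  · intro h
    have h1 : abar (tc (cf (fun i => some (p i)) c')) = cf p fun i => toC _ (bar (c' i)) := by
      funext v
      unfold abar
      rw [tc_cf]
      unfold cf
      rw [map_sum]
      refine sum_congr rfl fun i _ => ?_
      by_cases hv : p i = v
      · rw [if_pos (congrArg some hv), if_pos hv, bar_toC]
      · rw [if_neg (fun h' => hv (Option.some.inj h')), if_neg hv, map_zero]
    rw [h1, dl_cf] at h
    have h2 := not_dvd (fun v _ => degreeOf_perm v) p hli _
      (fun i => toC_mem (bar_mem (hcR' i))) h i₀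
    exact hi₀ (toC_eq_zero h2)

end Pool.FV
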