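import Pool.Agent.Helper29.FV.RFinal

/-!
# FV: a second parameter `ε`: behaviour of small programs far away from the origin
-/

set_option autoImplicit false
set_option linter.unusedSectionVars false

namespace Pool.FV

open Finset MvPolynomial Pool.Agent.Helper71.Fml Pool.Agent.Helper97.Form

section Bar

variable {K V : Type} [Field K]

/-- the substitution `ε = 0` -/
noncomputable def bar : MvPolynomial (Option V) K →ₐ[K] MvPolynomial V K :=
  aeval fun o => o.elim 0 X

theorem bar_X_some (v : V) : bar (X (some v) : MvPolynomial (Option V) K) = X v := by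
  unfold bar
  rw [aeval_X]
  rfl

theorem bar_X_none : bar (X none : MvPolynomial (Option V) K) = 0 := by
  unfold bar
  rw [aeval_X]
  rfl

theorem bar_C (c : K) : bar (C c : MvPolynomial (Option V) K) = C c := by
  rw [← algebraMap_eq, AlgHom.commutes, algebraMap_eq]

theorem X_dvd_sub (A : MvPolynomial (Option V) K) :
    (X none : MvPolynomial (Option V) K) ∣ A - rename some (bar A) := by
  induction A using MvPolynomial.induction_on with
  | C c =>
    rw [bar_C, rename_C, sub_self]
    exact dvd_zero _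
  | add p q hp hq =>
    rw [map_add, map_add, add_sub_add_comm]
    exact dvd_add hp hq
  | mul_X p o hp =>
    rcases o with _ | v
    · rw [map_mul, bar_X_none, mul_zero, map_zero, sub_zero]
      exact dvd_mul_left _ _
    · rw [map_mul, bar_X_some, map_mul, rename_X, ← sub_mul]
      exact hp.mul_right _

theorem dvd_of_bar {A : MvPolynomial (Option V) K} (h : bar A = 0) :
    (X none : MvPolynomial (Option V) K) ∣ A := by
  have := X_dvd_sub A
  rwa [h, map_zero, sub_zero] at this

theorem exists_order {A : MvPolynomial (Option V) K} (hA : A ≠ 0) :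
    ∃ (i : ℕ) (A' : MvPolynomial (Option V) K), A = X none ^ i * A' ∧ bar A' ≠ 0 := by
  obtain ⟨i, A', hA', h⟩ := WfDvdMonoid.max_power_factor hA
    (X_prime (R := K) (i := (none : Option V))).irreducible
  exact ⟨i, A', h, fun h0 => hA' (dvd_of_bar h0)⟩

theorem order_unique {U W : MvPolynomial (Option V) K} {i j : ℕ} (hU : bar U ≠ 0)
    (hW : bar W ≠ 0) (h : X none ^ i * U = X none ^ j * W) : U = W := by
  have hX : (X none : MvPolynomial (Option V) K) ≠ 0 := X_ne_zero _
  rcases lt_trichotomy i j with hij | hij | hij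
  · exfalso
    obtain ⟨k, rfl⟩ : ∃ k, j = i + (k + 1) := ⟨j - i - 1, by omega⟩
    have h1 : U = X none ^ (k + 1) * W := by
      apply mul_left_cancel₀ (pow_ne_zero i hX)
      rw [h, pow_add]
      ring
    apply hU
    rw [h1, map_mul, map_pow, bar_X_none, zero_pow (Nat.succ_ne_zero k), zero_mul]
  · subst hij
    exact mul_left_cancel₀ (pow_ne_zero i hX) h
  · exfalso
    obtain ⟨k, rfl⟩ : ∃ k, i = j + (k + 1) := ⟨i - j - 1, by omega⟩
    have h1 : W = X none ^ (k + 1) * U := by
      apply mul_left_cancel₀ (pow_ne_zero j hX)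
      rw [← h, pow_add]
      ring
    apply hW
    rw [h1, map_mul, map_pow, bar_X_none, zero_pow (Nat.succ_ne_zero k), zero_mul]

/-- polynomials whose leading part in `ε` is not a multiple of `P` -/
def QB (P : MvPolynomial V K) (G : MvPolynomial (Option V) K) : Prop :=
  ∃ (i : ℕ) (G' : MvPolynomial (Option V) K), G = X none ^ i * G' ∧ ¬ P ∣ bar G'

theorem QB.bar_ne {P : MvPolynomial V K} {G' : MvPolynomial (Option V) K} (h : ¬ P ∣ bar G') :
    bar G' ≠ 0 := fun h0 => h (by rw [h0]; exact dvd_zero _)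

theorem QB.ne {P : MvPolynomial V K} {G : MvPolynomial (Option V) K} (h : QB P G) : G ≠ 0 := by
  obtain ⟨i, G', rfl, hG'⟩ := h
  refine mul_ne_zero (pow_ne_zero _ (X_ne_zero _)) ?_
  rintro rfl
  exact hG' (by rw [map_zero]; exact dvd_zero _)

theorem mulCls_QB {P : MvPolynomial V K} (hP : Prime P) : MulCls (QB P) := by
  refine ⟨⟨0, 1, by simp, ?_⟩, ?_, fun A hA => hA.ne⟩
  · rw [map_one]
    exact fun h => hP.not_isUnit (isUnit_of_dvd_one h)
  · rintro _ _ ⟨i, A, rfl, hA⟩ ⟨j, B, rfl, hB⟩
    refine ⟨i + j, A * B, by ring, ?_⟩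
    rw [map_mul]
    exact fun h => (hP.dvd_or_dvd h).elim hA hB

theorem QB.of_mul {P : MvPolynomial V K} {U W : MvPolynomial (Option V) K} (h : QB P (U * W)) :
    QB P U := by
  have hne := h.ne
  obtain ⟨m, T, hT, hPT⟩ := h
  obtain ⟨i, U', hU, hU'⟩ := exists_order (left_ne_zero_of_mul hne)
  obtain ⟨j, W', hW, hW'⟩ := exists_order (right_ne_zero_of_mul hne)
  have h1 : U' * W' = T := by
    refine order_unique (i := i + j) (j := m) ?_ (QB.bar_ne hPT) ?_
    · rw [map_mul]
      exact mul_ne_zero hU' hW'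
    · rw [← hT]
      conv_rhs => rw [hU, hW]
      ring
  refine ⟨i, U', hU, fun h2 => hPT ?_⟩
  rw [← h1, map_mul]
  exact h2.mul_right _

end Bar

section Der

variable {K V : Type} [Field K] [DecidableEq V] [Fintype V]

theorem pderiv_bar (v : V) (F : MvPolynomial (Option V) K) :
    bar (pderiv (some v) F) = pderiv v (bar F) := by
  induction F using MvPolynomial.induction_on with
  | C c => rw [pderiv_C, map_zero, bar_C, pderiv_C]
  | add p q hp hq => rw [map_add, map_add, map_add, map_add, hp, hq]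
  | mul_X p o hp =>
    rcases o with _ | u
    · rw [pderiv_mul, pderiv_X_of_ne (by simp), map_add, map_mul, map_mul, bar_X_none, map_mul,
        bar_X_none, map_zero]
      simp
    · rw [pderiv_mul, map_add, map_mul, map_mul, map_mul, bar_X_some, pderiv_mul, hp]
      congr 1
      congr 1
      by_cases h : u = v
      · subst h
        rw [pderiv_X_self, pderiv_X_self, map_one]
      · rw [pderiv_X_of_ne h, pderiv_X_of_ne (fun h' => h (Option.some.inj h')), map_zero]

/-- the derivation for `ε = 0` -/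
noncomputable def abar (a : Option V → MvPolynomial (Option V) K) (v : V) : MvPolynomial V K :=
  bar (a (some v))

theorem bar_dl (a : Option V → MvPolynomial (Option V) K) (ha : a none = 0)
    (F : MvPolynomial (Option V) K) : bar (dl a F) = dl (abar a) (bar F) := by
  unfold dl abar
  rw [Fintype.sum_option, ha, zero_mul, zero_add, map_sum]
  refine sum_congr rfl fun v _ => ?_
  rw [map_mul, pderiv_bar]

theorem dl_eps (a : Option V → MvPolynomial (Option V) K) (ha : a none = 0) (i : ℕ)
    (F : MvPolynomial (Option V) K) : dl a (X none ^ i * F) = X none ^ i * dl a F := by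
  have h0 : dl a (X none) = 0 := by
    rw [dl_X, ha]
  have h1 : dl a (X none ^ i) = 0 := by
    induction i with
    | zero =>
      rw [pow_zero]
      have := dl_C a (1 : K)
      rwa [C_1] at this
    | succ i ih => rw [pow_succ, dl_mul, h0, ih, mul_zero, mul_zero, add_zero]
  rw [dl_mul, h1, mul_zero, add_zero]

/-- if `A` divides its derivative then its leading part is not a multiple of `P` -/
theorem not_dvd_bar [CharZero K] {P : MvPolynomial V K} (hP : Prime P)
    (a : Option V → MvPolynomial (Option V) K) (ha : a none = 0) (hnd : ¬ P ∣ dl (abar a) P)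
    {A : MvPolynomial (Option V) K} (hA : bar A ≠ 0) (hdvd : A ∣ dl a A) : ¬ P ∣ bar A := by
  intro hPA
  obtain ⟨l, hl⟩ := hdvd
  have h1 := congrArg bar hl
  rw [bar_dl a ha, map_mul] at h1
  obtain ⟨k, A₁, hA₁, hAk⟩ := WfDvdMonoid.max_power_factor hA hP.irreducible
  obtain ⟨k, rfl⟩ : ∃ k', k = k' + 1 := by
    refine ⟨k - 1, ?_⟩
    rcases Nat.eq_zero_or_pos k with h0 | h0
    · exfalso
      subst h0
      rw [pow_zero, one_mul] at hAk
      exact hA₁ (hAk ▸ hPA)
    · omega
  rw [hAk, dl_mul, dl_pow] at h1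
  have h2 : P ^ k * (P * (dl (abar a) A₁ - A₁ * bar l) +
      ((k + 1 : ℕ) : MvPolynomial V K) * (A₁ * dl (abar a) P)) = 0 := by
    rw [pow_succ] at h1
    linear_combination h1
  have h3 := (mul_eq_zero.1 h2).resolve_left (pow_ne_zero _ hP.ne_zero)
  have hk : ((k + 1 : ℕ) : K) ≠ 0 := Nat.cast_ne_zero.2 (Nat.succ_ne_zero k)
  have h4 : P ∣ C ((k + 1 : ℕ) : K) * (A₁ * dl (abar a) P) := by
    refine ⟨-(dl (abar a) A₁ - A₁ * bar l), ?_⟩
    have : (C ((k + 1 : ℕ) : K) : MvPolynomial V K) = ((k + 1 : ℕ) : MvPolynomial V K) :=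
      map_natCast _ _
    rw [this]
    linear_combination h3
  have h5 : P ∣ A₁ * dl (abar a) P := by
    have h6 : A₁ * dl (abar a) P =
        C (((k + 1 : ℕ) : K)⁻¹) * (C ((k + 1 : ℕ) : K) * (A₁ * dl (abar a) P)) := by
      rw [← mul_assoc, ← C_mul, inv_mul_cancel₀ hk, C_1, one_mul]
    rw [h6]
    exact h4.mul_left _
  exact (hP.dvd_or_dvd h5).elim hA₁ hnd

/-- A rational function killed by a derivation has numerator and denominator whose leading parts
are not multiples of `P`. -/
theorem fracQ_of_killed [CharZero K] {P : MvPolynomial V K} (hP : Prime P)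
    (a : Option V → MvPolynomial (Option V) K) (ha : a none = 0) (hnd : ¬ P ∣ dl (abar a) P)
    (f : FractionRing (MvPolynomial (Option V) K)) (hf : DL a f = 0) :
    ∃ A B, FracQ (QB P) f A B := by
  classical
  by_cases hf0 : f = 0
  · exact ⟨0, 1, (mulCls_QB hP).one, Or.inl rfl, by rw [hf0, zero_mul, map_zero]⟩
  obtain ⟨A₀, B₀, hrel, hAB⟩ := IsFractionRing.exists_reduced_fraction
    (A := MvPolynomial (Option V) K) f
  have hB₀ : (B₀ : MvPolynomial (Option V) K) ≠ 0 := nonZeroDivisors.ne_zero B₀.2
  have hfr : f * algebraMap (MvPolynomial (Option V) K)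
      (FractionRing (MvPolynomial (Option V) K)) B₀ =
      algebraMap (MvPolynomial (Option V) K) (FractionRing (MvPolynomial (Option V) K)) A₀ := by
    rw [← hAB]
    exact IsLocalization.mk'_spec _ _ _
  have hB1 : algebraMap (MvPolynomial (Option V) K)
      (FractionRing (MvPolynomial (Option V) K)) B₀ ≠ 0 := fun h => hB₀
    (map_inj (by rw [h, map_zero]))
  have hA₀ : A₀ ≠ 0 := by
    rintro rfl
    rw [map_zero] at hfr
    exact (mul_ne_zero hf0 hB1) hfr
  obtain ⟨i, A, hA, hbA⟩ := exists_order hA₀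
  obtain ⟨j, B, hB, hbB⟩ := exists_order hB₀
  have hrel' : IsRelPrime A B := by
    intro d hdA hdB
    refine hrel ?_ ?_
    · rw [hA]
      exact hdA.mul_left _
    · rw [hB]
      exact hdB.mul_left _
  have h1 := dl_div a hfr hf
  rw [hA, hB, dl_eps a ha, dl_eps a ha] at h1
  have h2 : B * dl a A = A * dl a B := by
    apply mul_left_cancel₀ (pow_ne_zero (i + j) (X_ne_zero (none : Option V) (R := K)))
    rw [pow_add]
    linear_combination h1
  have hA2 : A ∣ dl a A := by
    refine hrel'.dvd_of_dvd_mul_left ?_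
    rw [h2]
    exact dvd_mul_right _ _
  have hB2 : B ∣ dl a B := by
    refine hrel'.symm.dvd_of_dvd_mul_left ?_
    rw [← h2]
    exact dvd_mul_right _ _
  refine ⟨A₀, B₀, ⟨j, B, hB, not_dvd_bar hP a ha hnd hbB hB2⟩,
    Or.inr ⟨i, A, hA, not_dvd_bar hP a ha hnd hbA hA2⟩, hfr⟩

end Der

end Pool.FV
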