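import Pool.Agent.Helper29.FV.Mult

/-!
# FV: if some formulas are small, then a derivation kills their values and is not tangent to
`perm = 0`
-/

set_option autoImplicit false
set_option linter.unusedSectionVars false

namespace Pool.FV

open Finset MvPolynomial Pool.Agent.Helper71.Fml Pool.Agent.Helper97.Form

section Join

variable {K V : Type} [Field K] [DecidableEq V]

/-- the sum of all formulas of a list -/
def join : List (Formula K V) → Formula K V
  | [] => Formula.const 0
  | φ :: l => Formula.add φ (join l)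

theorem size_join (l : List (Formula K V)) : (join l).size = (l.map Formula.size).sum := by
  induction l with
  | nil => rfl
  | cons φ l ih => simp [join, Formula.size, ih]

theorem leavesIn_join (D : Finset V) (l : List (Formula K V)) :
    (join l).leavesIn D = (l.map (Formula.leavesIn D)).sum := by
  induction l with
  | nil => rfl
  | cons φ l ih => simp [join, Formula.leavesIn, ih]

/-- the sum of all formulas of a family -/
def joinF {T : ℕ} (φ : Fin T → Formula K V) : Formula K V := join (List.ofFn φ)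

theorem size_joinF {T : ℕ} (φ : Fin T → Formula K V) : (joinF φ).size = ∑ j, (φ j).size := by
  unfold joinF
  rw [size_join, List.map_ofFn, List.sum_ofFn]
  rfl

theorem leavesIn_joinF {T : ℕ} (D : Finset V) (φ : Fin T → Formula K V) :
    (joinF φ).leavesIn D = ∑ j, (φ j).leavesIn D := by
  unfold joinF
  rw [leavesIn_join, List.map_ofFn, List.sum_ofFn]
  rfl

end Join

section Dim

variable {K V : Type} [Field K] [DecidableEq V] {D₀ : Finset V}

/-- all derivatives of a formula with respect to the other variables lie in a small space -/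
theorem exists_space (D₀ : Finset V) (φ : Formula K V) :
    ∃ W : Submodule (KK K D₀) (FractionRing (MvPolynomial V K)), Module.Finite (KK K D₀) W ∧
      Module.finrank (KK K D₀) W ≤ 5 * φ.leavesIn D₀ + 1 ∧ ∀ v ∉ D₀, D v φ.eval ∈ W := by
  have key : ∀ k : ℕ, Good D₀ φ.eval k → k ≤ 5 * φ.leavesIn D₀ + 1 →
      ∃ W : Submodule (KK K D₀) (FractionRing (MvPolynomial V K)), Module.Finite (KK K D₀) W ∧
      Module.finrank (KK K D₀) W ≤ 5 * φ.leavesIn D₀ + 1 ∧ ∀ v ∉ D₀, D v φ.eval ∈ W := by
    rintro k ⟨W, h1, h2, -, -, -, h3⟩ hk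
    exact ⟨W, h1, h2.trans hk, h3⟩
  obtain ⟨g0, g1⟩ := formula_good D₀ φ
  rcases Nat.eq_zero_or_pos (φ.leavesIn D₀) with h0 | h0
  · exact key 1 (good_of_mem (g0 h0)) (by omega)
  · exact key _ (g1 h0) (by omega)

/-- The linear algebra: if there are more positions than dimensions, a combination of the
derivatives in these positions kills all the formulas. -/
theorem exists_comb_zero {T : ℕ} (φ : Fin T → Formula K V) {ι : Type} [Fintype ι] (p : ι → V)
    (hp : ∀ i, p i ∉ D₀) (hlt : 5 * (joinF φ).leavesIn D₀ + T < Fintype.card ι) :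
    ∃ c : ι → MvPolynomial V K, c ≠ 0 ∧ (∀ i, c i ∈ R0 K D₀) ∧
      ∀ j, ∑ i, algebraMap (MvPolynomial V K) (FractionRing (MvPolynomial V K)) (c i) *
        D (p i) (φ j).eval = 0 := by
  classical
  choose W hW1 hW2 hW3 using fun j => exists_space D₀ (φ j)
  let L : (ι → KK K D₀) →ₗ[KK K D₀] (∀ j, W j) :=
    LinearMap.pi fun j => ∑ i, (LinearMap.toSpanSingleton (KK K D₀) (W j)
      ⟨D (p i) (φ j).eval, hW3 j _ (hp i)⟩).comp (LinearMap.proj i)
  have hL : ∀ (c : ι → KK K D₀) j, ((L c j : W j) : FractionRing (MvPolynomial V K)) =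
      ∑ i, (c i : FractionRing (MvPolynomial V K)) * D (p i) (φ j).eval := by
    intro c j
    simp only [L, LinearMap.pi_apply, LinearMap.sum_apply, LinearMap.comp_apply,
      LinearMap.proj_apply, LinearMap.toSpanSingleton_apply]
    rw [AddSubmonoidClass.coe_finsetSum]
    rfl
  have hfin : Module.finrank (KK K D₀) (∀ j, W j) < Module.finrank (KK K D₀) (ι → KK K D₀) := by
    rw [Module.finrank_pi_fintype, Module.finrank_fintype_fun_eq_card]
    refine lt_of_le_of_lt (sum_le_sum fun j _ => hW2 j) ?_
    rw [sum_add_distrib, ← mul_sum, ← leavesIn_joinF, sum_const, card_univ, Fintype.card_fin,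
      smul_eq_mul, mul_one]
    exact hlt
  have hker := LinearMap.ker_ne_bot_of_finrank_lt (f := L) hfin
  obtain ⟨c, hcL, hc0⟩ := (Submodule.ne_bot_iff _).1 hker
  choose P hP Q hQ hQ0 hPQ using fun i => mem_KK.1 (c i).2
  have hQ1 : ∀ i, algebraMap (MvPolynomial V K) (FractionRing (MvPolynomial V K)) (Q i) ≠ 0 :=
    fun i h => hQ0 i
    (IsFractionRing.injective (MvPolynomial V K) (FractionRing (MvPolynomial V K)) (by rw [h, map_zero]))
  have hval : ∀ i, algebraMap (MvPolynomial V K) (FractionRing (MvPolynomial V K))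
      (P i * ∏ k ∈ univ.erase i, Q k) = (∏ k, algebraMap (MvPolynomial V K)
        (FractionRing (MvPolynomial V K)) (Q k)) * (c i : FractionRing (MvPolynomial V K)) := by
    intro i
    rw [map_mul, map_prod, hPQ i, ← Finset.mul_prod_erase Finset.univ _ (Finset.mem_univ i)]
    have := hQ1 i
    field_simp
  refine ⟨fun i => P i * ∏ k ∈ univ.erase i, Q k, ?_, fun i => mul_mem (hP i)
    (prod_mem fun k _ => hQ k), ?_⟩
  · intro h
    apply hc0
    funext i
    have h1 := congrFun h i
    have h2 : P i = 0 := (mul_eq_zero.1 h1).resolve_right (Finset.prod_ne_zero_iff.2 fun k _ => hQ0 k)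
    apply Subtype.ext
    rw [hPQ i, h2, map_zero, zero_div]
    rfl
  · intro j
    have h1 : ∑ i, (c i : FractionRing (MvPolynomial V K)) * D (p i) (φ j).eval = 0 := by
      rw [← hL, LinearMap.mem_ker.1 hcL]
      rfl
    calc ∑ i, algebraMap (MvPolynomial V K) (FractionRing (MvPolynomial V K))
          (P i * ∏ k ∈ univ.erase i, Q k) * D (p i) (φ j).eval
        = (∏ k, algebraMap (MvPolynomial V K) (FractionRing (MvPolynomial V K)) (Q k)) *
          ∑ i, (c i : FractionRing (MvPolynomial V K)) * D (p i) (φ j).eval := by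
          rw [mul_sum]
          refine sum_congr rfl fun i _ => ?_
          rw [hval, mul_assoc]
      _ = 0 := by rw [h1, mul_zero]

end Dim

/-- the coefficients as a function of the variables -/
noncomputable def cf {K V ι : Type} [Field K] [DecidableEq V] [Fintype ι] (p : ι → V)
    (c : ι → MvPolynomial V K) (w : V) : MvPolynomial V K :=
  ∑ i, if p i = w then c i else 0

theorem dl_cf {K V ι : Type} [Field K] [DecidableEq V] [Fintype V] [Fintype ι] (p : ι → V)
    (c : ι → MvPolynomial V K) (F : MvPolynomial V K) :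
    dl (cf p c) F = ∑ i, c i * pderiv (p i) F := by
  unfold dl cf
  simp only [sum_mul]
  rw [sum_comm]
  refine sum_congr rfl fun i _ => ?_
  rw [Finset.sum_eq_single (p i)]
  · rw [if_pos rfl]
  · intro w _ hw
    rw [if_neg (Ne.symm hw), zero_mul]
  · intro h
    exact absurd (mem_univ _) h

theorem DL_cf {K V ι : Type} [Field K] [DecidableEq V] [Fintype V] [Fintype ι] (p : ι → V)
    (c : ι → MvPolynomial V K) (f : FractionRing (MvPolynomial V K)) :
    DL (cf p c) f = ∑ i, algebraMap (MvPolynomial V K) (FractionRing (MvPolynomial V K)) (c i) *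
      D (p i) f := by
  unfold DL cf
  simp only [map_sum, sum_mul]
  rw [sum_comm]
  refine sum_congr rfl fun i _ => ?_
  rw [Finset.sum_eq_single (p i)]
  · rw [if_pos rfl]
  · intro w _ hw
    rw [if_neg (Ne.symm hw), map_zero, zero_mul]
  · intro h
    exact absurd (mem_univ _) h

/-- If the formulas are small, then some derivation kills their values and is not tangent to the
hypersurface `perm = 0`. -/
theorem exists_der {K : Type} [Field K] (h2 : (2 : K) ≠ 0) (n s T : ℕ) (hs1 : 1 ≤ s)
    (hs : 12 * 2 ^ s ≤ n) (hT : 4 * T ≤ 4 ^ s) (φ : Fin T → Formula K (Fin n × Fin n))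
    (hsize : 10 * ∑ j, (φ j).size < n * (n / (2 * s)) * 4 ^ s) :
    ∃ a : Fin n × Fin n → MvPolynomial (Fin n × Fin n) K, (∀ j, DL a (φ j).eval = 0) ∧
      ¬ permPoly K n ∣ dl a (permPoly K n) := by
  classical
  by_contra hcon
  push Not at hcon
  have h4 : 4 ≤ 4 ^ s := by
    calc 4 = 4 ^ 1 := by norm_num
      _ ≤ 4 ^ s := Nat.pow_le_pow_right (by norm_num) hs1
  have key : ∀ r c : Fin (2 * s) → Fin n, Function.Injective r → Function.Injective c →
      (4 ^ s + 9) / 10 ≤ (joinF φ).leavesIn (blk r c) := by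
    intro r c hr hc
    obtain ⟨p, hp, hli⟩ := gadKK (K := K) n s hs h2 r c hr hc
    have hcard := card_pos s
    by_contra hlt
    have hlt2 : 5 * (joinF φ).leavesIn (blk r c) + T < Fintype.card {i : RC s // UU i ≠ ∅} := by
      omega
    obtain ⟨cc, hc0, hcR, hker⟩ := exists_comb_zero φ p hp hlt2
    have h5 := hcon (cf p cc) (fun j => by rw [DL_cf]; exact hker j)
    rw [dl_cf] at h5
    exact hc0 (funext fun i => not_dvd (fun v _ => degreeOf_perm v) p hli cc hcR h5 i)
  have hb := blocks n (2 * s) (by omega) (joinF φ) _ key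
  rw [size_joinF] at hb
  have h6 : 4 ^ s ≤ 10 * ((4 ^ s + 9) / 10) := by omega
  have h7 : n * (n / (2 * s)) * 4 ^ s ≤ n * (n / (2 * s)) * (10 * ((4 ^ s + 9) / 10)) :=
    Nat.mul_le_mul_left _ h6
  have h8 : n * (n / (2 * s)) * (10 * ((4 ^ s + 9) / 10)) =
    10 * (n * (n / (2 * s)) * ((4 ^ s + 9) / 10)) := by ring
  omega

end Pool.FV
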