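import Pool.Agent.Helper29.FV.CFin

/-!
# FV: the main theorem for programs with branching gates
-/

set_option autoImplicit false
set_option linter.unusedSectionVars false

namespace Pool.FV

open Finset MvPolynomial Pool.Agent.Helper71.Fml Pool.Agent.Helper97.Form Filter Topology

section Prog

variable {Λ : Type}

/-- versions of a program -/
def mainP : List (BF Λ) → List (List (Formula ℂ Λ))
  | [] => [[]]
  | φ :: p => (mainV φ).flatMap fun ψ => (mainP p).map fun q => ψ :: q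

/-- programs for the conditions -/
def condP : List (BF Λ) → List (List (Formula ℂ Λ))
  | [] => []
  | φ :: p => ((condV φ).flatMap fun ψ => (mainP p).map fun q => ψ :: q) ++ condP p

theorem mem_conses {A : List (Formula ℂ Λ)} {B : List (List (Formula ℂ Λ))}
    {r : List (Formula ℂ Λ)} : r ∈ (A.flatMap fun ψ => B.map fun q => ψ :: q) ↔
      ∃ ψ ∈ A, ∃ q ∈ B, ψ :: q = r := by
  simp only [List.mem_flatMap, List.mem_map]

theorem weigh_mainP (w : Λ → ℕ) (p : List (BF Λ)) : ∀ q ∈ mainP p,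
    (q.map (weigh w)).sum ≤ (p.map (bw w)).sum ∧ q.length = p.length := by
  induction p with
  | nil =>
    intro q hq
    rw [mainP, List.mem_singleton] at hq
    rw [hq]
    exact ⟨le_rfl, rfl⟩
  | cons φ p ih =>
    intro q hq
    obtain ⟨ψ, hψ, r, hr, rfl⟩ := mem_conses.1 hq
    have h1 := weigh_mainV w φ ψ hψ
    have h2 := ih r hr
    simp only [List.map_cons, List.sum_cons, List.length_cons]
    exact ⟨by omega, by omega⟩

theorem weigh_condP (w : Λ → ℕ) (p : List (BF Λ)) : ∀ q ∈ condP p,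
    (q.map (weigh w)).sum ≤ (p.map (bw w)).sum ∧ q.length ≤ p.length := by
  induction p with
  | nil =>
    intro q hq
    simp [condP] at hq
  | cons φ p ih =>
    intro q hq
    rw [condP, List.mem_append] at hq
    simp only [List.map_cons, List.sum_cons, List.length_cons]
    rcases hq with hq | hq
    · obtain ⟨ψ, hψ, r, hr, rfl⟩ := mem_conses.1 hq
      have h1 := weigh_condV w φ ψ hψ
      have h2 := weigh_mainP w p r hr
      simp only [List.map_cons, List.sum_cons, List.length_cons]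
      exact ⟨by omega, by omega⟩
    · have h2 := ih q hq
      exact ⟨by omega, by omega⟩

variable {V : Type}

/-- polynomials as functions of earlier results -/
noncomputable def tabP (g : MvPolynomial ℕ ℂ) (l : List ℂ) : ℂ := aeval (fun i => l.getD i 0) g

theorem resolveP (B : Set (V → ℝ)) (p : List (BF (V ⊕ MvPolynomial ℕ ℂ)))
    (h : ∀ q ∈ condP p, ∃ s : SignType, ∀ x ∈ B, sgR q x = s) :
    ∃ q ∈ mainP p, ∀ x ∈ B, resB tabP x p = results (cx x) q := by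
  induction p with
  | nil => exact ⟨[], List.mem_singleton_self _, fun x _ => rfl⟩
  | cons φ p ih =>
    obtain ⟨q, hq, hq'⟩ := ih fun r hr => h r (List.mem_append_right _ hr)
    obtain ⟨ψ, hψ, hψ'⟩ := resolve B (fun x => Sum.elim (cx x) fun g =>
      aeval (fun i => (results (cx x) q).getD i 0) g) φ (fun ψ hψ => by
        obtain ⟨s, hs⟩ := h (ψ :: q) (List.mem_append_left _
          (mem_conses.2 ⟨ψ, hψ, q, hq, rfl⟩))
        exact ⟨s, fun x hx => hs x hx⟩)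
    refine ⟨ψ :: q, mem_conses.2 ⟨ψ, hψ, q, hq, rfl⟩, fun x hx => ?_⟩
    simp only [resB, results]
    rw [hq' x hx]
    congr 1
    exact hψ' x hx

end Prog

/-- the numbers -/
theorem numbersB {n : ℕ} (hn : 192 ≤ n) {r z : ℕ}
    (hr : (r : ℝ) ≤ 1 + 1 / 10 ^ 10 * (n : ℝ) ^ 2)
    (hz : (z : ℝ) < 1 / 10 ^ 10 * (n : ℝ) ^ 4 / Real.log n) :
    1 ≤ Nat.log 2 (n / 12) ∧ 12 * 2 ^ Nat.log 2 (n / 12) ≤ n ∧
      96 * r ≤ 4 ^ Nat.log 2 (n / 12) ∧
      48 * z < n * (n / (2 * Nat.log 2 (n / 12))) * 4 ^ Nat.log 2 (n / 12) := by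
  obtain ⟨s, hs⟩ : ∃ s, s = Nat.log 2 (n / 12) := ⟨_, rfl⟩
  rw [← hs]
  have h12 : n / 12 ≠ 0 := by omega
  have hs3 : 4 ≤ s := by
    rw [hs]
    exact Nat.le_log_of_pow_le (by norm_num) (by omega)
  have hs1 : 2 ^ s ≤ n / 12 := by
    rw [hs]
    exact Nat.pow_log_le_self 2 h12
  have hs2 : n / 12 < 2 ^ (s + 1) := by
    rw [hs]
    exact Nat.lt_pow_succ_log_self (by norm_num) _
  have hlo : 12 * 2 ^ s ≤ n := by omega
  have hhi : n < 24 * 2 ^ s := by
    rw [pow_succ] at hs2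
    omega
  have hnR : (192 : ℝ) ≤ n := by exact_mod_cast hn
  have hhiR : (n : ℝ) < 24 * 2 ^ s := by exact_mod_cast hhi
  have hloR : 12 * (2 : ℝ) ^ s ≤ n := by exact_mod_cast hlo
  have h4R : (4 : ℝ) ^ s = 2 ^ s * 2 ^ s := by
    rw [← mul_pow]
    norm_num
  have hp : (0 : ℝ) < 2 ^ s := by positivity
  have hsq : (n : ℝ) ^ 2 ≤ 576 * 4 ^ s := by
    rw [h4R]
    nlinarith
  refine ⟨by omega, hlo, ?_, ?_⟩
  · have h2 : 4 ^ 4 ≤ 4 ^ s := Nat.pow_le_pow_right (by norm_num) hs3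
    have h3 : (256 : ℝ) ≤ 4 ^ s := by
      have : (256 : ℕ) ≤ 4 ^ s := by
        have h3 : (4 : ℕ) ^ 4 = 256 := by norm_num
        omega
      exact_mod_cast this
    have h1 : (96 * r : ℝ) ≤ 4 ^ s := by
      calc (96 * r : ℝ) ≤ 96 * (1 + 1 / 10 ^ 10 * (n : ℝ) ^ 2) := by linarith
        _ ≤ 96 * (1 + 1 / 10 ^ 10 * (576 * 4 ^ s)) := by gcongr
        _ ≤ 4 ^ s := by
          have h5 : (96 * (1 + 1 / 10 ^ 10 * (576 * 4 ^ s)) : ℝ) =
            96 + (96 * 576 / 10 ^ 10) * 4 ^ s := by ring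
          rw [h5]
          have : (96 * 576 / 10 ^ 10 : ℝ) ≤ 1 / 10 := by norm_num
          nlinarith
    exact_mod_cast h1
  · -- the size
    have hlog : (s : ℝ) * Real.log 2 ≤ Real.log n := by
      rw [← Real.log_pow]
      apply Real.log_le_log hp
      linarith
    have hlog2 : (0.69 : ℝ) < Real.log 2 := by
      have := Real.log_two_gt_d9
      linarith
    have hs0 : (0 : ℝ) < s := by
      have : 0 < s := by omega
      exact_mod_cast this
    have hlogn : 0 < Real.log n := Real.log_pos (by linarith)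
    have hsle : (0.69 : ℝ) * s ≤ Real.log n := by nlinarith
    have hdiv : n < (n / (2 * s) + 1) * (2 * s) := by
      have h1 := Nat.lt_div_mul_add (a := n) (b := 2 * s) (by omega)
      have h2 : (n / (2 * s) + 1) * (2 * s) = n / (2 * s) * (2 * s) + 2 * s := by ring
      omega
    have hss : 4 * s ≤ n := by
      have : s < 2 ^ s := Nat.lt_two_pow_self
      omega
    have hdivR : (n : ℝ) ≤ ((n / (2 * s) : ℕ) + 1) * (2 * s) := by exact_mod_cast hdiv.le
    have hd2 : (n : ℝ) ≤ (n / (2 * s) : ℕ) * (4 * s) := by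
      have h1 : (4 * s : ℝ) ≤ n := by exact_mod_cast hss
      nlinarith
    have hz2 : (z : ℝ) * Real.log n < 1 / 10 ^ 10 * (n : ℝ) ^ 4 := by
      rwa [lt_div_iff₀ hlogn] at hz
    have hkey : (48 * z : ℝ) * (4 * s) < n * (n / (2 * s) : ℕ) * 4 ^ s * (4 * s) := by
      have hz0 : (0 : ℝ) ≤ z := Nat.cast_nonneg z
      have e1 : (48 * z : ℝ) * (4 * s) ≤ 48 * 4 / 0.69 * (z * Real.log n) := by
        have : (z : ℝ) * (0.69 * s) ≤ z * Real.log n := mul_le_mul_of_nonneg_left hsle hz0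
        have h1 : (48 * z : ℝ) * (4 * s) = 48 * 4 / 0.69 * (z * (0.69 * s)) := by
          ring
        rw [h1]
        exact mul_le_mul_of_nonneg_left this (by norm_num)
      have e2 : 48 * 4 / 0.69 * (z * Real.log n) < 48 * 4 / 0.69 * (1 / 10 ^ 10 * (n : ℝ) ^ 4) :=
        mul_lt_mul_of_pos_left hz2 (by norm_num)
      have e3 : 48 * 4 / 0.69 * (1 / 10 ^ 10 * (n : ℝ) ^ 4) ≤
          (n : ℝ) * ((n / (2 * s) : ℕ) * (4 * s)) * 4 ^ s := by
        have h1 : (n : ℝ) * n * ((n : ℝ) ^ 2 / 576) ≤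
            (n : ℝ) * ((n / (2 * s) : ℕ) * (4 * s)) * 4 ^ s := by
          have h2 : (n : ℝ) ^ 2 / 576 ≤ 4 ^ s := by linarith
          gcongr
        refine le_trans ?_ h1
        have h3 : (n : ℝ) * n * ((n : ℝ) ^ 2 / 576) = (n : ℝ) ^ 4 * (1 / 576) := by ring
        rw [h3]
        have h4 : (0 : ℝ) ≤ (n : ℝ) ^ 4 := by positivity
        have h5 : 48 * 4 / 0.69 * (1 / 10 ^ 10 * (n : ℝ) ^ 4) =
          (n : ℝ) ^ 4 * (48 * 4 / 0.69 * (1 / 10 ^ 10)) := by ring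
        rw [h5]
        exact mul_le_mul_of_nonneg_left (by norm_num) h4
      calc _ ≤ _ := e1
        _ < _ := e2
        _ ≤ _ := e3
        _ = _ := by ring
    have h5 : (48 * z : ℝ) < n * (n / (2 * s) : ℕ) * 4 ^ s :=
      lt_of_mul_lt_mul_right hkey (by positivity)
    exact_mod_cast h5

theorem zero_sizeB {n : ℕ} (hn : 2 ≤ n) (h96 : n < 192) {z : ℕ}
    (hz : (z : ℝ) < 1 / 10 ^ 10 * (n : ℝ) ^ 4 / Real.log n) : z = 0 := by
  have hnR : (2 : ℝ) ≤ n := by exact_mod_cast hn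
  have h96R : (n : ℝ) ≤ 192 := by exact_mod_cast h96.le
  have hlog2 : (0.69 : ℝ) < Real.log 2 := by
    have := Real.log_two_gt_d9
    linarith
  have hlog : (0.69 : ℝ) < Real.log n :=
    hlog2.trans_le (Real.log_le_log (by norm_num) hnR)
  have h1 : 1 / 10 ^ 10 * (n : ℝ) ^ 4 / Real.log n < 1 := by
    rw [div_lt_one (by linarith)]
    have : (n : ℝ) ^ 4 ≤ 192 ^ 4 := by gcongr
    have h2 : (1 / 10 ^ 10 * 192 ^ 4 : ℝ) < 0.69 := by norm_num
    nlinarith
  have h2 : (z : ℝ) < 1 := hz.trans h1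
  have h3 : z < 1 := by exact_mod_cast h2
  omega

theorem main_br : ∃ c : ℝ, 0 < c ∧ ∀ (n k l R : ℕ), 2 ≤ n →
    ∀ (f : Fin k → List (BF ((Fin n × Fin n) ⊕ MvPolynomial ℕ ℂ)))
    (g : Fin l → List (BF ((Fin n × Fin n) ⊕ (List ℂ → ℂ)))),
    (∀ i, (reuseB (f i) : ℝ) ≤ 1 + c * (n : ℝ) ^ 2 ∧
      (sizeB (f i) : ℝ) < c * (n : ℝ) ^ 4 / Real.log n) →
    (∀ j, (reuseB (g j) : ℝ) ≤ 1 + c * (n : ℝ) ^ 2 ∧
      (sizeB (g j) : ℝ) < c * (n : ℝ) ^ 4 / Real.log n) →
    ∃ X : Matrix (Fin n) (Fin n) ℤ, X.permanent = 0 ∧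
      (∀ a b, (R : ℤ) ≤ |(X + Matrix.single a b 1).permanent| ∧
        (X - Matrix.single a b 1).permanent = -(X + Matrix.single a b 1).permanent) ∧
      (∀ i, ∃ s : SignType, ∀ Y : Fin n × Fin n → ℝ, (∀ v, |Y v - X v.1 v.2| ≤ R) →
        SignType.sign ((resB tabP Y (f i)).getD 0 0).re = s) ∧
      ∀ j, ∀ δ : ℝ, 0 < δ → ∃ Y Z : Fin n × Fin n → ℝ, (∀ v, |Y v - X v.1 v.2| < δ) ∧
        (∀ v, |Z v - X v.1 v.2| < δ) ∧ 0 < eval Y (permPoly ℝ n) ∧ eval Z (permPoly ℝ n) < 0 ∧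
        resB id Y (g j) = resB id (fun v => (X v.1 v.2 : ℝ)) (g j) ∧
        resB id Z (g j) = resB id (fun v => (X v.1 v.2 : ℝ)) (g j) := by
  refine ⟨1 / 10 ^ 10, by norm_num, fun n k l R hn f g h1 h2 => ?_⟩
  obtain ⟨L, hL⟩ : ∃ L : List (Pr n), L = (List.ofFn f).flatMap fun p => condP p ++ mainP p :=
    ⟨_, rfl⟩
  have hmem : ∀ i, ∀ q ∈ condP (f i) ++ mainP (f i), q ∈ L := by
    intro i q hq
    rw [hL, List.mem_flatMap]
    exact ⟨f i, (List.mem_ofFn' f _).2 ⟨i, rfl⟩, hq⟩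
  have hsmall : ∀ q ∈ L, (reuse q : ℝ) ≤ 1 + 1 / 10 ^ 9 * (n : ℝ) ^ 2 ∧
      (size q : ℝ) < 1 / 10 ^ 9 * (n : ℝ) ^ 4 / Real.log n := by
    intro q hq
    rw [hL, List.mem_flatMap] at hq
    obtain ⟨p, hp, hq⟩ := hq
    obtain ⟨i, rfl⟩ := (List.mem_ofFn' f _).1 hp
    have h3 : size q ≤ sizeB (f i) ∧ reuse q ≤ reuseB (f i) := by
      rcases List.mem_append.1 hq with hq | hq
      · have e1 := weigh_condP (Sum.elim (fun _ => 1) fun _ => 0) (f i) q hq
        have e2 := weigh_condP (Sum.elim (fun _ => 0) fun _ => 1) (f i) q hq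
        exact ⟨e1.1, Nat.add_le_add e2.2 e2.1⟩
      · have e1 := weigh_mainP (Sum.elim (fun _ => 1) fun _ => 0) (f i) q hq
        have e2 := weigh_mainP (Sum.elim (fun _ => 0) fun _ => 1) (f i) q hq
        exact ⟨e1.1, Nat.add_le_add e2.2.le e2.1⟩
    have h4 : (size q : ℝ) ≤ sizeB (f i) := by exact_mod_cast h3.1
    have h5 : (reuse q : ℝ) ≤ reuseB (f i) := by exact_mod_cast h3.2
    have hlogn : 0 < Real.log n := Real.log_pos (by
      have : (2 : ℝ) ≤ n := by exact_mod_cast hn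
      linarith)
    refine ⟨h5.trans ((h1 i).1.trans ?_), lt_of_le_of_lt h4 ((h1 i).2.trans_le ?_)⟩
    · have : (0 : ℝ) ≤ (n : ℝ) ^ 2 := by positivity
      nlinarith
    · gcongr <;> norm_num
  obtain ⟨X, hX, hM, hbox, hg⟩ := box_gen n L.length l hn (fun i => L.get i)
    (fun j Y x => resB id Y (g j) = resB id x (g j))
    (fun i => (data_all hn _ (hsmall _ (L.get_mem i)).1 (hsmall _ (L.get_mem i)).2).2)
    (fun j => genB_of_small hn id (g j) (by
      rcases Nat.lt_or_ge n 192 with h96 | h96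
      · exact Or.inl (zero_sizeB hn h96 (h2 j).2)
      · exact Or.inr ⟨_, numbersB h96 (h2 j).1 (h2 j).2⟩)) R
  refine ⟨X, hX, hM, fun i => ?_, hg⟩
  have hconst : ∀ q ∈ condP (f i) ++ mainP (f i), ∃ s : SignType, ∀ Y ∈
      {Y : Fin n × Fin n → ℝ | ∀ v, |Y v - X v.1 v.2| ≤ R}, sgR q Y = s := by
    intro q hq
    obtain ⟨m, hm⟩ := List.mem_iff_get.1 (hmem i q hq)
    rw [← hm]
    exact ⟨_, fun Y hY => hbox Y hY m⟩
  obtain ⟨q, hq, hq'⟩ := resolveP {Y : Fin n × Fin n → ℝ | ∀ v, |Y v - X v.1 v.2| ≤ R} (f i)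
    fun q hq => hconst q (List.mem_append_left _ hq)
  obtain ⟨s, hs⟩ := hconst q (List.mem_append_right _ hq)
  refine ⟨s, fun Y hY => ?_⟩
  rw [hq' Y hY]
  exact hs Y hY

end Pool.FV
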