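import Pool.Agent.Helper29.FV.CGen

/-!
# FV: the main theorem for programs with branching gates
-/

set_option autoImplicit false
set_option linter.unusedSectionVars false

namespace Pool.FV

open Finset MvPolynomial Pool.Agent.Helper71.Fml Pool.Agent.Helper97.Form Filter Topology

section Lab

variable {V W W' : Type}

theorem sizeB_mb (f : W' → W) (q : List (BF (V ⊕ W'))) :
    sizeB (q.map (mb (Sum.map id f))) = sizeB q := by
  unfold sizeB
  rw [List.map_map]
  congr 1
  refine List.map_congr_left fun ψ _ => ?_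
  rw [Function.comp_apply]
  unfold entriesB
  rw [bw_mb, elim_map']

theorem reuseB_mb (f : W' → W) (q : List (BF (V ⊕ W'))) :
    reuseB (q.map (mb (Sum.map id f))) = reuseB q := by
  unfold reuseB
  rw [List.map_map, List.length_map]
  congr 2
  refine List.map_congr_left fun ψ _ => ?_
  rw [Function.comp_apply]
  unfold usesB
  rw [bw_mb, elim_map']

theorem resB_mb (tab : W → List ℂ → ℂ) (f : W' → W) (x : V → ℝ) (q : List (BF (V ⊕ W'))) :
    resB tab x (q.map (mb (Sum.map id f))) = resB (fun w => tab (f w)) x q := by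
  induction q with
  | nil => rfl
  | cons φ q ih =>
    rw [List.map_cons]
    simp only [resB]
    rw [ih, bev_mb, elim_map']

/-- a formula whose worst path has no entries has no entries which matter -/
theorem bev_const (x y : V → ℝ) (g : W → ℂ) (θ : BF (V ⊕ W)) (h : entriesB θ = 0) :
    bev (Sum.elim (cx x) g) θ = bev (Sum.elim (cx y) g) θ := by
  unfold entriesB at h
  induction θ with
  | const c => rfl
  | var w =>
    rcases w with v | w
    · simp [bw] at h
    · rfl
  | add a b iha ihb =>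
    simp only [bw] at h
    simp only [bev]
    rw [iha (by omega), ihb (by omega)]
  | mul a b iha ihb =>
    simp only [bw] at h
    simp only [bev]
    rw [iha (by omega), ihb (by omega)]
  | div a b iha ihb =>
    simp only [bw] at h
    simp only [bev]
    rw [iha (by omega), ihb (by omega)]
  | br a b c d iha ihb ihc ihd =>
    simp only [bw] at h
    have h1 := le_max_left (bw (Sum.elim (fun _ => 1) fun _ => 0) b)
      (max (bw (Sum.elim (fun _ => 1) fun _ => 0) c) (bw (Sum.elim (fun _ => 1) fun _ => 0) d))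
    have h2 := le_max_right (bw (Sum.elim (fun _ => 1) fun _ => 0) b)
      (max (bw (Sum.elim (fun _ => 1) fun _ => 0) c) (bw (Sum.elim (fun _ => 1) fun _ => 0) d))
    have h3 := le_max_left (bw (Sum.elim (fun _ => 1) fun _ => 0) c)
      (bw (Sum.elim (fun _ => 1) fun _ => 0) d)
    have h4 := le_max_right (bw (Sum.elim (fun _ => 1) fun _ => 0) c)
      (bw (Sum.elim (fun _ => 1) fun _ => 0) d)
    simp only [bev]
    rw [iha (by omega), ihb (by omega), ihc (by omega), ihd (by omega)]

theorem resB_const (tab : W → List ℂ → ℂ) (x y : V → ℝ) (q : List (BF (V ⊕ W)))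
    (h : sizeB q = 0) : resB tab x q = resB tab y q := by
  induction q with
  | nil => rfl
  | cons φ q ih =>
    have s1 : sizeB (φ :: q) = entriesB φ + sizeB q := by simp [sizeB]
    simp only [resB]
    rw [ih (by omega), bev_const x y _ φ (by omega)]

end Lab

section GenSmall

variable {W : Type} {n : ℕ}

theorem genB_zero (hn : 2 ≤ n) (tab : W → List ℂ → ℂ)
    (q : List (BF ((Fin n × Fin n) ⊕ W))) (hq : sizeB q = 0) :
    Gen (n := n) fun Y x => resB tab Y q = resB tab x q := by
  obtain ⟨H, h1, h2⟩ := gen_zero (W := Empty) (n := n) hn (fun w _ => w.elim) [] rfl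
  refine ⟨H, h1, fun x₀ hx₀ hP0 p hp => ?_⟩
  obtain ⟨Y, Z, e1, e2, e3, e4, _, _⟩ := h2 x₀ hx₀ hP0 p hp
  exact ⟨Y, Z, e1, e2, e3, e4, resB_const tab _ _ q hq, resB_const tab _ _ q hq⟩

theorem genB_of_small (hn : 2 ≤ n) (tab : W → List ℂ → ℂ)
    (q : List (BF ((Fin n × Fin n) ⊕ W)))
    (h : sizeB q = 0 ∨ ∃ s, 1 ≤ s ∧ 12 * 2 ^ s ≤ n ∧ 96 * reuseB q ≤ 4 ^ s ∧
      48 * sizeB q < n * (n / (2 * s)) * 4 ^ s) :
    Gen (n := n) fun Y x => resB tab Y q = resB tab x q := by
  classical
  rcases h with h | ⟨s, h1, h2, h3, h4⟩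
  · exact genB_zero hn tab q h
  · obtain ⟨W', i, f, q', hq'⟩ := finF_all q
    have i' : Fintype W' := Fintype.ofFinite W'
    rw [← hq', sizeB_mb] at h4
    rw [← hq', reuseB_mb] at h3
    have h5 := genB_fin n s (by omega) h1 h2 (fun w => tab (f w)) q' h3 h4
    rw [← hq']
    simp only [resB_mb]
    exact h5

end GenSmall

section Versions

variable {Λ : Type}

/-- the formulas which arise by choosing a branch at every branching gate -/
def mainV : BF Λ → List (Formula ℂ Λ)
  | BF.const c => [Formula.const c]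
  | BF.var w => [Formula.var w]
  | BF.add a b => (mainV a).flatMap fun a' => (mainV b).map fun b' => Formula.add a' b'
  | BF.mul a b => (mainV a).flatMap fun a' => (mainV b).map fun b' => Formula.mul a' b'
  | BF.div a b => (mainV a).flatMap fun a' => (mainV b).map fun b' => Formula.div a' b'
  | BF.br _ g h k => mainV g ++ (mainV h ++ mainV k)

/-- the same for the conditions of all branching gates -/
def condV : BF Λ → List (Formula ℂ Λ)
  | BF.const _ => []
  | BF.var _ => []
  | BF.add a b => condV a ++ condV b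
  | BF.mul a b => condV a ++ condV b
  | BF.div a b => condV a ++ condV b
  | BF.br f g h k => mainV f ++ (condV f ++ (condV g ++ (condV h ++ condV k)))

theorem mem_pairs {f : Formula ℂ Λ → Formula ℂ Λ → Formula ℂ Λ} {A B : List (Formula ℂ Λ)}
    {ψ : Formula ℂ Λ} : ψ ∈ (A.flatMap fun a' => B.map fun b' => f a' b') ↔
      ∃ a ∈ A, ∃ b ∈ B, f a b = ψ := by
  simp only [List.mem_flatMap, List.mem_map]

theorem weigh_mainV (w : Λ → ℕ) (φ : BF Λ) : ∀ ψ ∈ mainV φ, weigh w ψ ≤ bw w φ := by
  induction φ with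
  | const c =>
    intro ψ hψ
    rw [mainV, List.mem_singleton] at hψ
    rw [hψ]
    rfl
  | var v =>
    intro ψ hψ
    rw [mainV, List.mem_singleton] at hψ
    rw [hψ]
    rfl
  | add a b iha ihb =>
    intro ψ hψ
    obtain ⟨a', ha, b', hb, rfl⟩ := mem_pairs.1 hψ
    exact Nat.add_le_add (iha a' ha) (ihb b' hb)
  | mul a b iha ihb =>
    intro ψ hψ
    obtain ⟨a', ha, b', hb, rfl⟩ := mem_pairs.1 hψ
    exact Nat.add_le_add (iha a' ha) (ihb b' hb)
  | div a b iha ihb =>
    intro ψ hψ
    obtain ⟨a', ha, b', hb, rfl⟩ := mem_pairs.1 hψ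
    exact Nat.add_le_add (iha a' ha) (ihb b' hb)
  | br f g h k ihf ihg ihh ihk =>
    intro ψ hψ
    have m1 : bw w g ≤ max (bw w g) (max (bw w h) (bw w k)) := le_max_left _ _
    have m2 : bw w h ≤ max (bw w g) (max (bw w h) (bw w k)) :=
      (le_max_left _ _).trans (le_max_right _ _)
    have m3 : bw w k ≤ max (bw w g) (max (bw w h) (bw w k)) :=
      (le_max_right _ _).trans (le_max_right _ _)
    simp only [mainV, List.mem_append] at hψ
    simp only [bw]
    rcases hψ with hψ | hψ | hψ
    · have := ihg ψ hψ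
      omega
    · have := ihh ψ hψ
      omega
    · have := ihk ψ hψ
      omega

theorem weigh_condV (w : Λ → ℕ) (φ : BF Λ) : ∀ ψ ∈ condV φ, weigh w ψ ≤ bw w φ := by
  induction φ with
  | const c =>
    intro ψ hψ
    simp [condV] at hψ
  | var v =>
    intro ψ hψ
    simp [condV] at hψ
  | add a b iha ihb =>
    intro ψ hψ
    simp only [condV, List.mem_append] at hψ
    simp only [bw]
    rcases hψ with hψ | hψ
    · have := iha ψ hψ
      omega
    · have := ihb ψ hψ
      omega
  | mul a b iha ihb =>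
    intro ψ hψ
    simp only [condV, List.mem_append] at hψ
    simp only [bw]
    rcases hψ with hψ | hψ
    · have := iha ψ hψ
      omega
    · have := ihb ψ hψ
      omega
  | div a b iha ihb =>
    intro ψ hψ
    simp only [condV, List.mem_append] at hψ
    simp only [bw]
    rcases hψ with hψ | hψ
    · have := iha ψ hψ
      omega
    · have := ihb ψ hψ
      omega
  | br f g h k ihf ihg ihh ihk =>
    intro ψ hψ
    have m1 : bw w g ≤ max (bw w g) (max (bw w h) (bw w k)) := le_max_left _ _
    have m2 : bw w h ≤ max (bw w g) (max (bw w h) (bw w k)) :=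
      (le_max_left _ _).trans (le_max_right _ _)
    have m3 : bw w k ≤ max (bw w g) (max (bw w h) (bw w k)) :=
      (le_max_right _ _).trans (le_max_right _ _)
    simp only [condV, List.mem_append] at hψ
    simp only [bw]
    rcases hψ with hψ | hψ | hψ | hψ | hψ
    · have := weigh_mainV w f ψ hψ
      omega
    · have := ihf ψ hψ
      omega
    · have := ihg ψ hψ
      omega
    · have := ihh ψ hψ
      omega
    · have := ihk ψ hψ
      omega

/-- if all conditions have constant signs on a set then the formula is one of its versions on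
this set -/
theorem resolve {P : Type} (B : Set P) (x : P → Λ → ℂ) (φ : BF Λ)
    (h : ∀ ψ ∈ condV φ, ∃ s : SignType, ∀ y ∈ B, SignType.sign (ev (x y) ψ).re = s) :
    ∃ ψ ∈ mainV φ, ∀ y ∈ B, bev (x y) φ = ev (x y) ψ := by
  classical
  induction φ with
  | const c => exact ⟨_, List.mem_singleton_self _, fun y _ => rfl⟩
  | var v => exact ⟨_, List.mem_singleton_self _, fun y _ => rfl⟩
  | add a b iha ihb =>
    obtain ⟨a', ha, ha'⟩ := iha fun ψ hψ => h ψ (List.mem_append_left _ hψ)
    obtain ⟨b', hb, hb'⟩ := ihb fun ψ hψ => h ψ (List.mem_append_right _ hψ)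
    refine ⟨_, mem_pairs.2 ⟨a', ha, b', hb, rfl⟩, fun y hy => ?_⟩
    simp only [bev, ev]
    rw [ha' y hy, hb' y hy]
  | mul a b iha ihb =>
    obtain ⟨a', ha, ha'⟩ := iha fun ψ hψ => h ψ (List.mem_append_left _ hψ)
    obtain ⟨b', hb, hb'⟩ := ihb fun ψ hψ => h ψ (List.mem_append_right _ hψ)
    refine ⟨_, mem_pairs.2 ⟨a', ha, b', hb, rfl⟩, fun y hy => ?_⟩
    simp only [bev, ev]
    rw [ha' y hy, hb' y hy]
  | div a b iha ihb =>
    obtain ⟨a', ha, ha'⟩ := iha fun ψ hψ => h ψ (List.mem_append_left _ hψ)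
    obtain ⟨b', hb, hb'⟩ := ihb fun ψ hψ => h ψ (List.mem_append_right _ hψ)
    refine ⟨_, mem_pairs.2 ⟨a', ha, b', hb, rfl⟩, fun y hy => ?_⟩
    simp only [bev, ev]
    rw [ha' y hy, hb' y hy]
  | br f g k l ihf ihg ihk ihl =>
    simp only [condV, List.mem_append] at h
    obtain ⟨f', hf, hf'⟩ := ihf fun ψ hψ => h ψ (Or.inr (Or.inl hψ))
    obtain ⟨g', hg, hg'⟩ := ihg fun ψ hψ => h ψ (Or.inr (Or.inr (Or.inl hψ)))
    obtain ⟨k', hk, hk'⟩ := ihk fun ψ hψ => h ψ (Or.inr (Or.inr (Or.inr (Or.inl hψ))))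
    obtain ⟨l', hl, hl'⟩ := ihl fun ψ hψ => h ψ (Or.inr (Or.inr (Or.inr (Or.inr hψ))))
    obtain ⟨s, hs⟩ := h f' (Or.inl hf)
    simp only [mainV, List.mem_append]
    cases s with
    | zero =>
      refine ⟨k', Or.inr (Or.inl hk), fun y hy => ?_⟩
      have h1 : (ev (x y) f').re = 0 := sign_eq_zero_iff.1 (hs y hy)
      simp only [bev]
      rw [hf' y hy, h1, if_neg (lt_irrefl _), if_neg (lt_irrefl _)]
      exact hk' y hy
    | neg =>
      refine ⟨l', Or.inr (Or.inr hl), fun y hy => ?_⟩
      have h0 : (ev (x y) f').re < 0 := sign_eq_neg_one_iff.1 (hs y hy)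
      simp only [bev]
      rw [hf' y hy, if_neg (not_lt.2 h0.le), if_pos h0]
      exact hl' y hy
    | pos =>
      refine ⟨g', Or.inl hg, fun y hy => ?_⟩
      have h0 : 0 < (ev (x y) f').re := sign_eq_one_iff.1 (hs y hy)
      simp only [bev]
      rw [hf' y hy, if_pos h0]
      exact hg' y hy

end Versions

end Pool.FV
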