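import Pool.Agent.Helper29.FV.AForm
import Pool.Agent.Helper29.FV.Base

/-!
# FV: formulas with branching gates
-/

set_option autoImplicit false
set_option linter.unusedSectionVars false

namespace Pool.FV

open Finset MvPolynomial Pool.Agent.Helper71.Fml Pool.Agent.Helper97.Form

/-- Formulas with branching gates: `br f g h k` is `g`, `h` or `k` if the real part of `f` is
positive, zero or negative. -/
inductive BF (Λ : Type) : Type
  | const : ℂ → BF Λ
  | var : Λ → BF Λ
  | add : BF Λ → BF Λ → BF Λ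
  | mul : BF Λ → BF Λ → BF Λ
  | div : BF Λ → BF Λ → BF Λ
  | br : BF Λ → BF Λ → BF Λ → BF Λ → BF Λ

section Cut

variable {Λ : Type}

open Classical in
/-- the value of a formula with branching gates -/
noncomputable def bev (x : Λ → ℂ) : BF Λ → ℂ
  | BF.const c => c
  | BF.var v => x v
  | BF.add a b => bev x a + bev x b
  | BF.mul a b => bev x a * bev x b
  | BF.div a b => bev x a / bev x b
  | BF.br f g h k => if 0 < (bev x f).re then bev x g else
      if (bev x f).re < 0 then bev x k else bev x h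

/-- the largest weight of the leaves used -/
def bw (w : Λ → ℕ) : BF Λ → ℕ
  | BF.const _ => 0
  | BF.var v => w v
  | BF.add a b => bw w a + bw w b
  | BF.mul a b => bw w a + bw w b
  | BF.div a b => bw w a + bw w b
  | BF.br f g h k => bw w f + max (bw w g) (max (bw w h) (bw w k))

open Classical in
/-- The formula with `0` in place of the quotients with zero denominator and with the branches
taken; the parts with real part zero; the parts with nonzero real part. -/
noncomputable def cutB (x : Λ → ℂ) :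
    BF Λ → Formula ℂ Λ × List (Formula ℂ Λ) × List (Formula ℂ Λ)
  | BF.const c => (Formula.const c, [], [])
  | BF.var w => (Formula.var w, [], [])
  | BF.add a b => (Formula.add (cutB x a).1 (cutB x b).1, (cutB x a).2.1 ++ (cutB x b).2.1,
      (cutB x a).2.2 ++ (cutB x b).2.2)
  | BF.mul a b => (Formula.mul (cutB x a).1 (cutB x b).1, (cutB x a).2.1 ++ (cutB x b).2.1,
      (cutB x a).2.2 ++ (cutB x b).2.2)
  | BF.div a b => if bev x b = 0 then (Formula.const 0, (cutB x b).1 ::
        Formula.mul (Formula.const Complex.I) (cutB x b).1 :: (cutB x b).2.1, (cutB x b).2.2)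
      else (Formula.div (cutB x a).1 (cutB x b).1, (cutB x a).2.1 ++ (cutB x b).2.1,
      (cutB x a).2.2 ++ (cutB x b).2.2)
  | BF.br f g h k => if 0 < (bev x f).re then ((cutB x g).1, (cutB x f).2.1 ++ (cutB x g).2.1,
        (cutB x f).1 :: ((cutB x f).2.2 ++ (cutB x g).2.2))
      else if (bev x f).re < 0 then ((cutB x k).1, (cutB x f).2.1 ++ (cutB x k).2.1,
        (cutB x f).1 :: ((cutB x f).2.2 ++ (cutB x k).2.2))
      else ((cutB x h).1, (cutB x f).1 :: ((cutB x f).2.1 ++ (cutB x h).2.1),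
        (cutB x f).2.2 ++ (cutB x h).2.2)

theorem re_I_mul (z : ℂ) : (Complex.I * z).re = -z.im := by
  simp

/-- the cut formula at the point itself -/
theorem cutB_self (x : Λ → ℂ) (φ : BF Λ) :
    Def x (cutB x φ).1 ∧ (∀ ψ ∈ (cutB x φ).2.1, Def x ψ ∧ (ev x ψ).re = 0) ∧
      (∀ ψ ∈ (cutB x φ).2.2, Def x ψ ∧ (ev x ψ).re ≠ 0) ∧ bev x φ = ev x (cutB x φ).1 := by
  classical
  induction φ with
  | const c =>
    exact ⟨trivial, fun ψ hψ => by simp [cutB] at hψ, fun ψ hψ => by simp [cutB] at hψ, rfl⟩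
  | var w =>
    exact ⟨trivial, fun ψ hψ => by simp [cutB] at hψ, fun ψ hψ => by simp [cutB] at hψ, rfl⟩
  | add a b iha ihb =>
    obtain ⟨a1, a2, a3, a4⟩ := iha
    obtain ⟨b1, b2, b3, b4⟩ := ihb
    refine ⟨⟨a1, b1⟩, fun ψ hψ => (List.mem_append.1 hψ).elim (a2 ψ) (b2 ψ),
      fun ψ hψ => (List.mem_append.1 hψ).elim (a3 ψ) (b3 ψ), ?_⟩
    simp only [bev, cutB, ev]
    rw [a4, b4]
  | mul a b iha ihb =>
    obtain ⟨a1, a2, a3, a4⟩ := iha
    obtain ⟨b1, b2, b3, b4⟩ := ihb
    refine ⟨⟨a1, b1⟩, fun ψ hψ => (List.mem_append.1 hψ).elim (a2 ψ) (b2 ψ),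
      fun ψ hψ => (List.mem_append.1 hψ).elim (a3 ψ) (b3 ψ), ?_⟩
    simp only [bev, cutB, ev]
    rw [a4, b4]
  | div a b iha ihb =>
    obtain ⟨a1, a2, a3, a4⟩ := iha
    obtain ⟨b1, b2, b3, b4⟩ := ihb
    by_cases hb : bev x b = 0
    · simp only [cutB, if_pos hb]
      have h0 : ev x (cutB x b).1 = 0 := by rw [← b4, hb]
      refine ⟨trivial, fun ψ hψ => ?_, b3, ?_⟩
      · rcases List.mem_cons.1 hψ with rfl | hψ
        · exact ⟨b1, by rw [h0, Complex.zero_re]⟩
        · rcases List.mem_cons.1 hψ with rfl | hψ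
          · refine ⟨⟨trivial, b1⟩, ?_⟩
            simp only [ev]
            rw [h0, mul_zero, Complex.zero_re]
          · exact b2 ψ hψ
      · simp only [bev, ev]
        rw [hb, div_zero, map_zero]
    · simp only [cutB, if_neg hb]
      refine ⟨⟨a1, b1, by rwa [← b4]⟩, fun ψ hψ => (List.mem_append.1 hψ).elim (a2 ψ) (b2 ψ),
        fun ψ hψ => (List.mem_append.1 hψ).elim (a3 ψ) (b3 ψ), ?_⟩
      simp only [bev, ev]
      rw [a4, b4]
  | br f g h k ihf ihg ihh ihk =>
    obtain ⟨f1, f2, f3, f4⟩ := ihf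
    by_cases hp : 0 < (bev x f).re
    · obtain ⟨g1, g2, g3, g4⟩ := ihg
      simp only [cutB, if_pos hp]
      refine ⟨g1, fun ψ hψ => (List.mem_append.1 hψ).elim (f2 ψ) (g2 ψ), fun ψ hψ => ?_, ?_⟩
      · rcases List.mem_cons.1 hψ with rfl | hψ
        · exact ⟨f1, by rw [← f4]; exact hp.ne'⟩
        · exact (List.mem_append.1 hψ).elim (f3 ψ) (g3 ψ)
      · simp only [bev, if_pos hp]
        exact g4
    · by_cases hn : (bev x f).re < 0
      · obtain ⟨k1, k2, k3, k4⟩ := ihk
        simp only [cutB, if_neg hp, if_pos hn]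
        refine ⟨k1, fun ψ hψ => (List.mem_append.1 hψ).elim (f2 ψ) (k2 ψ), fun ψ hψ => ?_, ?_⟩
        · rcases List.mem_cons.1 hψ with rfl | hψ
          · exact ⟨f1, by rw [← f4]; exact hn.ne⟩
          · exact (List.mem_append.1 hψ).elim (f3 ψ) (k3 ψ)
        · simp only [bev, if_neg hp, if_pos hn]
          exact k4
      · obtain ⟨h1, h2, h3, h4⟩ := ihh
        simp only [cutB, if_neg hp, if_neg hn]
        refine ⟨h1, fun ψ hψ => ?_, fun ψ hψ => (List.mem_append.1 hψ).elim (f3 ψ) (h3 ψ), ?_⟩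
        · rcases List.mem_cons.1 hψ with rfl | hψ
          · exact ⟨f1, by rw [← f4]; exact le_antisymm (not_lt.1 hp) (not_lt.1 hn)⟩
          · exact (List.mem_append.1 hψ).elim (f2 ψ) (h2 ψ)
        · simp only [bev, if_neg hp, if_neg hn]
          exact h4

/-- the value at another point at which the parts have the same signs -/
theorem bev_cutB (x y : Λ → ℂ) (φ : BF Λ) (hZ : ∀ ψ ∈ (cutB x φ).2.1, (ev y ψ).re = 0)
    (hO : ∀ ψ ∈ (cutB x φ).2.2, 0 < (ev x ψ).re * (ev y ψ).re) :
    bev y φ = ev y (cutB x φ).1 := by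
  classical
  induction φ with
  | const c => rfl
  | var w => rfl
  | add a b iha ihb =>
    simp only [cutB, ev, bev] at hZ hO ⊢
    rw [iha (fun ψ hψ => hZ ψ (List.mem_append_left _ hψ))
        (fun ψ hψ => hO ψ (List.mem_append_left _ hψ)),
      ihb (fun ψ hψ => hZ ψ (List.mem_append_right _ hψ))
        (fun ψ hψ => hO ψ (List.mem_append_right _ hψ))]
  | mul a b iha ihb =>
    simp only [cutB, ev, bev] at hZ hO ⊢
    rw [iha (fun ψ hψ => hZ ψ (List.mem_append_left _ hψ))
        (fun ψ hψ => hO ψ (List.mem_append_left _ hψ)),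
      ihb (fun ψ hψ => hZ ψ (List.mem_append_right _ hψ))
        (fun ψ hψ => hO ψ (List.mem_append_right _ hψ))]
  | div a b iha ihb =>
    by_cases hb : bev x b = 0
    · simp only [cutB, if_pos hb] at hZ hO ⊢
      have h1 := ihb (fun ψ hψ => hZ ψ (List.mem_cons_of_mem _ (List.mem_cons_of_mem _ hψ))) hO
      have h2 := hZ _ List.mem_cons_self
      have h3 := hZ _ (List.mem_cons_of_mem _ List.mem_cons_self)
      simp only [ev] at h3
      have h4 : (Complex.I * ev y (cutB x b).1).re = 0 := h3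
      rw [re_I_mul] at h4
      have h5 : ev y (cutB x b).1 = 0 := Complex.ext h2 (by
        rw [Complex.zero_im]
        linarith)
      simp only [bev, ev]
      rw [h1, h5, div_zero, map_zero]
    · simp only [cutB, if_neg hb] at hZ hO ⊢
      simp only [bev, ev]
      rw [iha (fun ψ hψ => hZ ψ (List.mem_append_left _ hψ))
          (fun ψ hψ => hO ψ (List.mem_append_left _ hψ)),
        ihb (fun ψ hψ => hZ ψ (List.mem_append_right _ hψ))
          (fun ψ hψ => hO ψ (List.mem_append_right _ hψ))]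
  | br f g h k ihf ihg ihh ihk =>
    have hf := (cutB_self x f).2.2.2
    by_cases hp : 0 < (bev x f).re
    · simp only [cutB, if_pos hp] at hZ hO ⊢
      have h1 := ihf (fun ψ hψ => hZ ψ (List.mem_append_left _ hψ))
        (fun ψ hψ => hO ψ (List.mem_cons_of_mem _ (List.mem_append_left _ hψ)))
      have h2 := ihg (fun ψ hψ => hZ ψ (List.mem_append_right _ hψ))
        (fun ψ hψ => hO ψ (List.mem_cons_of_mem _ (List.mem_append_right _ hψ)))
      have h3 := hO _ List.mem_cons_self
      rw [← hf, ← h1] at h3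
      have h4 : 0 < (bev y f).re := (pos_iff_pos_of_mul_pos h3).1 hp
      simp only [bev, if_pos h4]
      exact h2
    · by_cases hn : (bev x f).re < 0
      · simp only [cutB, if_neg hp, if_pos hn] at hZ hO ⊢
        have h1 := ihf (fun ψ hψ => hZ ψ (List.mem_append_left _ hψ))
          (fun ψ hψ => hO ψ (List.mem_cons_of_mem _ (List.mem_append_left _ hψ)))
        have h2 := ihk (fun ψ hψ => hZ ψ (List.mem_append_right _ hψ))
          (fun ψ hψ => hO ψ (List.mem_cons_of_mem _ (List.mem_append_right _ hψ)))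
        have h3 := hO _ List.mem_cons_self
        rw [← hf, ← h1] at h3
        have h4 : (bev y f).re < 0 := (neg_iff_neg_of_mul_pos h3).1 hn
        simp only [bev, if_neg (not_lt.2 h4.le), if_pos h4]
        exact h2
      · simp only [cutB, if_neg hp, if_neg hn] at hZ hO ⊢
        have h1 := ihf (fun ψ hψ => hZ ψ (List.mem_cons_of_mem _ (List.mem_append_left _ hψ)))
          (fun ψ hψ => hO ψ (List.mem_append_left _ hψ))
        have h2 := ihh (fun ψ hψ => hZ ψ (List.mem_cons_of_mem _ (List.mem_append_right _ hψ)))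
          (fun ψ hψ => hO ψ (List.mem_append_right _ hψ))
        have h3 := hZ _ List.mem_cons_self
        rw [← h1] at h3
        simp only [bev]
        rw [if_neg (by rw [h3]; exact lt_irrefl _), if_neg (by rw [h3]; exact lt_irrefl _)]
        exact h2

/-- the weights of the parts -/
theorem weigh_cutB (w : Λ → ℕ) (x : Λ → ℂ) (φ : BF Λ) :
    2 * weigh w (cutB x φ).1 + ((cutB x φ).2.1.map (weigh w)).sum ≤ 2 * bw w φ := by
  classical
  induction φ with
  | const c => simp [cutB, weigh]
  | var v => simp [cutB, weigh, bw]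
  | add a b iha ihb =>
    simp only [cutB, weigh, bw, List.map_append, List.sum_append]
    omega
  | mul a b iha ihb =>
    simp only [cutB, weigh, bw, List.map_append, List.sum_append]
    omega
  | div a b iha ihb =>
    by_cases hb : bev x b = 0
    · simp only [cutB, if_pos hb, weigh, bw, List.map_cons, List.sum_cons]
      omega
    · simp only [cutB, if_neg hb, weigh, bw, List.map_append, List.sum_append]
      omega
  | br f g h k ihf ihg ihh ihk =>
    have m1 : bw w g ≤ max (bw w g) (max (bw w h) (bw w k)) := le_max_left _ _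
    have m2 : bw w h ≤ max (bw w g) (max (bw w h) (bw w k)) :=
      (le_max_left _ _).trans (le_max_right _ _)
    have m3 : bw w k ≤ max (bw w g) (max (bw w h) (bw w k)) :=
      (le_max_right _ _).trans (le_max_right _ _)
    by_cases hp : 0 < (bev x f).re
    · simp only [cutB, if_pos hp, bw, List.map_append, List.sum_append]
      omega
    · by_cases hn : (bev x f).re < 0
      · simp only [cutB, if_neg hp, if_pos hn, bw, List.map_append, List.sum_append]
        omega
      · simp only [cutB, if_neg hp, if_neg hn, bw, List.map_append, List.sum_append,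
          List.map_cons, List.sum_cons]
        omega

/-- there are finitely many ways to cut -/
theorem finite_cutB (φ : BF Λ) : (Set.range fun x : Λ → ℂ => cutB x φ).Finite := by
  classical
  induction φ with
  | const c =>
    refine (Set.finite_singleton (Formula.const c, ([] : List (Formula ℂ Λ)),
      ([] : List (Formula ℂ Λ)))).subset ?_
    rintro _ ⟨x, rfl⟩
    exact rfl
  | var w =>
    refine (Set.finite_singleton (Formula.var w, ([] : List (Formula ℂ Λ)),
      ([] : List (Formula ℂ Λ)))).subset ?_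
    rintro _ ⟨x, rfl⟩
    exact rfl
  | add a b iha ihb =>
    refine (Set.Finite.image2 (fun u v => (Formula.add u.1 v.1, u.2.1 ++ v.2.1,
      u.2.2 ++ v.2.2)) iha ihb).subset ?_
    rintro _ ⟨x, rfl⟩
    exact ⟨_, ⟨x, rfl⟩, _, ⟨x, rfl⟩, rfl⟩
  | mul a b iha ihb =>
    refine (Set.Finite.image2 (fun u v => (Formula.mul u.1 v.1, u.2.1 ++ v.2.1,
      u.2.2 ++ v.2.2)) iha ihb).subset ?_
    rintro _ ⟨x, rfl⟩
    exact ⟨_, ⟨x, rfl⟩, _, ⟨x, rfl⟩, rfl⟩
  | div a b iha ihb =>
    refine ((Set.Finite.image2 (fun u v => (Formula.div u.1 v.1, u.2.1 ++ v.2.1,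
      u.2.2 ++ v.2.2)) iha ihb).union (ihb.image fun v => (Formula.const 0, v.1 ::
      Formula.mul (Formula.const Complex.I) v.1 :: v.2.1, v.2.2))).subset ?_
    rintro _ ⟨x, rfl⟩
    by_cases hb : bev x b = 0
    · right
      refine ⟨_, ⟨x, rfl⟩, ?_⟩
      simp only [cutB, if_pos hb]
    · left
      refine ⟨_, ⟨x, rfl⟩, _, ⟨x, rfl⟩, ?_⟩
      simp only [cutB, if_neg hb]
  | br f g h k ihf ihg ihh ihk =>
    refine (((Set.Finite.image2 (fun u v => (v.1, u.2.1 ++ v.2.1, u.1 :: (u.2.2 ++ v.2.2)))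
      ihf ihg).union (Set.Finite.image2 (fun u v => (v.1, u.2.1 ++ v.2.1,
        u.1 :: (u.2.2 ++ v.2.2))) ihf ihk)).union (Set.Finite.image2 (fun u v => (v.1,
        u.1 :: (u.2.1 ++ v.2.1), u.2.2 ++ v.2.2)) ihf ihh)).subset ?_
    rintro _ ⟨x, rfl⟩
    by_cases hp : 0 < (bev x f).re
    · refine Or.inl (Or.inl ⟨_, ⟨x, rfl⟩, _, ⟨x, rfl⟩, ?_⟩)
      simp only [cutB, if_pos hp]
    · by_cases hn : (bev x f).re < 0
      · refine Or.inl (Or.inr ⟨_, ⟨x, rfl⟩, _, ⟨x, rfl⟩, ?_⟩)
        simp only [cutB, if_neg hp, if_pos hn]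
      · refine Or.inr ⟨_, ⟨x, rfl⟩, _, ⟨x, rfl⟩, ?_⟩
        simp only [cutB, if_neg hp, if_neg hn]

end Cut

section Mb

variable {Λ Λ' Λ'' V W W' : Type}

/-- other labels for the leaves -/
def mb (f : Λ → Λ') : BF Λ → BF Λ'
  | BF.const c => BF.const c
  | BF.var v => BF.var (f v)
  | BF.add a b => BF.add (mb f a) (mb f b)
  | BF.mul a b => BF.mul (mb f a) (mb f b)
  | BF.div a b => BF.div (mb f a) (mb f b)
  | BF.br a b c d => BF.br (mb f a) (mb f b) (mb f c) (mb f d)

theorem mb_mb (f : Λ → Λ') (g : Λ' → Λ'') (φ : BF Λ) : mb g (mb f φ) = mb (g ∘ f) φ := by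
  induction φ with
  | const c => rfl
  | var v => rfl
  | add a b iha ihb => simp only [mb, iha, ihb]
  | mul a b iha ihb => simp only [mb, iha, ihb]
  | div a b iha ihb => simp only [mb, iha, ihb]
  | br a b c d iha ihb ihc ihd => simp only [mb, iha, ihb, ihc, ihd]

theorem bev_mb (x : Λ' → ℂ) (f : Λ → Λ') (φ : BF Λ) : bev x (mb f φ) = bev (x ∘ f) φ := by
  induction φ with
  | const c => rfl
  | var v => rfl
  | add a b iha ihb => simp only [mb, bev, iha, ihb]
  | mul a b iha ihb => simp only [mb, bev, iha, ihb]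
  | div a b iha ihb => simp only [mb, bev, iha, ihb]
  | br a b c d iha ihb ihc ihd => simp only [mb, bev, iha, ihb, ihc, ihd]

theorem bw_mb (w : Λ' → ℕ) (f : Λ → Λ') (φ : BF Λ) : bw w (mb f φ) = bw (w ∘ f) φ := by
  induction φ with
  | const c => rfl
  | var v => rfl
  | add a b iha ihb => simp only [mb, bw, iha, ihb]
  | mul a b iha ihb => simp only [mb, bw, iha, ihb]
  | div a b iha ihb => simp only [mb, bw, iha, ihb]
  | br a b c d iha ihb ihc ihd => simp only [mb, bw, iha, ihb, ihc, ihd]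

theorem elim_map' {M : Type} (x : V → M) (u : W → M) (f : W' → W) :
    Sum.elim x u ∘ Sum.map id f = Sum.elim x fun w => u (f w) := by
  funext w
  rcases w with v | w
  · rfl
  · rfl

theorem map_comp' (f : W' → W) {W'' : Type} (g : W'' → W') :
    (Sum.map id f ∘ Sum.map id g : V ⊕ W'' → V ⊕ W) = Sum.map id (f ∘ g) := by
  funext w
  rcases w with v | w
  · rfl
  · rfl

/-- finitely many labels -/
def FinF (T : List (BF (V ⊕ W))) : Prop :=
  ∃ (W' : Type) (_ : Finite W') (f : W' → W) (T' : List (BF (V ⊕ W'))),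
    T'.map (mb (Sum.map id f)) = T

theorem FinF.append {S T : List (BF (V ⊕ W))} (hS : FinF S) (hT : FinF T) : FinF (S ++ T) := by
  obtain ⟨W₁, i₁, f₁, S', hS'⟩ := hS
  obtain ⟨W₂, i₂, f₂, T', hT'⟩ := hT
  refine ⟨W₁ ⊕ W₂, inferInstance, Sum.elim f₁ f₂, S'.map (mb (Sum.map id Sum.inl)) ++
      T'.map (mb (Sum.map id Sum.inr)), ?_⟩
  rw [List.map_append, List.map_map, List.map_map, ← hS', ← hT']
  congr 1
  · refine List.map_congr_left fun ψ _ => ?_
    rw [Function.comp_apply, mb_mb, map_comp']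
    rfl
  · refine List.map_congr_left fun ψ _ => ?_
    rw [Function.comp_apply, mb_mb, map_comp']
    rfl

theorem finF_one (φ : BF (V ⊕ W)) : FinF [φ] := by
  have two : ∀ {S : List (BF (V ⊕ W))} {φ : BF (V ⊕ W)}, FinF S →
      (∀ (W' : Type) (f : W' → W) (T' : List (BF (V ⊕ W'))), T'.map (mb (Sum.map id f)) = S →
        ∃ φ' : BF (V ⊕ W'), mb (Sum.map id f) φ' = φ) → FinF [φ] := by
    rintro S φ ⟨W', i, f, T', h⟩ h2
    obtain ⟨φ', hφ⟩ := h2 W' f T' h
    exact ⟨W', i, f, [φ'], by rw [List.map_singleton, hφ]⟩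
  induction φ with
  | const c => exact ⟨Empty, inferInstance, Empty.elim, [BF.const c], rfl⟩
  | var v =>
    rcases v with v | w
    · exact ⟨Empty, inferInstance, Empty.elim, [BF.var (Sum.inl v)], rfl⟩
    · exact ⟨Unit, inferInstance, fun _ => w, [BF.var (Sum.inr ())], rfl⟩
  | add a b iha ihb =>
    refine two (iha.append ihb) fun W' f T' h => ?_
    rcases T' with _ | ⟨a', _ | ⟨b', T'⟩⟩
    · simp at h
    · simp at h
    · simp only [List.map_cons, List.cons_append, List.nil_append, List.cons.injEq] at h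
      exact ⟨BF.add a' b', by rw [mb, h.1, h.2.1]⟩
  | mul a b iha ihb =>
    refine two (iha.append ihb) fun W' f T' h => ?_
    rcases T' with _ | ⟨a', _ | ⟨b', T'⟩⟩
    · simp at h
    · simp at h
    · simp only [List.map_cons, List.cons_append, List.nil_append, List.cons.injEq] at h
      exact ⟨BF.mul a' b', by rw [mb, h.1, h.2.1]⟩
  | div a b iha ihb =>
    refine two (iha.append ihb) fun W' f T' h => ?_
    rcases T' with _ | ⟨a', _ | ⟨b', T'⟩⟩
    · simp at h
    · simp at h
    · simp only [List.map_cons, List.cons_append, List.nil_append, List.cons.injEq] at h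
      exact ⟨BF.div a' b', by rw [mb, h.1, h.2.1]⟩
  | br a b c d iha ihb ihc ihd =>
    refine two ((iha.append ihb).append (ihc.append ihd)) fun W' f T' h => ?_
    rcases T' with _ | ⟨a', _ | ⟨b', _ | ⟨c', _ | ⟨d', T'⟩⟩⟩⟩
    · simp at h
    · simp at h
    · simp at h
    · simp at h
    · simp only [List.map_cons, List.cons_append, List.nil_append, List.cons.injEq] at h
      exact ⟨BF.br a' b' c' d', by rw [mb, h.1, h.2.1, h.2.2.1, h.2.2.2.1]⟩

theorem finF_all (T : List (BF (V ⊕ W))) : FinF T := by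
  induction T with
  | nil => exact ⟨Empty, inferInstance, Empty.elim, [], rfl⟩
  | cons φ T ih => exact (finF_one φ).append ih

end Mb

end Pool.FV
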