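import Pool.Agent.Helper29.FV.CMain
import Pool.Agent.Helper29.FV.AFin

/-!
# FV: small programs with branching gates and arbitrary functions of the earlier results
-/

set_option autoImplicit false
set_option linter.unusedSectionVars false

namespace Pool.FV

open Finset MvPolynomial Pool.Agent.Helper71.Fml Pool.Agent.Helper97.Form Filter Topology

section Blocks

variable {V W : Type}

/-- the number of leaves labelled by coordinates, on the worst path -/
def entriesB (φ : BF (V ⊕ W)) : ℕ := bw (Sum.elim (fun _ => 1) fun _ => 0) φ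

/-- the number of other leaves, on the worst path -/
def usesB (φ : BF (V ⊕ W)) : ℕ := bw (Sum.elim (fun _ => 0) fun _ => 1) φ

/-- the size of a program -/
def sizeB (q : List (BF (V ⊕ W))) : ℕ := (q.map entriesB).sum

/-- the number of steps plus the number of other leaves -/
def reuseB (q : List (BF (V ⊕ W))) : ℕ := q.length + (q.map usesB).sum

/-- If formulas are small then they have few leaves in some block. -/
theorem exists_blockC (n s : ℕ) (hs1 : 1 ≤ s) (q : List (Formula ℂ ((Fin n × Fin n) ⊕ W)))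
    (u : ℕ) (hR : 4 * u ≤ 4 ^ s) (hsize : 24 * size q < n * (n / (2 * s)) * 4 ^ s) :
    ∃ r c : Fin (2 * s) → Fin n, Function.Injective r ∧ Function.Injective c ∧
      12 * blkSize (blk r c) q + u < Fintype.card {i : RC s // UU i ≠ ∅} := by
  classical
  by_contra hcon0
  have hcon : ∀ r c : Fin (2 * s) → Fin n, Function.Injective r → Function.Injective c →
      ¬ 12 * blkSize (blk r c) q + u < Fintype.card {i : RC s // UU i ≠ ∅} :=
    fun r c hr hc h => hcon0 ⟨r, c, hr, hc, h⟩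
  have h4 : 4 ≤ 4 ^ s := by
    calc 4 = 4 ^ 1 := by norm_num
      _ ≤ 4 ^ s := Nat.pow_le_pow_right (by norm_num) hs1
  have key : ∀ r c : Fin (2 * s) → Fin n, Function.Injective r → Function.Injective c →
      (4 ^ s + 23) / 24 ≤ (joinP q).leavesIn (blk r c) := by
    intro r c hr hc
    have hcard := card_pos s
    have h1 := hcon r c hr hc
    rw [leavesIn_joinP]
    omega
  have hb := blocks n (2 * s) (by omega) (joinP q) _ key
  rw [size_joinP] at hb
  have h6 : 4 ^ s ≤ 24 * ((4 ^ s + 23) / 24) := by omega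
  have h7 : n * (n / (2 * s)) * 4 ^ s ≤ n * (n / (2 * s)) * (24 * ((4 ^ s + 23) / 24)) :=
    Nat.mul_le_mul_left _ h6
  have h8 : n * (n / (2 * s)) * (24 * ((4 ^ s + 23) / 24)) =
    24 * (n * (n / (2 * s)) * ((4 ^ s + 23) / 24)) := by ring
  omega

variable [DecidableEq V]

/-- the formulas of a version of a program -/
def allB (v : List (Formula ℂ (V ⊕ W) × List (Formula ℂ (V ⊕ W)) × List (Formula ℂ (V ⊕ W)))) :
    List (Formula ℂ (V ⊕ W)) :=
  topB v ++ topB v ++ zerB v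

theorem size_allB (tab : W → List ℂ → ℂ) (x : V → ℝ) (q : List (BF (V ⊕ W))) :
    size (allB (cutQ tab x q)) ≤ 2 * sizeB q := by
  obtain ⟨h1, _⟩ := weigh_cutQ (Sum.elim (fun _ => 1) fun _ => 0) tab x q
  unfold size allB sizeB
  rw [List.map_append, List.map_append, List.sum_append, List.sum_append]
  have e1 : ∀ T : List (Formula ℂ (V ⊕ W)), (T.map entries).sum =
      (T.map (weigh (Sum.elim (fun _ => 1) fun _ => 0))).sum := fun _ => rfl
  have e2 : (q.map entriesB).sum = (q.map (bw (Sum.elim (fun _ => 1) fun _ => 0))).sum := rfl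
  rw [e1, e1, e2]
  omega

theorem sum_progB (D : Finset V) (tab : W → List ℂ → ℂ) (x : V → ℝ) (q : List (BF (V ⊕ W))) :
    ((topB (cutQ tab x q) ++ (zerB (cutQ tab x q)).filter
      fun ψ => decide (inBlock D ψ + uses ψ ≠ 0)).map
      fun ψ => 2 * (5 * (inBlock D ψ + uses ψ) + 1)).sum ≤
      12 * blkSize D (allB (cutQ tab x q)) + 24 * reuseB q := by
  refine (sum_cut D _ _).trans ?_
  obtain ⟨h1, h2⟩ := weigh_cutQ (Sum.elim (fun _ => 0) fun _ => 1) tab x q
  rw [h2]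
  have h3 : ∀ T : List (Formula ℂ (V ⊕ W)), (T.map fun ψ => inBlock D ψ + uses ψ).sum =
      blkSize D T + (T.map uses).sum := by
    intro T
    induction T with
    | nil => simp [blkSize]
    | cons φ T ih =>
      have e1 : blkSize D (φ :: T) = inBlock D φ + blkSize D T := by simp [blkSize]
      rw [List.map_cons, List.sum_cons, ih, e1, List.map_cons, List.sum_cons]
      omega
  have h4 : ∀ S T : List (Formula ℂ (V ⊕ W)), blkSize D (S ++ T) = blkSize D S + blkSize D T := by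
    intro S T
    unfold blkSize
    rw [List.map_append, List.sum_append]
  rw [h3, h3]
  unfold allB
  rw [h4, h4]
  have h5 : reuseB q = q.length + (q.map usesB).sum := rfl
  have h6 : (q.map usesB).sum = (q.map (bw (Sum.elim (fun _ => 0) fun _ => 1))).sum := rfl
  have h7 : ∀ T : List (Formula ℂ (V ⊕ W)), (T.map uses).sum =
      (T.map (weigh (Sum.elim (fun _ => 0) fun _ => 1))).sum := fun _ => rfl
  rw [h7, h7]
  omega

end Blocks

section Gen

variable {W : Type} {n : ℕ}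

theorem zerB_zero {V : Type} (tab : W → List ℂ → ℂ) (x : V → ℝ) (q : List (BF (V ⊕ W))) :
    ∀ ψ ∈ zerB (cutQ tab x q), ∃ u : W → ℂ, Def (Sum.elim (cx x) u) ψ ∧
      (ev (Sum.elim (cx x) u) ψ).re = 0 := by
  induction q with
  | nil =>
    intro ψ hψ
    simp [cutQ, zerB] at hψ
  | cons φ q ih =>
    intro ψ hψ
    unfold zerB at hψ
    simp only [cutQ, List.flatMap_cons, List.mem_append] at hψ
    rcases hψ with hψ | hψ
    · exact ⟨_, (cutB_self _ φ).2.1 ψ hψ⟩
    · exact ih ψ hψ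

theorem pair_of_flowB (E : (Fin n × Fin n → ℝ) → (Fin n × Fin n → ℝ) → Prop)
    (a : Fin n × Fin n → MvPolynomial (Fin n × Fin n) ℝ) (x₀ : Fin n × Fin n → ℝ)
    (hd0 : eval (cx x₀) (dl (tc a) (permPoly ℂ n)) ≠ 0) (hP0 : eval x₀ (permPoly ℝ n) = 0)
    (hconst : ∀ γ : ℝ → Fin n × Fin n → ℝ, γ 0 = x₀ → Follows a γ →
      ∀ᶠ t in 𝓝 (0 : ℝ), E (γ t) x₀)
    (p : (Fin n × Fin n → ℝ) → Prop) (hp : ∀ᶠ x in 𝓝 x₀, p x) :
    ∃ Y Z : Fin n × Fin n → ℝ, p Y ∧ p Z ∧ 0 < eval Y (permPoly ℝ n) ∧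
      eval Z (permPoly ℝ n) < 0 ∧ E Y x₀ ∧ E Z x₀ := by
  obtain ⟨γ, hγ0, hγ⟩ := flow a x₀
  have hc := hconst γ hγ0 hγ
  obtain ⟨ε, hε, hγ'⟩ := hγ
  have h0 : (0 : ℝ) ∈ Set.Ioo (-ε) ε := ⟨by linarith, hε⟩
  have hγc : ContinuousAt γ 0 := (hγ' 0 h0).1
  have hev : ∀ᶠ t in 𝓝 (0 : ℝ), p (γ t) ∧ E (γ t) x₀ := by
    have hp' : ∀ᶠ x in 𝓝 (γ 0), p x := by
      rw [hγ0]
      exact hp
    exact (hγc.eventually hp').and hc
  have hder := (hγ' 0 h0).2 (permPoly ℝ n)
  have hd : eval (γ 0) (dl a (permPoly ℝ n)) ≠ 0 := by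
    rw [hγ0]
    intro h
    apply hd0
    have e1 : permPoly ℂ n = toC _ (permPoly ℝ n) := (map_permPoly n).symm
    rw [e1, dl_toC, eval_toC, h, Complex.ofReal_zero]
  rw [← hγ0] at hP0
  obtain ⟨⟨t₁, ht₁, hpos⟩, t₂, ht₂, hneg⟩ := signs_both hder hP0 hd hev
  exact ⟨γ t₁, γ t₂, ht₁.1, ht₂.1, hpos, hneg, ht₁.2, ht₂.2⟩

theorem genB_fin [Fintype W] [DecidableEq W] (n s : ℕ) (hn : 1 ≤ n) (hs1 : 1 ≤ s)
    (hs : 12 * 2 ^ s ≤ n) (tab : W → List ℂ → ℂ) (q : List (BF ((Fin n × Fin n) ⊕ W)))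
    (hR : 96 * reuseB q ≤ 4 ^ s) (hsize : 48 * sizeB q < n * (n / (2 * s)) * 4 ^ s) :
    Gen (n := n) fun Y x => resB tab Y q = resB tab x q := by
  classical
  have hP : Prime (permPoly ℂ n) := perm_prime hn
  have hsol : ∀ x : Fin n × Fin n → ℝ, ∃ (D : Finset (Fin n × Fin n))
      (p : {i : RC s // UU i ≠ ∅} → Fin n × Fin n) (e : {i : RC s // UU i ≠ ∅} →
      MvPolynomial (Fin n × Fin n) ℝ), D.Nonempty ∧
      ¬ permPoly ℂ n ∣ dl (tc (cf p e)) (permPoly ℂ n) ∧
      ∀ ψ ∈ topB (cutQ tab x q) ++ (zerB (cutQ tab x q)).filter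
        (fun ψ => decide (inBlock D ψ + uses ψ ≠ 0)),
        dF (fun i => (Sum.inl (p i) : (Fin n × Fin n) ⊕ W))
          (fun i => rc ((Fin n × Fin n) ⊕ W) (rename Sum.inl (e i)))
          (ev (gp ℂ ((Fin n × Fin n) ⊕ W)) ψ) = 0 := by
    intro x
    obtain ⟨r, c, hr, hc, hlt⟩ := exists_blockC n s hs1 (allB (cutQ tab x q)) (24 * reuseB q)
      (by omega) (by
        refine lt_of_le_of_lt ?_ hsize
        have := size_allB tab x q
        omega)
    obtain ⟨p, hp, hli⟩ := gadKK (K := ℂ) n s hs two_ne_zero r c hr hc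
    obtain ⟨e, he0, heR, hek⟩ := killA p hp _ ((sum_progB (blk r c) tab x q).trans_lt hlt)
    refine ⟨blk r c, p, e, ⟨(r ⟨0, by omega⟩, c ⟨0, by omega⟩), ?_⟩, fun h5 => ?_, hek⟩
    · unfold blk
      exact Finset.mem_image.2 ⟨⟨0, by omega⟩, Finset.mem_univ _, rfl⟩
    · rw [tc_cf, dl_cf] at h5
      exact he0 (funext fun i => toC_eq_zero (not_dvd (fun v _ => degreeOf_perm v) p hli _
        (fun i => toC_mem (heR i)) h5 i))
  have hfin := finite_cutQ tab q
  obtain ⟨S, hS⟩ : ∃ S, S = hfin.toFinset := ⟨_, rfl⟩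
  have hmem : ∀ x, cutQ tab x q ∈ S := fun x => by
    rw [hS, Set.Finite.mem_toFinset]
    exact ⟨x, rfl⟩
  have hex : ∀ v, ∃ (D : Finset (Fin n × Fin n))
      (p : {i : RC s // UU i ≠ ∅} → Fin n × Fin n) (e : {i : RC s // UU i ≠ ∅} →
      MvPolynomial (Fin n × Fin n) ℝ), D.Nonempty ∧
      ¬ permPoly ℂ n ∣ dl (tc (cf p e)) (permPoly ℂ n) ∧
      (v ∈ S → ∀ ψ ∈ topB v ++ (zerB v).filter
        (fun ψ => decide (inBlock D ψ + uses ψ ≠ 0)),
        dF (fun i => (Sum.inl (p i) : (Fin n × Fin n) ⊕ W))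
          (fun i => rc ((Fin n × Fin n) ⊕ W) (rename Sum.inl (e i)))
          (ev (gp ℂ ((Fin n × Fin n) ⊕ W)) ψ) = 0) := by
    intro v
    by_cases hv : v ∈ S
    · rw [hS, Set.Finite.mem_toFinset] at hv
      obtain ⟨x, rfl⟩ := hv
      obtain ⟨D, p, e, h0, h1, h2⟩ := hsol x
      exact ⟨D, p, e, h0, h1, fun _ => h2⟩
    · obtain ⟨D, p, e, h0, h1, _⟩ := hsol (fun _ => 0)
      exact ⟨D, p, e, h0, h1, fun h => absurd h hv⟩
  choose D p e hD he1 he2 using hex
  refine ⟨∏ v ∈ S, (dl (tc (cf (p v) (e v))) (permPoly ℂ n) *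
    ((zerB v).map fun ψ => if permPoly ℂ n ∣ r0 ψ then 1 else r0 ψ).prod), ?_, ?_⟩
  · intro h
    obtain ⟨v, _, hv⟩ := hP.exists_mem_finset_dvd h
    rcases hP.dvd_or_dvd hv with h | h
    · exact he1 v h
    · obtain ⟨g, hg, hg'⟩ := (Prime.dvd_prod_iff hP).1 h
      obtain ⟨ψ, _, rfl⟩ := List.mem_map.1 hg
      split_ifs at hg' with h5
      · exact hP.not_isUnit (isUnit_of_dvd_one hg')
      · exact h5 hg'
  · intro x₀ hx₀ hP0 p' hp'
    rw [map_prod] at hx₀
    have h1 := Finset.prod_ne_zero_iff.1 hx₀ _ (hmem x₀)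
    rw [map_mul] at h1
    refine pair_of_flowB (fun Y x => resB tab Y q = resB tab x q)
      (cf (p (cutQ tab x₀ q)) (e (cutQ tab x₀ q))) x₀
      (left_ne_zero_of_mul h1) hP0 ?_ p' hp'
    intro γ hγ0 hγ
    have hk := he2 _ (hmem x₀)
    have hden : ∀ ψ ∈ zerB (cutQ tab x₀ q), uses ψ = 0 →
        inBlock (D (cutQ tab x₀ q)) ψ = 0 → r0 ψ = 0 := by
      intro ψ hψ hu hb
      obtain ⟨u, hdef, hv⟩ := zerB_zero tab x₀ q ψ hψ
      have hD' : Def (Sum.elim (cx x₀) fun _ => 0 : (Fin n × Fin n) ⊕ W → ℂ) ψ :=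
        def_free (cx x₀) u (fun _ => 0) ψ hu hdef
      have e1 := nu_ne (L := ℂ) _ (aeval (cx x₀)) _ (elim_aeval (cx x₀)) ψ hD'
      rw [MvPolynomial.aeval_eq_eval] at e1
      have e3 : eval (cx x₀) (r0 ψ) = 0 := by
        rw [eval_r0 x₀ u ψ hu e1, hv, mul_zero, zero_mul, Complex.ofReal_zero]
      by_contra hne
      have hnd : ¬ permPoly ℂ n ∣ r0 ψ := by
        rintro ⟨G, hG⟩
        have hG0 : G ≠ 0 := by
          rintro rfl
          rw [mul_zero] at hG
          exact hne hG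
        obtain ⟨m1, m2⟩ := nu_mem (D := D (cutQ tab x₀ q)) ψ hu hb
        have cjm : ∀ {F : MvPolynomial (Fin n × Fin n) ℂ}, F ∈ R0 ℂ (D (cutQ tab x₀ q)) →
            cj _ F ∈ R0 ℂ (D (cutQ tab x₀ q)) := by
          intro F hF
          rw [cj_eq]
          refine sub_mem (toC_mem (rePart_mem hF)) (mul_mem ?_ (toC_mem (imPart_mem hF)))
          rw [← algebraMap_eq]
          exact (R0 ℂ (D (cutQ tab x₀ q))).algebraMap_mem _
        have m3 : r0 ψ ∈ R0 ℂ (D (cutQ tab x₀ q)) :=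
          add_mem (mul_mem m1 (cjm m2)) (mul_mem (cjm m1) m2)
        obtain ⟨v, hv⟩ := hD (cutQ tab x₀ q)
        have h6 := mem_R0_iff.1 m3 v hv
        rw [hG, degreeOf_mul_eq hP.ne_zero hG0, degreeOf_perm] at h6
        omega
      have h7 := right_ne_zero_of_mul h1
      rw [map_list_prod] at h7
      apply h7
      apply List.prod_eq_zero
      rw [List.map_map, List.mem_map]
      refine ⟨ψ, hψ, ?_⟩
      rw [Function.comp_apply, if_neg hnd]
      exact e3
    have h8 := along_progB tab (p (cutQ tab x₀ q)) (e (cutQ tab x₀ q)) hγ q (by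
      rw [hγ0]
      exact fun ψ hψ => hk ψ (List.mem_append_left _ hψ)) (by
      rw [hγ0]
      intro ψ hψ
      by_cases h0 : inBlock (D (cutQ tab x₀ q)) ψ + uses ψ ≠ 0
      · exact Or.inl (hk ψ (List.mem_append_right _ (List.mem_filter.2 ⟨hψ, decide_eq_true h0⟩)))
      · exact Or.inr ⟨by omega, hden ψ hψ (by omega) (by omega)⟩)
    rw [hγ0] at h8
    exact h8

end Gen

end Pool.FV
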