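import Pool.Agent.Helper29.FV.CForm
import Pool.Agent.Helper29.FV.AMain

/-!
# FV: programs with branching gates along a curve
-/

set_option autoImplicit false
set_option linter.unusedSectionVars false

namespace Pool.FV

open Finset MvPolynomial Pool.Agent.Helper71.Fml Pool.Agent.Helper97.Form Filter Topology

section Res

variable {V W : Type}

/-- the results at a real point, the last one first; the leaf `w` is the function `tab w` of the
earlier results -/
noncomputable def resB (tab : W → List ℂ → ℂ) (x : V → ℝ) : List (BF (V ⊕ W)) → List ℂ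
  | [] => []
  | φ :: q => bev (Sum.elim (cx x) fun w => tab w (resB tab x q)) φ :: resB tab x q

/-- the cut formulas of all steps -/
noncomputable def cutQ (tab : W → List ℂ → ℂ) (x : V → ℝ) : List (BF (V ⊕ W)) →
    List (Formula ℂ (V ⊕ W) × List (Formula ℂ (V ⊕ W)) × List (Formula ℂ (V ⊕ W)))
  | [] => []
  | φ :: q => cutB (Sum.elim (cx x) fun w => tab w (resB tab x q)) φ :: cutQ tab x q

theorem finite_cutQ (tab : W → List ℂ → ℂ) (q : List (BF (V ⊕ W))) :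
    (Set.range fun x : V → ℝ => cutQ tab x q).Finite := by
  induction q with
  | nil =>
    refine (Set.finite_singleton ([] : List (Formula ℂ (V ⊕ W) × List (Formula ℂ (V ⊕ W)) ×
      List (Formula ℂ (V ⊕ W))))).subset ?_
    rintro _ ⟨x, rfl⟩
    exact rfl
  | cons φ q ih =>
    refine (Set.Finite.image2 (fun u v => u :: v) (finite_cutB φ) ih).subset ?_
    rintro _ ⟨x, rfl⟩
    exact ⟨_, ⟨_, rfl⟩, _, ⟨x, rfl⟩, rfl⟩

/-- the main parts and the parts with real part zero -/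
def topB (v : List (Formula ℂ (V ⊕ W) × List (Formula ℂ (V ⊕ W)) × List (Formula ℂ (V ⊕ W)))) :
    List (Formula ℂ (V ⊕ W)) :=
  v.map Prod.fst

def zerB (v : List (Formula ℂ (V ⊕ W) × List (Formula ℂ (V ⊕ W)) × List (Formula ℂ (V ⊕ W)))) :
    List (Formula ℂ (V ⊕ W)) :=
  v.flatMap fun u => u.2.1

theorem weigh_cutQ (f : V ⊕ W → ℕ) (tab : W → List ℂ → ℂ) (x : V → ℝ) (q : List (BF (V ⊕ W))) :
    2 * ((topB (cutQ tab x q)).map (weigh f)).sum + ((zerB (cutQ tab x q)).map (weigh f)).sum ≤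
      2 * (q.map (bw f)).sum ∧ (topB (cutQ tab x q)).length = q.length := by
  induction q with
  | nil => simp [cutQ, topB, zerB]
  | cons φ q ih =>
    have h1 := weigh_cutB f (Sum.elim (cx x) fun w => tab w (resB tab x q)) φ
    simp only [cutQ, topB, zerB, List.map_cons, List.flatMap_cons, List.map_append,
      List.sum_append, List.sum_cons, List.length_cons] at ih ⊢
    exact ⟨by omega, by omega⟩

end Res

section Along

variable {V W : Type} [Fintype V] [DecidableEq V] [Fintype W] [DecidableEq W]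

/-- the numerator of the real part of a formula, with `0` for the other leaves -/
noncomputable def r0 (ψ : Formula ℂ (V ⊕ W)) : MvPolynomial V ℂ :=
  reN (nu (Sum.elim X fun _ => 0 : V ⊕ W → MvPolynomial V ℂ) ψ).1
    (nu (Sum.elim X fun _ => 0 : V ⊕ W → MvPolynomial V ℂ) ψ).2

theorem elim_aeval (x : V → ℂ) (w : V ⊕ W) : (Sum.elim x fun _ => 0 : V ⊕ W → ℂ) w =
    aeval x ((Sum.elim X fun _ => 0 : V ⊕ W → MvPolynomial V ℂ) w) := by
  rcases w with v | w
  · exact (aeval_X x v).symm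
  · exact (map_zero _).symm

theorem eval_r0 (x : V → ℝ) (u : W → ℂ) (ψ : Formula ℂ (V ⊕ W)) (hu : uses ψ = 0)
    (hM : eval (cx x) (nu (Sum.elim X fun _ => 0 : V ⊕ W → MvPolynomial V ℂ) ψ).2 ≠ 0) :
    eval (cx x) (r0 ψ) = ((2 * (ev (Sum.elim (cx x) u) ψ).re * Complex.normSq
      (eval (cx x) (nu (Sum.elim X fun _ => 0 : V ⊕ W → MvPolynomial V ℂ) ψ).2) : ℝ) : ℂ) := by
  unfold r0
  apply eval_reN
  rw [ev_free (cx x) u (fun _ => 0) ψ hu]
  have h2 := nu_val _ (aeval (cx x)) _ (elim_aeval (cx x)) ψ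
  rw [MvPolynomial.aeval_eq_eval] at h2
  exact h2 hM

/-- a part without other leaves whose real part has numerator zero has real part zero along the
curve -/
theorem along_re_zero {a : V → MvPolynomial V ℝ} {γ : ℝ → V → ℝ} (hγ : Follows a γ) (u : W → ℂ)
    (ψ : Formula ℂ (V ⊕ W)) (hu : uses ψ = 0) (hN : r0 ψ = 0)
    (hD : Def (Sum.elim (cx (γ 0)) u) ψ) :
    ∀ᶠ t in 𝓝 (0 : ℝ), (ev (Sum.elim (cx (γ t)) u) ψ).re = 0 := by
  have hD' := def_free (cx (γ 0)) u (fun _ => 0) ψ hu hD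
  have h1 := nu_ne _ (aeval (cx (γ 0))) _ (elim_aeval (cx (γ 0))) ψ hD'
  rw [MvPolynomial.aeval_eq_eval] at h1
  filter_upwards [hγ.ev_ne _ h1] with t ht
  have h3 := eval_r0 (γ t) u ψ hu ht
  rw [hN, map_zero] at h3
  have h4 : (2 * (ev (Sum.elim (cx (γ t)) u) ψ).re * Complex.normSq
      (eval (cx (γ t)) (nu (Sum.elim X fun _ => 0 : V ⊕ W → MvPolynomial V ℂ) ψ).2) : ℝ) = 0 := by
    exact_mod_cast h3.symm
  have h5 : Complex.normSq (eval (cx (γ t))
      (nu (Sum.elim X fun _ => 0 : V ⊕ W → MvPolynomial V ℂ) ψ).2) ≠ 0 := fun h =>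
    ht (Complex.normSq_eq_zero.1 h)
  have h6 := (mul_eq_zero.1 h4).resolve_right h5
  linarith

/-- the value of a formula without division by zero is continuous along the curve -/
theorem along_cont {a : V → MvPolynomial V ℝ} {γ : ℝ → V → ℝ} (hγ : Follows a γ) (u : W → ℂ)
    (ψ : Formula ℂ (V ⊕ W)) (hD : Def (Sum.elim (cx (γ 0)) u) ψ) :
    ContinuousAt (fun t => ev (Sum.elim (cx (γ t)) u) ψ) 0 := by
  have h1 : eval (cx (γ 0)) (sp u (nu X ψ).2) ≠ 0 := by
    rw [eval_sp]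
    have h2 := nu_ne (X : V ⊕ W → MvPolynomial (V ⊕ W) ℂ) (aeval (Sum.elim (cx (γ 0)) u))
      (Sum.elim (cx (γ 0)) u) (fun w => (aeval_X _ w).symm) ψ hD
    rw [MvPolynomial.aeval_eq_eval] at h2
    exact h2
  have hev := hγ.ev_ne _ h1
  obtain ⟨ε, hε, hγ'⟩ := hγ
  have h0 : (0 : ℝ) ∈ Set.Ioo (-ε) ε := ⟨by linarith, hε⟩
  have hc : ∀ F : MvPolynomial V ℂ, ContinuousAt (fun t => eval (cx (γ t)) F) 0 := fun F =>
    (continuous_evalC F).continuousAt.comp (hγ' 0 h0).1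
  have h3 := (hc (sp u (nu X ψ).1)).div (hc (sp u (nu X ψ).2)) h1
  refine h3.congr ?_
  filter_upwards [hev] with t ht
  show eval (cx (γ t)) (sp u (nu X ψ).1) / eval (cx (γ t)) (sp u (nu X ψ).2) = _
  rw [← ev_eq_sp u (γ t) ψ ht, mul_div_cancel_right₀ _ ht]

/-- all results are constant along the curve -/
theorem along_progB {ι : Type} [Fintype ι] (tab : W → List ℂ → ℂ) (p : ι → V)
    (e : ι → MvPolynomial V ℝ) {γ : ℝ → V → ℝ} (hγ : Follows (cf p e) γ)
    (q : List (BF (V ⊕ W)))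
    (ht : ∀ ψ ∈ topB (cutQ tab (γ 0) q), dF (fun i => (Sum.inl (p i) : V ⊕ W))
      (fun i => rc (V ⊕ W) (rename Sum.inl (e i))) (ev (gp ℂ (V ⊕ W)) ψ) = 0)
    (hd : ∀ ψ ∈ zerB (cutQ tab (γ 0) q), dF (fun i => (Sum.inl (p i) : V ⊕ W))
      (fun i => rc (V ⊕ W) (rename Sum.inl (e i))) (ev (gp ℂ (V ⊕ W)) ψ) = 0 ∨
        (uses ψ = 0 ∧ r0 ψ = 0)) :
    ∀ᶠ t in 𝓝 (0 : ℝ), resB tab (γ t) q = resB tab (γ 0) q := by
  induction q with
  | nil => exact Filter.Eventually.of_forall fun t => rfl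
  | cons φ q ih =>
    have ih' := ih (fun ψ hψ => ht ψ (List.mem_cons_of_mem _ hψ)) (fun ψ hψ => hd ψ (by
      unfold zerB at hψ ⊢
      simp only [cutQ, List.flatMap_cons, List.mem_append]
      exact Or.inr hψ))
    obtain ⟨u, hu⟩ : ∃ u : W → ℂ, u = fun w => tab w (resB tab (γ 0) q) := ⟨_, rfl⟩
    obtain ⟨v, hv⟩ : ∃ v, v = cutB (Sum.elim (cx (γ 0)) u) φ := ⟨_, rfl⟩
    have hcut : cutQ tab (γ 0) (φ :: q) = v :: cutQ tab (γ 0) q := by
      rw [hv, hu]
      rfl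
    rw [hcut] at ht hd
    have hdef := cutB_self (Sum.elim (cx (γ 0)) u) φ
    rw [← hv] at hdef
    obtain ⟨d1, d2, d3, d4⟩ := hdef
    have h1 : ∀ᶠ t in 𝓝 (0 : ℝ), ev (Sum.elim (cx (γ t)) u) v.1 =
        ev (Sum.elim (cx (γ 0)) u) v.1 :=
      along_killed p e hγ u v.1 (ht _ List.mem_cons_self) d1
    have h2 : ∀ ψ ∈ v.2.1, ∀ᶠ t in 𝓝 (0 : ℝ), (ev (Sum.elim (cx (γ t)) u) ψ).re = 0 := by
      intro ψ hψ
      have hD := d2 ψ hψ
      rcases hd ψ (by
        unfold zerB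
        simp only [List.flatMap_cons, List.mem_append]
        exact Or.inl hψ) with hk | ⟨hk1, hk2⟩
      · filter_upwards [along_killed p e hγ u ψ hk hD.1] with t ht'
        rw [ht', hD.2]
      · exact along_re_zero hγ u ψ hk1 hk2 hD.1
    have h3 : ∀ᶠ t in 𝓝 (0 : ℝ), ∀ ψ ∈ v.2.1, (ev (Sum.elim (cx (γ t)) u) ψ).re = 0 :=
      ((List.finite_toSet v.2.1).eventually_all (l := 𝓝 (0 : ℝ))).2 h2
    have h4 : ∀ ψ ∈ v.2.2, ∀ᶠ t in 𝓝 (0 : ℝ), 0 < (ev (Sum.elim (cx (γ 0)) u) ψ).re *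
        (ev (Sum.elim (cx (γ t)) u) ψ).re := by
      intro ψ hψ
      have hD := d3 ψ hψ
      have hc := along_cont hγ u ψ hD.1
      have hc' : ContinuousAt (fun t => (ev (Sum.elim (cx (γ 0)) u) ψ).re *
          (ev (Sum.elim (cx (γ t)) u) ψ).re) 0 :=
        (Complex.continuous_re.continuousAt.comp hc).const_mul _ 
      exact hc'.eventually_const_lt (mul_self_pos.2 hD.2)
    have h5 : ∀ᶠ t in 𝓝 (0 : ℝ), ∀ ψ ∈ v.2.2, 0 < (ev (Sum.elim (cx (γ 0)) u) ψ).re *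
        (ev (Sum.elim (cx (γ t)) u) ψ).re :=
      ((List.finite_toSet v.2.2).eventually_all (l := 𝓝 (0 : ℝ))).2 h4
    filter_upwards [ih', h1, h3, h5] with t e1 e2 e3 e5
    simp only [resB]
    rw [e1, ← hu]
    have e4 : bev (Sum.elim (cx (γ t)) u) φ = ev (Sum.elim (cx (γ t)) u) v.1 := by
      rw [hv]
      exact bev_cutB _ _ φ (by rw [← hv]; exact e3) (by rw [← hv]; exact e5)
    rw [e4, d4, e2]

end Along

end Pool.FV
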