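import Pool.Agent.Helper29.FV.Val

/-!
# FV: polynomials of the values of formulas
-/

set_option autoImplicit false
set_option linter.unusedSectionVars false

namespace Pool.FV

open Finset MvPolynomial Pool.Agent.Helper71.Fml Pool.Agent.Helper97.Form

section

variable {K V : Type} [Field K] [DecidableEq V]

/-- the rational function `f` is defined at `x` and has the value `v` -/
def Ev (x : V → K) (f : FractionRing (MvPolynomial V K)) (v : K) : Prop :=
  ∃ A B : MvPolynomial V K, eval x B ≠ 0 ∧
    f * algebraMap (MvPolynomial V K) (FractionRing (MvPolynomial V K)) B =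
      algebraMap (MvPolynomial V K) (FractionRing (MvPolynomial V K)) A ∧
    v * eval x B = eval x A

theorem Ev.C (x : V → K) (c : K) :
    Ev x (algebraMap K (FractionRing (MvPolynomial V K)) c) c := by
  refine ⟨MvPolynomial.C c, 1, by simp, ?_, by simp⟩
  rw [map_one, mul_one]
  rfl

theorem Ev.add {x : V → K} {f g : FractionRing (MvPolynomial V K)} {v w : K} (hf : Ev x f v)
    (hg : Ev x g w) : Ev x (f + g) (v + w) := by
  obtain ⟨A, B, h1, h2, h3⟩ := hf
  obtain ⟨A', B', h1', h2', h3'⟩ := hg
  refine ⟨A * B' + A' * B, B * B', ?_, ?_, ?_⟩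
  · rw [map_mul]
    exact mul_ne_zero h1 h1'
  · simp only [map_add, map_mul, ← h2, ← h2']
    ring
  · simp only [map_add, map_mul, ← h3, ← h3']
    ring

theorem Ev.mul {x : V → K} {f g : FractionRing (MvPolynomial V K)} {v w : K} (hf : Ev x f v)
    (hg : Ev x g w) : Ev x (f * g) (v * w) := by
  obtain ⟨A, B, h1, h2, h3⟩ := hf
  obtain ⟨A', B', h1', h2', h3'⟩ := hg
  refine ⟨A * A', B * B', ?_, ?_, ?_⟩
  · rw [map_mul]
    exact mul_ne_zero h1 h1'
  · simp only [map_mul, ← h2, ← h2']
    ring
  · simp only [map_mul, ← h3, ← h3']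
    ring

theorem Ev.eq {x : V → K} {f : FractionRing (MvPolynomial V K)} {v : K} (hf : Ev x f v)
    {A B : MvPolynomial V K}
    (h : f * algebraMap (MvPolynomial V K) (FractionRing (MvPolynomial V K)) B =
      algebraMap (MvPolynomial V K) (FractionRing (MvPolynomial V K)) A) :
    v * eval x B = eval x A := by
  obtain ⟨A', B', h1', h2', h3'⟩ := hf
  have h1 : A' * B = A * B' := by
    apply map_inj
    rw [map_mul, map_mul, ← h, ← h2']
    ring
  have h2 := congrArg (eval x) h1
  rw [map_mul, map_mul, ← h3'] at h2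
  apply mul_right_cancel₀ h1'
  rw [← h2]
  ring

theorem Ev.aeval {x : V → K} {τ : Type} {f : τ → FractionRing (MvPolynomial V K)} {v : τ → K}
    (h : ∀ j, Ev x (f j) (v j)) (g : MvPolynomial τ K) :
    Ev x (MvPolynomial.aeval f g) (eval v g) := by
  induction g using MvPolynomial.induction_on with
  | C c =>
    rw [eval_C, ← algebraMap_eq, AlgHom.commutes]
    exact Ev.C x c
  | add p q hp hq =>
    rw [map_add, map_add]
    exact hp.add hq
  | mul_X p w hp =>
    rw [map_mul, map_mul, eval_X, aeval_X]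
    exact hp.mul (h w)

variable [Fintype V]

theorem DL_aeval (a : V → MvPolynomial V K) {τ : Type}
    {f : τ → FractionRing (MvPolynomial V K)} (h : ∀ j, DL a (f j) = 0) (g : MvPolynomial τ K) :
    DL a (MvPolynomial.aeval f g) = 0 := by
  induction g using MvPolynomial.induction_on with
  | C c =>
    rw [← algebraMap_eq, AlgHom.commutes]
    have h1 : algebraMap K (FractionRing (MvPolynomial V K)) c =
      algebraMap (MvPolynomial V K) (FractionRing (MvPolynomial V K)) (MvPolynomial.C c) := rfl
    rw [h1, DL_algebraMap, dl_C, map_zero]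
  | add p q hp hq =>
    have h1 : ∀ x y : FractionRing (MvPolynomial V K), DL a (x + y) = DL a x + DL a y := by
      intro x y
      unfold DL
      rw [← sum_add_distrib]
      refine sum_congr rfl fun w _ => ?_
      rw [D_add, mul_add]
    rw [map_add, h1, hp, hq, add_zero]
  | mul_X p w hp =>
    rw [map_mul, aeval_X, DL_mul, hp, h, mul_zero, mul_zero, add_zero]

/-- A rational function killed by a derivation which is not tangent to the hypersurface `P = 0` is
neither zero nor infinite there. -/
theorem frac_of_killed [CharZero K] {P : MvPolynomial V K} (hP : Prime P)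
    (a : V → MvPolynomial V K) (hnd : ¬ P ∣ dl a P) (f : FractionRing (MvPolynomial V K))
    (ha0 : DL a f = 0) : ∃ A B, Frac P f A B := by
  classical
  obtain ⟨A, B, hB, hAB⟩ := IsFractionRing.div_surjective (A := MvPolynomial V K) f
  have hB0 : B ≠ 0 := nonZeroDivisors.ne_zero hB
  have hne : ∀ {B : MvPolynomial V K}, B ≠ 0 →
      algebraMap (MvPolynomial V K) (FractionRing (MvPolynomial V K)) B ≠ 0 := by
    intro B hB h
    exact hB (map_inj (by rw [h, map_zero]))
  by_cases hA0 : A = 0
  · refine ⟨0, 1, ?_, Or.inl rfl, ?_⟩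
    · intro h
      exact hP.not_isUnit (isUnit_of_dvd_one h)
    · rw [← hAB, hA0, map_zero, zero_div, zero_mul]
  obtain ⟨i, A₁, hA₁, hA⟩ := WfDvdMonoid.max_power_factor hA0 hP.irreducible
  obtain ⟨j, B₁, hB₁, hB2⟩ := WfDvdMonoid.max_power_factor hB0 hP.irreducible
  have hPm := hne hP.ne_zero
  have hev : f * algebraMap _ (FractionRing (MvPolynomial V K)) (P ^ j * B₁) =
      algebraMap _ _ (P ^ i * A₁) := by
    rw [← hAB, ← hB2, ← hA]
    exact div_mul_cancel₀ _ (hne hB0)
  rcases lt_trichotomy i j with hij | hij | hij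
  · exfalso
    obtain ⟨k, rfl⟩ : ∃ k, j = i + (k + 1) := ⟨j - i - 1, by omega⟩
    refine hnd (dvd_dl a hP (k := k) (Nat.cast_ne_zero.2 (Nat.succ_ne_zero k)) hB₁ hA₁
      (f := f⁻¹) ?_ (DL_inv a _ ha0))
    have h0 : f ≠ 0 := by
      rw [← hAB]
      exact div_ne_zero (hne hA0) (hne hB0)
    rw [map_mul, map_mul, map_pow, map_pow, pow_add] at hev
    rw [map_mul, map_pow]
    have hPi := pow_ne_zero i hPm
    have h1 : f * (algebraMap _ (FractionRing (MvPolynomial V K)) P ^ (k + 1) *
        algebraMap _ _ B₁) = algebraMap _ _ A₁ := by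
      apply mul_left_cancel₀ hPi
      linear_combination hev
    rw [← h1, inv_mul_cancel_left₀ h0]
  · subst hij
    refine ⟨A₁, B₁, hB₁, Or.inr hA₁, ?_⟩
    rw [map_mul, map_mul, map_pow] at hev
    apply mul_left_cancel₀ (pow_ne_zero i hPm)
    linear_combination hev
  · exfalso
    obtain ⟨k, rfl⟩ : ∃ k, i = j + (k + 1) := ⟨i - j - 1, by omega⟩
    refine hnd (dvd_dl a hP (k := k) (Nat.cast_ne_zero.2 (Nat.succ_ne_zero k)) hA₁ hB₁
      (f := f) ?_ ha0)
    rw [map_mul, map_mul, map_pow, map_pow, pow_add] at hev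
    rw [map_mul, map_pow]
    apply mul_left_cancel₀ (pow_ne_zero j hPm)
    linear_combination hev

end

end Pool.FV
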