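import Pool.Agent.Helper29.FV.Mult
import Pool.Agent.Helper97.RQ.IntPt
import Mathlib.Analysis.ODE.ExistUnique

/-!
# FV: integral curves of polynomial vector fields; integer zeros of the permanent
-/

set_option autoImplicit false
set_option linter.unusedSectionVars false

namespace Pool.FV

open MvPolynomial

section Flow

variable {V : Type} [Fintype V] [DecidableEq V]

theorem contDiff_eval (F : MvPolynomial V ℝ) : ContDiff ℝ 1 (fun x : V → ℝ => eval x F) := by
  induction F using MvPolynomial.induction_on with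
  | C c =>
    simp only [eval_C]
    exact contDiff_const
  | add p q hp hq =>
    simp only [map_add]
    exact hp.add hq
  | mul_X p w hp =>
    simp only [map_mul, eval_X]
    exact hp.mul (contDiff_apply ℝ ℝ w)

theorem hasDerivAt_eval (a : V → MvPolynomial V ℝ) (γ : ℝ → V → ℝ) (t : ℝ)
    (h : HasDerivAt γ (fun w => eval (γ t) (a w)) t) (F : MvPolynomial V ℝ) :
    HasDerivAt (fun t => eval (γ t) F) (eval (γ t) (dl a F)) t := by
  have h1 : ∀ w, HasDerivAt (fun t => γ t w) (eval (γ t) (a w)) t := hasDerivAt_pi.1 h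
  induction F using MvPolynomial.induction_on with
  | C c =>
    simp only [eval_C, dl_C, map_zero]
    exact hasDerivAt_const t c
  | add p q hp hq =>
    rw [dl_add, map_add]
    simp only [map_add]
    exact hp.add hq
  | mul_X p w hp =>
    rw [dl_mul, dl_X, map_add, map_mul, map_mul, eval_X]
    simp only [map_mul, eval_X]
    have h2 := hp.mul (h1 w)
    refine h2.congr_deriv ?_
    ring

theorem flow (a : V → MvPolynomial V ℝ) (x₀ : V → ℝ) : ∃ γ : ℝ → V → ℝ, γ 0 = x₀ ∧
    ∃ ε : ℝ, 0 < ε ∧ ∀ t ∈ Set.Ioo (-ε) ε, ContinuousAt γ t ∧ ∀ F : MvPolynomial V ℝ,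
      HasDerivAt (fun t => eval (γ t) F) (eval (γ t) (dl a F)) t := by
  have hf : ContDiffAt ℝ 1 (fun (x : V → ℝ) (w : V) => eval x (a w)) x₀ :=
    (contDiff_pi.2 fun w => contDiff_eval (a w)).contDiffAt
  obtain ⟨γ, h0, ε, hε, h⟩ :=
    hf.exists_forall_mem_closedBall_exists_eq_forall_mem_Ioo_hasDerivAt₀ 0
  refine ⟨γ, h0, ε, hε, fun t ht => ?_⟩
  have h1 := h t (by simpa using ht)
  exact ⟨h1.continuousAt, fun F => hasDerivAt_eval a γ t h1 F⟩

end Flow

section Int

/-- real parts of the coefficients -/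
noncomputable def rePart {V : Type} (Q : MvPolynomial V ℂ) : MvPolynomial V ℝ :=
  ∑ m ∈ Q.support, monomial m (coeff m Q).re

theorem coeff_rePart {V : Type} (Q : MvPolynomial V ℂ) (m : V →₀ ℕ) :
    coeff m (rePart Q) = (coeff m Q).re := by
  classical
  unfold rePart
  rw [coeff_sum]
  simp only [coeff_monomial]
  rw [Finset.sum_ite_eq']
  split_ifs with h
  · rfl
  · rw [notMem_support_iff.1 h, Complex.zero_re]

theorem dvd_real {V : Type} {P G : MvPolynomial V ℝ}
    (h : map (algebraMap ℝ ℂ) P ∣ map (algebraMap ℝ ℂ) G) : P ∣ G := by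
  classical
  obtain ⟨Q, hQ⟩ := h
  refine ⟨rePart Q, ?_⟩
  ext m
  have h1 := congrArg (fun F => (coeff m F).re) hQ
  simp only [coeff_map, coeff_mul, Complex.re_sum] at h1
  rw [coeff_mul]
  have h2 : ((algebraMap ℝ ℂ (coeff m G)) : ℂ).re = coeff m G := Complex.ofReal_re _
  rw [h2] at h1
  rw [h1]
  refine Finset.sum_congr rfl fun x _ => ?_
  rw [coeff_rePart]
  exact Complex.re_ofReal_mul _ _

theorem map_permPoly (n : ℕ) : map (algebraMap ℝ ℂ) (Pool.Agent.Helper71.Fml.permPoly ℝ n) =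
    Pool.Agent.Helper24.SQ.permPoly n := by
  unfold Pool.Agent.Helper71.Fml.permPoly Pool.Agent.Helper24.SQ.permPoly Matrix.permanent
  simp only [map_sum, map_prod, Matrix.of_apply, map_X]

theorem int_pt_real (n : ℕ) (hn : 1 ≤ n) (G : MvPolynomial (Fin n × Fin n) ℝ)
    (hG : ¬ Pool.Agent.Helper71.Fml.permPoly ℝ n ∣ G) : ∃ X : Matrix (Fin n) (Fin n) ℤ,
      X.permanent = 0 ∧ eval (fun q : Fin n × Fin n => (X q.1 q.2 : ℝ)) G ≠ 0 := by
  obtain ⟨X, hX, hX2⟩ := Pool.RQ.int_pt n hn (map (algebraMap ℝ ℂ) G) (fun h => by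
    rw [← map_permPoly] at h
    exact hG (dvd_real h))
  refine ⟨X, hX, fun h => hX2 ?_⟩
  have h1 := eval₂_comp (algebraMap ℝ ℂ) (fun q : Fin n × Fin n => (X q.1 q.2 : ℝ)) G
  rw [h, map_zero] at h1
  rw [eval_map, h1]
  congr 1

end Int

end Pool.FV
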