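import Pool.Agent.Helper97.Form.AlgGad
import Pool.Agent.Helper97.Form.Kal
import Pool.Agent.Helper73.DC.Irr

/-!
# FV: the permanent and its derivatives in `4 ^ s - 1` positions outside a block are linearly
independent over the functions which do not depend on the block
-/

set_option autoImplicit false
set_option linter.unusedSectionVars false

namespace Pool.FV

open Finset MvPolynomial Pool.Agent.Helper71.Fml Pool.Agent.Helper97.Form

/-- the polynomial itself and its derivatives in the positions `p i` -/
noncomputable def fam {K V ι : Type} [Field K] [DecidableEq V] (P : MvPolynomial V K) (p : ι → V)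
    (o : Option ι) : MvPolynomial V K :=
  o.elim P fun i => pderiv (p i) P

theorem gad {K : Type} [Field K] (n s : ℕ) (hs : 12 * 2 ^ s ≤ n) (h2 : (2 : K) ≠ 0)
    (r c : Fin (2 * s) → Fin n) (hr : Function.Injective r) (hc : Function.Injective c) :
    ∃ (p : {i : RC s // UU i ≠ ∅} → Fin n × Fin n) (x : Fin n × Fin n → K),
      (∀ i, p i ∉ blk r c) ∧
      LinearIndependent K (fun o : Option {i : RC s // UU i ≠ ∅} => fun b : Fin n × Fin n → K =>
        eval (fun v => if v ∈ blk r c then b v else x v) (fam (permPoly K n) p o)) := by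
  classical
  obtain ⟨N, ρ, χ, -, hz1, hz2, hinj, hne, hperm⟩ :=
    placed (couplerHalf ((2 : K)⁻¹) (mul_inv_cancel₀ h2)) (S := Set.univ) (Set.mem_univ _)
      (Set.mem_univ _) (fun _ => Set.mem_univ _) (fun _ => Set.mem_univ _)
      (fun _ _ => Set.mem_univ _) s n hs r c hr hc
  have hblk : ∀ v : Fin n × Fin n, v ∈ blk r c ↔ ∃ q, v = (r q, c q) := by
    intro v
    simp only [blk, mem_image, mem_univ, true_and, eq_comm]
  let x : Fin n × Fin n → K := fun v => N v.1 v.2 + if v = (ρ none, χ none) then 1 else 0
  have hnone : (ρ none, χ none) ∉ blk r c := by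
    intro hi
    obtain ⟨q, hq⟩ := (hblk _).1 hi
    exact hne _ _ (congrArg Prod.fst hq)
  -- the matrix
  have hM : ∀ (b : Fin n × Fin n → K) (i j : Fin n),
      (if (i, j) ∈ blk r c then b (i, j) else x (i, j)) =
      plug N (Sum.elim ρ r) (Sum.elim χ c)
        (Sum.elim (fun o => if o = none then 1 else 0) fun q => b (r q, c q)) i j := by
    intro b i j
    show _ = N i j + ∑ p, if Sum.elim ρ r p = i ∧ Sum.elim χ c p = j then
      Sum.elim (fun o => if o = none then 1 else 0) (fun q => b (r q, c q)) p else 0
    rw [Fintype.sum_sum_type]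
    have e1 : ∑ o : Option (RC s), (if Sum.elim ρ r (Sum.inl o) = i ∧ Sum.elim χ c (Sum.inl o) = j then
        Sum.elim (fun o => if o = none then (1 : K) else 0) (fun q => b (r q, c q)) (Sum.inl o) else 0) =
        if (i, j) = (ρ none, χ none) then 1 else 0 := by
      rw [Finset.sum_eq_single none]
      · show (if ρ none = i ∧ χ none = j then (1 : K) else 0) = _
        refine if_congr ?_ rfl rfl
        rw [Prod.mk.injEq, eq_comm, @eq_comm _ (χ none)]
      · intro o _ ho
        show (if _ then (if o = none then (1 : K) else 0) else 0) = 0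
        rw [if_neg ho, ite_self]
      · intro h
        exact absurd (mem_univ _) h
    rw [e1]
    by_cases h : (i, j) ∈ blk r c
    · obtain ⟨q, hq⟩ := (hblk _).1 h
      rw [if_neg (fun h' : (i, j) = (ρ none, χ none) => hnone (h' ▸ h))]
      obtain ⟨rfl, rfl⟩ := Prod.mk.inj hq
      rw [if_pos h, hz2 q, zero_add, zero_add, Finset.sum_eq_single q]
      · rw [if_pos ⟨rfl, rfl⟩]
        rfl
      · intro q' _ hq'
        exact if_neg fun h' => hq' (hr h'.1)
      · intro h'
        exact absurd (mem_univ _) h'
    · rw [if_neg h, sum_eq_zero, add_zero]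
      intro q _
      refine if_neg fun h' => h ((hblk _).2 ⟨q, ?_⟩)
      exact Prod.ext h'.1.symm h'.2.symm
  have hsum0 : ∀ b : Fin n × Fin n → K, ∑ rc : RC s,
      (Sum.elim (fun o => if o = none then (1 : K) else 0) (fun q => b (r q, c q)) :
        Option (RC s) ⊕ QQ s → K) (Sum.inl (some rc)) *
      ∏ q ∈ UU rc, (1 + (Sum.elim (fun o => if o = none then (1 : K) else 0)
        (fun q => b (r q, c q)) : Option (RC s) ⊕ QQ s → K) (Sum.inr q)) = 0 := by
    intro b
    refine sum_eq_zero fun rc _ => ?_
    show (if (some rc : Option (RC s)) = none then (1 : K) else 0) * _ = 0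
    rw [if_neg (by simp), zero_mul]
  -- the value of the permanent
  have hval0 : ∀ b : Fin n × Fin n → K,
      eval (fun v => if v ∈ blk r c then b v else x v) (permPoly K n) = 1 := by
    intro b
    rw [eval_permPoly']
    have e1 : (Matrix.of fun i j : Fin n => if (i, j) ∈ blk r c then b (i, j) else x (i, j)) =
        plug N (Sum.elim ρ r) (Sum.elim χ c)
        (Sum.elim (fun o => if o = none then 1 else 0) fun q => b (r q, c q)) := by
      ext i j
      exact hM b i j
    rw [e1, hperm, hsum0, add_zero]
    show (if (none : Option (RC s)) = none then (1 : K) else 0) = 1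
    rw [if_pos rfl]
  refine ⟨fun i => (ρ (some i.1), χ (some i.1)), x, ?_, ?_⟩
  · intro i hi
    obtain ⟨q, hq⟩ := (hblk _).1 hi
    exact hne _ _ (congrArg Prod.fst hq)
  -- values of the derivatives
  have hval : ∀ (b : Fin n × Fin n → K) (i : RC s),
      eval (fun v => if v ∈ blk r c then b v else x v)
        (pderiv (ρ (some i), χ (some i)) (permPoly K n)) =
        ∏ q ∈ UU i, (1 + b (r q, c q)) := by
    intro b i
    rw [eval_pderiv_permPoly]
    let z : Option (RC s) ⊕ QQ s → K :=
      Sum.elim (fun o => if o = none then 1 else 0) fun q => b (r q, c q)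
    have e0 := permanent_addE (plug N (Sum.elim ρ r) (Sum.elim χ c) z) (ρ (some i)) (χ (some i)) 1
    have e1 : (Matrix.of fun r' c' : Fin n => if r' = ρ (some i) then
        (if c' = χ (some i) then (1 : K) else 0) else
          (if (r', c') ∈ blk r c then b (r', c') else x (r', c'))).permanent =
        (Matrix.of fun r' c' => if r' = ρ (some i) then (if c' = χ (some i) then 1 else 0) else
          plug N (Sum.elim ρ r) (Sum.elim χ c) z r' c' : Matrix (Fin n) (Fin n) K).permanent := by
      congr 1
      ext r' c'
      show (if r' = ρ (some i) then _ else _) = if r' = ρ (some i) then _ else _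
      rw [hM]
    rw [one_mul] at e0
    have e2 : addE (plug N (Sum.elim ρ r) (Sum.elim χ c) z) (ρ (some i)) (χ (some i)) 1 =
        plug N (Sum.elim ρ r) (Sum.elim χ c) (Function.update z (Sum.inl (some i)) 1) := by
      have := addE_plug N (Sum.elim ρ r) (Sum.elim χ c) z (Sum.inl (some i)) 1
      rw [← this]
      have h3 : Function.update z (Sum.inl (some i)) 0 = z := by
        rw [Function.update_eq_self_iff]
        show (0 : K) = if (some i : Option (RC s)) = none then 1 else 0
        rw [if_neg (by simp)]
      rw [h3]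
      rfl
    rw [e2, hperm, hperm] at e0
    have e3 : ∑ rc : RC s, z (Sum.inl (some rc)) * ∏ q ∈ UU rc, (1 + z (Sum.inr q)) = 0 :=
      hsum0 b
    have e4 : ∑ rc : RC s, Function.update z (Sum.inl (some i)) 1 (Sum.inl (some rc)) *
        ∏ q ∈ UU rc, (1 + Function.update z (Sum.inl (some i)) 1 (Sum.inr q)) =
        ∏ q ∈ UU i, (1 + b (r q, c q)) := by
      rw [Finset.sum_eq_single i]
      · rw [Function.update_self, one_mul]
        rfl
      · intro rc _ hrc
        rw [Function.update_of_ne (fun h => hrc (Option.some.inj (Sum.inl_injective h)))]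
        show (if (some rc : Option (RC s)) = none then (1 : K) else 0) * _ = 0
        rw [if_neg (by simp), zero_mul]
      · intro h'
        exact absurd (mem_univ _) h'
    have e5 : Function.update z (Sum.inl (some i)) 1 (Sum.inl none) = z (Sum.inl none) := by
      rw [Function.update_of_ne (by simp)]
    rw [e3, e4, e5, add_zero] at e0
    rw [e1]
    exact (add_left_cancel e0).symm
  rw [Fintype.linearIndependent_iff]
  intro g hg
  have h1 : ∀ B : Finset (QQ s), g none * ∏ q ∈ (∅ : Finset (QQ s)), (1 + if q ∈ B then (1 : K) else 0) +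
      ∑ i : {i : RC s // UU i ≠ ∅}, g (some i) * ∏ q ∈ UU i.1, (1 + if q ∈ B then (1 : K) else 0) =
      0 := by
    intro B
    have h3 := congrFun hg fun v => Function.extend r (fun q => if q ∈ B then (1 : K) else 0) 0 v.1
    rw [Finset.sum_apply, Fintype.sum_option] at h3
    simp only [fam, Option.elim_none, Option.elim_some, Pi.smul_apply, smul_eq_mul, Pi.zero_apply,
      hval, hval0, hr.extend_apply] at h3
    simpa using h3
  let G : Finset (QQ s) → K := fun S => (if S = ∅ then g none else 0) +
    ∑ i : {i : RC s // UU i ≠ ∅}, if UU i.1 = S then g (some i) else 0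
  have h3 := indep_products (Q := QQ s) G (by
    intro B
    refine Eq.trans ?_ (h1 B)
    simp only [G, add_mul, sum_add_distrib]
    congr 1
    · rw [Finset.sum_eq_single ∅]
      · rw [if_pos rfl]
      · intro S _ hS
        rw [if_neg hS, zero_mul]
      · intro h'
        exact absurd (mem_univ _) h'
    · simp only [sum_mul]
      rw [sum_comm]
      refine sum_congr rfl fun i _ => ?_
      rw [Finset.sum_eq_single (UU i.1)]
      · rw [if_pos rfl]
      · intro S _ hS
        rw [if_neg (Ne.symm hS), zero_mul]
      · intro h'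
        exact absurd (mem_univ _) h')
  rintro (_ | i)
  · have h4 := h3 ∅
    simp only [G, if_true] at h4
    rw [sum_eq_zero, add_zero] at h4
    · exact h4
    · intro i _
      exact if_neg i.2
  · have h4 := h3 (UU i.1)
    simp only [G] at h4
    rw [if_neg i.2, zero_add, Finset.sum_eq_single i] at h4
    · rwa [if_pos rfl] at h4
    · intro i' _ hi'
      exact if_neg fun h => hi' (Subtype.ext (UU_injective s h))
    · intro h'
      exact absurd (mem_univ _) h'

theorem card_pos (s : ℕ) : 4 ^ s ≤ Fintype.card {i : RC s // UU i ≠ ∅} + 1 := by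
  classical
  have hcard : Fintype.card (RC s) = 4 ^ s := by
    rw [Fintype.card_prod, Fintype.card_fin, ← Nat.mul_pow]
  have h1 : Fintype.card {i : RC s // UU i = ∅} ≤ 1 := by
    rw [Fintype.card_le_one_iff]
    rintro ⟨i, hi⟩ ⟨j, hj⟩
    exact Subtype.ext (UU_injective s (hi.trans hj.symm))
  have h2 := Fintype.card_subtype_compl (fun i : RC s => UU i = ∅)
  have h3 := Fintype.card_subtype_le (fun i : RC s => UU i = ∅)
  have h4 : Fintype.card {i : RC s // UU i ≠ ∅} = Fintype.card {i : RC s // ¬ UU i = ∅} := rfl
  rw [h4, h2, hcard]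
  omega

/-- The permanent and its derivatives in the given positions are linearly independent over the
functions which do not depend on the block. -/
theorem gadKK {K : Type} [Field K] (n s : ℕ) (hs : 12 * 2 ^ s ≤ n) (h2 : (2 : K) ≠ 0)
    (r c : Fin (2 * s) → Fin n) (hr : Function.Injective r) (hc : Function.Injective c) :
    ∃ p : {i : RC s // UU i ≠ ∅} → Fin n × Fin n, (∀ i, p i ∉ blk r c) ∧
      LinearIndependent (KK K (blk r c)) (fun o => algebraMap (MvPolynomial (Fin n × Fin n) K)
        (FractionRing (MvPolynomial (Fin n × Fin n) K)) (fam (permPoly K n) p o)) := by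
  obtain ⟨p, x, hp, hli⟩ := gad n s hs h2 r c hr hc
  exact ⟨p, hp, indep_KK _ x hli⟩

end Pool.FV
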