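import Pool.Agent.Helper29.FV.Gad

/-!
# FV: a field of directions without block variables is not tangent to the hypersurface
`perm = 0`
-/

set_option autoImplicit false
set_option linter.unusedSectionVars false

namespace Pool.FV

open Finset MvPolynomial Pool.Agent.Helper71.Fml Pool.Agent.Helper97.Form

section

variable {K V : Type} [Field K] [DecidableEq V]

theorem degreeOf_pderiv_le (v w : V) (F : MvPolynomial V K) :
    degreeOf v (pderiv w F) ≤ degreeOf v F := by
  rw [degreeOf_le_iff]
  intro m hm
  have h1 : coeff (m + Finsupp.single w 1) F ≠ 0 := by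
    intro h0
    rw [mem_support_iff, coeff_pderiv, h0, zero_mul] at hm
    exact hm rfl
  have h2 := monomial_le_degreeOf v (mem_support_iff.mpr h1)
  rw [Finsupp.add_apply] at h2
  omega

theorem mem_R0_iff {D₀ : Finset V} {F : MvPolynomial V K} :
    F ∈ R0 K D₀ ↔ ∀ v ∈ D₀, degreeOf v F = 0 := by
  unfold R0
  rw [mem_supported]
  constructor
  · intro h v hv
    by_contra h0
    have h1 : v ∈ F.vars := mem_vars_iff_degreeOf_ne_zero.mpr h0
    exact h h1 hv
  · intro h v hv hvD
    exact (mem_vars_iff_degreeOf_ne_zero.mp hv) (h v hvD)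

theorem not_dvd {P : MvPolynomial V K} {D₀ : Finset V} (hP1 : ∀ v ∈ D₀, degreeOf v P = 1)
    {ι : Type} [Fintype ι] (p : ι → V)
    (hli : LinearIndependent (KK K D₀) (fun o : Option ι => algebraMap (MvPolynomial V K)
      (FractionRing (MvPolynomial V K)) (fam P p o)))
    (c : ι → MvPolynomial V K) (hc : ∀ i, c i ∈ R0 K D₀)
    (hdvd : P ∣ ∑ i, c i * pderiv (p i) P) : ∀ i, c i = 0 := by
  obtain ⟨H, hH⟩ := hdvd
  have hHR : H ∈ R0 K D₀ := by
    rw [mem_R0_iff]
    intro v hv
    by_cases h0 : H = 0
    · rw [h0, degreeOf_zero]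
    have hP0 : P ≠ 0 := by
      rintro rfl
      have := hP1 v hv
      rw [degreeOf_zero] at this
      omega
    have h1 : degreeOf v (∑ i, c i * pderiv (p i) P) ≤ 1 := by
      refine (degreeOf_sum_le _ _ _).trans (Finset.sup_le fun i _ => ?_)
      refine (degreeOf_mul_le _ _ _).trans ?_
      rw [mem_R0_iff.1 (hc i) v hv, zero_add]
      exact (degreeOf_pderiv_le _ _ _).trans (hP1 v hv).le
    rw [hH, degreeOf_mul_eq hP0 h0, hP1 v hv] at h1
    omega
  rw [Fintype.linearIndependent_iff] at hli
  have hmem : ∀ {F : MvPolynomial V K}, F ∈ R0 K D₀ →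
    algebraMap (MvPolynomial V K) (FractionRing (MvPolynomial V K)) F ∈ KK K D₀ :=
    fun hF => algebraMap_mem_KK hF
  have h2 := hli (fun o => o.elim ⟨_, hmem (neg_mem hHR)⟩ fun i => ⟨_, hmem (hc i)⟩) (by
    rw [Fintype.sum_option]
    show algebraMap (MvPolynomial V K) (FractionRing (MvPolynomial V K)) (-H) *
        algebraMap (MvPolynomial V K) (FractionRing (MvPolynomial V K)) P +
      ∑ i, algebraMap (MvPolynomial V K) (FractionRing (MvPolynomial V K)) (c i) *
        algebraMap (MvPolynomial V K) (FractionRing (MvPolynomial V K)) (pderiv (p i) P) = 0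
    simp only [← map_mul]
    rw [← map_sum, ← map_add, hH]
    rw [show -H * P + P * H = 0 by ring, map_zero])
  intro i
  have h3 := congrArg Subtype.val (h2 (some i))
  have h4 : algebraMap (MvPolynomial V K) (FractionRing (MvPolynomial V K)) (c i) = 0 := h3
  exact (map_eq_zero_iff _ (IsFractionRing.injective (MvPolynomial V K)
    (FractionRing (MvPolynomial V K)))).1 h4

/-- the derivation with the coefficients `a` -/
noncomputable def dl [Fintype V] (a : V → MvPolynomial V K) (F : MvPolynomial V K) :
    MvPolynomial V K :=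
  ∑ w, a w * pderiv w F

/-- the derivation with the coefficients `a`, on rational functions -/
noncomputable def DL [Fintype V] (a : V → MvPolynomial V K)
    (f : FractionRing (MvPolynomial V K)) : FractionRing (MvPolynomial V K) :=
  ∑ w, algebraMap (MvPolynomial V K) (FractionRing (MvPolynomial V K)) (a w) * D w f

variable [Fintype V] (a : V → MvPolynomial V K)

theorem dl_add (F G : MvPolynomial V K) : dl a (F + G) = dl a F + dl a G := by
  unfold dl
  rw [← sum_add_distrib]
  refine sum_congr rfl fun w _ => ?_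
  rw [map_add, mul_add]

theorem dl_mul (F G : MvPolynomial V K) : dl a (F * G) = F * dl a G + G * dl a F := by
  unfold dl
  rw [mul_sum, mul_sum, ← sum_add_distrib]
  refine sum_congr rfl fun w _ => ?_
  rw [pderiv_mul]
  ring

theorem dl_C (c : K) : dl a (C c) = 0 := by
  unfold dl
  exact sum_eq_zero fun w _ => by rw [pderiv_C, mul_zero]

theorem dl_X (v : V) : dl a (X v) = a v := by
  unfold dl
  rw [Finset.sum_eq_single v]
  · rw [pderiv_X_self, mul_one]
  · intro w _ hw
    rw [pderiv_X_of_ne (Ne.symm hw), mul_zero]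
  · intro h
    exact absurd (mem_univ _) h

theorem DL_algebraMap (F : MvPolynomial V K) :
    DL a (algebraMap (MvPolynomial V K) (FractionRing (MvPolynomial V K)) F) =
      algebraMap (MvPolynomial V K) (FractionRing (MvPolynomial V K)) (dl a F) := by
  unfold DL dl
  rw [map_sum]
  refine sum_congr rfl fun w _ => ?_
  rw [D_algebraMap, map_mul]

theorem DL_mul (f g : FractionRing (MvPolynomial V K)) :
    DL a (f * g) = f * DL a g + g * DL a f := by
  unfold DL
  rw [mul_sum, mul_sum, ← sum_add_distrib]
  refine sum_congr rfl fun w _ => ?_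
  rw [D_mul]
  ring

theorem DL_inv (f : FractionRing (MvPolynomial V K)) (h : DL a f = 0) : DL a f⁻¹ = 0 := by
  have h1 : DL a f⁻¹ = -(f⁻¹ * f⁻¹ * DL a f) := by
    unfold DL
    rw [mul_sum, ← sum_neg_distrib]
    refine sum_congr rfl fun w _ => ?_
    rw [D_inv]
    ring
  rw [h1, h, mul_zero, neg_zero]

theorem dl_pow (F : MvPolynomial V K) (k : ℕ) :
    dl a (F ^ (k + 1)) = (k + 1 : ℕ) * F ^ k * dl a F := by
  induction k with
  | zero => simp
  | succ k ih =>
    rw [pow_succ, dl_mul, ih]
    push_cast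
    ring

/-- a fraction killed by the derivation -/
theorem dl_div {f : FractionRing (MvPolynomial V K)} {A B : MvPolynomial V K}
    (hf : f * algebraMap (MvPolynomial V K) (FractionRing (MvPolynomial V K)) B =
      algebraMap (MvPolynomial V K) (FractionRing (MvPolynomial V K)) A) (h : DL a f = 0) :
    B * dl a A = A * dl a B := by
  apply IsFractionRing.injective (MvPolynomial V K) (FractionRing (MvPolynomial V K))
  rw [map_mul, map_mul, ← DL_algebraMap, ← DL_algebraMap, ← hf, DL_mul, h]
  ring

/-- If the derivation kills a rational function with a zero (or pole) of order `k` along `P = 0`,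
`k` not `0` in `K`, then it is tangent to `P = 0`. -/
theorem dvd_dl {P A B : MvPolynomial V K} (hP : Prime P) {k : ℕ} (hk : ((k + 1 : ℕ) : K) ≠ 0)
    (hA : ¬ P ∣ A) (hB : ¬ P ∣ B) {f : FractionRing (MvPolynomial V K)}
    (hf : f * algebraMap (MvPolynomial V K) (FractionRing (MvPolynomial V K)) B =
      algebraMap (MvPolynomial V K) (FractionRing (MvPolynomial V K)) (P ^ (k + 1) * A))
    (h : DL a f = 0) : P ∣ dl a P := by
  have h1 := dl_div a hf h
  rw [dl_mul, dl_pow] at h1
  have h2 : P ^ k * (P * (B * dl a A - A * dl a B) + ((k + 1 : ℕ) : MvPolynomial V K) * (A * B * dl a P)) = 0 := by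
    rw [pow_succ] at h1
    linear_combination h1
  have h3 := (mul_eq_zero.1 h2).resolve_left (pow_ne_zero _ hP.ne_zero)
  have h4 : P ∣ C ((k + 1 : ℕ) : K) * (A * B * dl a P) := by
    refine ⟨-(B * dl a A - A * dl a B), ?_⟩
    have : (C ((k + 1 : ℕ) : K) : MvPolynomial V K) = ((k + 1 : ℕ) : MvPolynomial V K) :=
      map_natCast _ _
    rw [this]
    linear_combination h3
  have h5 : P ∣ A * B * dl a P := by
    have h6 : A * B * dl a P = C (((k + 1 : ℕ) : K)⁻¹) * (C ((k + 1 : ℕ) : K) * (A * B * dl a P)) := by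
      rw [← mul_assoc, ← C_mul, inv_mul_cancel₀ hk, C_1, one_mul]
    rw [h6]
    exact h4.mul_left _
  rcases hP.dvd_or_dvd h5 with h6 | h6
  · rcases hP.dvd_or_dvd h6 with h7 | h7
    · exact absurd h7 hA
    · exact absurd h7 hB
  · exact h6

end

section Perm

variable {K : Type} [Field K]

theorem permPoly_eq_MR (n : ℕ) :
    permPoly K n = Pool.Agent.Helper20.MR.permPoly (Fin n) K := by
  unfold permPoly Pool.Agent.Helper20.MR.permPoly
  rw [Pool.Agent.Helper20.MR.permMl_apply, ← Matrix.permanent_transpose]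
  rfl

theorem perm_prime {n : ℕ} (hn : 1 ≤ n) : Prime (permPoly K n) := by
  have : Nonempty (Fin n) := ⟨⟨0, hn⟩⟩
  rw [permPoly_eq_MR]
  exact Pool.Agent.Helper73.DC.irreducible_permPoly.prime

theorem degreeOf_perm {n : ℕ} (v : Fin n × Fin n) : degreeOf v (permPoly K n) = 1 := by
  have : Nonempty (Fin n) := ⟨v.1⟩
  rw [permPoly_eq_MR]
  exact le_antisymm (Pool.Agent.Helper20.MR.degreeOf_permPoly_le v)
    (Pool.Agent.Helper20.MR.one_le_degreeOf_permPoly v)

end Perm

end Pool.FV
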