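import Pool.Agent.Helper29.FV.PGood
import Pool.Agent.Helper29.FV.Mult

/-!
# FV: if a program is small, then a derivation kills its results and is not tangent to `perm = 0`
-/

set_option autoImplicit false
set_option linter.unusedSectionVars false

namespace Pool.FV

open Finset MvPolynomial Pool.Agent.Helper71.Fml Pool.Agent.Helper97.Form

section Lin

variable {k E M ι : Type} [Field k] [AddCommGroup E] [Module k E] [AddCommGroup M] [Module k M]

/-- a linear map into a small space lowers the dimension of a subspace by little -/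
theorem finrank_inf_ker [Module.Finite k E] (S : Submodule k E) (L : E →ₗ[k] M)
    (W : Submodule k M) [Module.Finite k W] (hW : ∀ c, L c ∈ W) :
    Module.finrank k S ≤ Module.finrank k (S ⊓ LinearMap.ker L : Submodule k E) +
      Module.finrank k W := by
  have h1 := LinearMap.finrank_range_add_finrank_ker (L.domRestrict S)
  have h2 : Module.finrank k (LinearMap.range (L.domRestrict S)) ≤ Module.finrank k W := by
    apply Submodule.finrank_mono
    rintro _ ⟨c, rfl⟩
    exact hW _
  have h3 : Module.finrank k (LinearMap.ker (L.domRestrict S)) ≤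
      Module.finrank k (S ⊓ LinearMap.ker L : Submodule k E) := by
    rw [← Submodule.finrank_map_subtype_eq]
    apply Submodule.finrank_mono
    rintro _ ⟨c, hc, rfl⟩
    exact ⟨c.2, hc⟩
  omega

/-- the vectors `d i` span a space of dimension at most `b` -/
def Low (k : Type) {M ι : Type} [Field k] [AddCommGroup M] [Module k M] (d : ι → M) (b : ℕ) :
    Prop :=
  ∃ W : Submodule k M, Module.Finite k W ∧ Module.finrank k W ≤ b ∧ ∀ i, d i ∈ W

variable [Fintype ι]

theorem sols (τ : List (ι → M)) (bs : List ℕ) (h : List.Forall₂ (Low k) τ bs) :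
    ∃ S : Submodule k (ι → k), Fintype.card ι ≤ Module.finrank k S + bs.sum ∧
      ∀ c ∈ S, ∀ d ∈ τ, ∑ i, c i • d i = 0 := by
  induction h with
  | nil =>
    refine ⟨⊤, ?_, fun c _ d hd => ?_⟩
    · rw [finrank_top, Module.finrank_fintype_fun_eq_card]
      exact Nat.le_add_right _ _
    · simp at hd
  | @cons d b τ bs hd _ ih =>
    obtain ⟨S, h1, h2⟩ := ih
    obtain ⟨W, hW1, hW2, hW3⟩ := hd
    let L : (ι → k) →ₗ[k] M := ∑ i, (LinearMap.toSpanSingleton k M (d i)).comp (LinearMap.proj i)
    have hL : ∀ c : ι → k, L c = ∑ i, c i • d i := by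
      intro c
      simp only [L, LinearMap.sum_apply, LinearMap.comp_apply, LinearMap.proj_apply,
        LinearMap.toSpanSingleton_apply]
    have h3 := finrank_inf_ker S L W (fun c => by
      rw [hL]
      exact sum_mem fun i _ => W.smul_mem _ (hW3 i))
    refine ⟨S ⊓ LinearMap.ker L, ?_, fun c hc d' hd' => ?_⟩
    · rw [List.sum_cons]
      omega
    · rcases List.mem_cons.1 hd' with rfl | hd'
      · have h4 := hc.2
        rw [SetLike.mem_coe, LinearMap.mem_ker, hL] at h4
        exact h4
      · exact h2 c hc.1 d' hd'

theorem exists_sol (τ : List (ι → M)) (bs : List ℕ) (h : List.Forall₂ (Low k) τ bs)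
    (hlt : bs.sum < Fintype.card ι) : ∃ c : ι → k, c ≠ 0 ∧ ∀ d ∈ τ, ∑ i, c i • d i = 0 := by
  obtain ⟨S, h1, h2⟩ := sols τ bs h
  have h3 : S ≠ ⊥ := by
    rintro rfl
    rw [finrank_bot] at h1
    omega
  obtain ⟨c, hcS, hc0⟩ := (Submodule.ne_bot_iff _).1 h3
  exact ⟨c, hc0, h2 c hcS⟩

end Lin

section Der

variable {K V ι : Type} [Field K] [DecidableEq V] [Fintype ι]

/-- the derivation with the coefficients `c` in the directions `p` -/
noncomputable def dF (p : ι → V) (c : ι → FractionRing (MvPolynomial V K))
    (f : FractionRing (MvPolynomial V K)) : FractionRing (MvPolynomial V K) :=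
  ∑ i, c i * D (p i) f

variable (p : ι → V) (c : ι → FractionRing (MvPolynomial V K))

theorem dF_C (a : K) : dF p c (algebraMap K (FractionRing (MvPolynomial V K)) a) = 0 := by
  refine sum_eq_zero fun i _ => ?_
  have h2 : algebraMap K (FractionRing (MvPolynomial V K)) a =
    algebraMap (MvPolynomial V K) (FractionRing (MvPolynomial V K)) (C a) := rfl
  rw [h2, D_algebraMap, pderiv_C, map_zero, mul_zero]

theorem dF_add (f g : FractionRing (MvPolynomial V K)) : dF p c (f + g) = dF p c f + dF p c g := by
  unfold dF
  rw [← sum_add_distrib]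
  exact sum_congr rfl fun i _ => by rw [D_add, mul_add]

theorem dF_mul (f g : FractionRing (MvPolynomial V K)) :
    dF p c (f * g) = f * dF p c g + g * dF p c f := by
  unfold dF
  rw [mul_sum, mul_sum, ← sum_add_distrib]
  exact sum_congr rfl fun i _ => by rw [D_mul]; ring

theorem dF_inv (f : FractionRing (MvPolynomial V K)) :
    dF p c f⁻¹ = -(f⁻¹ * f⁻¹ * dF p c f) := by
  unfold dF
  rw [mul_sum, ← sum_neg_distrib]
  exact sum_congr rfl fun i _ => by rw [D_inv]; ring

theorem dF_aeval {τ : Type} {f : τ → FractionRing (MvPolynomial V K)}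
    (h : ∀ j, dF p c (f j) = 0) (g : MvPolynomial τ K) :
    dF p c (MvPolynomial.aeval f g) = 0 := by
  induction g using MvPolynomial.induction_on with
  | C a =>
    rw [← algebraMap_eq, AlgHom.commutes]
    exact dF_C p c a
  | add q r hq hr => rw [map_add, dF_add, hq, hr, add_zero]
  | mul_X q w hq => rw [map_mul, aeval_X, dF_mul, hq, h, mul_zero, mul_zero, add_zero]

end Der

section Step

variable {K V V' ι : Type} [Field K] [DecidableEq V] [DecidableEq V']
  (y : V → FractionRing (MvPolynomial V' K)) (p : ι → V')

/-- the generic point -/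
noncomputable def gp (K V : Type) [Field K] (v : V) : FractionRing (MvPolynomial V K) :=
  algebraMap (MvPolynomial V K) (FractionRing (MvPolynomial V K)) (X v)

/-- the values of the leaves of a formula after the program `q`, at the point `y` -/
noncomputable def lv (q : List (Formula K (V ⊕ MvPolynomial ℕ K))) :
    V ⊕ MvPolynomial ℕ K → FractionRing (MvPolynomial V' K) :=
  Sum.elim y fun g => aeval (fun i => (results y q).getD i 0) g

/-- the derivatives of the leaves, where earlier results are constants -/
noncomputable def dlv : V ⊕ MvPolynomial ℕ K → ι → FractionRing (MvPolynomial V' K) :=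
  Sum.elim (fun v i => D (p i) (y v)) fun _ _ => 0

theorem space_step {D₀ : Finset V'} {B : Finset V}
    (hfree : ∀ v ∉ B, FreeP D₀ (y v) fun i => D (p i) (y v))
    (hblk : ∀ v ∈ B, ∀ i, D (p i) (y v) = 0)
    (φ : Formula K (V ⊕ MvPolynomial ℕ K)) (q : List (Formula K (V ⊕ MvPolynomial ℕ K))) :
    Low (KK K D₀) (dd (lv y q) (dlv y p) φ) (5 * (inBlock B φ + uses φ) + 1) := by
  have hw : inBlock B φ + uses φ =
      weigh (Sum.elim (fun v => if v ∈ B then 1 else 0) fun _ => 1) φ := by
    unfold inBlock uses
    rw [← weigh_add]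
    congr 1
    funext w
    rcases w with v | g
    · simp
    · simp
  rw [hw]
  obtain ⟨g0, g1⟩ := goodP_formula (D₀ := D₀) (lv y q) (dlv y p)
    (Sum.elim (fun v => if v ∈ B then 1 else 0) fun _ => 1) (by
      rintro (v | g) hv
      · have hv' : v ∉ B := by
          intro h
          simp [h] at hv
        exact hfree v hv'
      · simp at hv) (by
      rintro (v | g) hv
      · have hv' : v ∈ B := by
          by_contra h
          simp [h] at hv
        exact ⟨by simp [hv'], funext fun i => hblk v hv' i⟩
      · exact ⟨rfl, rfl⟩) φ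
  have key : ∀ k m : ℕ, GoodP D₀ (ev (lv y q) φ) (dd (lv y q) (dlv y p) φ) k → k ≤ 5 * m + 1 →
      Low (KK K D₀) (dd (lv y q) (dlv y p) φ) (5 * m + 1) := by
    rintro k m ⟨W, h1, h2, -, -, -, h3⟩ hk
    exact ⟨W, h1, h2.trans hk, h3⟩
  rcases Nat.eq_zero_or_pos
    (weigh (Sum.elim (fun v => if v ∈ B then 1 else 0) fun _ => 1) φ) with h0 | h0
  · exact key 1 _ (goodP_of_free (g0 h0)) (by omega)
  · exact key _ _ (g1 h0) (by omega)

/-- the derivative vectors of all steps -/
noncomputable def ders :
    List (Formula K (V ⊕ MvPolynomial ℕ K)) → List (ι → FractionRing (MvPolynomial V' K))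
  | [] => []
  | φ :: q => dd (lv y q) (dlv y p) φ :: ders q

/-- the number of leaves of a program in a block -/
def blkSize {K V W : Type} [DecidableEq V] (D₀ : Finset V) (q : List (Formula K (V ⊕ W))) : ℕ :=
  (q.map (inBlock D₀)).sum

variable [Fintype ι]

/-- every solution kills all results -/
theorem killed (q : List (Formula K (V ⊕ MvPolynomial ℕ K)))
    (c : ι → FractionRing (MvPolynomial V' K)) (hc : ∀ d ∈ ders y p q, ∑ i, c i * d i = 0) :
    ∀ f ∈ results y q, dF p c f = 0 := by
  induction q with
  | nil =>
    intro f hf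
    simp [results] at hf
  | cons φ q ih =>
    have h1 := ih (fun d hd => hc d (List.mem_cons_of_mem _ hd))
    have h2 : dF p c (ev (lv y q) φ) = 0 := by
      rw [chain (lv y q) (dlv y p) c (dF p c) (dF_C p _) (dF_add p _) (dF_mul p _) (dF_inv p _)]
      · exact hc _ List.mem_cons_self
      · rintro (v | g)
        · rfl
        · show dF p c (aeval (fun i => (results y q).getD i 0) g) = ∑ i, c i * 0
          rw [dF_aeval]
          · simp
          · intro j
            rcases lt_or_ge j (results y q).length with hj | hj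
            · rw [List.getD_eq_getElem _ _ hj]
              exact h1 _ (List.getElem_mem hj)
            · rw [List.getD_eq_default _ _ hj]
              have := dF_C p c 0
              rwa [map_zero] at this
    intro f hf
    rcases List.mem_cons.1 hf with rfl | hf
    · exact h2
    · exact h1 f hf

end Step

end Pool.FV
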