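import Pool.Agent.Helper29.FV.PBlk
import Pool.Agent.Helper29.FV.Ev

/-!
# FV: a small program is killed by a derivation which is not tangent to `perm = 0`; values of its
results at points
-/

set_option autoImplicit false
set_option linter.unusedSectionVars false

namespace Pool.FV

open Finset MvPolynomial Pool.Agent.Helper71.Fml Pool.Agent.Helper97.Form

section Join

variable {K V W : Type} [Field K] [DecidableEq V]

/-- the formula with `0` in place of the other leaves -/
def strip : Formula K (V ⊕ W) → Formula K V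
  | Formula.const c => Formula.const c
  | Formula.var (Sum.inl v) => Formula.var v
  | Formula.var (Sum.inr _) => Formula.const 0
  | Formula.add a b => Formula.add (strip a) (strip b)
  | Formula.mul a b => Formula.mul (strip a) (strip b)
  | Formula.div a b => Formula.div (strip a) (strip b)

theorem size_strip (φ : Formula K (V ⊕ W)) : (strip φ).size = entries φ := by
  unfold entries
  induction φ with
  | const c => rfl
  | var v => rcases v with v | g <;> rfl
  | add a b iha ihb => simp only [strip, Formula.size, weigh, iha, ihb]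
  | mul a b iha ihb => simp only [strip, Formula.size, weigh, iha, ihb]
  | div a b iha ihb => simp only [strip, Formula.size, weigh, iha, ihb]

theorem leavesIn_strip (D : Finset V) (φ : Formula K (V ⊕ W)) :
    (strip φ).leavesIn D = inBlock D φ := by
  unfold inBlock
  induction φ with
  | const c => rfl
  | var v => rcases v with v | g <;> rfl
  | add a b iha ihb => simp only [strip, Formula.leavesIn, weigh, iha, ihb]
  | mul a b iha ihb => simp only [strip, Formula.leavesIn, weigh, iha, ihb]
  | div a b iha ihb => simp only [strip, Formula.leavesIn, weigh, iha, ihb]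

/-- the sum of all formulas of a program -/
def joinP : List (Formula K (V ⊕ W)) → Formula K V
  | [] => Formula.const 0
  | φ :: l => Formula.add (strip φ) (joinP l)

theorem size_joinP (q : List (Formula K (V ⊕ W))) : (joinP q).size = size q := by
  induction q with
  | nil => rfl
  | cons φ q ih =>
    have : size (φ :: q) = entries φ + size q := by simp [size]
    rw [this, ← ih, ← size_strip]
    rfl

theorem leavesIn_joinP (D : Finset V) (q : List (Formula K (V ⊕ W))) :
    (joinP q).leavesIn D = blkSize D q := by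
  induction q with
  | nil => rfl
  | cons φ q ih =>
    have : blkSize D (φ :: q) = inBlock D φ + blkSize D q := by simp [blkSize]
    rw [this, ← ih, ← leavesIn_strip]
    rfl

end Join

section Rep

variable {K V' : Type} [Field K] [DecidableEq V']

theorem Ev.zero (x : V' → K) : Ev x 0 0 := by
  have := Ev.C x 0
  rwa [map_zero] at this

theorem Ev.X (x : V' → K) (v : V') : Ev x (gp K V' v) (x v) :=
  ⟨MvPolynomial.X v, 1, by simp, by rw [map_one, mul_one]; rfl, by simp⟩

theorem Ev.inv {x : V' → K} {f : FractionRing (MvPolynomial V' K)} {v : K} (hf : Ev x f v)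
    (h : f = 0 ∨ v ≠ 0) : Ev x f⁻¹ v⁻¹ := by
  rcases h with h | h
  · subst h
    have h1 : v * eval x 1 = eval x (0 : MvPolynomial V' K) :=
      hf.eq (by rw [map_one, map_zero, mul_one])
    rw [map_one, mul_one, map_zero] at h1
    rw [h1, inv_zero, inv_zero]
    exact Ev.zero x
  · obtain ⟨A, B, h1, h2, h3⟩ := hf
    have hA : eval x A ≠ 0 := by
      rw [← h3]
      exact mul_ne_zero h h1
    have hf0 : f ≠ 0 := by
      rintro rfl
      rw [zero_mul] at h2
      have : A = 0 := map_inj (by rw [← h2, map_zero])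
      rw [this, map_zero] at hA
      exact hA rfl
    refine ⟨B, A, hA, ?_, ?_⟩
    · rw [← h2, inv_mul_cancel_left₀ hf0]
    · rw [← h3, inv_mul_cancel_left₀ h]

/-- a class of nonzero polynomials closed under multiplication -/
structure MulCls (Q : MvPolynomial V' K → Prop) : Prop where
  one : Q 1
  mul : ∀ A B, Q A → Q B → Q (A * B)
  ne : ∀ A, Q A → A ≠ 0

/-- `f` is a fraction `A / B` with `B` in the class, and `A` in the class unless it is `0` -/
def FracQ (Q : MvPolynomial V' K → Prop) (f : FractionRing (MvPolynomial V' K))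
    (A B : MvPolynomial V' K) : Prop :=
  Q B ∧ (A = 0 ∨ Q A) ∧
    f * algebraMap (MvPolynomial V' K) (FractionRing (MvPolynomial V' K)) B =
      algebraMap (MvPolynomial V' K) (FractionRing (MvPolynomial V' K)) A

/-- values of a formula at points outside a hypersurface -/
theorem rep_formula {V W : Type} {Q : MvPolynomial V' K → Prop} (hQ : MulCls Q)
    (ζ : V ⊕ W → FractionRing (MvPolynomial V' K)) (M₁ M₂ : ℕ)
    (H : ∀ θ : Formula K (V ⊕ W), entries θ ≤ M₁ → uses θ ≤ M₂ →
      ∃ A B, FracQ Q (ev ζ θ) A B) (φ : Formula K (V ⊕ W)) :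
    entries φ ≤ M₁ → uses φ ≤ M₂ → ∃ G : MvPolynomial V' K, Q G ∧
      ∀ (x : V' → K) (ζx : V ⊕ W → K), (∀ w, Ev x (ζ w) (ζx w)) → eval x G ≠ 0 →
        Ev x (ev ζ φ) (ev ζx φ) := by
  classical
  induction φ with
  | const c =>
    intro _ _
    exact ⟨1, hQ.one, fun x ζx _ _ => Ev.C x c⟩
  | var w =>
    intro _ _
    exact ⟨1, hQ.one, fun x ζx h _ => h w⟩
  | add a b iha ihb =>
    intro e1 e2
    have e1' : entries a + entries b ≤ M₁ := e1
    have e2' : uses a + uses b ≤ M₂ := e2
    obtain ⟨Ga, hGa, ha⟩ := iha (by omega) (by omega)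
    obtain ⟨Gb, hGb, hb⟩ := ihb (by omega) (by omega)
    refine ⟨Ga * Gb, hQ.mul _ _ hGa hGb, fun x ζx h hx => ?_⟩
    rw [map_mul] at hx
    exact (ha x ζx h (left_ne_zero_of_mul hx)).add (hb x ζx h (right_ne_zero_of_mul hx))
  | mul a b iha ihb =>
    intro e1 e2
    have e1' : entries a + entries b ≤ M₁ := e1
    have e2' : uses a + uses b ≤ M₂ := e2
    obtain ⟨Ga, hGa, ha⟩ := iha (by omega) (by omega)
    obtain ⟨Gb, hGb, hb⟩ := ihb (by omega) (by omega)
    refine ⟨Ga * Gb, hQ.mul _ _ hGa hGb, fun x ζx h hx => ?_⟩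
    rw [map_mul] at hx
    exact (ha x ζx h (left_ne_zero_of_mul hx)).mul (hb x ζx h (right_ne_zero_of_mul hx))
  | div a b iha ihb =>
    intro e1 e2
    have e1' : entries a + entries b ≤ M₁ := e1
    have e2' : uses a + uses b ≤ M₂ := e2
    obtain ⟨Ga, hGa, ha⟩ := iha (by omega) (by omega)
    obtain ⟨Gb, hGb, hb⟩ := ihb (by omega) (by omega)
    obtain ⟨A, B, hB, hA, hAB⟩ := H b (by omega) (by omega)
    obtain ⟨G₀, hG₀, hx₀⟩ : ∃ G₀ : MvPolynomial V' K, Q G₀ ∧ ∀ x, eval x G₀ ≠ 0 →
        (A = 0 ∨ eval x A ≠ 0) := by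
      rcases hA with hA | hA
      · exact ⟨1, hQ.one, fun x _ => Or.inl hA⟩
      · exact ⟨A, hA, fun x hx => Or.inr hx⟩
    have hB0 : algebraMap (MvPolynomial V' K) (FractionRing (MvPolynomial V' K)) B ≠ 0 := fun h =>
      hQ.ne B hB (map_inj (by rw [h, map_zero]))
    refine ⟨G₀ * (Ga * Gb), hQ.mul _ _ hG₀ (hQ.mul _ _ hGa hGb), fun x ζx h hx => ?_⟩
    rw [map_mul, map_mul] at hx
    have hxa := ha x ζx h (left_ne_zero_of_mul (right_ne_zero_of_mul hx))
    have hxb := hb x ζx h (right_ne_zero_of_mul (right_ne_zero_of_mul hx))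
    simp only [ev]
    rw [div_eq_mul_inv, div_eq_mul_inv]
    refine hxa.mul (hxb.inv ?_)
    rcases hx₀ x (left_ne_zero_of_mul hx) with h0 | h0
    · left
      rw [h0, map_zero] at hAB
      exact (mul_eq_zero.1 hAB).resolve_right hB0
    · right
      intro hv
      have h5 := hxb.eq hAB
      rw [hv, zero_mul] at h5
      exact h0 h5.symm

/-- values of the results of a program at points outside a hypersurface -/
theorem rep_prog {V : Type} {Q : MvPolynomial V' K → Prop} (hQ : MulCls Q)
    (y : V → FractionRing (MvPolynomial V' K)) (S R : ℕ)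
    (H : ∀ q : List (Formula K (V ⊕ MvPolynomial ℕ K)), size q ≤ S → reuse q ≤ R →
      ∀ f ∈ results y q, ∃ A B, FracQ Q f A B)
    (q : List (Formula K (V ⊕ MvPolynomial ℕ K))) : size q ≤ S → reuse q ≤ R →
    ∃ G : MvPolynomial V' K, Q G ∧ ∀ (x : V' → K) (yx : V → K), (∀ v, Ev x (y v) (yx v)) →
      eval x G ≠ 0 → ∀ j, Ev x ((results y q).getD j 0) ((results yx q).getD j 0) := by
  induction q with
  | nil =>
    intro _ _
    exact ⟨1, hQ.one, fun x yx _ _ j => Ev.zero x⟩
  | cons φ q ih =>
    intro hS hR
    have s1 : size (φ :: q) = entries φ + size q := by simp [size]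
    have s2 : ∀ θ : Formula K (V ⊕ MvPolynomial ℕ K), size (θ :: q) = entries θ + size q := by
      intro θ
      simp [size]
    have r2 : ∀ θ : Formula K (V ⊕ MvPolynomial ℕ K), reuse (θ :: q) = reuse q + uses θ + 1 := by
      intro θ
      simp only [reuse, List.length_cons, List.map_cons, List.sum_cons]
      omega
    have s3 := s2 φ
    have r3 := r2 φ
    obtain ⟨G, hG, hx⟩ := ih (by omega) (by omega)
    obtain ⟨G', hG', hx'⟩ := rep_formula hQ
      (Sum.elim y fun g => aeval (fun i => (results y q).getD i 0) g) (entries φ) (uses φ)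
      (fun θ e1 e2 => by
        refine H (θ :: q) ?_ ?_ _ List.mem_cons_self
        · rw [s2]
          omega
        · rw [r2]
          omega) φ le_rfl le_rfl
    refine ⟨G * G', hQ.mul _ _ hG hG', fun x yx hy hxx j => ?_⟩
    rw [map_mul] at hxx
    have h1 := hx x yx hy (left_ne_zero_of_mul hxx)
    rcases j with _ | j
    · refine hx' x (Sum.elim yx fun g => aeval (fun i => (results yx q).getD i 0) g) ?_
        (right_ne_zero_of_mul hxx)
      rintro (v | g)
      · exact hy v
      · have h2 := Ev.aeval h1 g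
        exact h2
    · exact h1 j

end Rep

end Pool.FV
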