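import Pool.Agent.Helper29.FV.Prog
import Pool.Agent.Helper97.Form.Kal

/-!
# FV: formal derivatives of formulas whose leaves are labelled by arbitrary functions
-/

set_option autoImplicit false
set_option linter.unusedSectionVars false

namespace Pool.FV

open Finset MvPolynomial Pool.Agent.Helper71.Fml Pool.Agent.Helper97.Form

section Dd

variable {K F V' ι : Type} [Field K] [Field F] [Algebra K F]

/-- the formal derivatives of a formula, for given values and derivatives of the leaves -/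
noncomputable def dd (x : V' → F) (dx : V' → ι → F) : Formula K V' → ι → F
  | Formula.const _ => fun _ => 0
  | Formula.var w => dx w
  | Formula.add a b => fun i => dd x dx a i + dd x dx b i
  | Formula.mul a b => fun i => ev x a * dd x dx b i + ev x b * dd x dx a i
  | Formula.div a b => fun i =>
      ev x a * (-((ev x b)⁻¹ * (ev x b)⁻¹ * dd x dx b i)) + (ev x b)⁻¹ * dd x dx a i

/-- The chain rule. -/
theorem chain (x : V' → F) (dx : V' → ι → F) [Fintype ι] (c : ι → F) (δ : F → F)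
    (hC : ∀ a : K, δ (algebraMap K F a) = 0) (hadd : ∀ f g, δ (f + g) = δ f + δ g)
    (hmul : ∀ f g, δ (f * g) = f * δ g + g * δ f)
    (hinv : ∀ f, δ f⁻¹ = -(f⁻¹ * f⁻¹ * δ f))
    (φ : Formula K V') (hx : ∀ w, δ (x w) = ∑ i, c i * dx w i) :
    δ (ev x φ) = ∑ i, c i * dd x dx φ i := by
  induction φ with
  | const a =>
    simp only [ev, dd, mul_zero, sum_const_zero]
    exact hC a
  | var w => exact hx w
  | add a b iha ihb =>
    simp only [ev, dd]
    rw [hadd, iha, ihb, ← sum_add_distrib]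
    exact sum_congr rfl fun i _ => by ring
  | mul a b iha ihb =>
    simp only [ev, dd]
    rw [hmul, iha, ihb, mul_sum, mul_sum, ← sum_add_distrib]
    exact sum_congr rfl fun i _ => by ring
  | div a b iha ihb =>
    simp only [ev, dd]
    rw [div_eq_mul_inv, hmul, hinv, iha, ihb]
    rw [mul_sum, mul_sum, ← sum_neg_distrib, mul_sum, ← sum_add_distrib]
    exact sum_congr rfl fun i _ => by ring

end Dd

section GoodP

variable {K V ι : Type} [Field K] [DecidableEq V]

/-- `1, f, f ^ 2` and all `d i` lie in a space of dimension at most `k` over the field of the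
functions without variables of `D₀`. -/
def GoodP (D₀ : Finset V) (f : FractionRing (MvPolynomial V K))
    (d : ι → FractionRing (MvPolynomial V K)) (k : ℕ) : Prop :=
  ∃ W : Submodule (KK K D₀) (FractionRing (MvPolynomial V K)), Module.Finite (KK K D₀) W ∧
    Module.finrank (KK K D₀) W ≤ k ∧ (1 : (FractionRing (MvPolynomial V K))) ∈ W ∧ f ∈ W ∧
      f * f ∈ W ∧ ∀ i, d i ∈ W

/-- `f` and all `d i` do not depend on the variables of `D₀` -/
def FreeP (D₀ : Finset V) (f : FractionRing (MvPolynomial V K))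
    (d : ι → FractionRing (MvPolynomial V K)) : Prop :=
  f ∈ KK K D₀ ∧ ∀ i, d i ∈ KK K D₀

variable {D₀ : Finset V} {f g c : FractionRing (MvPolynomial V K)}
  {d e : ι → FractionRing (MvPolynomial V K)} {k l : ℕ}

theorem GoodP.mono (h : GoodP D₀ f d k) (hkl : k ≤ l) : GoodP D₀ f d l := by
  obtain ⟨W, h1, h2, h3⟩ := h
  exact ⟨W, h1, h2.trans hkl, h3⟩

theorem goodP_of_free (h : FreeP D₀ f d) : GoodP D₀ f d 1 := by
  have h1 : (1 : (FractionRing (MvPolynomial V K))) ∈
      Submodule.span (KK K D₀) ({1} : Set (FractionRing (MvPolynomial V K))) :=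
    Submodule.mem_span_singleton_self _
  have h2 : ∀ x ∈ KK K D₀, x ∈
      Submodule.span (KK K D₀) ({1} : Set (FractionRing (MvPolynomial V K))) := by
    intro x hx
    have := smul_mem' hx h1
    rwa [mul_one] at this
  exact ⟨Submodule.span (KK K D₀) {1}, inferInstance, finrank_span_singleton_le 1, h1, h2 f h.1,
    h2 _ (mul_mem h.1 h.1), fun i => h2 _ (h.2 i)⟩

theorem GoodP.inv (h : GoodP D₀ f d k) :
    GoodP D₀ f⁻¹ (fun i => -(f⁻¹ * f⁻¹ * d i)) k := by
  by_cases hf : f = 0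
  · subst hf
    obtain ⟨W, h1, h2, h3, h4, h5, h6⟩ := h
    refine ⟨W, h1, h2, h3, ?_, ?_, fun i => ?_⟩
    · rw [inv_zero]
      exact h4
    · rw [inv_zero]
      exact h5
    · show -((0 : FractionRing (MvPolynomial V K))⁻¹ * 0⁻¹ * d i) ∈ W
      rw [inv_zero, zero_mul, zero_mul, neg_zero]
      exact zero_mem _
  obtain ⟨W, h1, h2, h3, h4, h5, h6⟩ := h
  let μ : (FractionRing (MvPolynomial V K)) →ₗ[KK K D₀] (FractionRing (MvPolynomial V K)) :=
    LinearMap.mulLeft (KK K D₀) (f⁻¹ * f⁻¹)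
  have hμ : ∀ x, x ∈ W → f⁻¹ * f⁻¹ * x ∈ W.map μ := fun x hx => Submodule.mem_map_of_mem hx
  refine ⟨W.map μ, inferInstance, (Submodule.finrank_map_le μ W).trans h2, ?_, ?_, ?_, ?_⟩
  · have := hμ _ h5
    rwa [show f⁻¹ * f⁻¹ * (f * f) = 1 by field_simp] at this
  · have := hμ _ h4
    rwa [show f⁻¹ * f⁻¹ * f = f⁻¹ by field_simp] at this
  · have := hμ _ h3
    rwa [mul_one] at this
  · intro i
    exact neg_mem (hμ _ (h6 i))

theorem GoodP.addK (h : GoodP D₀ f d k) (hc : FreeP D₀ c e) :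
    GoodP D₀ (f + c) (fun i => d i + e i) k := by
  obtain ⟨W, h1, h2, h3, h4, h5, h6⟩ := h
  have hcW : ∀ x ∈ KK K D₀, x ∈ W := by
    intro x hx
    have := smul_mem' hx h3
    rwa [mul_one] at this
  refine ⟨W, h1, h2, h3, add_mem h4 (hcW c hc.1), ?_, fun i => add_mem (h6 i) (hcW _ (hc.2 i))⟩
  have : (f + c) * (f + c) = f * f + (c * f + (c * f + c * c)) := by ring
  rw [this]
  exact add_mem h5 (add_mem (smul_mem' hc.1 h4) (add_mem (smul_mem' hc.1 h4)
    (hcW _ (mul_mem hc.1 hc.1))))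

theorem GoodP.mulK (h : GoodP D₀ f d k) (hc : FreeP D₀ c e) :
    GoodP D₀ (f * c) (fun i => f * e i + c * d i) k := by
  obtain ⟨W, h1, h2, h3, h4, h5, h6⟩ := h
  refine ⟨W, h1, h2, h3, ?_, ?_, ?_⟩
  · rw [mul_comm]
    exact smul_mem' hc.1 h4
  · have : f * c * (f * c) = (c * c) * (f * f) := by ring
    rw [this]
    exact smul_mem' (mul_mem hc.1 hc.1) h5
  · intro i
    show f * e i + c * d i ∈ W
    rw [mul_comm f]
    exact add_mem (smul_mem' (hc.2 i) h4) (smul_mem' hc.1 (h6 i))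

theorem GoodP.add (h : GoodP D₀ f d k) (h' : GoodP D₀ g e l) :
    GoodP D₀ (f + g) (fun i => d i + e i) (k + l + 1) := by
  obtain ⟨W, h1, h2, h3, h4, h5, h6⟩ := h
  obtain ⟨W', h1', h2', h3', h4', h5', h6'⟩ := h'
  have l1 : W ≤ W ⊔ W' ⊔ Submodule.span (KK K D₀) {f * g} := le_sup_left.trans le_sup_left
  have l2 : W' ≤ W ⊔ W' ⊔ Submodule.span (KK K D₀) {f * g} := le_sup_right.trans le_sup_left
  have l3 : f * g ∈ W ⊔ W' ⊔ Submodule.span (KK K D₀) {f * g} :=
    (le_sup_right : _ ≤ W ⊔ W' ⊔ Submodule.span (KK K D₀) {f * g})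
      (Submodule.mem_span_singleton_self _)
  refine ⟨W ⊔ W' ⊔ Submodule.span (KK K D₀) {f * g}, inferInstance, ?_, l1 h3,
    add_mem (l1 h4) (l2 h4'), ?_, fun i => add_mem (l1 (h6 i)) (l2 (h6' i))⟩
  · refine (finrank_sup_le' _ _).trans ?_
    have e1 := finrank_sup_le' W W'
    have e2 := finrank_span_singleton_le (D₀ := D₀) (f * g)
    omega
  · have : (f + g) * (f + g) = f * f + (f * g + (f * g + g * g)) := by ring
    rw [this]
    exact add_mem (l1 h5) (add_mem l3 (add_mem l3 (l2 h5')))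

theorem GoodP.mul (h : GoodP D₀ f d k) (h' : GoodP D₀ g e l) :
    GoodP D₀ (f * g) (fun i => f * e i + g * d i) (k + l + 2) := by
  obtain ⟨W, h1, h2, h3, h4, h5, h6⟩ := h
  obtain ⟨W', h1', h2', h3', h4', h5', h6'⟩ := h'
  let μ : (FractionRing (MvPolynomial V K)) →ₗ[KK K D₀] (FractionRing (MvPolynomial V K)) :=
    LinearMap.mulLeft (KK K D₀) f
  let ν : (FractionRing (MvPolynomial V K)) →ₗ[KK K D₀] (FractionRing (MvPolynomial V K)) :=
    LinearMap.mulLeft (KK K D₀) g
  have hμ : ∀ x, x ∈ W' → f * x ∈ W'.map μ := fun x hx => Submodule.mem_map_of_mem hx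
  have hν : ∀ x, x ∈ W → g * x ∈ W.map ν := fun x hx => Submodule.mem_map_of_mem hx
  let U : Submodule (KK K D₀) (FractionRing (MvPolynomial V K)) := W'.map μ ⊔ W.map ν ⊔
    (Submodule.span (KK K D₀) {1} ⊔ Submodule.span (KK K D₀) {f * f * (g * g)})
  have l1 : W'.map μ ≤ U := le_sup_left.trans le_sup_left
  have l2 : W.map ν ≤ U := le_sup_right.trans le_sup_left
  have l3 : (1 : (FractionRing (MvPolynomial V K))) ∈ U :=
    (le_sup_left.trans le_sup_right : Submodule.span (KK K D₀) {1} ≤ U)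
    (Submodule.mem_span_singleton_self _)
  have l4 : f * f * (g * g) ∈ U :=
    (le_sup_right.trans le_sup_right : Submodule.span (KK K D₀) {f * f * (g * g)} ≤ U)
      (Submodule.mem_span_singleton_self _)
  refine ⟨U, inferInstance, ?_, l3, l1 (hμ g h4'), ?_,
    fun i => add_mem (l1 (hμ _ (h6' i))) (l2 (hν _ (h6 i)))⟩
  · refine (finrank_sup_le' _ _).trans ?_
    have e1 := finrank_sup_le' (W'.map μ) (W.map ν)
    have e2 := finrank_sup_le' (Submodule.span (KK K D₀) {(1 : (FractionRing (MvPolynomial V K)))})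
      (Submodule.span (KK K D₀) {f * f * (g * g)})
    have e3 := finrank_span_singleton_le (D₀ := D₀) (f * f * (g * g))
    have e4 := finrank_span_singleton_le (D₀ := D₀) (1 : (FractionRing (MvPolynomial V K)))
    have e5 := Submodule.finrank_map_le μ W'
    have e6 := Submodule.finrank_map_le ν W
    omega
  · have : f * g * (f * g) = f * f * (g * g) := by ring
    rw [this]
    exact l4

theorem FreeP.add (h : FreeP D₀ f d) (h' : FreeP D₀ g e) :
    FreeP D₀ (f + g) (fun i => d i + e i) :=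
  ⟨add_mem h.1 h'.1, fun i => add_mem (h.2 i) (h'.2 i)⟩

theorem FreeP.mul (h : FreeP D₀ f d) (h' : FreeP D₀ g e) :
    FreeP D₀ (f * g) (fun i => f * e i + g * d i) :=
  ⟨mul_mem h.1 h'.1, fun i => add_mem (mul_mem h.1 (h'.2 i)) (mul_mem h'.1 (h.2 i))⟩

theorem FreeP.inv (h : FreeP D₀ f d) : FreeP D₀ f⁻¹ (fun i => -(f⁻¹ * f⁻¹ * d i)) :=
  ⟨inv_mem h.1, fun i => neg_mem (mul_mem (mul_mem (inv_mem h.1) (inv_mem h.1)) (h.2 i))⟩

/-- three dimensions for a leaf -/
theorem goodP_leaf (y : FractionRing (MvPolynomial V K)) :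
    GoodP D₀ y (fun _ : ι => 0) 3 := by
  let U : Submodule (KK K D₀) (FractionRing (MvPolynomial V K)) :=
    Submodule.span (KK K D₀) {1} ⊔
      (Submodule.span (KK K D₀) {y} ⊔ Submodule.span (KK K D₀) {y * y})
  refine ⟨U, inferInstance, ?_, ?_, ?_, ?_, fun _ => zero_mem _⟩
  · refine (finrank_sup_le' _ _).trans ?_
    have e2 := finrank_sup_le' (D₀ := D₀) (Submodule.span (KK K D₀) {y})
      (Submodule.span (KK K D₀) {y * y})
    have e3 := finrank_span_singleton_le (D₀ := D₀) y
    have e4 := finrank_span_singleton_le (D₀ := D₀) (1 : (FractionRing (MvPolynomial V K)))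
    have e5 := finrank_span_singleton_le (D₀ := D₀) (y * y)
    omega
  · exact (le_sup_left : Submodule.span (KK K D₀) {1} ≤ U) (Submodule.mem_span_singleton_self _)
  · exact (le_sup_left.trans le_sup_right : Submodule.span (KK K D₀) {y} ≤ U)
      (Submodule.mem_span_singleton_self _)
  · exact (le_sup_right.trans le_sup_right : Submodule.span (KK K D₀) {y * y} ≤ U)
      (Submodule.mem_span_singleton_self _)

/-- The induction over the formula; the leaves of weight `0` do not depend on `D₀`, the leaves of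
weight `1` have derivatives `0`. -/
theorem goodP_formula {V' : Type} (x : V' → FractionRing (MvPolynomial V K))
    (dx : V' → ι → FractionRing (MvPolynomial V K)) (w : V' → ℕ)
    (h0 : ∀ v, w v = 0 → FreeP D₀ (x v) (dx v)) (h1 : ∀ v, w v ≠ 0 → w v = 1 ∧ dx v = fun _ => 0)
    (φ : Formula K V') :
    (weigh w φ = 0 → FreeP D₀ (ev x φ) (dd x dx φ)) ∧
      (1 ≤ weigh w φ → GoodP D₀ (ev x φ) (dd x dx φ) (5 * weigh w φ - 2)) := by
  have hadd : ∀ (f g : (FractionRing (MvPolynomial V K)))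
      (d e : ι → FractionRing (MvPolynomial V K)) (a b : ℕ),
      ((a = 0 → FreeP D₀ f d) ∧ (1 ≤ a → GoodP D₀ f d (5 * a - 2))) →
      ((b = 0 → FreeP D₀ g e) ∧ (1 ≤ b → GoodP D₀ g e (5 * b - 2))) →
      ((a + b = 0 → FreeP D₀ (f + g) (fun i => d i + e i)) ∧
        (1 ≤ a + b → GoodP D₀ (f + g) (fun i => d i + e i) (5 * (a + b) - 2))) := by
    rintro f g d e a b ⟨ha0, ha1⟩ ⟨hb0, hb1⟩
    refine ⟨fun h => (ha0 (by omega)).add (hb0 (by omega)), fun h => ?_⟩
    rcases Nat.eq_zero_or_pos a with h0 | h0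
    · subst h0
      have := (hb1 (by omega)).addK (ha0 rfl)
      rw [zero_add, add_comm f g]
      convert this using 2
      exact add_comm _ _
    · rcases Nat.eq_zero_or_pos b with h1 | h1
      · subst h1
        exact (ha1 h0).addK (hb0 rfl)
      · exact ((ha1 h0).add (hb1 h1)).mono (by omega)
  have hmul : ∀ (f g : (FractionRing (MvPolynomial V K)))
      (d e : ι → FractionRing (MvPolynomial V K)) (a b : ℕ),
      ((a = 0 → FreeP D₀ f d) ∧ (1 ≤ a → GoodP D₀ f d (5 * a - 2))) →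
      ((b = 0 → FreeP D₀ g e) ∧ (1 ≤ b → GoodP D₀ g e (5 * b - 2))) →
      ((a + b = 0 → FreeP D₀ (f * g) (fun i => f * e i + g * d i)) ∧
        (1 ≤ a + b → GoodP D₀ (f * g) (fun i => f * e i + g * d i) (5 * (a + b) - 2))) := by
    rintro f g d e a b ⟨ha0, ha1⟩ ⟨hb0, hb1⟩
    refine ⟨fun h => (ha0 (by omega)).mul (hb0 (by omega)), fun h => ?_⟩
    rcases Nat.eq_zero_or_pos a with h0 | h0
    · subst h0
      have := (hb1 (by omega)).mulK (ha0 rfl)
      rw [zero_add, mul_comm f g]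
      convert this using 2
      exact add_comm _ _
    · rcases Nat.eq_zero_or_pos b with h1 | h1
      · subst h1
        exact (ha1 h0).mulK (hb0 rfl)
      · exact ((ha1 h0).mul (hb1 h1)).mono (by omega)
  induction φ with
  | const c =>
    refine ⟨fun _ => ⟨?_, fun _ => zero_mem _⟩, fun h => ?_⟩
    · show algebraMap K (FractionRing (MvPolynomial V K)) c ∈ KK K D₀
      have h2 : algebraMap K (FractionRing (MvPolynomial V K)) c =
        algebraMap (MvPolynomial V K) (FractionRing (MvPolynomial V K)) (C c) := rfl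
      rw [h2]
      refine algebraMap_mem_KK ?_
      rw [← algebraMap_eq]
      exact (R0 K D₀).algebraMap_mem c
    · simp [weigh] at h
  | var v =>
    simp only [weigh, ev, dd]
    refine ⟨h0 v, fun h => ?_⟩
    obtain ⟨e1, e2⟩ := h1 v (by omega)
    rw [e1, e2]
    exact goodP_leaf _
  | add a b iha ihb => exact hadd _ _ _ _ _ _ iha ihb
  | mul a b iha ihb => exact hmul _ _ _ _ _ _ iha ihb
  | div a b iha ihb =>
    simp only [weigh, ev, dd]
    rw [div_eq_mul_inv]
    exact hmul _ _ _ _ _ _ iha ⟨fun h => (ihb.1 h).inv, fun h => (ihb.2 h).inv⟩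

end GoodP

end Pool.FV
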