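import Pool.Agent.Helper29.FV.Re

/-!
# FV: programs with complex constants are killed by derivations with real coefficients
-/

set_option autoImplicit false
set_option linter.unusedSectionVars false

namespace Pool.FV

open Finset MvPolynomial Pool.Agent.Helper71.Fml Pool.Agent.Helper97.Form

section Killer

variable {V V' ι : Type} [DecidableEq V] [DecidableEq V']
  (y : V → FC V') (p : ι → V')

theorem ders_lowR {D₀ : Finset V'} {B : Finset V}
    (hfree : ∀ v ∉ B, FreeP D₀ (y v) fun i => D (p i) (y v))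
    (hblk : ∀ v ∈ B, ∀ i, D (p i) (y v) = 0)
    (q : List (Formula ℂ (V ⊕ MvPolynomial ℕ ℂ))) :
    List.Forall₂ (Low (KR D₀)) (ders y p q)
      (q.map fun φ => 2 * (5 * (inBlock B φ + uses φ) + 1)) := by
  induction q with
  | nil => exact List.Forall₂.nil
  | cons φ q ih =>
    exact List.Forall₂.cons
      ((space_step y p hfree hblk φ q).real (I := II V') fun z hz => split_KK hz) ih

theorem sum_boundsR (B : Finset V) (q : List (Formula ℂ (V ⊕ MvPolynomial ℕ ℂ))) :
    (q.map fun φ => 2 * (5 * (inBlock B φ + uses φ) + 1)).sum ≤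
      10 * (blkSize B q + reuse q) := by
  induction q with
  | nil => simp
  | cons φ q ih =>
    have h3 : blkSize B (φ :: q) = inBlock B φ + blkSize B q := by
      simp [blkSize]
    have h4 : reuse (φ :: q) = reuse q + uses φ + 1 := by
      simp only [reuse, List.length_cons, List.map_cons, List.sum_cons]
      omega
    rw [List.map_cons, List.sum_cons, h3, h4]
    omega

variable [Fintype ι]

/-- If there are more positions than conditions, then a combination with real polynomial
coefficients of the derivatives in these positions kills all results. -/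
theorem exists_killerR {D₀ : Finset V'} {B : Finset V}
    (hfree : ∀ v ∉ B, FreeP D₀ (y v) fun i => D (p i) (y v))
    (hblk : ∀ v ∈ B, ∀ i, D (p i) (y v) = 0)
    (q : List (Formula ℂ (V ⊕ MvPolynomial ℕ ℂ)))
    (hlt : 10 * (blkSize B q + reuse q) < Fintype.card ι) :
    ∃ c : ι → MvPolynomial V' ℝ, c ≠ 0 ∧ (∀ i, c i ∈ R0 ℝ D₀) ∧
      ∀ f ∈ results y q, dF p (fun i => rc V' (c i)) f = 0 := by
  classical
  obtain ⟨c, hc0, hcL⟩ := exists_sol (ders y p q) _ (ders_lowR y p hfree hblk q)
    ((sum_boundsR B q).trans_lt hlt)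
  choose P hP Q hQ hQ0 hPQ using fun i => mem_KR.1 (c i).2
  have hQ1 : ∀ i, rc V' (Q i) ≠ 0 := fun i => rc_ne (hQ0 i)
  have hval : ∀ i, rc V' (P i * ∏ k ∈ univ.erase i, Q k) =
      (∏ k, rc V' (Q k)) * (c i : FC V') := by
    intro i
    rw [map_mul, map_prod, hPQ i, ← Finset.mul_prod_erase Finset.univ _ (Finset.mem_univ i)]
    have := hQ1 i
    field_simp
  refine ⟨fun i => P i * ∏ k ∈ univ.erase i, Q k, ?_, fun i => mul_mem (hP i)
    (prod_mem fun k _ => hQ k), ?_⟩
  · intro h
    apply hc0
    funext i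
    have h1 := congrFun h i
    have h2 : P i = 0 := (mul_eq_zero.1 h1).resolve_right (Finset.prod_ne_zero_iff.2 fun k _ => hQ0 k)
    apply Subtype.ext
    rw [hPQ i, h2, map_zero, zero_div]
    rfl
  · refine killed y p q _ fun d hd => ?_
    have h3 : ∑ i, (c i : FC V') * d i = 0 := hcL d hd
    calc ∑ i, rc V' (P i * ∏ k ∈ univ.erase i, Q k) * d i
        = (∏ k, rc V' (Q k)) * ∑ i, (c i : FC V') * d i := by
          rw [mul_sum]
          refine sum_congr rfl fun i _ => ?_
          rw [hval, mul_assoc]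
      _ = 0 := by rw [h3, mul_zero]

end Killer

/-- the complex polynomials of real ones -/
noncomputable def tc {V : Type} (a : V → MvPolynomial V ℝ) (w : V) : MvPolynomial V ℂ :=
  toC V (a w)

theorem tc_cf {V ι : Type} [DecidableEq V] [Fintype ι] (p : ι → V) (c : ι → MvPolynomial V ℝ) :
    tc (cf p c) = cf p fun i => toC V (c i) := by
  funext w
  unfold tc cf
  rw [map_sum]
  refine sum_congr rfl fun i _ => ?_
  split_ifs
  · rfl
  · exact map_zero _

/-- The combinatorial part: if a program is small then it has few leaves in some block. -/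
theorem exists_block (n s : ℕ) (hs1 : 1 ≤ s)
    (q : List (Formula ℂ ((Fin n × Fin n) ⊕ MvPolynomial ℕ ℂ)))
    (hR : 40 * reuse q ≤ 4 ^ s) (hsize : 20 * size q < n * (n / (2 * s)) * 4 ^ s) :
    ∃ r c : Fin (2 * s) → Fin n, Function.Injective r ∧ Function.Injective c ∧
      10 * (blkSize (blk r c) q + reuse q) < Fintype.card {i : RC s // UU i ≠ ∅} := by
  classical
  by_contra hcon0
  have hcon : ∀ r c : Fin (2 * s) → Fin n, Function.Injective r → Function.Injective c →
      ¬ 10 * (blkSize (blk r c) q + reuse q) < Fintype.card {i : RC s // UU i ≠ ∅} :=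
    fun r c hr hc h => hcon0 ⟨r, c, hr, hc, h⟩
  have h4 : 4 ≤ 4 ^ s := by
    calc 4 = 4 ^ 1 := by norm_num
      _ ≤ 4 ^ s := Nat.pow_le_pow_right (by norm_num) hs1
  have key : ∀ r c : Fin (2 * s) → Fin n, Function.Injective r → Function.Injective c →
      (4 ^ s + 19) / 20 ≤ (joinP q).leavesIn (blk r c) := by
    intro r c hr hc
    have hcard := card_pos s
    have h1 := hcon r c hr hc
    rw [leavesIn_joinP]
    omega
  have hb := blocks n (2 * s) (by omega) (joinP q) _ key
  rw [size_joinP] at hb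
  have h6 : 4 ^ s ≤ 20 * ((4 ^ s + 19) / 20) := by omega
  have h7 : n * (n / (2 * s)) * 4 ^ s ≤ n * (n / (2 * s)) * (20 * ((4 ^ s + 19) / 20)) :=
    Nat.mul_le_mul_left _ h6
  have h8 : n * (n / (2 * s)) * (20 * ((4 ^ s + 19) / 20)) =
    20 * (n * (n / (2 * s)) * ((4 ^ s + 19) / 20)) := by ring
  omega

/-- A small program with complex constants is killed by a derivation with real coefficients which
is not tangent to the hypersurface `perm = 0`. -/
theorem exists_derR (n s : ℕ) (hs1 : 1 ≤ s) (hs : 12 * 2 ^ s ≤ n)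
    (q : List (Formula ℂ ((Fin n × Fin n) ⊕ MvPolynomial ℕ ℂ)))
    (hR : 40 * reuse q ≤ 4 ^ s) (hsize : 20 * size q < n * (n / (2 * s)) * 4 ^ s) :
    ∃ a : Fin n × Fin n → MvPolynomial (Fin n × Fin n) ℝ,
      (∀ f ∈ results (gp ℂ (Fin n × Fin n)) q, DL (tc a) f = 0) ∧
      ¬ permPoly ℂ n ∣ dl (tc a) (permPoly ℂ n) := by
  classical
  obtain ⟨r, c, hr, hc, hlt⟩ := exists_block n s hs1 q hR hsize
  obtain ⟨p, hp, hli⟩ := gadKK (K := ℂ) n s hs two_ne_zero r c hr hc
  obtain ⟨cc, hc0, hcR, hker⟩ := exists_killerR (gp ℂ (Fin n × Fin n)) p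
    (D₀ := blk r c) (B := blk r c) (fun v hv => ⟨algebraMap_mem_KK (X_mem_supported.2 hv),
      fun i => D_mem_KK _ (algebraMap_mem_KK (X_mem_supported.2 hv))⟩) (fun v hv i => by
      unfold gp
      rw [D_algebraMap, pderiv_X_of_ne, map_zero]
      rintro rfl
      exact hp i hv) q hlt
  refine ⟨cf p cc, fun f hf => by rw [tc_cf, DL_cf]; exact hker f hf, fun h5 => ?_⟩
  rw [tc_cf, dl_cf] at h5
  exact hc0 (funext fun i => toC_eq_zero (not_dvd (fun v _ => degreeOf_perm v) p hli _
      (fun i => toC_mem (hcR i)) h5 i))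

/-- the polynomials which the permanent does not divide -/
theorem mulCls_perm {n : ℕ} (hn : 1 ≤ n) :
    MulCls fun G : MvPolynomial (Fin n × Fin n) ℂ => ¬ permPoly ℂ n ∣ G := by
  have hP : Prime (permPoly ℂ n) := perm_prime hn
  exact ⟨fun h => hP.not_isUnit (isUnit_of_dvd_one h),
    fun A B hA hB h => (hP.dvd_or_dvd h).elim hA hB, fun A hA h => hA (by rw [h]; exact dvd_zero _)⟩

end Pool.FV
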