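import Pool.Agent.Helper29.FV.PDer
import Pool.Agent.Helper29.FV.Flow

/-!
# FV: real and imaginary parts of the coefficients; derivations with real coefficients
-/

set_option autoImplicit false
set_option linter.unusedSectionVars false

namespace Pool.FV

open Finset MvPolynomial Pool.Agent.Helper71.Fml Pool.Agent.Helper97.Form

section Poly

variable {V : Type}

/-- polynomials with real coefficients as polynomials with complex coefficients -/
noncomputable abbrev toC (V : Type) : MvPolynomial V ℝ →+* MvPolynomial V ℂ :=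
  map (algebraMap ℝ ℂ)

theorem toC_inj {V : Type} {A B : MvPolynomial V ℝ} (h : toC V A = toC V B) : A = B :=
  map_injective _ (algebraMap ℝ ℂ).injective h

theorem toC_eq_zero {V : Type} {A : MvPolynomial V ℝ} (h : toC V A = 0) : A = 0 :=
  toC_inj (by rw [h, map_zero])

/-- imaginary parts of the coefficients -/
noncomputable def imPart (Q : MvPolynomial V ℂ) : MvPolynomial V ℝ :=
  ∑ m ∈ Q.support, monomial m (coeff m Q).im

theorem coeff_imPart (Q : MvPolynomial V ℂ) (m : V →₀ ℕ) :
    coeff m (imPart Q) = (coeff m Q).im := by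
  classical
  unfold imPart
  rw [coeff_sum]
  simp only [coeff_monomial]
  rw [Finset.sum_ite_eq']
  split_ifs with h
  · rfl
  · rw [notMem_support_iff.1 h, Complex.zero_im]

theorem re_add_im (Q : MvPolynomial V ℂ) :
    toC V (rePart Q) + C Complex.I * toC V (imPart Q) = Q := by
  ext m
  rw [coeff_add, coeff_C_mul, coeff_map, coeff_map, coeff_rePart, coeff_imPart]
  exact (mul_comm Complex.I _ ▸ Complex.re_add_im _ : _)

/-- complex conjugation of the coefficients -/
noncomputable abbrev cj (V : Type) : MvPolynomial V ℂ →+* MvPolynomial V ℂ :=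
  map (starRingEnd ℂ)

theorem cj_cj (Q : MvPolynomial V ℂ) : cj V (cj V Q) = Q := by
  ext m
  rw [coeff_map, coeff_map]
  exact Complex.conj_conj _

theorem cj_toC (Q : MvPolynomial V ℝ) : cj V (toC V Q) = toC V Q := by
  ext m
  rw [coeff_map, coeff_map]
  exact Complex.conj_ofReal _

theorem cj_eq_zero {Q : MvPolynomial V ℂ} (h : cj V Q = 0) : Q = 0 := by
  rw [← cj_cj Q, h, map_zero]

theorem cj_eq (Q : MvPolynomial V ℂ) :
    cj V Q = toC V (rePart Q) - C Complex.I * toC V (imPart Q) := by
  conv_lhs => rw [← re_add_im Q]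
  rw [map_add, map_mul, cj_toC, cj_toC, map_C]
  have : (starRingEnd ℂ) Complex.I = -Complex.I := Complex.conj_I
  rw [this, C_neg]
  ring

theorem mul_cj (Q : MvPolynomial V ℂ) :
    Q * cj V Q = toC V (rePart Q * rePart Q + imPart Q * imPart Q) := by
  have h2 : (C Complex.I : MvPolynomial V ℂ) * C Complex.I = -1 := by
    rw [← C_mul, Complex.I_mul_I, C_neg, C_1]
  calc Q * cj V Q = (toC V (rePart Q) + C Complex.I * toC V (imPart Q)) *
        (toC V (rePart Q) - C Complex.I * toC V (imPart Q)) := by rw [re_add_im, ← cj_eq]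
    _ = toC V (rePart Q) * toC V (rePart Q) -
        (C Complex.I * C Complex.I) * (toC V (imPart Q) * toC V (imPart Q)) := by ring
    _ = _ := by
      rw [h2, map_add, map_mul, map_mul]
      ring

theorem degreeOf_rePart_le (v : V) (Q : MvPolynomial V ℂ) :
    degreeOf v (rePart Q) ≤ degreeOf v Q := by
  rw [degreeOf_le_iff]
  intro m hm
  apply monomial_le_degreeOf
  rw [mem_support_iff] at hm ⊢
  intro h
  rw [coeff_rePart, h, Complex.zero_re] at hm
  exact hm rfl

theorem degreeOf_imPart_le (v : V) (Q : MvPolynomial V ℂ) :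
    degreeOf v (imPart Q) ≤ degreeOf v Q := by
  rw [degreeOf_le_iff]
  intro m hm
  apply monomial_le_degreeOf
  rw [mem_support_iff] at hm ⊢
  intro h
  rw [coeff_imPart, h, Complex.zero_im] at hm
  exact hm rfl

theorem rePart_mem [DecidableEq V] {D : Finset V} {Q : MvPolynomial V ℂ} (h : Q ∈ R0 ℂ D) :
    rePart Q ∈ R0 ℝ D := by
  rw [mem_R0_iff] at h ⊢
  intro v hv
  have := degreeOf_rePart_le v Q
  rw [h v hv] at this
  omega

theorem imPart_mem [DecidableEq V] {D : Finset V} {Q : MvPolynomial V ℂ} (h : Q ∈ R0 ℂ D) :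
    imPart Q ∈ R0 ℝ D := by
  rw [mem_R0_iff] at h ⊢
  intro v hv
  have := degreeOf_imPart_le v Q
  rw [h v hv] at this
  omega

theorem degreeOf_toC_le (v : V) (Q : MvPolynomial V ℝ) : degreeOf v (toC V Q) ≤ degreeOf v Q := by
  rw [degreeOf_le_iff]
  intro m hm
  apply monomial_le_degreeOf
  rw [mem_support_iff] at hm ⊢
  intro h
  rw [coeff_map, h, map_zero] at hm
  exact hm rfl

theorem toC_mem [DecidableEq V] {D : Finset V} {Q : MvPolynomial V ℝ} (h : Q ∈ R0 ℝ D) : toC V Q ∈ R0 ℂ D := by
  rw [mem_R0_iff] at h ⊢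
  intro v hv
  have := degreeOf_toC_le v Q
  rw [h v hv] at this
  omega

end Poly

section Field

variable {V : Type}

/-- the complex rational functions -/
abbrev FC (V : Type) : Type := FractionRing (MvPolynomial V ℂ)

/-- real polynomials as rational functions -/
noncomputable def rc (V : Type) : MvPolynomial V ℝ →+* FC V :=
  (algebraMap (MvPolynomial V ℂ) (FC V)).comp (toC V)

theorem rc_inj {A B : MvPolynomial V ℝ} (h : rc V A = rc V B) : A = B :=
  toC_inj (IsFractionRing.injective (MvPolynomial V ℂ) (FC V) h)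

theorem rc_ne {A : MvPolynomial V ℝ} (h : A ≠ 0) : rc V A ≠ 0 := fun h' =>
  h (rc_inj (by rw [h', map_zero]))

/-- the rational functions with real coefficients and without variables of `D` -/
noncomputable def KR (D : Finset V) : Subfield (FC V) where
  carrier := {x | ∃ p ∈ R0 ℝ D, ∃ q ∈ R0 ℝ D, q ≠ 0 ∧ x = rc V p / rc V q}
  mul_mem' := by
    rintro _ _ ⟨p, hp, q, hq, hq0, rfl⟩ ⟨p', hp', q', hq', hq0', rfl⟩
    exact ⟨p * p', mul_mem hp hp', q * q', mul_mem hq hq', mul_ne_zero hq0 hq0', by
      rw [map_mul, map_mul, div_mul_div_comm]⟩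
  one_mem' := ⟨1, one_mem _, 1, one_mem _, one_ne_zero, by simp⟩
  add_mem' := by
    rintro _ _ ⟨p, hp, q, hq, hq0, rfl⟩ ⟨p', hp', q', hq', hq0', rfl⟩
    refine ⟨p * q' + q * p', add_mem (mul_mem hp hq') (mul_mem hq hp'), q * q', mul_mem hq hq',
      mul_ne_zero hq0 hq0', ?_⟩
    rw [map_mul, map_add, map_mul, map_mul, div_add_div _ _ (rc_ne hq0) (rc_ne hq0')]
  zero_mem' := ⟨0, zero_mem _, 1, one_mem _, one_ne_zero, by simp⟩
  neg_mem' := by
    rintro _ ⟨p, hp, q, hq, hq0, rfl⟩
    exact ⟨-p, neg_mem hp, q, hq, hq0, by rw [map_neg]; exact (neg_div _ _).symm⟩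
  inv_mem' := by
    rintro _ ⟨p, hp, q, hq, hq0, rfl⟩
    by_cases h : p = 0
    · subst h
      exact ⟨0, zero_mem _, 1, one_mem _, one_ne_zero, by simp⟩
    · exact ⟨q, hq, p, hp, h, by rw [inv_div]⟩

theorem mem_KR {D : Finset V} {x : FC V} : x ∈ KR D ↔
    ∃ p ∈ R0 ℝ D, ∃ q ∈ R0 ℝ D, q ≠ 0 ∧ x = rc V p / rc V q := Iff.rfl

/-- the imaginary unit -/
noncomputable def II (V : Type) : FC V := algebraMap (MvPolynomial V ℂ) (FC V) (C Complex.I)

/-- real and imaginary part of a rational function -/
theorem split_KK [DecidableEq V] {D : Finset V} {z : FC V} (hz : z ∈ KK ℂ D) :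
    ∃ r ∈ KR D, ∃ s ∈ KR D, z = r + II V * s := by
  obtain ⟨p, hp, q, hq, hq0, rfl⟩ := mem_KK.1 hz
  have hcq : cj V q ≠ 0 := fun h => hq0 (cj_eq_zero h)
  have hN : rePart q * rePart q + imPart q * imPart q ≠ 0 := by
    intro h
    have h1 := mul_cj q
    rw [h, map_zero] at h1
    exact (mul_ne_zero hq0 hcq) h1
  have hre := rePart_mem hp
  have him := imPart_mem hp
  have hqre := rePart_mem hq
  have hqim := imPart_mem hq
  have hNm : rePart q * rePart q + imPart q * imPart q ∈ R0 ℝ D :=
    add_mem (mul_mem hqre hqre) (mul_mem hqim hqim)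
  refine ⟨rc V (rePart p * rePart q + imPart p * imPart q) /
      rc V (rePart q * rePart q + imPart q * imPart q),
    ⟨_, add_mem (mul_mem hre hqre) (mul_mem him hqim), _, hNm, hN, rfl⟩,
    rc V (imPart p * rePart q - rePart p * imPart q) /
      rc V (rePart q * rePart q + imPart q * imPart q),
    ⟨_, sub_mem (mul_mem him hqre) (mul_mem hre hqim), _, hNm, hN, rfl⟩, ?_⟩
  have hq1 : algebraMap (MvPolynomial V ℂ) (FC V) q ≠ 0 := fun h => hq0 (map_inj
    (by rw [h, map_zero]))
  have hN1 : rc V (rePart q * rePart q + imPart q * imPart q) ≠ 0 := rc_ne hN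
  rw [← mul_div_assoc, ← add_div, div_eq_div_iff hq1 hN1]
  unfold rc II
  simp only [RingHom.comp_apply]
  rw [← map_mul, ← map_mul, ← map_add, ← map_mul]
  congr 1
  rw [← mul_cj q]
  have h3 : p * cj V q = toC V (rePart p * rePart q + imPart p * imPart q) +
      C Complex.I * toC V (imPart p * rePart q - rePart p * imPart q) := by
    have h2 : (C Complex.I : MvPolynomial V ℂ) * C Complex.I = -1 := by
      rw [← C_mul, Complex.I_mul_I, C_neg, C_1]
    calc p * cj V q = (toC V (rePart p) + C Complex.I * toC V (imPart p)) *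
          (toC V (rePart q) - C Complex.I * toC V (imPart q)) := by rw [re_add_im, ← cj_eq]
      _ = toC V (rePart p) * toC V (rePart q) -
          (C Complex.I * C Complex.I) * (toC V (imPart p) * toC V (imPart q)) +
          C Complex.I * (toC V (imPart p) * toC V (rePart q) -
            toC V (rePart p) * toC V (imPart q)) := by ring
      _ = _ := by
        rw [h2, map_add, map_sub, map_mul, map_mul, map_mul, map_mul]
        ring
  rw [← h3]
  ring

end Field

section LowReal

/-- a space over a field is a space of twice the dimension over a real form -/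
theorem Low.real {F : Type} [Field F] {k k' : Subfield F} {I : F}
    (h : ∀ z ∈ k, ∃ r ∈ k', ∃ s ∈ k', z = r + I * s) {ι : Type} {d : ι → F} {b : ℕ}
    (hd : Low k d b) : Low k' d (2 * b) := by
  classical
  obtain ⟨W, h1, h2, h3⟩ := hd
  let B := Module.finBasis k W
  let W' : Submodule k' F := Submodule.span k' (Set.range fun j => (B j : F)) ⊔
    Submodule.span k' (Set.range fun j => I * (B j : F))
  have hl1 : ∀ j, (B j : F) ∈ W' := fun j =>
    (le_sup_left : _ ≤ W') (Submodule.subset_span ⟨j, rfl⟩)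
  have hl2 : ∀ j, I * (B j : F) ∈ W' := fun j =>
    (le_sup_right : _ ≤ W') (Submodule.subset_span ⟨j, rfl⟩)
  have i1 : Module.Finite k' (Submodule.span k' (Set.range fun j => (B j : F))) :=
    Module.Finite.span_of_finite k' (Set.finite_range _)
  have i2 : Module.Finite k' (Submodule.span k' (Set.range fun j => I * (B j : F))) :=
    Module.Finite.span_of_finite k' (Set.finite_range _)
  refine ⟨W', inferInstance, ?_, fun i => ?_⟩
  · refine (Submodule.finrank_add_le_finrank_add_finrank _ _).trans ?_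
    have e1 : (Set.range fun j => (B j : F)).finrank k' ≤ _ := finrank_range_le_card _
    have e2 : (Set.range fun j => I * (B j : F)).finrank k' ≤ _ := finrank_range_le_card _
    rw [Fintype.card_fin] at e1 e2
    unfold Set.finrank at e1 e2
    omega
  · have h4 : (⟨d i, h3 i⟩ : W) = ∑ j, B.repr ⟨d i, h3 i⟩ j • B j := (B.sum_repr _).symm
    have h5 : d i = ∑ j, ((B.repr ⟨d i, h3 i⟩ j : k) : F) * (B j : F) := by
      have h6 := congrArg Subtype.val h4
      rw [AddSubmonoidClass.coe_finsetSum] at h6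
      exact h6
    rw [h5]
    refine sum_mem fun j _ => ?_
    obtain ⟨r, hr, s, hs, e⟩ := h _ (B.repr ⟨d i, h3 i⟩ j).2
    rw [e, add_mul, mul_comm I s, mul_assoc]
    exact add_mem (W'.smul_mem (⟨r, hr⟩ : k') (hl1 j)) (W'.smul_mem (⟨s, hs⟩ : k') (hl2 j))

end LowReal

end Pool.FV
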