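import Pool.Agent.Helper29.FV.Blk

/-!
# FV: values of formulas at points; formulas of small size are neither zero nor infinite on
`perm = 0`
-/

set_option autoImplicit false
set_option linter.unusedSectionVars false

namespace Pool.FV

open Finset MvPolynomial Pool.Agent.Helper71.Fml Pool.Agent.Helper97.Form

/-- The value of a formula at a point (a division by zero gives zero). -/
noncomputable def value {K V : Type} [Field K] (x : V → K) : Formula K V → K
  | Formula.const c => c
  | Formula.var v => x v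
  | Formula.add a b => value x a + value x b
  | Formula.mul a b => value x a * value x b
  | Formula.div a b => value x a / value x b

section

variable {K V : Type} [Field K] [DecidableEq V]

theorem map_inj {A B : MvPolynomial V K}
    (h : algebraMap (MvPolynomial V K) (FractionRing (MvPolynomial V K)) A =
      algebraMap (MvPolynomial V K) (FractionRing (MvPolynomial V K)) B) : A = B :=
  IsFractionRing.injective (MvPolynomial V K) (FractionRing (MvPolynomial V K)) h

/-- `f` is a fraction `A / B` and neither `A` (unless `0`) nor `B` is a multiple of `P`. -/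
def Frac (P : MvPolynomial V K) (f : FractionRing (MvPolynomial V K)) (A B : MvPolynomial V K) :
    Prop :=
  ¬ P ∣ B ∧ (A = 0 ∨ ¬ P ∣ A) ∧
    f * algebraMap (MvPolynomial V K) (FractionRing (MvPolynomial V K)) B =
      algebraMap (MvPolynomial V K) (FractionRing (MvPolynomial V K)) A

theorem rep {P : MvPolynomial V K} (hP : Prime P) (M : ℕ)
    (H : ∀ θ : Formula K V, θ.size ≤ M → ∃ A B, Frac P θ.eval A B) (φ : Formula K V) :
    φ.size ≤ M → ∃ G A B : MvPolynomial V K, ¬ P ∣ G ∧ Frac P φ.eval A B ∧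
      ∀ x, eval x G ≠ 0 → eval x B ≠ 0 ∧ (A = 0 ∨ eval x A ≠ 0) ∧
        value x φ * eval x B = eval x A := by
  classical
  -- a factor which controls `A` and `B`
  have h1 : ∀ A B : MvPolynomial V K, ∀ f, Frac P f A B → ∃ G₀ : MvPolynomial V K, ¬ P ∣ G₀ ∧
      ∀ x, eval x G₀ ≠ 0 → eval x B ≠ 0 ∧ (A = 0 ∨ eval x A ≠ 0) := by
    rintro A B f ⟨hB, hA, -⟩
    rcases hA with hA | hA
    · exact ⟨B, hB, fun x hx => ⟨hx, Or.inl hA⟩⟩
    · refine ⟨A * B, fun h => ?_, fun x hx => ?_⟩
      · rcases hP.dvd_or_dvd h with h | h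
        · exact hA h
        · exact hB h
      · rw [map_mul] at hx
        exact ⟨right_ne_zero_of_mul hx, Or.inr (left_ne_zero_of_mul hx)⟩
  have hne : ∀ {B : MvPolynomial V K}, ¬ P ∣ B →
      algebraMap (MvPolynomial V K) (FractionRing (MvPolynomial V K)) B ≠ 0 := by
    intro B hB h
    apply hB
    have : B = 0 := map_inj (by rw [h, map_zero])
    rw [this]
    exact dvd_zero _
  induction φ with
  | const c =>
    intro hM
    obtain ⟨A, B, hF⟩ := H _ hM
    obtain ⟨G₀, hG, hG2⟩ := h1 A B _ hF
    refine ⟨G₀, A, B, hG, hF, fun x hx => ⟨(hG2 x hx).1, (hG2 x hx).2, ?_⟩⟩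
    have h2 : C c * B = A := by
      apply map_inj
      rw [map_mul]
      exact hF.2.2
    rw [← h2, map_mul, eval_C]
    rfl
  | var v =>
    intro hM
    obtain ⟨A, B, hF⟩ := H _ hM
    obtain ⟨G₀, hG, hG2⟩ := h1 A B _ hF
    refine ⟨G₀, A, B, hG, hF, fun x hx => ⟨(hG2 x hx).1, (hG2 x hx).2, ?_⟩⟩
    have h2 : X v * B = A := by
      apply map_inj
      rw [map_mul]
      exact hF.2.2
    rw [← h2, map_mul, eval_X]
    rfl
  | add a b iha ihb =>
    intro hM
    have hM' : a.size + b.size ≤ M := hM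
    obtain ⟨Ga, Aa, Ba, hGa, hFa, hxa⟩ := iha (by omega)
    obtain ⟨Gb, Ab, Bb, hGb, hFb, hxb⟩ := ihb (by omega)
    obtain ⟨A, B, hF⟩ := H _ hM
    obtain ⟨G₀, hG, hG2⟩ := h1 A B _ hF
    refine ⟨G₀ * (Ga * Gb), A, B, fun h => ?_, hF, fun x hx => ?_⟩
    · rcases hP.dvd_or_dvd h with h | h
      · exact hG h
      · rcases hP.dvd_or_dvd h with h | h
        · exact hGa h
        · exact hGb h
    rw [map_mul, map_mul] at hx
    have hx0 := left_ne_zero_of_mul hx
    obtain ⟨ha1, ha2, ha3⟩ := hxa x (left_ne_zero_of_mul (right_ne_zero_of_mul hx))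
    obtain ⟨hb1, hb2, hb3⟩ := hxb x (right_ne_zero_of_mul (right_ne_zero_of_mul hx))
    refine ⟨(hG2 x hx0).1, (hG2 x hx0).2, ?_⟩
    have h2 : (Aa * Bb + Ab * Ba) * B = A * (Ba * Bb) := by
      apply map_inj
      have e1 := hF.2.2
      have e2 := hFa.2.2
      have e3 := hFb.2.2
      simp only [Formula.eval] at e1
      simp only [map_mul, map_add, ← e1, ← e2, ← e3]
      ring
    have h3 := congrArg (eval x) h2
    simp only [map_mul, map_add, ← ha3, ← hb3] at h3
    have h4 : (value x a + value x b) * eval x B * (eval x Ba * eval x Bb) =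
        eval x A * (eval x Ba * eval x Bb) := by
      rw [← h3]
      ring
    exact mul_right_cancel₀ (mul_ne_zero ha1 hb1) h4
  | mul a b iha ihb =>
    intro hM
    have hM' : a.size + b.size ≤ M := hM
    obtain ⟨Ga, Aa, Ba, hGa, hFa, hxa⟩ := iha (by omega)
    obtain ⟨Gb, Ab, Bb, hGb, hFb, hxb⟩ := ihb (by omega)
    obtain ⟨A, B, hF⟩ := H _ hM
    obtain ⟨G₀, hG, hG2⟩ := h1 A B _ hF
    refine ⟨G₀ * (Ga * Gb), A, B, fun h => ?_, hF, fun x hx => ?_⟩
    · rcases hP.dvd_or_dvd h with h | h
      · exact hG h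
      · rcases hP.dvd_or_dvd h with h | h
        · exact hGa h
        · exact hGb h
    rw [map_mul, map_mul] at hx
    have hx0 := left_ne_zero_of_mul hx
    obtain ⟨ha1, ha2, ha3⟩ := hxa x (left_ne_zero_of_mul (right_ne_zero_of_mul hx))
    obtain ⟨hb1, hb2, hb3⟩ := hxb x (right_ne_zero_of_mul (right_ne_zero_of_mul hx))
    refine ⟨(hG2 x hx0).1, (hG2 x hx0).2, ?_⟩
    have h2 : Aa * Ab * B = A * (Ba * Bb) := by
      apply map_inj
      have e1 := hF.2.2
      have e2 := hFa.2.2
      have e3 := hFb.2.2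
      simp only [Formula.eval] at e1
      simp only [map_mul, ← e1, ← e2, ← e3]
      ring
    have h3 := congrArg (eval x) h2
    simp only [map_mul, ← ha3, ← hb3] at h3
    have h4 : (value x a * value x b) * eval x B * (eval x Ba * eval x Bb) =
        eval x A * (eval x Ba * eval x Bb) := by
      rw [← h3]
      ring
    exact mul_right_cancel₀ (mul_ne_zero ha1 hb1) h4
  | div a b iha ihb =>
    intro hM
    have hM' : a.size + b.size ≤ M := hM
    obtain ⟨Ga, Aa, Ba, hGa, hFa, hxa⟩ := iha (by omega)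
    obtain ⟨Gb, Ab, Bb, hGb, hFb, hxb⟩ := ihb (by omega)
    obtain ⟨A, B, hF⟩ := H _ hM
    obtain ⟨G₀, hG, hG2⟩ := h1 A B _ hF
    refine ⟨G₀ * (Ga * Gb), A, B, fun h => ?_, hF, fun x hx => ?_⟩
    · rcases hP.dvd_or_dvd h with h | h
      · exact hG h
      · rcases hP.dvd_or_dvd h with h | h
        · exact hGa h
        · exact hGb h
    rw [map_mul, map_mul] at hx
    have hx0 := left_ne_zero_of_mul hx
    obtain ⟨ha1, ha2, ha3⟩ := hxa x (left_ne_zero_of_mul (right_ne_zero_of_mul hx))
    obtain ⟨hb1, hb2, hb3⟩ := hxb x (right_ne_zero_of_mul (right_ne_zero_of_mul hx))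
    refine ⟨(hG2 x hx0).1, (hG2 x hx0).2, ?_⟩
    have e1 := hF.2.2
    have e2 := hFa.2.2
    have e3 := hFb.2.2
    simp only [Formula.eval] at e1
    show value x a / value x b * eval x B = eval x A
    by_cases hb0 : b.eval = 0
    · have hAb : Ab = 0 := map_inj (by rw [← e3, hb0, zero_mul, map_zero])
      have hA0 : A = 0 := map_inj (by rw [← e1, hb0, div_zero, zero_mul, map_zero])
      have hvb : value x b = 0 := by
        rw [hAb, map_zero] at hb3
        exact (mul_eq_zero.1 hb3).resolve_right hb1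
      rw [hA0, hvb, div_zero, zero_mul, map_zero]
    · have hAb : Ab ≠ 0 := by
        rintro rfl
        rw [map_zero] at e3
        exact (mul_ne_zero hb0 (hne hFb.1)) e3
      have hAbx : eval x Ab ≠ 0 := hb2.resolve_left hAb
      have hvb : value x b ≠ 0 := by
        intro h0
        rw [h0, zero_mul] at hb3
        exact hAbx hb3.symm
      have h2 : Aa * Bb * B = A * (Ab * Ba) := by
        apply map_inj
        simp only [map_mul, ← e1, ← e2, ← e3]
        field_simp
      have h3 := congrArg (eval x) h2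
      simp only [map_mul, ← ha3, ← hb3] at h3
      have h4 : (value x a / value x b) * eval x B * (value x b * eval x Bb * eval x Ba) =
          eval x A * (value x b * eval x Bb * eval x Ba) := by
        rw [← h3]
        field_simp
      exact mul_right_cancel₀ (mul_ne_zero (mul_ne_zero hvb hb1) ha1) h4

end

end Pool.FV
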